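import Pool.Agent.Prm3.Fin

/-!
# Scheme counts are approximated by counts of the hypersurfaces of the primitive graphs of `φ³` theory
-/

set_option autoImplicit false

open scoped BigOperators

namespace Pool.Agent.Prm3

open Pool.Agent.KG Pool.Agent.P3 Pool.Agent.KGU Pool.Agent.HGC Pool.Agent.HGM Pool.Agent.GPM Pool.Agent.PLN
  Pool.Agent.PL3

theorem prim_of_reg3 {f : FinField → ℤ} (hf : f ∈ Reg3S) : Sp (PrS false) f := by
  obtain ⟨m, hm⟩ := reg3_cg hf
  exact Sp.mono (fun g hg => cg_prim false hg) (cg_all false m hm)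

theorem prim_of_preg3 {f : FinField → ℤ} (hf : f ∈ PReg3S) : Sp (PrS true) f := by
  obtain ⟨m, hm⟩ := preg3_cg hf
  exact Sp.mono (fun g hg => cg_prim true hg) (cg_all true m hm)

theorem bd_prim {b : Bool} (G : PrimCubic b) : Bd G.count := bd_of_le _ fun K _ _ => NS_le G.s G.t K

theorem prim_toPF {b : Bool} (G : PrimCubic b) (p : Nat.Primes) (r : ℕ) : G.count p r = toPF (ns G.s G.t) p r := by
  simp only [toPF, PrimCubic.count, countPF, ns]
  push_cast
  rfl

/-- The functions of the primitive graphs. -/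
theorem hg_prim (n m : ℕ) (P : Fin m → MvPolynomial (Fin n) ℤ) :
    InB (fun G : PrimCubic false => G.count) (countPF (affCount P)) := by
  refine (inB_of_sp (g := fun G : PrimCubic false => G.count) (fun G => bd_prim G) ?_
    (Sp.mono (fun g hg => prim_of_reg3 hg) (reg_of_phi4 (aff_phi4 P)))).congr fun p r _ => toPF_aff P p r
  rintro f ⟨G, rfl⟩
  exact ⟨G, fun p r _ => prim_toPF G p r⟩

/-- The functions of the planar primitive graphs. -/
theorem hg_prim' (n m : ℕ) (P : Fin m → MvPolynomial (Fin n) ℤ) :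
    InB (fam fun G : PrimCubic true => G.count) (tr (countPF (affCount P))) := by
  refine InB.congr (fun p r _ => ?_) (inB_of_sp' (g := fun G : PrimCubic true => G.count)
    (fun G => bd_prim G) ?_ (aff_phi4 P))
  · by_cases hp : p ∈ Bad
    · rw [tr_bad _ hp, tr_bad _ hp]
    · rw [tr_good _ hp, tr_good _ hp]
      exact toPF_aff P p r
  · rintro f ⟨n, m, s, t, -, rfl⟩
    refine InB.congr (fun p r _ => tr_toPF (ns s t) p r) (inB_of_spF (fun G => bd_prim G) ?_ (ns_planar s t))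
    rintro f ⟨G, rfl⟩
    refine InB.congr (fun p r _ => (tr_toPF (nk G.s G.t) p r).symm) (inB_of_sp' (fun G => bd_prim G) ?_
      (Sp.mono (fun g hg => prim_of_preg3 hg) (planar_ns G)))
    rintro f ⟨G', rfl⟩
    refine (InB.base (g := fam fun G : PrimCubic true => G.count) (some G')).congr fun p r _ => ?_
    show tr G'.count p r = _
    by_cases hp : p ∈ Bad
    · rw [tr_bad _ hp, tr_bad _ hp]
    · rw [tr_good _ hp, tr_good _ hp]
      exact prim_toPF G' p r

/-- Both families at once. -/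
theorem family_prim (b : Bool) (t : ℕ) (X : Fin t → Datum) (a : Fin t → ℤ) (e : Fin t → ℕ) :
    ∃ (K N : ℕ) (G : Fin N → PrimCubic b) (c : Fin N → ℤ) (d : Fin N → ℕ) (κ : ℤ → ℤ),
      (∀ i, Odd i → κ i = 0) ∧
      ∀ (μ : Nat.Primes → ℂ →₀ ℤ) (ν : Fin N → Nat.Primes → ℂ →₀ ℤ),
        IsSpectrum (fun p r => ∑ j, (a j : ℂ) * (((p : ℕ) : ℂ) ^ r) ^ e j * (X j).count p r) μ →
        (∀ k, IsSpectrum (G k).count (ν k)) →
        (∀ w : ℤ, 0 ≤ w → ∀ p : Nat.Primes, (b = true → (p : ℕ) ≠ 2 ∧ (p : ℕ) ≠ 3) → ∀ r : ℕ, 1 ≤ r →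
          (((p : ℕ) : ℂ) ^ r) ^ K * weightPart μ w p r =
            (κ w : ℂ) * ((((p : ℕ) : ℂ) ^ r) ^ K * (((p : ℕ) : ℂ) ^ (w / 2)) ^ r) +
            ∑ k, (c k : ℂ) * ((((p : ℕ) : ℂ) ^ r) ^ d k *
              weightPart (ν k) (w + 2 * K - 2 * d k) p r)) ∧
        ∀ (S : Set Nat.Primes) (φ : PF), S.Finite →
          Continues (fun p r => open Classical in if p ∈ S then φ p r else 0) →
          (∀ k w, Continues (lfun S (fun _ _ => 0) (ν k) w 0)) →
          ∀ i m : ℤ, 0 ≤ i → Continues (lfun S φ μ i m) := by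
  cases b with
  | false =>
    obtain ⟨K, N, G, c, d, κ, h1, h2⟩ := family_main hg_prim t X a e
    exact ⟨K, N, G, c, d, κ, h1, fun μ ν hμ hν => ⟨fun w hw p _ r hr => (h2 μ ν hμ hν).1 w hw p r hr,
      (h2 μ ν hμ hν).2⟩⟩
  | true =>
    obtain ⟨K, N, G, c, d, κ, h1, h2⟩ := family_main' hg_prim' t X a e
    exact ⟨K, N, G, c, d, κ, h1, fun μ ν hμ hν =>
      ⟨fun w hw p hp r hr => (h2 μ ν hμ hν).1 w hw p (hp rfl).1 (hp rfl).2 r hr, (h2 μ ν hμ hν).2⟩⟩

end Pool.Agent.Prm3
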