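import Pool.Agent.Prm3.Row

/-!
# The operation `el = (1 - σ) A B`
-/

set_option autoImplicit false

open scoped BigOperators

namespace Pool.Agent.Prm3

open Pool.Agent.KG Pool.Agent.P3 Pool.Agent.PL3

variable {K : Type} [Field K] [Fintype K]

private theorem LNE_Rb_add (X Y : Set (Pt K) → ℤ) : Rb (fun B => X B + Y B) = fun B => Rb X B + Rb Y B := by
  funext B
  exact R_add (ro (ro (ro X))) (ro (ro (ro Y))) (pm (finRotate 4) B)

private theorem LNE_Rb_smul (c : ℤ) (X : Set (Pt K) → ℤ) : Rb (fun B => c * X B) = fun B => c * Rb X B := by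
  funext B
  exact R_smul c (ro (ro (ro X))) (pm (finRotate 4) B)

private theorem LNE_Rb_sum {ι : Type} (u : Finset ι) (X : ι → Set (Pt K) → ℤ) :
    Rb (fun B => ∑ i ∈ u, X i B) = fun B => ∑ i ∈ u, Rb (X i) B := by
  funext B
  exact R_sum u (fun i => ro (ro (ro (X i)))) (pm (finRotate 4) B)

/-- The operation `Y ↦ R Y - R (sg Y)`. -/
private noncomputable def LNE_d (Y : Set (Pt K) → ℤ) (B : Set (Pt K)) : ℤ := R Y B - R (sg Y) B

private theorem LNE_d_add (X Y : Set (Pt K) → ℤ) (B : Set (Pt K)) :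
    LNE_d (fun B => X B + Y B) B = LNE_d X B + LNE_d Y B := by
  unfold LNE_d
  rw [R_add]
  have h : sg (fun B => X B + Y B) = fun B => sg X B + sg Y B := rfl
  rw [h, R_add]
  ring

private theorem LNE_d_smul (c : ℤ) (X : Set (Pt K) → ℤ) (B : Set (Pt K)) :
    LNE_d (fun B => c * X B) B = c * LNE_d X B := by
  unfold LNE_d
  rw [R_smul]
  have h : sg (fun B => c * X B) = fun B => c * sg X B := rfl
  rw [h, R_smul]
  ring

private theorem LNE_d_sum {ι : Type} (u : Finset ι) (X : ι → Set (Pt K) → ℤ) (B : Set (Pt K)) :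
    LNE_d (fun B => ∑ i ∈ u, X i B) B = ∑ i ∈ u, LNE_d (X i) B := by
  unfold LNE_d
  rw [R_sum]
  have h : sg (fun B => ∑ i ∈ u, X i B) = fun B => ∑ i ∈ u, sg (X i) B := rfl
  rw [h, R_sum, Finset.sum_sub_distrib]

private theorem LNE_d_of_sg (X : Set (Pt K) → ℤ) (h : ∀ B, sg X B = X B) (B : Set (Pt K)) :
    LNE_d X B = 0 := by
  have h1 : sg X = X := funext h
  unfold LNE_d
  rw [h1, sub_self]

private theorem LNE_el_d (X : Set (Pt K) → ℤ) (B : Set (Pt K)) : el X B = LNE_d (Rb X) B := by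
  unfold el LNE_d
  rw [R_sg]

/-- MODULE LNE (1).  `R_add`, and `ro`, `sg` are additive by definition. -/
theorem el_add (X Y : Set (Pt K) → ℤ) (B : Set (Pt K)) : el (fun B => X B + Y B) B = el X B + el Y B := by
  rw [LNE_el_d, LNE_el_d, LNE_el_d, LNE_Rb_add, LNE_d_add]

/-- MODULE LNE (2). -/
theorem el_smul (c : ℤ) (X : Set (Pt K) → ℤ) (B : Set (Pt K)) : el (fun B => c * X B) B = c * el X B := by
  rw [LNE_el_d, LNE_el_d, LNE_Rb_smul, LNE_d_smul]

/-- MODULE LNE (3). -/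
theorem el_sum {ι : Type} (u : Finset ι) (X : ι → Set (Pt K) → ℤ) (B : Set (Pt K)) :
    el (fun B => ∑ i ∈ u, X i B) B = ∑ i ∈ u, el (X i) B := by
  rw [LNE_el_d, LNE_Rb_sum, LNE_d_sum]
  exact Finset.sum_congr rfl fun i _ => (LNE_el_d (X i) B).symm

/-- MODULE LNE (4).  `sg (R Y) = R (sg Y)` (`R_sg`) for `Y = Rb X`. -/
theorem el_of_sg (X : Set (Pt K) → ℤ) (h : ∀ B, sg (Rb X) B = Rb X B) (B : Set (Pt K)) : el X B = 0 := by
  rw [LNE_el_d, LNE_d_of_sg _ h]

/-- MODULE LNE (5). -/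
theorem el_eq (X : Set (Pt K) → ℤ) (B : Set (Pt K)) : el X B = R (Rb X) B - R (sg (Rb X)) B := LNE_el_d X B

/-- `Rb (E j) = ro (R (E (shifted j)))`. -/
private theorem ELE_Rb (a b c d : K) (B : Set (Pt K)) :
    Rb (E ![a, b, c, d]) B = R (E ![b, c, d, a]) (pm (finRotate 4) B) := by
  have h1 : ro (E ![a, b, c, d]) = E ![d, a, b, c] := funext (ro_E a b c d)
  have h2 : ro (E ![d, a, b, c]) = E ![c, d, a, b] := funext (ro_E d a b c)
  have h3 : ro (E ![c, d, a, b]) = E ![b, c, d, a] := funext (ro_E c d a b)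
  unfold Rb
  rw [h1, h2, h3]
  rfl

private theorem ELE_mt : (P3.mt 0 0 : Matrix (Fin 4) (Fin 4) K) = 0 := by
  ext i j
  fin_cases i <;> fin_cases j <;> simp [P3.mt]

private theorem ELE_gv (y0 y1 : K) : gv (0 : Matrix (Fin 4) (Fin 4) K) y0 y1 = ![y0, -y1, 0, 0] := by
  rw [← ELE_mt, gv_mt, neg_zero]

/-- The generic case. -/
private theorem ELE_R1 (d a : K) (hd : d ≠ 0) (ha : a ≠ 0) (hda : d ≠ a) (B : Set (Pt K)) :
    R (G ![d, 0, 0, a] 0) B = qK K * PI B := by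
  have h0 : ((![d, 0, 0, a] : Fin 4 → K) 0 - (![d, 0, 0, a] : Fin 4 → K) 1) ≠ 0 := by
    simpa using hd
  rw [R_G _ _ (Matrix.isSymm_zero) h0 B]
  have h3 := lin2 (fun α β => cf α β B) 0 (d⁻¹ * a) (d⁻¹ * a) (-(d * a)) 0 0
    (d⁻¹ * (d - a)) 0 (Or.inl (by
      have h4 : d⁻¹ * a * (d⁻¹ * (d - a)) - d⁻¹ * a * 0 = d⁻¹ * a * (d⁻¹ * (d - a)) := by
        ring
      rw [h4]
      exact mul_ne_zero (mul_ne_zero (inv_ne_zero hd) ha)
        (mul_ne_zero (inv_ne_zero hd) (sub_ne_zero.2 hda))))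
  unfold PI
  rw [← h3]
  refine Finset.sum_congr rfl fun y0 _ => Finset.sum_congr rfl fun y1 _ =>
    Finset.sum_congr rfl fun s _ => ?_
  rw [ELE_gv]
  refine congrArg₂ (fun a b : K => cf a b B) ?_ ?_
  · show al 0 - (d - 0)⁻¹ * ((y0 - -y1) * (0 - a) + (d - 0) * (0 - 0)) + s * ((d - 0) * (0 - a)) = _
    have h5 : al (0 : Matrix (Fin 4) (Fin 4) K) = 0 := by simp [al]
    rw [h5, sub_zero d]
    ring
  · show be 0 - (d - 0)⁻¹ * ((y0 - 0) * (0 - 0) + (d - a) * (-y1 - 0)) + s * ((d - a) * (0 - 0)) = _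
    have h5 : be (0 : Matrix (Fin 4) (Fin 4) K) = 0 := by simp [be]
    rw [h5, sub_zero d]
    ring

private theorem ELE_R2 (a : K) (ha : a ≠ 0) (B : Set (Pt K)) :
    R (G ![a, 0, 0, a] 0) B = qK K ^ 2 * H3 B := by
  have h1 : G (![a, 0, 0, a] : Fin 4 → K) 0 = B3 0 := by
    funext B
    unfold B3
    rw [ELE_mt]
    exact G_smul a ha ![1, 0, 0, 1] ![a, 0, 0, a] (fun k => by fin_cases k <;> simp) 0 B
  rw [h1, R_B3]
  rfl

private theorem ELE_R3 (a : K) (ha : a ≠ 0) (B : Set (Pt K)) :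
    R (G ![a, 0, 0, 0] 0) B = qK K ^ 2 * H1 B := by
  have h1 : G (![a, 0, 0, 0] : Fin 4 → K) 0 = g0 := by
    funext B
    exact G_smul a ha ![1, 0, 0, 0] ![a, 0, 0, 0] (fun k => by fin_cases k <;> simp) 0 B
  rw [h1, R_g0]

private theorem ELE_d_R (c : ℤ) (X Y : Set (Pt K) → ℤ) (hX : ∀ B, R X B = c * Y B)
    (hY : ∀ B, sg Y B = Y B) (B : Set (Pt K)) : LNE_d X B = 0 := by
  unfold LNE_d
  have h1 : R (sg X) B = sg (R X) B := R_sg X B
  rw [h1]
  have h2 : sg (R X) B = c * sg Y B := hX (pm sw B)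
  rw [h2, hX, hY, sub_self]

private theorem ELE_G (d a : K) (hd : d ≠ 0) (B : Set (Pt K)) : LNE_d (G ![d, 0, 0, a] 0) B = 0 := by
  by_cases ha : a = 0
  · subst ha
    exact ELE_d_R _ _ H1 (ELE_R3 d hd) sg_H1 B
  · by_cases hda : d = a
    · subst hda
      exact ELE_d_R _ _ H3 (ELE_R2 d hd) sg_H3 B
    · exact ELE_d_R _ _ PI (ELE_R1 d a hd ha hda) sg_PI B

private theorem ELE_g3 (B : Set (Pt K)) : LNE_d g3 B = dT B := by
  unfold LNE_d dT
  have h1 : sg (g3 : Set (Pt K) → ℤ) = g2 := by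
    funext B
    exact sg_G 0 0 0 1 B
  rw [h1]

private theorem ELE_smul_fun (c : ℤ) (X Y : Set (Pt K) → ℤ) (h : ∀ B, X B = c * Y B) (B : Set (Pt K)) :
    LNE_d X B = c * LNE_d Y B := by
  have h1 : X = fun B => c * Y B := funext h
  rw [h1, LNE_d_smul]

private theorem ELE_zero (B : Set (Pt K)) : el (E (0 : Fin 4 → K)) B = 0 := by
  have h1 : (E (0 : Fin 4 → K) : Set (Pt K) → ℤ) = fun B => 0 * E (0 : Fin 4 → K) B := by
    funext B
    rw [E_zero, mul_zero]
  rw [h1, el_smul, zero_mul]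

/-- MODULE ELE.

Proof.  Write `j = ![a, b, c, d]`.  `Rb (E j) = ro (R (E ![b, c, d, a]))` (`ro_E` three times).
(1) `d + a ≠ 0` or `b = c = 0`: `R_E` gives `q³ G ![0, 0, a, -d] 0`, and `ro`: `q³ G ![-d, 0, 0, a] 0`.  If `d ≠ 0`: if `a = 0` this is a multiple of
`g0`, `R g0 = q² H1`; if `a = - d` (then `b = c = 0`) it is `G ![a, 0, 0, a] 0 = B3 0`, `R (B3 0) = q² H3`; otherwise `P3.R_G` and
`P3.lin2` (as in `PL3.R_X12`): `q PI`.  In all cases `R (Rb (E j))` is invariant under `sg`, `el = 0`.  If `d = 0`, `a ≠ 0`: `q³ g3`, and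
`R g3 - sg (R g3) = R g3 - R g2 = dT` (`R_sg`, `sg_G`).
(2) `d = - a ≠ 0`, `(b, c) = (s, -s)`, `s ≠ 0`: `R_E_P` gives `q² ∑ p01`, `ro`: `q² B3s` (`ro_p01`), `R B3s = q² PI` (`PL3.R_B3s`): `el = 0`.
(3) `a = d = 0`, `j = ![0, s, -s, 0]`, `s ≠ 0`: `E_smul`, `R_Ev`: `Rb (E j) = q² (q - 1) E ![0, 1, -1, 0] + q (q - 1) J`; `R` of it is
`q² (q - 1) q³ g3 + q (q - 1) q³ E ![1, -1, 0, 0]` (`R_E`, `R_J`), and `1 - sg` gives `q⁵ (q - 1) e1` (`sg_E`, `E_smul` with `-1`). -/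
theorem el_E (j : Fin 4 → K) (h1 : ∑ k, j k = 0) (B : Set (Pt K)) :
    el (E j) B = open Classical in if j 3 ≠ 0 then 0 else if j 0 ≠ 0 then qK K ^ 3 * dT B else
      if j 1 ≠ 0 then qK K ^ 5 * (qK K - 1) * e1 B else 0 := by
  classical
  obtain ⟨a, b, c, d, rfl⟩ : ∃ a b c d : K, j = ![a, b, c, d] :=
    ⟨j 0, j 1, j 2, j 3, by funext k; fin_cases k <;> rfl⟩
  have hs : a + b + c + d = 0 := by
    rw [Fin.sum_univ_four] at h1
    exact h1
  change el (E ![a, b, c, d]) B = if d ≠ 0 then 0 else if a ≠ 0 then qK K ^ 3 * dT B else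
    if b ≠ 0 then qK K ^ 5 * (qK K - 1) * e1 B else 0
  rw [LNE_el_d]
  by_cases hc : d + a ≠ 0 ∨ (b = 0 ∧ c = 0)
  · have hRb : ∀ B : Set (Pt K), Rb (E ![a, b, c, d]) B = qK K ^ 3 * G ![-d, 0, 0, a] 0 B := by
      intro B
      rw [ELE_Rb, R_E ![b, c, d, a] (by rw [Fin.sum_univ_four]; show b + c + d + a = 0; linear_combination hs) hc]
      congr 1
      exact ro_G 0 0 a (-d) B
    rw [ELE_smul_fun _ _ _ hRb]
    by_cases hd : d = 0
    · subst hd
      rw [if_neg (fun h => h rfl), neg_zero]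
      by_cases ha : a = 0
      · subst ha
        have hbc : b = 0 := by
          rcases hc with h | h
          · exact absurd (add_zero 0) h
          · exact h.1
        rw [if_neg (fun h => h rfl), hbc, if_neg (fun h => h rfl)]
        have h2 : LNE_d (G (![0, 0, 0, 0] : Fin 4 → K) 0) B = 0 * LNE_d (G ![0, 0, 0, 0] 0) B := by
          refine ELE_smul_fun 0 _ _ (fun B => ?_) B
          rw [G_const _ ⟨0, fun k => by fin_cases k <;> rfl⟩, zero_mul]
        rw [h2, zero_mul, mul_zero]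
      · rw [if_pos ha]
        have h3 : G (![0, 0, 0, a] : Fin 4 → K) 0 = g3 := by
          funext B
          exact G_smul a ha ![0, 0, 0, 1] ![0, 0, 0, a] (fun k => by fin_cases k <;> simp) 0 B
        rw [h3, ELE_g3]
    · rw [if_pos hd, ELE_G (-d) a (neg_ne_zero.2 hd), mul_zero]
  · push Not at hc
    obtain ⟨hda, hbc⟩ := hc
    have hcb : c = -b := by linear_combination hs - hda
    have had : a = -d := by linear_combination hda
    have hb : b ≠ 0 := by
      intro h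
      exact hbc h (by rw [hcb, h, neg_zero])
    subst hcb had
    by_cases hd : d = 0
    · subst hd
      rw [if_neg (fun h => h rfl), neg_zero, if_neg (fun h => h rfl), if_pos hb]
      have hRb : Rb (E ![0, b, -b, 0]) = fun B : Set (Pt K) =>
          qK K ^ 2 * (qK K - 1) * E ![0, 1, -1, 0] B + qK K * (qK K - 1) * J B := by
        funext B
        have h2 : E (![b, -b, 0, 0] : Fin 4 → K) = E ![1, -1, 0, 0] := by
          funext B
          exact E_smul b hb ![1, -1, 0, 0] ![b, -b, 0, 0] (fun k => by fin_cases k <;> simp) B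
        rw [ELE_Rb, h2, R_Ev]
        have h3 : E (![1, -1, 0, 0] : Fin 4 → K) (pm (finRotate 4) B) = E ![0, 1, -1, 0] B :=
          ro_E 1 (-1) 0 0 B
        have h4 : J (pm (finRotate 4) B) = J B := ro_J B
        rw [h3, h4]
      rw [hRb, LNE_d_add (fun B => qK K ^ 2 * (qK K - 1) * E ![0, 1, -1, 0] B)
        (fun B => qK K * (qK K - 1) * J B), LNE_d_smul, LNE_d_smul,
        LNE_d_of_sg J sg_J, mul_zero, add_zero]
      have h3 : ∀ B : Set (Pt K), R (E (![0, 1, -1, 0] : Fin 4 → K)) B = qK K ^ 3 * g3 B := by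
        intro B
        rw [R_E ![0, 1, -1, 0] (by rw [Fin.sum_univ_four]; simp) (Or.inl (by simp))]
        unfold g3
        simp
      have h4 : LNE_d (E (![0, 1, -1, 0] : Fin 4 → K)) B = qK K ^ 3 * e1 B := by
        unfold LNE_d
        rw [R_sg]
        have h5 : sg (R (E (![0, 1, -1, 0] : Fin 4 → K))) B = qK K ^ 3 * sg g3 B := h3 (pm sw B)
        have h6 : sg (g3 : Set (Pt K) → ℤ) B = g2 B := sg_G 0 0 0 1 B
        rw [h5, h3, h6]
        unfold e1
        ring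
      rw [h4]
      ring
    · rw [if_pos hd]
      have hRb : ∀ B : Set (Pt K), Rb (E ![-d, b, -b, d]) B = qK K ^ 2 * B3s B := by
        intro B
        have h2 := R_E_P b d hb hd (pm (finRotate 4) B)
        rw [ELE_Rb, h2]
        congr 1
        unfold B3s
        refine Fintype.sum_equiv (Equiv.neg K) _ _ fun r => ?_
        exact ro_p01 r B
      rw [ELE_smul_fun _ _ _ hRb, ELE_d_R _ B3s PI R_B3s sg_PI, mul_zero]

/-- MODULE ELJ.  `Rb J = ro (R J) = q³ E ![0, 1, -1, 0]` (`R_J`, `ro_E`), `R_E`: `q⁶ G ![0, 0, 0, 1] 0`; `1 - sg`. -/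
theorem el_J (B : Set (Pt K)) : el J B = qK K ^ 6 * e1 B := by
  have h1 : ro (ro (ro (J : Set (Pt K) → ℤ))) = J := by
    have h : ro (J : Set (Pt K) → ℤ) = J := funext ro_J
    rw [h, h, h]
  have h2 : Rb (J : Set (Pt K) → ℤ) = fun B => qK K ^ 3 * E ![0, 1, -1, 0] B := by
    funext B
    unfold Rb
    rw [h1]
    have h3 : ro (R J) B = qK K ^ 3 * E ![1, -1, 0, 0] (pm (finRotate 4) B) := R_J (pm (finRotate 4) B)
    rw [h3]
    congr 1
    exact ro_E 1 (-1) 0 0 B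
  have h3 : ∀ B : Set (Pt K), R (E (![0, 1, -1, 0] : Fin 4 → K)) B = qK K ^ 3 * g3 B := by
    intro B
    rw [R_E ![0, 1, -1, 0] (by rw [Fin.sum_univ_four]; simp) (Or.inl (by simp))]
    unfold g3
    simp
  have h4 : LNE_d (E (![0, 1, -1, 0] : Fin 4 → K)) B = qK K ^ 3 * e1 B := by
    unfold LNE_d
    rw [R_sg]
    have h5 : sg (R (E (![0, 1, -1, 0] : Fin 4 → K))) B = qK K ^ 3 * sg g3 B := h3 (pm sw B)
    have h6 : sg (g3 : Set (Pt K) → ℤ) B = g2 B := sg_G 0 0 0 1 B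
    rw [h5, h3, h6]
    unfold e1
    ring
  rw [LNE_el_d, h2, LNE_d_smul, h4]
  ring

/-- MODULE ELG (1).  `Rb g3 = R g3` (`Rb_g3`), `sg (R (R g3)) = R (R g2)` (`R_sg` twice, `sg_G`). -/
theorem el_g3 (B : Set (Pt K)) : el g3 B = R dT B := by
  have h1 : Rb (g3 : Set (Pt K) → ℤ) = R g3 := funext Rb_g3
  have h2 : sg (R (g3 : Set (Pt K) → ℤ)) = R g2 := by
    funext B
    rw [← R_sg]
    have h3 : sg (g3 : Set (Pt K) → ℤ) = g2 := funext (sg_G 0 0 0 1)
    rw [h3]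
  have h4 : (dT : Set (Pt K) → ℤ) = fun B => R g3 B + (-1) * R g2 B := by
    funext B
    unfold dT
    ring
  rw [LNE_el_d, h1, h4, R_add (R g3) (fun B => (-1) * R g2 B), R_smul]
  unfold LNE_d
  rw [h2]
  ring

/-- MODULE ELG (2).  `R_Rb_g0`; `H1` and `Ps01` are invariant under `sg`. -/
theorem el_g0 (B : Set (Pt K)) : el g0 B = 0 := by
  unfold el
  have h1 : sg (R (Rb g0)) B = qK K ^ 4 * (qK K - 1) * sg H1 B + qK K ^ 3 * sg Ps01 B :=
    R_Rb_g0 (pm sw B)
  rw [h1, R_Rb_g0, sg_H1, sg_Ps01, sub_self]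

/-- MODULE ELG (3).

Proof.  `Rb (G ![0, 0, a, b] 0) = ro (R (G ![0, a, b, 0] 0))`.  If `b ≠ 0`, `b ≠ a`: `R (..) = q PI` (`P3.R_G`, `P3.lin2`, see `PL3.R_X12`); `b = 0`:
`q² H1` (`R_g1`, `G_smul`); `b = a`: `q² H3` (`PL3.R_B3`).  All are invariant under `sg` after `ro`; `el_of_sg`. -/
theorem el_G0 (a b : K) (ha : a ≠ 0) (B : Set (Pt K)) : el (G ![0, 0, a, b] 0) B = 0 := by
  have h1 : ro (G ![0, 0, a, b] 0) = G ![b, 0, 0, a] 0 := funext (ro_G 0 0 a b)
  have h2 : ro (G ![b, 0, 0, a] 0) = G ![a, b, 0, 0] 0 := funext (ro_G b 0 0 a)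
  have h3 : ro (G ![a, b, 0, 0] 0) = G ![0, a, b, 0] 0 := funext (ro_G a b 0 0)
  have h4 : Rb (G ![0, 0, a, b] 0) = ro (R (G ![0, a, b, 0] 0)) := by
    unfold Rb
    rw [h1, h2, h3]
  refine el_of_sg _ (fun B => ?_) B
  rw [h4]
  by_cases hb : b = 0
  · subst hb
    have h5 : G (![0, a, 0, 0] : Fin 4 → K) 0 = g1 := by
      funext B
      exact G_smul a ha ![0, 1, 0, 0] ![0, a, 0, 0] (fun k => by fin_cases k <;> simp) 0 B
    have h6 : ro (R (g1 : Set (Pt K) → ℤ)) = fun B => qK K ^ 2 * H3 B := by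
      funext B
      have h7 : ro (R (g1 : Set (Pt K) → ℤ)) B = qK K ^ 2 * ro H1 B := R_g1 (pm (finRotate 4) B)
      rw [h7, ro_H1]
    rw [h5, h6, sg_smul, sg_H3]
  · by_cases hab : b = a
    · subst hab
      have h5 : G (![0, b, b, 0] : Fin 4 → K) 0 = B3 0 := by
        funext B
        have h6 : G (![0, b, b, 0] : Fin 4 → K) 0 B = G ![0, -1, -1, 0] 0 B :=
          G_smul (-b) (neg_ne_zero.2 hb) ![0, -1, -1, 0] ![0, b, b, 0]
            (fun k => by fin_cases k <;> simp) 0 B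
        have h7 : G (![0, -1, -1, 0] : Fin 4 → K) 0 B = G ![1, 0, 0, 1] 0 B :=
          G_shift ![1, 0, 0, 1] ![0, -1, -1, 0] (-1) (fun k => by fin_cases k <;> simp) 0 0 0 0 0 0 0
            (fun k l => by simp) B
        unfold B3
        rw [ELE_mt, h6, h7]
      have h6 : ro (R (B3 0 : Set (Pt K) → ℤ)) = fun B => qK K ^ 2 * H1 B := by
        funext B
        have h7 : ro (R (B3 0 : Set (Pt K) → ℤ)) B = qK K ^ 2 * ro H3 B := R_B3 0 (pm (finRotate 4) B)
        rw [h7, ro_H3]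
      rw [h5, h6, sg_smul, sg_H1]
    · have h6 : ∀ B : Set (Pt K), R (G ![0, a, b, 0] 0) B = qK K * PI B := by
        intro B
        have h0 : ((![0, a, b, 0] : Fin 4 → K) 0 - (![0, a, b, 0] : Fin 4 → K) 1) ≠ 0 := by
          simpa using ha
        rw [R_G _ _ (Matrix.isSymm_zero) h0 B]
        have h3 := lin2 (fun α β => cf α β B) 0 (a⁻¹ * b) (a⁻¹ * b) (-(a * b)) 0 (a⁻¹ * (a - b)) 0
          0 (Or.inl (by
            have h4 : a⁻¹ * b * 0 - a⁻¹ * b * (a⁻¹ * (a - b)) = -(a⁻¹ * b * (a⁻¹ * (a - b))) := by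
              ring
            rw [h4]
            exact neg_ne_zero.2 (mul_ne_zero (mul_ne_zero (inv_ne_zero ha) hb)
              (mul_ne_zero (inv_ne_zero ha) (sub_ne_zero.2 fun h => hab h.symm)))))
        unfold PI
        rw [← h3]
        refine Finset.sum_congr rfl fun y0 _ => Finset.sum_congr rfl fun y1 _ =>
          Finset.sum_congr rfl fun s _ => ?_
        rw [ELE_gv]
        refine congrArg₂ (fun a b : K => cf a b B) ?_ ?_
        · show al 0 - (0 - a)⁻¹ * ((y0 - -y1) * (b - 0) + (0 - a) * (0 - 0)) +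
            s * ((0 - a) * (b - 0)) = _
          have h5 : al (0 : Matrix (Fin 4) (Fin 4) K) = 0 := by simp [al]
          rw [h5, zero_sub a, inv_neg]
          ring
        · show be 0 - (0 - a)⁻¹ * ((y0 - 0) * (a - b) + (0 - 0) * (-y1 - 0)) +
            s * ((0 - 0) * (a - b)) = _
          have h5 : be (0 : Matrix (Fin 4) (Fin 4) K) = 0 := by simp [be]
          rw [h5, zero_sub a, inv_neg]
          ring
      have h7 : ro (R (G ![0, a, b, 0] 0)) = fun B => qK K * PI B := by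
        funext B
        have h8 : ro (R (G ![0, a, b, 0] 0)) B = qK K * ro PI B := h6 (pm (finRotate 4) B)
        rw [h8, ro_PI]
      rw [h7, sg_smul, sg_PI]

/-- MODULE ELG (4).  `ro (ro (ro (p01 r))) = B3 (-r)`, `PL3.R_B3`: `q² ∑ α, cf α (-r)`; `ro_cf`, `sg_cf`; `el_of_sg`. -/
theorem el_p01 (r : K) (B : Set (Pt K)) : el (p01 r) B = 0 := by
  have h1 : ro (p01 r) = B3 (-r) := funext (ro_p01 r)
  have h2 : ro (B3 (-r)) = p01 r := by
    funext B
    rw [ro_B3, neg_neg]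
  have h4 : Rb (p01 r) = fun B => qK K ^ 2 * ∑ α : K, cf r (-α) B := by
    funext B
    unfold Rb
    rw [h1, h2, h1]
    have h5 : ro (R (B3 (-r))) B = qK K ^ 2 * ∑ α : K, ro (cf α (-r)) B :=
      R_B3 (-r) (pm (finRotate 4) B)
    rw [h5]
    congr 1
    refine Finset.sum_congr rfl fun α _ => ?_
    rw [ro_cf, neg_neg]
  refine el_of_sg _ (fun B => ?_) B
  rw [h4]
  have h5 : sg (fun B => qK K ^ 2 * ∑ α : K, cf r (-α) B) B =
    qK K ^ 2 * ∑ α : K, sg (cf r (-α)) B := rfl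
  rw [h5]
  congr 1
  exact Finset.sum_congr rfl fun α _ => sg_cf _ _ B

/-- MODULE ELR.

Proof.  (1) `j 2 + j 3 ≠ 0` or `j 0 = j 1 = 0`: `R_E`; if `j 3 ≠ 0`: `el_G0`; if `j 3 = 0`, `j 2 ≠ 0`: `G ![0, 0, 0, - j 2] 0 = g3`, `el_g3`; if `j 2 =
j 3 = 0`, then `j = 0`.  (2) `j = ![s, -s, u, -u]`, `s`, `u ≠ 0`: `R_E_P`, `el_p01`.  (3) `j = ![s, -s, 0, 0]`, `s ≠ 0`: `E_smul`, `R_Ev`, `el_E`, `el_J`:
`q² (q - 1) q³ dT + q (q - 1) q⁶ e1 = q³ R dT` (`R_dT`). -/
theorem el_RE (j : Fin 4 → K) (h1 : ∑ k, j k = 0) (B : Set (Pt K)) :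
    el (R (E j)) B = open Classical in if j = 0 then 0 else if j 3 ≠ 0 then 0 else qK K ^ 3 * R dT B := by
  classical
  obtain ⟨a, b, c, d, rfl⟩ : ∃ a b c d : K, j = ![a, b, c, d] :=
    ⟨j 0, j 1, j 2, j 3, by funext k; fin_cases k <;> rfl⟩
  have hs : a + b + c + d = 0 := by
    rw [Fin.sum_univ_four] at h1
    exact h1
  have hv : (![a, b, c, d] : Fin 4 → K) = 0 ↔ a = 0 ∧ b = 0 ∧ c = 0 ∧ d = 0 := by
    constructor
    · intro h
      exact ⟨congrFun h 0, congrFun h 1, congrFun h 2, congrFun h 3⟩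
    · rintro ⟨rfl, rfl, rfl, rfl⟩
      funext k
      fin_cases k <;> rfl
  change el (R (E ![a, b, c, d])) B = if ![a, b, c, d] = 0 then 0 else if d ≠ 0 then 0 else
    qK K ^ 3 * R dT B
  by_cases h0 : (![a, b, c, d] : Fin 4 → K) = 0
  · rw [if_pos h0, h0]
    have h2 : R (E (0 : Fin 4 → K)) = fun B => (0 : ℤ) * E (0 : Fin 4 → K) B := by
      funext B
      rw [zero_mul]
      unfold R
      exact Finset.sum_eq_zero fun a _ => Finset.sum_eq_zero fun b _ => Finset.sum_eq_zero fun x _ =>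
        E_zero _
    rw [h2, el_smul, zero_mul]
  rw [if_neg h0]
  by_cases hc : c + d ≠ 0 ∨ (a = 0 ∧ b = 0)
  · have h2 : R (E ![a, b, c, d]) = fun B => qK K ^ 3 * G ![0, 0, d, -c] 0 B := by
      funext B
      exact R_E ![a, b, c, d] h1 hc B
    rw [h2, el_smul]
    by_cases hd : d = 0
    · subst hd
      have hc0 : c ≠ 0 := by
        intro hc0
        apply h0
        rw [hv]
        rcases hc with h | h
        · exact absurd (by rw [hc0, add_zero]) h
        · exact ⟨h.1, h.2, hc0, rfl⟩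
      have h3 : G (![0, 0, 0, -c] : Fin 4 → K) 0 = g3 := by
        funext B
        exact G_smul (-c) (neg_ne_zero.2 hc0) ![0, 0, 0, 1] ![0, 0, 0, -c]
          (fun k => by fin_cases k <;> simp) 0 B
      rw [if_neg (fun h => h rfl), h3, el_g3]
    · rw [if_pos hd, el_G0 d (-c) hd, mul_zero]
  · push Not at hc
    obtain ⟨hcd, hab⟩ := hc
    have hba : b = -a := by linear_combination hs - hcd
    have hdc : d = -c := by linear_combination hcd
    subst hba hdc
    have ha : a ≠ 0 := fun h => hab h (by rw [h, neg_zero])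
    by_cases hc0 : c = 0
    · subst hc0
      rw [if_neg (fun h => h neg_zero), neg_zero]
      have h2 : E (![a, -a, 0, 0] : Fin 4 → K) = E ![1, -1, 0, 0] := by
        funext B
        exact E_smul a ha ![1, -1, 0, 0] ![a, -a, 0, 0] (fun k => by fin_cases k <;> simp) B
      have h3 : R (E (![1, -1, 0, 0] : Fin 4 → K)) = fun B =>
          qK K ^ 2 * (qK K - 1) * E ![1, -1, 0, 0] B + qK K * (qK K - 1) * J B := funext R_Ev
      have h4 := el_E (![1, -1, 0, 0] : Fin 4 → K) (by rw [Fin.sum_univ_four]; simp) B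
      have h5 : el (E (![1, -1, 0, 0] : Fin 4 → K)) B = qK K ^ 3 * dT B := by
        rw [h4]
        simp
      rw [h2, h3, el_add (fun B => qK K ^ 2 * (qK K - 1) * E ![1, -1, 0, 0] B)
        (fun B => qK K * (qK K - 1) * J B), el_smul, el_smul, h5, el_J, R_dT]
      ring
    · rw [if_pos (neg_ne_zero.2 hc0)]
      have h2 : R (E ![a, -a, c, -c]) = fun B => qK K ^ 2 * ∑ r : K, p01 r B :=
        funext (R_E_P a c ha hc0)
      rw [h2, el_smul, el_sum Finset.univ (fun r : K => p01 r), Finset.sum_eq_zero, mul_zero]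
      intro r _
      exact el_p01 r B

open Classical in
/-- An indicator. -/
private noncomputable def CTA_d (x y : K) : ℤ := if x = y then 1 else 0

private theorem CTA_s (c : K) : ∑ x : K, CTA_d x c = 1 := by
  classical
  unfold CTA_d
  rw [Finset.sum_ite_eq', if_pos (Finset.mem_univ _)]

private theorem CTA_one (A : ℤ) (c : K) : ∑ x : K, (1 - CTA_d x c) * A = (qK K - 1) * A := by
  rw [← Finset.sum_mul, Finset.sum_sub_distrib, CTA_s, const_sum, mul_one]

private theorem CTA_del (A : ℤ) (c : K) : ∑ x : K, CTA_d x c * A = A := by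
  rw [← Finset.sum_mul, CTA_s, one_mul]

private theorem CTA_pos {x y : K} (h : x = y) : CTA_d x y = 1 := if_pos h

private theorem CTA_neg {x y : K} (h : x ≠ y) : CTA_d x y = 0 := if_neg h

/-- The count. -/
private theorem CTA_cnt (U V W : ℤ) : ∑ a : K, ∑ b : K, ∑ y0 : K, ∑ y1 : K,
    (CTA_d a 0 * ((1 - CTA_d b 0) * ((1 - CTA_d y1 0) * U + CTA_d y1 0 * ((1 - CTA_d y0 0) * V))) +
      (1 - CTA_d a 0) * ((1 - CTA_d b a) * (CTA_d y1 (-y0) * ((1 - CTA_d y0 0) * W)))) =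
      (qK K - 1) * (qK K * ((qK K - 1) * U) + (qK K - 1) * V) + (qK K - 1) * ((qK K - 1) * ((qK K - 1) * W)) := by
  have e1 : ∀ a b y0 : K, ∑ y1 : K,
      (CTA_d a 0 * ((1 - CTA_d b 0) * ((1 - CTA_d y1 0) * U + CTA_d y1 0 * ((1 - CTA_d y0 0) * V))) +
      (1 - CTA_d a 0) * ((1 - CTA_d b a) * (CTA_d y1 (-y0) * ((1 - CTA_d y0 0) * W)))) =
      CTA_d a 0 * ((1 - CTA_d b 0) * ((qK K - 1) * U + (1 - CTA_d y0 0) * V)) +
      (1 - CTA_d a 0) * ((1 - CTA_d b a) * ((1 - CTA_d y0 0) * W)) := by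
    intro a b y0
    rw [Finset.sum_add_distrib, ← Finset.mul_sum, ← Finset.mul_sum, ← Finset.mul_sum,
      ← Finset.mul_sum, Finset.sum_add_distrib, CTA_one, CTA_del, CTA_del]
  have e2 : ∀ a b : K, ∑ y0 : K,
      (CTA_d a 0 * ((1 - CTA_d b 0) * ((qK K - 1) * U + (1 - CTA_d y0 0) * V)) +
      (1 - CTA_d a 0) * ((1 - CTA_d b a) * ((1 - CTA_d y0 0) * W))) =
      CTA_d a 0 * ((1 - CTA_d b 0) * (qK K * ((qK K - 1) * U) + (qK K - 1) * V)) +
      (1 - CTA_d a 0) * ((1 - CTA_d b a) * ((qK K - 1) * W)) := by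
    intro a b
    rw [Finset.sum_add_distrib, ← Finset.mul_sum, ← Finset.mul_sum, ← Finset.mul_sum,
      ← Finset.mul_sum, Finset.sum_add_distrib, CTA_one, CTA_one, const_sum]
  have e3 : ∀ a : K, ∑ b : K,
      (CTA_d a 0 * ((1 - CTA_d b 0) * (qK K * ((qK K - 1) * U) + (qK K - 1) * V)) +
      (1 - CTA_d a 0) * ((1 - CTA_d b a) * ((qK K - 1) * W))) =
      CTA_d a 0 * ((qK K - 1) * (qK K * ((qK K - 1) * U) + (qK K - 1) * V)) +
      (1 - CTA_d a 0) * ((qK K - 1) * ((qK K - 1) * W)) := by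
    intro a
    rw [Finset.sum_add_distrib, ← Finset.mul_sum, ← Finset.mul_sum, CTA_one, CTA_one]
  rw [Finset.sum_congr rfl fun a _ => Finset.sum_congr rfl fun b _ => Finset.sum_congr rfl
    fun y0 _ => e1 a b y0, Finset.sum_congr rfl fun a _ => Finset.sum_congr rfl fun b _ => e2 a b,
    Finset.sum_congr rfl fun a _ => e3 a, Finset.sum_add_distrib, CTA_del, CTA_one]

open Classical in
/-- MODULE CTA (1).

Proof.  `a = 0`, `b ≠ 0`: `q (q - 1)²` terms `X` (`y1 ≠ 0`), `(q - 1)²` terms `Y` (`y1 = 0`, `y0 ≠ 0`).  `a ≠ 0`, `y1 = - y0`, `b ≠ a`, `y0 ≠ 0`: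
`(q - 1)³` terms `X`. -/
theorem cntA (X Y : ℤ) : ∑ a : K, ∑ b : K, ∑ y0 : K, ∑ y1 : K,
    (if -(a * (y0 + y1)) ≠ 0 then 0 else if (a - b) * y1 ≠ 0 then X else if (a - b) * y0 ≠ 0 then Y else 0) =
      (qK K - 1) ^ 2 * (2 * qK K - 1) * X + (qK K - 1) ^ 2 * Y := by
  have h : ∀ a b y0 y1 : K,
      (if -(a * (y0 + y1)) ≠ 0 then 0 else if (a - b) * y1 ≠ 0 then X else
        if (a - b) * y0 ≠ 0 then Y else 0) =
      (CTA_d a 0 * ((1 - CTA_d b 0) * ((1 - CTA_d y1 0) * X + CTA_d y1 0 * ((1 - CTA_d y0 0) * Y))) +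
      (1 - CTA_d a 0) * ((1 - CTA_d b a) * (CTA_d y1 (-y0) * ((1 - CTA_d y0 0) * X)))) := by
    intro a b y0 y1
    by_cases ha : a = 0
    · subst ha
      rw [zero_mul, neg_zero, if_neg (fun h => h rfl), CTA_pos (rfl : (0 : K) = 0), zero_sub]
      by_cases hb : b = 0
      · subst hb
        rw [neg_zero, zero_mul, if_neg (fun h => h rfl), zero_mul, if_neg (fun h => h rfl),
          CTA_pos (rfl : (0 : K) = 0)]
        ring
      · rw [CTA_neg hb]
        by_cases h1 : y1 = 0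
        · subst h1
          rw [mul_zero, if_neg (fun h => h rfl), CTA_pos (rfl : (0 : K) = 0)]
          by_cases h0 : y0 = 0
          · subst h0
            rw [mul_zero, if_neg (fun h => h rfl), CTA_pos (rfl : (0 : K) = 0)]
            ring
          · rw [if_pos (mul_ne_zero (neg_ne_zero.2 hb) h0), CTA_neg h0]
            ring
        · rw [if_pos (mul_ne_zero (neg_ne_zero.2 hb) h1), CTA_neg h1]
          ring
    · rw [CTA_neg ha]
      by_cases hy : y1 = -y0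
      · subst hy
        rw [add_neg_cancel, mul_zero, neg_zero, if_neg (fun h => h rfl),
          CTA_pos (rfl : -y0 = -y0)]
        by_cases hb : b = a
        · subst hb
          rw [sub_self, zero_mul, if_neg (fun h => h rfl), zero_mul, if_neg (fun h => h rfl),
            CTA_pos (rfl : b = b)]
          ring
        · rw [CTA_neg hb]
          have hab : a - b ≠ 0 := sub_ne_zero.2 fun h => hb h.symm
          by_cases h0 : y0 = 0
          · subst h0
            rw [neg_zero, mul_zero, if_neg (fun h => h rfl), if_neg (fun h => h rfl),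
              CTA_pos (rfl : (0 : K) = 0)]
            ring
          · rw [if_pos (mul_ne_zero hab (neg_ne_zero.2 h0)), CTA_neg h0]
            ring
      · have hy' : y0 + y1 ≠ 0 := fun h => hy (by linear_combination h)
        rw [if_pos (neg_ne_zero.2 (mul_ne_zero ha hy')), CTA_neg hy]
        ring
  rw [Finset.sum_congr rfl fun a _ => Finset.sum_congr rfl fun b _ => Finset.sum_congr rfl
    fun y0 _ => Finset.sum_congr rfl fun y1 _ => h a b y0 y1, CTA_cnt]
  ring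

open Classical in
/-- MODULE CTA (2).

Proof.  `j ≠ 0`, `j 3 = 0`: `a = 0`, `b ≠ 0`, `(y0, y1) ≠ 0`: `(q - 1) (q² - 1)`; `a ≠ 0`, `y1 = - y0`, `b ≠ a`, `y0 ≠ 0`: `(q - 1)³`.  Together
`(q - 1)² (q + 1 + q - 1)`. -/
theorem cntB (X : ℤ) : ∑ a : K, ∑ b : K, ∑ y0 : K, ∑ y1 : K,
    (if (![(a - b) * y1, (a - b) * y0, b * (y0 + y1), -(a * (y0 + y1))] : Fin 4 → K) = 0 then 0 else
      if -(a * (y0 + y1)) ≠ 0 then 0 else X) = 2 * qK K * (qK K - 1) ^ 2 * X := by
  have hv : ∀ a b y0 y1 : K,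
      (![(a - b) * y1, (a - b) * y0, b * (y0 + y1), -(a * (y0 + y1))] : Fin 4 → K) = 0 ↔
      (a - b) * y1 = 0 ∧ (a - b) * y0 = 0 ∧ b * (y0 + y1) = 0 ∧ -(a * (y0 + y1)) = 0 := by
    intro a b y0 y1
    constructor
    · intro h
      exact ⟨congrFun h 0, congrFun h 1, congrFun h 2, congrFun h 3⟩
    · rintro ⟨h1, h2, h3, h4⟩
      rw [h1, h2, h3, h4]
      funext k
      fin_cases k <;> rfl
  have h : ∀ a b y0 y1 : K,
      (if (![(a - b) * y1, (a - b) * y0, b * (y0 + y1), -(a * (y0 + y1))] : Fin 4 → K) = 0 then 0 else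
        if -(a * (y0 + y1)) ≠ 0 then 0 else X) =
      (CTA_d a 0 * ((1 - CTA_d b 0) * ((1 - CTA_d y1 0) * X + CTA_d y1 0 * ((1 - CTA_d y0 0) * X))) +
      (1 - CTA_d a 0) * ((1 - CTA_d b a) * (CTA_d y1 (-y0) * ((1 - CTA_d y0 0) * X)))) := by
    intro a b y0 y1
    by_cases ha : a = 0
    · subst ha
      by_cases hb : b = 0
      · subst hb
        rw [if_pos ((hv _ _ _ _).2 ⟨by ring, by ring, by ring, by ring⟩), CTA_pos (rfl : (0 : K) = 0)]
        ring
      · rw [CTA_neg hb, CTA_pos (rfl : (0 : K) = 0)]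
        by_cases h1 : y1 = 0
        · subst h1
          by_cases h0 : y0 = 0
          · subst h0
            rw [if_pos ((hv _ _ _ _).2 ⟨by ring, by ring, by ring, by ring⟩),
              CTA_pos (rfl : (0 : K) = 0)]
            ring
          · rw [if_neg (fun h => mul_ne_zero (by rw [zero_sub]; exact neg_ne_zero.2 hb) h0
              ((hv _ _ _ _).1 h).2.1), if_neg (by rw [zero_mul, neg_zero]; exact fun h => h rfl),
              CTA_neg h0, CTA_pos (rfl : (0 : K) = 0)]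
            ring
        · rw [if_neg (fun h => mul_ne_zero (by rw [zero_sub]; exact neg_ne_zero.2 hb) h1
            ((hv _ _ _ _).1 h).1), if_neg (by rw [zero_mul, neg_zero]; exact fun h => h rfl),
            CTA_neg h1]
          ring
    · rw [CTA_neg ha]
      by_cases hy : y1 = -y0
      · subst hy
        rw [CTA_pos (rfl : -y0 = -y0)]
        by_cases hb : b = a
        · subst hb
          rw [if_pos ((hv _ _ _ _).2 ⟨by ring, by ring, by ring, by ring⟩), CTA_pos (rfl : b = b)]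
          ring
        · rw [CTA_neg hb]
          have hab : a - b ≠ 0 := sub_ne_zero.2 fun h => hb h.symm
          by_cases h0 : y0 = 0
          · subst h0
            rw [if_pos ((hv _ _ _ _).2 ⟨by ring, by ring, by ring, by ring⟩),
              CTA_pos (rfl : (0 : K) = 0)]
            ring
          · rw [if_neg (fun h => mul_ne_zero hab h0 ((hv _ _ _ _).1 h).2.1),
              if_neg (by rw [add_neg_cancel, mul_zero, neg_zero]; exact fun h => h rfl), CTA_neg h0]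
            ring
      · have hy' : y0 + y1 ≠ 0 := fun h => hy (by linear_combination h)
        rw [if_neg (fun h => neg_ne_zero.2 (mul_ne_zero ha hy') ((hv _ _ _ _).1 h).2.2.2),
          if_pos (neg_ne_zero.2 (mul_ne_zero ha hy')), CTA_neg hy]
        ring
  rw [Finset.sum_congr rfl fun a _ => Finset.sum_congr rfl fun b _ => Finset.sum_congr rfl
    fun y0 _ => Finset.sum_congr rfl fun y1 _ => h a b y0 y1, CTA_cnt]
  ring

open Classical in
/-- MODULE CTA (3).  The same with `b` instead of `a`. -/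
theorem cntC (X : ℤ) : ∑ a : K, ∑ b : K, ∑ y0 : K, ∑ y1 : K,
    (if (![(a - b) * y1, (a - b) * y0, b * (y0 + y1), -(a * (y0 + y1))] : Fin 4 → K) = 0 then 0 else
      if b * (y0 + y1) ≠ 0 then 0 else X) = 2 * qK K * (qK K - 1) ^ 2 * X := by
  rw [← cntB, Finset.sum_comm]
  refine Finset.sum_congr rfl fun b _ => Finset.sum_congr rfl fun a _ =>
    Finset.sum_congr rfl fun y0 _ => Finset.sum_congr rfl fun y1 _ => ?_
  have hv : ∀ a b y0 y1 : K,
      (![(a - b) * y1, (a - b) * y0, b * (y0 + y1), -(a * (y0 + y1))] : Fin 4 → K) = 0 ↔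
      (a - b) * y1 = 0 ∧ (a - b) * y0 = 0 ∧ b * (y0 + y1) = 0 ∧ -(a * (y0 + y1)) = 0 := by
    intro a b y0 y1
    constructor
    · intro h
      exact ⟨congrFun h 0, congrFun h 1, congrFun h 2, congrFun h 3⟩
    · rintro ⟨h1, h2, h3, h4⟩
      rw [h1, h2, h3, h4]
      funext k
      fin_cases k <;> rfl
  have h1 : (![(a - b) * y1, (a - b) * y0, b * (y0 + y1), -(a * (y0 + y1))] : Fin 4 → K) = 0 ↔
      (![(b - a) * y1, (b - a) * y0, a * (y0 + y1), -(b * (y0 + y1))] : Fin 4 → K) = 0 := by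
    rw [hv, hv]
    constructor
    · rintro ⟨h1, h2, h3, h4⟩
      exact ⟨by linear_combination -h1, by linear_combination -h2, by linear_combination -h4,
        by linear_combination -h3⟩
    · rintro ⟨h1, h2, h3, h4⟩
      exact ⟨by linear_combination -h1, by linear_combination -h2, by linear_combination -h4,
        by linear_combination -h3⟩
  by_cases h2 : (![(a - b) * y1, (a - b) * y0, b * (y0 + y1), -(a * (y0 + y1))] : Fin 4 → K) = 0
  · rw [if_pos h2, if_pos (h1.1 h2)]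
  · rw [if_neg h2, if_neg (fun h => h2 (h1.2 h))]
    by_cases h3 : b * (y0 + y1) = 0
    · rw [if_neg (fun h => h h3), if_neg (fun h => h (by rw [h3, neg_zero]))]
    · rw [if_pos h3, if_pos (neg_ne_zero.2 h3)]

/-- `R Ps01`. -/
private theorem ELP_R : (R Ps01 : Set (Pt K) → ℤ) = fun B => qK K ^ 2 * (qK K - 1) * Ps01 B +
    ∑ a : K, ∑ b : K, ∑ y0 : K, ∑ y1 : K,
      E ![(a - b) * y1, (a - b) * y0, b * (y0 + y1), -(a * (y0 + y1))] B := by
  funext B
  have h1 : R Ps01 B = ∑ a : K, R (fun B => ∑ b : K, G ![0, 0, a, b] 0 B) B :=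
    R_sum Finset.univ (fun (a : K) (B : Set (Pt K)) => ∑ b : K, G ![0, 0, a, b] 0 B) B
  have h2 : ∀ a : K, R (fun B : Set (Pt K) => ∑ b : K, G ![0, 0, a, b] 0 B) B =
      ∑ b : K, R (G ![0, 0, a, b] 0) B := fun a =>
    R_sum Finset.univ (fun b : K => G ![0, 0, a, b] 0) B
  rw [h1, Finset.sum_congr rfl fun a _ => h2 a,
    Finset.sum_congr rfl fun a _ => Finset.sum_congr rfl fun b _ => R_G0 a b B]
  simp only [Finset.sum_add_distrib, ← Finset.mul_sum]
  rfl

private theorem ELP_sum4 (X : K → K → K → K → Set (Pt K) → ℤ) (B : Set (Pt K)) :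
    el (fun B => ∑ a : K, ∑ b : K, ∑ y0 : K, ∑ y1 : K, X a b y0 y1 B) B =
      ∑ a : K, ∑ b : K, ∑ y0 : K, ∑ y1 : K, el (X a b y0 y1) B := by
  rw [el_sum Finset.univ (fun (a : K) (B : Set (Pt K)) => ∑ b : K, ∑ y0 : K, ∑ y1 : K, X a b y0 y1 B)]
  refine Finset.sum_congr rfl fun a _ => ?_
  rw [el_sum Finset.univ (fun (b : K) (B : Set (Pt K)) => ∑ y0 : K, ∑ y1 : K, X a b y0 y1 B)]
  refine Finset.sum_congr rfl fun b _ => ?_
  rw [el_sum Finset.univ (fun (y0 : K) (B : Set (Pt K)) => ∑ y1 : K, X a b y0 y1 B)]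
  refine Finset.sum_congr rfl fun y0 _ => ?_
  rw [el_sum Finset.univ (fun (y1 : K) => X a b y0 y1)]

private theorem ELP_R4 (X : K → K → K → K → Set (Pt K) → ℤ) (B : Set (Pt K)) :
    R (fun B => ∑ a : K, ∑ b : K, ∑ y0 : K, ∑ y1 : K, X a b y0 y1 B) B =
      ∑ a : K, ∑ b : K, ∑ y0 : K, ∑ y1 : K, R (X a b y0 y1) B := by
  rw [R_sum Finset.univ (fun (a : K) (B : Set (Pt K)) => ∑ b : K, ∑ y0 : K, ∑ y1 : K, X a b y0 y1 B)]
  refine Finset.sum_congr rfl fun a _ => ?_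
  rw [R_sum Finset.univ (fun (b : K) (B : Set (Pt K)) => ∑ y0 : K, ∑ y1 : K, X a b y0 y1 B)]
  refine Finset.sum_congr rfl fun b _ => ?_
  rw [R_sum Finset.univ (fun (y0 : K) (B : Set (Pt K)) => ∑ y1 : K, X a b y0 y1 B)]
  refine Finset.sum_congr rfl fun y0 _ => ?_
  rw [R_sum Finset.univ (fun (y1 : K) => X a b y0 y1)]

private theorem ELP_h1 (a b y0 y1 : K) :
    ∑ k, (![(a - b) * y1, (a - b) * y0, b * (y0 + y1), -(a * (y0 + y1))] : Fin 4 → K) k = 0 := by
  rw [Fin.sum_univ_four]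
  show (a - b) * y1 + (a - b) * y0 + b * (y0 + y1) + -(a * (y0 + y1)) = 0
  ring

/-- MODULE ELP (1).  `el_sum`; the terms with `a ≠ 0` vanish (`el_G0`), for `a = 0`, `b ≠ 0` they are `el g3` (`G_smul`), `el_g3`. -/
theorem el_Ps01 (B : Set (Pt K)) : el Ps01 B = (qK K - 1) * R dT B := by
  classical
  have h1 : el Ps01 B = ∑ a : K, el (fun B => ∑ b : K, G ![0, 0, a, b] 0 B) B :=
    el_sum Finset.univ (fun (a : K) (B : Set (Pt K)) => ∑ b : K, G ![0, 0, a, b] 0 B) B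
  have h2 : ∀ a : K, el (fun B : Set (Pt K) => ∑ b : K, G ![0, 0, a, b] 0 B) B =
      ∑ b : K, el (G ![0, 0, a, b] 0) B := fun a =>
    el_sum Finset.univ (fun b : K => G ![0, 0, a, b] 0) B
  have h3 : ∀ a b : K, el (G ![0, 0, a, b] 0) B =
      if a = 0 then (R dT B - if b = 0 then R dT B else 0) else 0 := by
    intro a b
    by_cases ha : a = 0
    · subst ha
      rw [if_pos rfl]
      by_cases hb : b = 0
      · subst hb
        rw [if_pos rfl, sub_self]
        have h4 : G (![0, 0, 0, 0] : Fin 4 → K) 0 = fun B => 0 * G ![0, 0, 0, 0] 0 B := by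
          funext B
          rw [G_const _ ⟨0, fun k => by fin_cases k <;> rfl⟩, zero_mul]
        rw [h4, el_smul, zero_mul]
      · rw [if_neg hb, sub_zero]
        have h4 : G (![0, 0, 0, b] : Fin 4 → K) 0 = g3 := by
          funext B
          exact G_smul b hb ![0, 0, 0, 1] ![0, 0, 0, b] (fun k => by fin_cases k <;> simp) 0 B
        rw [h4, el_g3]
    · rw [if_neg ha, el_G0 a b ha]
  rw [h1, Finset.sum_congr rfl fun a _ => h2 a,
    Finset.sum_congr rfl fun a _ => Finset.sum_congr rfl fun b _ => h3 a b]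
  have h5 : ∀ a : K, ∑ b : K, (if a = 0 then (R dT B - if b = 0 then R dT B else 0) else 0) =
      if a = 0 then (qK K - 1) * R dT B else 0 := by
    intro a
    by_cases ha : a = 0
    · simp only [if_pos ha]
      rw [Finset.sum_sub_distrib, const_sum, Finset.sum_ite_eq', if_pos (Finset.mem_univ _)]
      ring
    · simp only [if_neg ha, Finset.sum_const_zero]
  rw [Finset.sum_congr rfl fun a _ => h5 a, Finset.sum_ite_eq', if_pos (Finset.mem_univ _)]

/-- MODULE ELP (2).  `R Ps01 = q² (q - 1) Ps01 + ∑ a, ∑ b, ∑ y0, ∑ y1, E (..)` (`R_sum`, `R_G0`); `el_Ps01`, `el_E`, `cntA`. -/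
theorem el_RPs01 (B : Set (Pt K)) : el (R Ps01) B =
    qK K ^ 2 * (qK K - 1) ^ 2 * R dT B + qK K ^ 3 * (qK K - 1) ^ 2 * (2 * qK K - 1) * dT B +
      qK K ^ 5 * (qK K - 1) ^ 3 * e1 B := by
  classical
  rw [ELP_R, el_add (fun B => qK K ^ 2 * (qK K - 1) * Ps01 B) (fun B => ∑ a : K, ∑ b : K, ∑ y0 : K,
    ∑ y1 : K, E ![(a - b) * y1, (a - b) * y0, b * (y0 + y1), -(a * (y0 + y1))] B), el_smul, el_Ps01,
    ELP_sum4 fun a b y0 y1 => E ![(a - b) * y1, (a - b) * y0, b * (y0 + y1), -(a * (y0 + y1))]]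
  have h1 : ∀ a b y0 y1 : K,
      el (E ![(a - b) * y1, (a - b) * y0, b * (y0 + y1), -(a * (y0 + y1))]) B =
      if -(a * (y0 + y1)) ≠ 0 then 0 else if (a - b) * y1 ≠ 0 then qK K ^ 3 * dT B else
        if (a - b) * y0 ≠ 0 then qK K ^ 5 * (qK K - 1) * e1 B else 0 := fun a b y0 y1 =>
    el_E _ (ELP_h1 a b y0 y1) B
  rw [Finset.sum_congr rfl fun a _ => Finset.sum_congr rfl fun b _ => Finset.sum_congr rfl
    fun y0 _ => Finset.sum_congr rfl fun y1 _ => h1 a b y0 y1, cntA]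
  ring

/-- MODULE ELP (3).  The same with one more `R`: `el_RE`, `cntB`. -/
theorem el_RRPs01 (B : Set (Pt K)) : el (R (R Ps01)) B =
    qK K ^ 2 * (qK K - 1) * el (R Ps01) B + 2 * qK K ^ 4 * (qK K - 1) ^ 2 * R dT B := by
  classical
  have h0 : R (R Ps01) = fun B : Set (Pt K) => qK K ^ 2 * (qK K - 1) * R Ps01 B +
      ∑ a : K, ∑ b : K, ∑ y0 : K, ∑ y1 : K,
        R (E ![(a - b) * y1, (a - b) * y0, b * (y0 + y1), -(a * (y0 + y1))]) B := by
    funext B
    conv_lhs => rw [ELP_R]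
    rw [R_add (fun B => qK K ^ 2 * (qK K - 1) * Ps01 B) (fun B => ∑ a : K, ∑ b : K, ∑ y0 : K,
      ∑ y1 : K, E ![(a - b) * y1, (a - b) * y0, b * (y0 + y1), -(a * (y0 + y1))] B), R_smul,
      ELP_R4 fun a b y0 y1 => E ![(a - b) * y1, (a - b) * y0, b * (y0 + y1), -(a * (y0 + y1))]]
  rw [h0, el_add (fun B => qK K ^ 2 * (qK K - 1) * R Ps01 B) (fun B => ∑ a : K, ∑ b : K, ∑ y0 : K,
    ∑ y1 : K, R (E ![(a - b) * y1, (a - b) * y0, b * (y0 + y1), -(a * (y0 + y1))]) B), el_smul,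
    ELP_sum4 fun a b y0 y1 => R (E ![(a - b) * y1, (a - b) * y0, b * (y0 + y1), -(a * (y0 + y1))])]
  have h1 : ∀ a b y0 y1 : K,
      el (R (E ![(a - b) * y1, (a - b) * y0, b * (y0 + y1), -(a * (y0 + y1))])) B =
      if (![(a - b) * y1, (a - b) * y0, b * (y0 + y1), -(a * (y0 + y1))] : Fin 4 → K) = 0 then 0 else
        if -(a * (y0 + y1)) ≠ 0 then 0 else qK K ^ 3 * R dT B := fun a b y0 y1 =>
    el_RE _ (ELP_h1 a b y0 y1) B
  rw [Finset.sum_congr rfl fun a _ => Finset.sum_congr rfl fun b _ => Finset.sum_congr rfl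
    fun y0 _ => Finset.sum_congr rfl fun y1 _ => h1 a b y0 y1, cntB]
  ring

/-- MODULE ELQ.

Proof.  `ro (ro (ro Ps30)) = Ps01`; `R Ps01 = q² (q - 1) Ps01 + ∑ a, ∑ b, ∑ y0, ∑ y1, E j` with `j = ![(a - b) * y1, (a - b) * y0, b * (y0 + y1),
-(a * (y0 + y1))]`; so `Rb Ps30 = q² (q - 1) Ps30 + ∑ .. E ![j 3, j 0, j 1, j 2]` (`ro_Ps01`, `ro_E`); apply `R`, `el`: `el_RE`, `cntC` (the
shifted vector is `0` iff `j` is). -/
theorem el_RRbPs30 (B : Set (Pt K)) : el (R (Rb Ps30)) B =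
    qK K ^ 2 * (qK K - 1) * el (R Ps30) B + 2 * qK K ^ 4 * (qK K - 1) ^ 2 * R dT B := by
  classical
  have e1 : ro (Ps30 : Set (Pt K) → ℤ) = Ps := funext ro_Ps30
  have e2 : ro (Ps : Set (Pt K) → ℤ) = Ps12 := funext ro_Ps
  have e3 : ro (Ps12 : Set (Pt K) → ℤ) = Ps01 := funext ro_Ps12
  have h0 : Rb Ps30 = fun B : Set (Pt K) => qK K ^ 2 * (qK K - 1) * Ps30 B +
      ∑ a : K, ∑ b : K, ∑ y0 : K, ∑ y1 : K,
        E ![-(a * (y0 + y1)), (a - b) * y1, (a - b) * y0, b * (y0 + y1)] B := by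
    funext B
    unfold Rb
    rw [e1, e2, e3, ELP_R]
    have h2 : Ps01 (pm (finRotate 4) B) = Ps30 B := ro_Ps01 B
    have h3 : ∀ a b y0 y1 : K,
        E ![(a - b) * y1, (a - b) * y0, b * (y0 + y1), -(a * (y0 + y1))] (pm (finRotate 4) B) =
        E ![-(a * (y0 + y1)), (a - b) * y1, (a - b) * y0, b * (y0 + y1)] B := fun a b y0 y1 =>
      ro_E _ _ _ _ B
    have h4 : (∑ a : K, ∑ b : K, ∑ y0 : K, ∑ y1 : K,
        E ![(a - b) * y1, (a - b) * y0, b * (y0 + y1), -(a * (y0 + y1))] (pm (finRotate 4) B)) =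
        ∑ a : K, ∑ b : K, ∑ y0 : K, ∑ y1 : K,
          E ![-(a * (y0 + y1)), (a - b) * y1, (a - b) * y0, b * (y0 + y1)] B :=
      Finset.sum_congr rfl fun a _ => Finset.sum_congr rfl fun b _ =>
        Finset.sum_congr rfl fun y0 _ => Finset.sum_congr rfl fun y1 _ => h3 a b y0 y1
    rw [← h2, ← h4]
    rfl
  have h4 : R (Rb Ps30) = fun B : Set (Pt K) => qK K ^ 2 * (qK K - 1) * R Ps30 B +
      ∑ a : K, ∑ b : K, ∑ y0 : K, ∑ y1 : K,
        R (E ![-(a * (y0 + y1)), (a - b) * y1, (a - b) * y0, b * (y0 + y1)]) B := by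
    funext B
    rw [h0, R_add (fun B => qK K ^ 2 * (qK K - 1) * Ps30 B) (fun B => ∑ a : K, ∑ b : K, ∑ y0 : K,
      ∑ y1 : K, E ![-(a * (y0 + y1)), (a - b) * y1, (a - b) * y0, b * (y0 + y1)] B), R_smul,
      ELP_R4 fun a b y0 y1 => E ![-(a * (y0 + y1)), (a - b) * y1, (a - b) * y0, b * (y0 + y1)]]
  rw [h4, el_add (fun B => qK K ^ 2 * (qK K - 1) * R Ps30 B) (fun B => ∑ a : K, ∑ b : K, ∑ y0 : K,
    ∑ y1 : K, R (E ![-(a * (y0 + y1)), (a - b) * y1, (a - b) * y0, b * (y0 + y1)]) B), el_smul,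
    ELP_sum4 fun a b y0 y1 => R (E ![-(a * (y0 + y1)), (a - b) * y1, (a - b) * y0, b * (y0 + y1)])]
  have h1 : ∀ a b y0 y1 : K,
      el (R (E ![-(a * (y0 + y1)), (a - b) * y1, (a - b) * y0, b * (y0 + y1)])) B =
      if (![(a - b) * y1, (a - b) * y0, b * (y0 + y1), -(a * (y0 + y1))] : Fin 4 → K) = 0 then 0 else
        if b * (y0 + y1) ≠ 0 then 0 else qK K ^ 3 * R dT B := by
    intro a b y0 y1
    have h5 := el_RE (![-(a * (y0 + y1)), (a - b) * y1, (a - b) * y0, b * (y0 + y1)] : Fin 4 → K) (by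
      rw [Fin.sum_univ_four]
      show -(a * (y0 + y1)) + (a - b) * y1 + (a - b) * y0 + b * (y0 + y1) = 0
      ring) B
    rw [h5]
    have h6 : (![-(a * (y0 + y1)), (a - b) * y1, (a - b) * y0, b * (y0 + y1)] : Fin 4 → K) = 0 ↔
        (![(a - b) * y1, (a - b) * y0, b * (y0 + y1), -(a * (y0 + y1))] : Fin 4 → K) = 0 := by
      constructor
      · intro h
        have k0 : -(a * (y0 + y1)) = 0 := congrFun h 0
        have k1 : (a - b) * y1 = 0 := congrFun h 1
        have k2 : (a - b) * y0 = 0 := congrFun h 2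
        have k3 : b * (y0 + y1) = 0 := congrFun h 3
        rw [k0, k1, k2, k3]
        funext k
        fin_cases k <;> rfl
      · intro h
        have k0 : (a - b) * y1 = 0 := congrFun h 0
        have k1 : (a - b) * y0 = 0 := congrFun h 1
        have k2 : b * (y0 + y1) = 0 := congrFun h 2
        have k3 : -(a * (y0 + y1)) = 0 := congrFun h 3
        rw [k0, k1, k2, k3]
        funext k
        fin_cases k <;> rfl
    by_cases h7 : (![(a - b) * y1, (a - b) * y0, b * (y0 + y1), -(a * (y0 + y1))] : Fin 4 → K) = 0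
    · rw [if_pos h7, if_pos (h6.2 h7)]
    · rw [if_neg h7, if_neg (fun h => h7 (h6.1 h))]
      rfl
  rw [Finset.sum_congr rfl fun a _ => Finset.sum_congr rfl fun b _ => Finset.sum_congr rfl
    fun y0 _ => Finset.sum_congr rfl fun y1 _ => h1 a b y0 y1, cntC]
  ring

/-- MODULE ELT.  `R_g3`, `el_g3`, `el_E` for `![x, y, -(x + y), 0]`: `q (q - 1)` terms with `x ≠ 0`, `q - 1` terms with `x = 0`, `y ≠ 0`. -/
theorem el_Rg3 (B : Set (Pt K)) : el (R g3) B =
    qK K ^ 2 * (qK K - 1) * R dT B + qK K ^ 4 * (qK K - 1) * dT B + qK K ^ 5 * (qK K - 1) ^ 2 * e1 B := by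
  classical
  have h0 : R g3 = fun B : Set (Pt K) => qK K ^ 2 * (qK K - 1) * g3 B +
      ∑ x : K, ∑ y : K, E ![x, y, -(x + y), 0] B := funext R_g3
  rw [h0, el_add (fun B => qK K ^ 2 * (qK K - 1) * g3 B)
    (fun B => ∑ x : K, ∑ y : K, E ![x, y, -(x + y), 0] B), el_smul, el_g3,
    el_sum Finset.univ (fun (x : K) (B : Set (Pt K)) => ∑ y : K, E ![x, y, -(x + y), 0] B)]
  have h1 : ∀ x : K, el (fun B : Set (Pt K) => ∑ y : K, E ![x, y, -(x + y), 0] B) B =
      if x = 0 then (qK K - 1) * (qK K ^ 5 * (qK K - 1) * e1 B) else qK K * (qK K ^ 3 * dT B) := by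
    intro x
    rw [el_sum Finset.univ (fun y : K => E ![x, y, -(x + y), 0])]
    have h2 : ∀ y : K, el (E ![x, y, -(x + y), 0]) B = if (0 : K) ≠ 0 then 0 else
        if x ≠ 0 then qK K ^ 3 * dT B else if y ≠ 0 then qK K ^ 5 * (qK K - 1) * e1 B else 0 :=
      fun y => el_E _ (by
        rw [Fin.sum_univ_four]
        show x + y + -(x + y) + 0 = 0
        ring) B
    rw [Finset.sum_congr rfl fun y _ => h2 y]
    by_cases hx : x = 0
    · rw [if_pos hx]
      have h3 : ∀ y : K, (if (0 : K) ≠ 0 then 0 else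
        if x ≠ 0 then qK K ^ 3 * dT B else if y ≠ 0 then qK K ^ 5 * (qK K - 1) * e1 B else 0) =
          qK K ^ 5 * (qK K - 1) * e1 B - if y = 0 then qK K ^ 5 * (qK K - 1) * e1 B else 0 := by
        intro y
        rw [if_neg (fun h => h rfl), if_neg (fun h => h hx)]
        by_cases hy : y = 0
        · rw [if_neg (fun h => h hy), if_pos hy, sub_self]
        · rw [if_pos hy, if_neg hy, sub_zero]
      rw [Finset.sum_congr rfl fun y _ => h3 y, Finset.sum_sub_distrib, const_sum,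
        Finset.sum_ite_eq', if_pos (Finset.mem_univ _)]
      ring
    · rw [if_neg hx]
      have h3 : ∀ y : K, (if (0 : K) ≠ 0 then 0 else
        if x ≠ 0 then qK K ^ 3 * dT B else if y ≠ 0 then qK K ^ 5 * (qK K - 1) * e1 B else 0) =
          qK K ^ 3 * dT B := by
        intro y
        rw [if_neg (fun h => h rfl), if_pos hx]
      rw [Finset.sum_congr rfl fun y _ => h3 y, const_sum]
  have h2 : ∀ x : K, (if x = 0 then (qK K - 1) * (qK K ^ 5 * (qK K - 1) * e1 B) else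
      qK K * (qK K ^ 3 * dT B)) = qK K * (qK K ^ 3 * dT B) + if x = 0 then
        ((qK K - 1) * (qK K ^ 5 * (qK K - 1) * e1 B) - qK K * (qK K ^ 3 * dT B)) else 0 := by
    intro x
    by_cases hx : x = 0
    · rw [if_pos hx, if_pos hx]
      ring
    · rw [if_neg hx, if_neg hx, add_zero]
  rw [Finset.sum_congr rfl fun x _ => (h1 x).trans (h2 x), Finset.sum_add_distrib, const_sum,
    Finset.sum_ite_eq', if_pos (Finset.mem_univ _)]
  ring

/-- MODULE ELU (1).  `Rb_Ps` and `el_eq`: the terms `PI`, `H1`, `H3` are invariant under `sg`, and `R (Rb g0) - R (sg (Rb g0)) = el g0 = 0`. -/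
theorem el_Ps (B : Set (Pt K)) : el Ps B = 0 := by
  have h0 : Rb Ps = fun B : Set (Pt K) => (fun B => qK K * (qK K - 1) * (qK K - 2) * PI B +
      (qK K - 1) * (qK K ^ 2 * (H1 B + H3 B))) B + (qK K - 1) * Rb g0 B := by
    funext B
    rw [Rb_Ps]
    ring
  rw [LNE_el_d, h0, LNE_d_add _ (fun B => (qK K - 1) * Rb g0 B), LNE_d_smul, ← LNE_el_d, el_g0,
    mul_zero, add_zero]
  refine LNE_d_of_sg _ (fun B => ?_) B
  have h1 : sg (fun B : Set (Pt K) => qK K * (qK K - 1) * (qK K - 2) * PI B +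
      (qK K - 1) * (qK K ^ 2 * (H1 B + H3 B))) B = qK K * (qK K - 1) * (qK K - 2) * sg PI B +
      (qK K - 1) * (qK K ^ 2 * (sg H1 B + sg H3 B)) := rfl
  rw [h1, sg_PI, sg_H1, sg_H3]

/-- MODULE ELU (2).  `R_p010`, `el_p01`, `el_E` for `![0, 0, 1, -1]`. -/
theorem el_Rp010 (B : Set (Pt K)) : el (R (p01 0)) B = 0 := by
  have h0 : R (p01 0) = fun B : Set (Pt K) => qK K ^ 2 * (qK K - 1) * p01 0 B +
      qK K * (qK K - 1) * E ![0, 0, 1, -1] B := funext R_p010
  have h1 : el (E (![0, 0, 1, -1] : Fin 4 → K)) B = 0 := by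
    rw [el_E _ (by rw [Fin.sum_univ_four]; simp)]
    simp
  rw [h0, el_add (fun B => qK K ^ 2 * (qK K - 1) * p01 0 B)
    (fun B => qK K * (qK K - 1) * E ![0, 0, 1, -1] B), el_smul, el_smul, el_p01, h1]
  ring

/-- MODULE ELU (3).

Proof.  `bt' = ∑ r, p01 r - q p01 0`; `R_p01`, `el_p01`, `el_E` for `![r, -r, -(y0 + y1), y0 + y1]`: it is `0` for `y0 + y1 ≠ 0`, and for
`y1 = - y0` it is `q³ dT` if `r ≠ 0` and `0` if `r = 0`; so `el (R (p01 r)) = q q³ dT` for `r ≠ 0`, `0` for `r = 0` (`el_Rp010`). -/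
theorem el_Rbt' (B : Set (Pt K)) : el (R bt') B = qK K ^ 4 * (qK K - 1) * dT B := by
  classical
  have h0 : (bt' : Set (Pt K) → ℤ) = fun B => ∑ r : K, p01 r B + (-qK K) * p01 0 B := by
    funext B
    unfold bt'
    ring
  have h1 : R bt' = fun B : Set (Pt K) => ∑ r : K, R (p01 r) B + (-qK K) * R (p01 0) B := by
    funext B
    rw [h0, R_add (fun B => ∑ r : K, p01 r B) (fun B => (-qK K) * p01 0 B), R_smul,
      R_sum Finset.univ (fun r : K => p01 r)]
  have h2 : ∀ r : K, el (R (p01 r)) B = if r = 0 then 0 else qK K * (qK K ^ 3 * dT B) := by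
    intro r
    by_cases hr : r = 0
    · rw [if_pos hr, hr, el_Rp010]
    · rw [if_neg hr]
      have h3 : R (p01 r) = fun B : Set (Pt K) => ∑ y0 : K, ∑ y1 : K,
          ((∑ S : K, if S = 0 then 0 else p01 (r - S⁻¹ * (y0 + y1) * r) B) +
            E ![r, -r, -(y0 + y1), y0 + y1] B) := funext (R_p01 r)
      rw [h3, el_sum Finset.univ (fun (y0 : K) (B : Set (Pt K)) => ∑ y1 : K,
        ((∑ S : K, if S = 0 then 0 else p01 (r - S⁻¹ * (y0 + y1) * r) B) +
            E ![r, -r, -(y0 + y1), y0 + y1] B))]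
      have h4 : ∀ y0 : K, el (fun B : Set (Pt K) => ∑ y1 : K,
        ((∑ S : K, if S = 0 then 0 else p01 (r - S⁻¹ * (y0 + y1) * r) B) +
            E ![r, -r, -(y0 + y1), y0 + y1] B)) B = qK K ^ 3 * dT B := by
        intro y0
        rw [el_sum Finset.univ (fun (y1 : K) (B : Set (Pt K)) =>
          ((∑ S : K, if S = 0 then 0 else p01 (r - S⁻¹ * (y0 + y1) * r) B) +
            E ![r, -r, -(y0 + y1), y0 + y1] B))]
        have h5 : ∀ y1 : K, el (fun B : Set (Pt K) =>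
            ((∑ S : K, if S = 0 then 0 else p01 (r - S⁻¹ * (y0 + y1) * r) B) +
            E ![r, -r, -(y0 + y1), y0 + y1] B)) B = if y1 = -y0 then qK K ^ 3 * dT B else 0 := by
          intro y1
          rw [el_add (fun B => ∑ S : K, if S = 0 then 0 else p01 (r - S⁻¹ * (y0 + y1) * r) B)
            (E ![r, -r, -(y0 + y1), y0 + y1]),
            el_sum Finset.univ (fun (S : K) (B : Set (Pt K)) => if S = 0 then 0 else
              p01 (r - S⁻¹ * (y0 + y1) * r) B)]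
          have h6 : ∀ S : K, el (fun B : Set (Pt K) => if S = 0 then 0 else
              p01 (r - S⁻¹ * (y0 + y1) * r) B) B = 0 := by
            intro S
            by_cases hS : S = 0
            · have h7 : (fun B : Set (Pt K) => if S = 0 then 0 else
                  p01 (r - S⁻¹ * (y0 + y1) * r) B) = fun B => 0 * p01 0 B := by
                funext B
                rw [if_pos hS, zero_mul]
              rw [h7, el_smul, zero_mul]
            · have h7 : (fun B : Set (Pt K) => if S = 0 then 0 else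
                  p01 (r - S⁻¹ * (y0 + y1) * r) B) = p01 (r - S⁻¹ * (y0 + y1) * r) := by
                funext B
                rw [if_neg hS]
              rw [h7, el_p01]
          rw [Finset.sum_congr rfl fun S _ => h6 S, Finset.sum_const_zero, zero_add]
          have h8 := el_E (![r, -r, -(y0 + y1), y0 + y1] : Fin 4 → K) (by
            rw [Fin.sum_univ_four]
            show r + -r + -(y0 + y1) + (y0 + y1) = 0
            ring) B
          rw [h8]
          change (if y0 + y1 ≠ 0 then 0 else if r ≠ 0 then qK K ^ 3 * dT B else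
            if -r ≠ 0 then qK K ^ 5 * (qK K - 1) * e1 B else 0) = _
          by_cases hy : y1 = -y0
          · rw [if_pos hy, if_neg (fun h => h (by rw [hy]; ring)), if_pos hr]
          · rw [if_neg hy, if_pos (fun h => hy (by linear_combination h))]
        rw [Finset.sum_congr rfl fun y1 _ => h5 y1, Finset.sum_ite_eq', if_pos (Finset.mem_univ _)]
      rw [Finset.sum_congr rfl fun y0 _ => h4 y0, const_sum]
  have h3 : ∀ r : K, (if r = 0 then 0 else qK K * (qK K ^ 3 * dT B)) =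
      qK K * (qK K ^ 3 * dT B) - if r = 0 then qK K * (qK K ^ 3 * dT B) else 0 := by
    intro r
    by_cases hr : r = 0
    · rw [if_pos hr, if_pos hr, sub_self]
    · rw [if_neg hr, if_neg hr, sub_zero]
  rw [h1, el_add (fun B => ∑ r : K, R (p01 r) B) (fun B => (-qK K) * R (p01 0) B), el_smul, el_Rp010,
    el_sum Finset.univ (fun r : K => R (p01 r)), Finset.sum_congr rfl fun r _ => (h2 r).trans (h3 r),
    Finset.sum_sub_distrib, const_sum, Finset.sum_ite_eq', if_pos (Finset.mem_univ _)]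
  ring

/-- MODULE ELV (1).  `P3.R_H1`, `el_Ps`. -/
theorem el_RH1 (B : Set (Pt K)) : el (R H1) B = qK K ^ 2 * (qK K - 1) * el H1 B := by
  have h0 : R H1 = fun B : Set (Pt K) => (qK K ^ 3 - qK K ^ 2) * H1 B + qK K * Ps B := funext R_H1
  rw [h0, el_add (fun B => (qK K ^ 3 - qK K ^ 2) * H1 B) (fun B => qK K * Ps B), el_smul, el_smul,
    el_Ps]
  ring

/-- MODULE ELV (2).  `R_Ps`, `el_Rp010`. -/
theorem el_RPs (B : Set (Pt K)) : el (R Ps) B = qK K ^ 3 * (qK K - 1) * el H1 B := by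
  have h0 : R Ps = fun B : Set (Pt K) => qK K ^ 3 * (qK K - 1) * H1 B + (qK K - 1) * R (p01 0) B :=
    funext R_Ps
  rw [h0, el_add (fun B => qK K ^ 3 * (qK K - 1) * H1 B) (fun B => (qK K - 1) * R (p01 0) B), el_smul,
    el_smul, el_Rp010]
  ring

private theorem ELV_12 (B : Set (Pt K)) : LNE_d Ps12 B = - ((qK K - 1) * dT B) := by
  unfold LNE_d dT
  have h1 : sg (Ps12 : Set (Pt K) → ℤ) = Ps30 := funext sg_Ps12
  rw [h1, R_Ps12, R_Ps30]
  ring

private theorem ELV_30 (B : Set (Pt K)) : LNE_d Ps30 B = (qK K - 1) * dT B := by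
  unfold LNE_d dT
  have h1 : sg (Ps30 : Set (Pt K) → ℤ) = Ps12 := funext sg_Ps30
  rw [h1, R_Ps12, R_Ps30]
  ring

/-- MODULE ELV (3).  `Rb_H3`, `el_eq`, `sg_H3`, `sg_Ps12`, `R_Ps12`, `R_Ps30`: `R Ps12 - R Ps30 = (q - 1) (R g2 - R g3)`. -/
theorem el_H3 (B : Set (Pt K)) : el H3 B = - (qK K * (qK K - 1) * dT B) := by
  have h0 : Rb H3 = fun B : Set (Pt K) => qK K ^ 2 * (qK K - 1) * H3 B + qK K * Ps12 B :=
    funext Rb_H3
  rw [LNE_el_d, h0, LNE_d_add (fun B => qK K ^ 2 * (qK K - 1) * H3 B) (fun B => qK K * Ps12 B),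
    LNE_d_smul, LNE_d_smul, LNE_d_of_sg H3 sg_H3, ELV_12]
  ring

/-- MODULE ELV (4).  `Rb_R_g2`, `el_eq`, `sg_H3`, `sg_Ps30`, `R_Ps12`, `R_Ps30`. -/
theorem el_Rg2 (B : Set (Pt K)) : el (R g2) B = qK K ^ 3 * (qK K - 1) * dT B := by
  have h0 : Rb (R g2) = fun B : Set (Pt K) => qK K ^ 4 * (qK K - 1) * H3 B + qK K ^ 3 * Ps30 B :=
    funext Rb_R_g2
  rw [LNE_el_d, h0, LNE_d_add (fun B => qK K ^ 4 * (qK K - 1) * H3 B) (fun B => qK K ^ 3 * Ps30 B),
    LNE_d_smul, LNE_d_smul, LNE_d_of_sg H3 sg_H3, ELV_30]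
  ring

private noncomputable def ELV_Z (B : Set (Pt K)) : ℤ := qK K * (qK K - 1) ^ 2 * PI B +
    qK K ^ 2 * (qK K - 1) * H3 B + ((qK K - 1) * bt' B - gm B) -
    qK K * ((qK K ^ 2 - 3 * qK K + 4) * PI B + (qK K ^ 2 - 2 * qK K) * (H3 B + H1 B) -
      qK K * H2 B + qK K ^ 2 * cf 0 0 B)

private theorem ELV_sgZ (B : Set (Pt K)) : sg ELV_Z B = ELV_Z B := by
  have h1 : PI (pm sw B) = PI B := sg_PI B
  have h2 : H3 (pm sw B) = H3 B := sg_H3 B
  have h3 : bt' (pm sw B) = bt' B := sg_bt' B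
  have h4 : gm (pm sw B) = gm B := sg_gm B
  have h5 : H1 (pm sw B) = H1 B := sg_H1 B
  have h6 : H2 (pm sw B) = H2 B := sg_H2 B
  have h7 : cf 0 0 (pm sw B) = cf 0 0 B := sg_cf 0 0 B
  unfold sg ELV_Z
  rw [h1, h2, h3, h4, h5, h6, h7]

/-- MODULE ELV (5).

Proof.  `Rb_PI`, `el_eq`: the terms `PI`, `H3`, `bt'`, `gm` are invariant under `sg` and cancel.  `ro Bs = ro (R H3) - (q² - 3 q + 4) PI - (q² - 2
q) (H3 + H1) + q H2 - q² cf 0 0` (`PL3.R_H3`, `ro`), the last terms are invariant under `sg` too. -/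
theorem el_PI (B : Set (Pt K)) : el PI B = qK K * (R (ro (R H3)) B - sg (R (ro (R H3))) B) := by
  have h0 : Rb PI = fun B : Set (Pt K) => ELV_Z B + qK K * ro (R H3) B := by
    funext B
    have h1 : ro (R H3) B = (qK K ^ 2 - 3 * qK K + 4) * ro PI B +
        (qK K ^ 2 - 2 * qK K) * (ro H1 B + ro H3 B) - qK K * ro H2 B +
        qK K ^ 2 * ro (cf 0 0) B + ro Bs B := R_H3 (pm (finRotate 4) B)
    rw [ro_PI, ro_H1, ro_H3, ro_H2, ro_c0] at h1
    rw [Rb_PI, h1]
    unfold ELV_Z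
    ring
  rw [LNE_el_d, h0, LNE_d_add ELV_Z (fun B => qK K * ro (R H3) B), LNE_d_smul,
    LNE_d_of_sg ELV_Z ELV_sgZ, zero_add]
  unfold LNE_d
  rw [R_sg]

end Pool.Agent.Prm3
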