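import Pool.Agent.Prm3.Fn
import Pool.Agent.P3.Elim

/-!
# Elimination of the rung for the new functionals
-/

set_option autoImplicit false

open scoped BigOperators

namespace Pool.Agent.Prm3

open Pool.Agent.KG Pool.Agent.P3 Pool.Agent.PL3

variable {K : Type} [Field K]

private theorem EL4_lamF (φ : Fin 4 → K) (Q : Matrix (Fin 4) (Fin 4) K) (z : Pt K) :
    LamF φ Q z ↔ (z.1 0 + z.1 1 + z.1 2 + z.1 3 = 0) ∧
      (φ 0 * z.1 0 + φ 1 * z.1 1 + φ 2 * z.1 2 + φ 3 * z.1 3 = 0) ∧ ∃ c u : K,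
      (z.2 0 + (Q 0 0 * z.1 0 + Q 0 1 * z.1 1 + Q 0 2 * z.1 2 + Q 0 3 * z.1 3) = c + u * φ 0) ∧
      (z.2 1 + (Q 1 0 * z.1 0 + Q 1 1 * z.1 1 + Q 1 2 * z.1 2 + Q 1 3 * z.1 3) = c + u * φ 1) ∧
      (z.2 2 + (Q 2 0 * z.1 0 + Q 2 1 * z.1 1 + Q 2 2 * z.1 2 + Q 2 3 * z.1 3) = c + u * φ 2) ∧
      (z.2 3 + (Q 3 0 * z.1 0 + Q 3 1 * z.1 1 + Q 3 2 * z.1 2 + Q 3 3 * z.1 3) = c + u * φ 3) := by
  unfold LamF
  simp only [Fin.sum_univ_four, Matrix.mulVec, dotProduct]
  constructor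
  · rintro ⟨h1, h0, c, u, h2⟩
    exact ⟨h1, h0, c, u, h2 0, h2 1, h2 2, h2 3⟩
  · rintro ⟨h1, h0, c, u, h2, h3, h4, h5⟩
    refine ⟨h1, h0, c, u, fun k => ?_⟩
    fin_cases k
    · exact h2
    · exact h3
    · exact h4
    · exact h5

private theorem EL4_ent (Q : Matrix (Fin 4) (Fin 4) K) (a b : K) :
    (∀ k l : Fin 4, k ≠ l → (Q + Matrix.diagonal ![a, b, 0, 0]) k l = Q k l) ∧
    (Q + Matrix.diagonal ![a, b, 0, 0]) 0 0 = Q 0 0 + a ∧
    (Q + Matrix.diagonal ![a, b, 0, 0]) 1 1 = Q 1 1 + b ∧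
    (Q + Matrix.diagonal ![a, b, 0, 0]) 2 2 = Q 2 2 ∧
    (Q + Matrix.diagonal ![a, b, 0, 0]) 3 3 = Q 3 3 := by
  refine ⟨?_, ?_, ?_, ?_, ?_⟩
  · intro k l h
    rw [Matrix.add_apply, Matrix.diagonal_apply_ne _ h, add_zero]
  · rw [Matrix.add_apply, Matrix.diagonal_apply_eq]
    rfl
  · rw [Matrix.add_apply, Matrix.diagonal_apply_eq]
    rfl
  · rw [Matrix.add_apply, Matrix.diagonal_apply_eq]
    exact add_zero _
  · rw [Matrix.add_apply, Matrix.diagonal_apply_eq]
    exact add_zero _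

private theorem EL4_dF (φ : Fin 4 → K) (Q N : Matrix (Fin 4) (Fin 4) K) (a b : K) (z : Pt K) :
    LamF φ (Q + Matrix.diagonal ![a, b, 0, 0] + N) z ↔ (z.1 0 + z.1 1 + z.1 2 + z.1 3 = 0) ∧
      (φ 0 * z.1 0 + φ 1 * z.1 1 + φ 2 * z.1 2 + φ 3 * z.1 3 = 0) ∧ ∃ c u : K,
      (z.2 0 + a * z.1 0 + (Q 0 0 * z.1 0 + Q 0 1 * z.1 1 + Q 0 2 * z.1 2 + Q 0 3 * z.1 3) +
        (N 0 0 * z.1 0 + N 0 1 * z.1 1 + N 0 2 * z.1 2 + N 0 3 * z.1 3) = c + u * φ 0) ∧
      (z.2 1 + b * z.1 1 + (Q 1 0 * z.1 0 + Q 1 1 * z.1 1 + Q 1 2 * z.1 2 + Q 1 3 * z.1 3) +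
        (N 1 0 * z.1 0 + N 1 1 * z.1 1 + N 1 2 * z.1 2 + N 1 3 * z.1 3) = c + u * φ 1) ∧
      (z.2 2 + (Q 2 0 * z.1 0 + Q 2 1 * z.1 1 + Q 2 2 * z.1 2 + Q 2 3 * z.1 3) +
        (N 2 0 * z.1 0 + N 2 1 * z.1 1 + N 2 2 * z.1 2 + N 2 3 * z.1 3) = c + u * φ 2) ∧
      (z.2 3 + (Q 3 0 * z.1 0 + Q 3 1 * z.1 1 + Q 3 2 * z.1 2 + Q 3 3 * z.1 3) +
        (N 3 0 * z.1 0 + N 3 1 * z.1 1 + N 3 2 * z.1 2 + N 3 3 * z.1 3) = c + u * φ 3) := by
  rw [EL4_lamF]
  obtain ⟨hne, e0, e1, e2, e3⟩ := EL4_ent Q a b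
  simp only [Matrix.add_apply _ N, e0, e1, e2, e3, hne 0 1 (by decide), hne 0 2 (by decide), hne 0 3 (by decide),
    hne 1 0 (by decide), hne 1 2 (by decide), hne 1 3 (by decide), hne 2 0 (by decide), hne 2 1 (by decide),
    hne 2 3 (by decide), hne 3 0 (by decide), hne 3 1 (by decide), hne 3 2 (by decide)]
  constructor
  · rintro ⟨h1, h0, c, u, h2, h3, h4, h5⟩
    exact ⟨h1, h0, c, u, by linear_combination h2, by linear_combination h3, by linear_combination h4,
      by linear_combination h5⟩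
  · rintro ⟨h1, h0, c, u, h2, h3, h4, h5⟩
    exact ⟨h1, h0, c, u, by linear_combination h2, by linear_combination h3, by linear_combination h4,
      by linear_combination h5⟩

omit [Field K] in
private theorem EL4_sym {Q : Matrix (Fin 4) (Fin 4) K} (hQ : Q.IsSymm) : Q 0 1 = Q 1 0 ∧ Q 0 2 = Q 2 0 ∧
    Q 0 3 = Q 3 0 ∧ Q 1 2 = Q 2 1 ∧ Q 1 3 = Q 3 1 ∧ Q 2 3 = Q 3 2 :=
  ⟨hQ.apply 1 0, hQ.apply 2 0, hQ.apply 3 0, hQ.apply 2 1, hQ.apply 3 1, hQ.apply 3 2⟩

/-- MODULE EL4.  Elimination of the current `r` in the rung, `φ 0 = φ 1`, `S ≠ 0`.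

Proof.  Copy the proof of `P3.elim1` (P3/Elim.lean, with its private helpers `el_ent`, `el_dF`, `el_lamF`, `el_sym`):
write `v = e₀ - e₁`, `g = Q v`, `S = x + v · g`.  (→) First kind: `w = (j + r v, P)` with `(j, p) ∈ B`, `P = p + diag(a, b, 0, 0) j`,
`x r = P 0 - P 1`.  Then `∑ j = 0`, `φ · j = φ · (j + r v) = 0`, `P + Q j + r g = c + u φ`; the difference of the components `0`
and `1` (`φ 0 = φ 1`) gives `x r + g · j + r (v · g) = 0`, so `r = - (g · j) / S`.  Second kind: `w = ((r, -r, 0, 0), const)`, `r ≠ 0`,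
`x r = 0`: `r g = c + u φ - const` gives `r (v · g) = 0`, so `S r = 0`, contradiction.  (←) `r = - (g · j) / S`, the same `c`, `u`. -/
theorem elim4 (φ : Fin 4 → K) (hφ : φ 0 = φ 1) (Q : Matrix (Fin 4) (Fin 4) K) (hQ : Q.IsSymm) (a b x : K)
    (g : Fin 4 → K) (hg : ∀ k, g k = Q k 0 - Q k 1) (S : K) (hS : S = x + (g 0 - g 1)) (h0 : S ≠ 0)
    (B : Set (Pt K)) :
    (∃ z ∈ bp a b x B, LamF φ Q z) ↔
      ∃ z ∈ B, LamF φ (Q + Matrix.diagonal ![a, b, 0, 0] - S⁻¹ • Matrix.vecMulVec g g) z := by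
  obtain ⟨s01, s02, s03, s12, s13, s23⟩ := EL4_sym hQ
  have g0 := hg 0
  have g1 := hg 1
  have g2 := hg 2
  have g3 := hg 3
  have hN : ∀ k l : Fin 4, (-(S⁻¹ • Matrix.vecMulVec g g) : Matrix (Fin 4) (Fin 4) K) k l =
      -(S⁻¹ * (g k * g l)) := by
    intro k l
    rw [Matrix.neg_apply, Matrix.smul_apply, Matrix.vecMulVec_apply, smul_eq_mul]
  simp only [sub_eq_add_neg (Q + Matrix.diagonal ![a, b, 0, 0]), EL4_dF, hN]
  simp only [s01, s02, s03, s12, s13, s23] at g0 g1 g2 g3 ⊢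
  constructor
  · rintro ⟨w, hw, hL⟩
    rw [EL4_lamF] at hL
    simp only [s01, s02, s03, s12, s13, s23] at hL
    obtain ⟨hs, hφj, c, u, e0, e1, e2, e3⟩ := hL
    rcases hw with ⟨z, hz, r, hr, rfl⟩ | ⟨r, c', hr0, hxr, rfl⟩
    · simp only [Matrix.cons_val_zero, Matrix.cons_val_one, Matrix.cons_val] at hs hφj e0 e1 e2 e3
      have hSr : S * r = -(g 0 * z.1 0 + g 1 * z.1 1 + g 2 * z.1 2 + g 3 * z.1 3) := by
        rw [hS, g0, g1, g2, g3]
        linear_combination hr + e0 - e1 + u * hφ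
      have hr' : r = -(S⁻¹ * (g 0 * z.1 0 + g 1 * z.1 1 + g 2 * z.1 2 + g 3 * z.1 3)) := by
        rw [← mul_neg, ← hSr, inv_mul_cancel_left₀ h0]
      refine ⟨z, hz, by linear_combination hs, by linear_combination hφj - r * hφ, c, u, ?_, ?_, ?_, ?_⟩
      · linear_combination e0 + r * g0 - g 0 * hr'
      · linear_combination e1 + r * g1 - g 1 * hr'
      · linear_combination e2 + r * g2 - g 2 * hr'
      · linear_combination e3 + r * g3 - g 3 * hr'
    · exfalso
      simp only [Matrix.cons_val_zero, Matrix.cons_val_one, Matrix.cons_val] at hs e0 e1 e2 e3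
      have hx : x = 0 := (mul_eq_zero.1 hxr).resolve_right hr0
      have h1 : r * S = 0 := by
        rw [hS, g0, g1]
        linear_combination hxr + e0 - e1 + u * hφ
      exact (mul_ne_zero hr0 h0) h1
  · rintro ⟨z, hz, hs, hφj, c, u, e0, e1, e2, e3⟩
    obtain ⟨r, hr'⟩ : ∃ r, r = -(S⁻¹ * (g 0 * z.1 0 + g 1 * z.1 1 + g 2 * z.1 2 + g 3 * z.1 3)) := ⟨_, rfl⟩
    have hSr : S * r = -(g 0 * z.1 0 + g 1 * z.1 1 + g 2 * z.1 2 + g 3 * z.1 3) := by
      rw [hr', mul_neg, mul_inv_cancel_left₀ h0]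
    refine ⟨(![z.1 0 + r, z.1 1 - r, z.1 2, z.1 3],
          ![z.2 0 + a * z.1 0, z.2 1 + b * z.1 1, z.2 2, z.2 3]), Or.inl ⟨z, hz, r, ?_, rfl⟩, ?_⟩
    · have hgj : g 0 * z.1 0 + g 1 * z.1 1 + g 2 * z.1 2 + g 3 * z.1 3 = -(S * r) := by
        rw [hSr, neg_neg]
      have e0' : z.2 0 + a * z.1 0 + (Q 0 0 * z.1 0 + Q 1 0 * z.1 1 + Q 2 0 * z.1 2 + Q 3 0 * z.1 3) +
          g 0 * r = c + u * φ 0 := by
        rw [hr']
        linear_combination e0
      have e1' : z.2 1 + b * z.1 1 + (Q 1 0 * z.1 0 + Q 1 1 * z.1 1 + Q 2 1 * z.1 2 + Q 3 1 * z.1 3) +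
          g 1 * r = c + u * φ 1 := by
        rw [hr']
        linear_combination e1
      rw [g0, g1, g2, g3] at hgj
      rw [g0] at e0'
      rw [g1] at e1'
      rw [hS, g0, g1] at hgj
      linear_combination e1' - e0' + hgj - u * hφ
    · rw [EL4_lamF]
      simp only [Matrix.cons_val_zero, Matrix.cons_val_one, Matrix.cons_val, s01, s02, s03, s12, s13, s23]
      refine ⟨by linear_combination hs, by linear_combination hφj + r * hφ, c, u, ?_, ?_, ?_, ?_⟩
      · linear_combination e0 - r * g0 + g 0 * hr'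
      · linear_combination e1 - r * g1 + g 1 * hr'
      · linear_combination e2 - r * g2 + g 2 * hr'
      · linear_combination e3 - r * g3 + g 3 * hr'

private theorem EL5_row (Q : Matrix (Fin 4) (Fin 4) K) (a b : K) (z : Pt K) (f : Fin 4 → K) :
    (∀ k, z.2 k + (Q + Matrix.diagonal ![a, b, 0, 0]).mulVec z.1 k = f k) ↔
      (z.2 0 + a * z.1 0 + (Q 0 0 * z.1 0 + Q 0 1 * z.1 1 + Q 0 2 * z.1 2 + Q 0 3 * z.1 3) = f 0) ∧
      (z.2 1 + b * z.1 1 + (Q 1 0 * z.1 0 + Q 1 1 * z.1 1 + Q 1 2 * z.1 2 + Q 1 3 * z.1 3) = f 1) ∧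
      (z.2 2 + (Q 2 0 * z.1 0 + Q 2 1 * z.1 1 + Q 2 2 * z.1 2 + Q 2 3 * z.1 3) = f 2) ∧
      (z.2 3 + (Q 3 0 * z.1 0 + Q 3 1 * z.1 1 + Q 3 2 * z.1 2 + Q 3 3 * z.1 3) = f 3) := by
  obtain ⟨hne, e0, e1, e2, e3⟩ := EL4_ent Q a b
  simp only [Fin.sum_univ_four, Matrix.mulVec, dotProduct]
  constructor
  · intro h
    have h0 := h 0
    have h1 := h 1
    have h2 := h 2
    have h3 := h 3
    simp only [e0, e1, e2, e3, hne 0 1 (by decide), hne 0 2 (by decide), hne 0 3 (by decide),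
      hne 1 0 (by decide), hne 1 2 (by decide), hne 1 3 (by decide), hne 2 0 (by decide), hne 2 1 (by decide),
      hne 2 3 (by decide), hne 3 0 (by decide), hne 3 1 (by decide), hne 3 2 (by decide)] at h0 h1 h2 h3
    exact ⟨by linear_combination h0, by linear_combination h1, by linear_combination h2,
      by linear_combination h3⟩
  · rintro ⟨h0, h1, h2, h3⟩ k
    fin_cases k
    · show z.2 0 + ((Q + Matrix.diagonal ![a, b, 0, 0]) 0 0 * z.1 0 +
        (Q + Matrix.diagonal ![a, b, 0, 0]) 0 1 * z.1 1 + (Q + Matrix.diagonal ![a, b, 0, 0]) 0 2 * z.1 2 +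
        (Q + Matrix.diagonal ![a, b, 0, 0]) 0 3 * z.1 3) = f 0
      rw [e0, hne 0 1 (by decide), hne 0 2 (by decide), hne 0 3 (by decide)]
      linear_combination h0
    · show z.2 1 + ((Q + Matrix.diagonal ![a, b, 0, 0]) 1 0 * z.1 0 +
        (Q + Matrix.diagonal ![a, b, 0, 0]) 1 1 * z.1 1 + (Q + Matrix.diagonal ![a, b, 0, 0]) 1 2 * z.1 2 +
        (Q + Matrix.diagonal ![a, b, 0, 0]) 1 3 * z.1 3) = f 1
      rw [e1, hne 1 0 (by decide), hne 1 2 (by decide), hne 1 3 (by decide)]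
      linear_combination h1
    · show z.2 2 + ((Q + Matrix.diagonal ![a, b, 0, 0]) 2 0 * z.1 0 +
        (Q + Matrix.diagonal ![a, b, 0, 0]) 2 1 * z.1 1 + (Q + Matrix.diagonal ![a, b, 0, 0]) 2 2 * z.1 2 +
        (Q + Matrix.diagonal ![a, b, 0, 0]) 2 3 * z.1 3) = f 2
      rw [e2, hne 2 0 (by decide), hne 2 1 (by decide), hne 2 3 (by decide)]
      linear_combination h2
    · show z.2 3 + ((Q + Matrix.diagonal ![a, b, 0, 0]) 3 0 * z.1 0 +
        (Q + Matrix.diagonal ![a, b, 0, 0]) 3 1 * z.1 1 + (Q + Matrix.diagonal ![a, b, 0, 0]) 3 2 * z.1 2 +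
        (Q + Matrix.diagonal ![a, b, 0, 0]) 3 3 * z.1 3) = f 3
      rw [e3, hne 3 0 (by decide), hne 3 1 (by decide), hne 3 2 (by decide)]
      linear_combination h3

/-- MODULE EL5.  The same for `S = 0`.

Proof.  As in `P3.elim2`.  (→) First kind: the difference of the components `0` and `1` gives `g · j = - r S = 0`, and
`p + (Q + diag(a, b, 0, 0)) j = c + u φ - r g`.  Second kind: `r g = c + u φ - const`, `r ≠ 0`.  (←) If `g = c + u φ`, then
`v · g = 0`, so `x = 0`, and `w = ((1, -1, 0, 0), 0)` (second kind, `r = 1`) satisfies `LamF φ Q w` (`Q v = g`).  In the other case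
put `r = -w` (`w` the coefficient of `g`): `x r = P 0 - P 1` from the difference of the components `0`, `1`. -/
theorem elim5 (φ : Fin 4 → K) (hφ : φ 0 = φ 1) (Q : Matrix (Fin 4) (Fin 4) K) (hQ : Q.IsSymm) (a b x : K)
    (g : Fin 4 → K) (hg : ∀ k, g k = Q k 0 - Q k 1) (hS : x + (g 0 - g 1) = 0) (B : Set (Pt K)) :
    (∃ z ∈ bp a b x B, LamF φ Q z) ↔
      (∃ c u : K, ∀ k, g k = c + u * φ k) ∨ ∃ z ∈ B, ∑ k, z.1 k = 0 ∧ ∑ k, φ k * z.1 k = 0 ∧
        ∑ k, g k * z.1 k = 0 ∧ ∃ c u w : K, ∀ k, z.2 k + (Q + Matrix.diagonal ![a, b, 0, 0]).mulVec z.1 k =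
          c + u * φ k + w * g k := by
  obtain ⟨s01, s02, s03, s12, s13, s23⟩ := EL4_sym hQ
  have g0 := hg 0
  have g1 := hg 1
  have g2 := hg 2
  have g3 := hg 3
  have hrow : ∀ z : Pt K, (∃ c u w : K, ∀ k, z.2 k +
      (Q + Matrix.diagonal ![a, b, 0, 0]).mulVec z.1 k = c + u * φ k + w * g k) ↔ ∃ c u w : K,
      (z.2 0 + a * z.1 0 + (Q 0 0 * z.1 0 + Q 0 1 * z.1 1 + Q 0 2 * z.1 2 + Q 0 3 * z.1 3) =
        c + u * φ 0 + w * g 0) ∧
      (z.2 1 + b * z.1 1 + (Q 1 0 * z.1 0 + Q 1 1 * z.1 1 + Q 1 2 * z.1 2 + Q 1 3 * z.1 3) =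
        c + u * φ 1 + w * g 1) ∧
      (z.2 2 + (Q 2 0 * z.1 0 + Q 2 1 * z.1 1 + Q 2 2 * z.1 2 + Q 2 3 * z.1 3) =
        c + u * φ 2 + w * g 2) ∧
      (z.2 3 + (Q 3 0 * z.1 0 + Q 3 1 * z.1 1 + Q 3 2 * z.1 2 + Q 3 3 * z.1 3) =
        c + u * φ 3 + w * g 3) := by
    intro z
    constructor
    · rintro ⟨c, u, w, h⟩
      exact ⟨c, u, w, (EL5_row Q a b z (fun k => c + u * φ k + w * g k)).1 h⟩
    · rintro ⟨c, u, w, h⟩
      exact ⟨c, u, w, (EL5_row Q a b z (fun k => c + u * φ k + w * g k)).2 h⟩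
  simp only [hrow, Fin.sum_univ_four]
  simp only [s01, s02, s03, s12, s13, s23] at g0 g1 g2 g3 ⊢
  constructor
  · rintro ⟨w, hw, hL⟩
    rw [EL4_lamF] at hL
    simp only [s01, s02, s03, s12, s13, s23] at hL
    obtain ⟨hs, hφj, c, u, e0, e1, e2, e3⟩ := hL
    rcases hw with ⟨z, hz, r, hr, rfl⟩ | ⟨r, c', hr0, hxr, rfl⟩
    · simp only [Matrix.cons_val_zero, Matrix.cons_val_one, Matrix.cons_val] at hs hφj e0 e1 e2 e3
      right
      refine ⟨z, hz, by linear_combination hs, by linear_combination hφj - r * hφ, ?_,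
        c, u, -r, ?_, ?_, ?_, ?_⟩
      · rw [g0, g1] at hS
        rw [g0, g1, g2, g3]
        linear_combination e0 - e1 + hr - r * hS + u * hφ
      · linear_combination e0 + r * g0
      · linear_combination e1 + r * g1
      · linear_combination e2 + r * g2
      · linear_combination e3 + r * g3
    · left
      simp only [Matrix.cons_val_zero, Matrix.cons_val_one, Matrix.cons_val] at hs e0 e1 e2 e3
      have key : ∀ k, g k = r⁻¹ * (c - c') + r⁻¹ * u * φ k := by
        have h : ∀ k, r * g k = c - c' + u * φ k := by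
          intro k
          fin_cases k
          · show r * g 0 = c - c' + u * φ 0
            rw [g0]
            linear_combination e0
          · show r * g 1 = c - c' + u * φ 1
            rw [g1]
            linear_combination e1
          · show r * g 2 = c - c' + u * φ 2
            rw [g2]
            linear_combination e2
          · show r * g 3 = c - c' + u * φ 3
            rw [g3]
            linear_combination e3
        intro k
        have h2 : g k = r⁻¹ * (r * g k) := by rw [inv_mul_cancel_left₀ hr0]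
        rw [h2, h]
        ring
      exact ⟨_, _, key⟩
  · rintro (⟨c, u, hc⟩ | ⟨z, hz, hs, hφj, hgj, c, u, w, e0, e1, e2, e3⟩)
    · refine ⟨(![1, -1, 0, 0], fun _ => 0), Or.inr ⟨1, 0, one_ne_zero, ?_, rfl⟩, ?_⟩
      · rw [hc 0, hc 1] at hS
        linear_combination hS - u * hφ
      · rw [EL4_lamF]
        simp only [Matrix.cons_val_zero, Matrix.cons_val_one, Matrix.cons_val, s01, s02, s03, s12, s13, s23]
        rw [hc 0] at g0
        rw [hc 1] at g1
        rw [hc 2] at g2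
        rw [hc 3] at g3
        refine ⟨by ring, by linear_combination hφ, c, u, ?_, ?_, ?_, ?_⟩
        · linear_combination -g0
        · linear_combination -g1
        · linear_combination -g2
        · linear_combination -g3
    · refine ⟨(![z.1 0 + -w, z.1 1 - -w, z.1 2, z.1 3],
          ![z.2 0 + a * z.1 0, z.2 1 + b * z.1 1, z.2 2, z.2 3]), Or.inl ⟨z, hz, -w, ?_, rfl⟩, ?_⟩
      · rw [g0, g1] at hS
        rw [g0, g1, g2, g3] at hgj
        rw [g0] at e0
        rw [g1] at e1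
        linear_combination -w * hS - e0 + e1 + hgj - u * hφ
      · rw [EL4_lamF]
        simp only [Matrix.cons_val_zero, Matrix.cons_val_one, Matrix.cons_val, s01, s02, s03, s12, s13, s23]
        refine ⟨by linear_combination hs, by linear_combination hφj - w * hφ, c, u, ?_, ?_, ?_, ?_⟩
        · linear_combination e0 + w * g0
        · linear_combination e1 + w * g1
        · linear_combination e2 + w * g2
        · linear_combination e3 + w * g3

/-- MODULE PRP.  Three independent vectors and their orthogonal line.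

Proof.  The linear map `i ↦ (∑ i, φ · i, g · i)` from `K⁴` to `K³` has rank `3` (the vectors `1`, `φ`, `g` are independent:
if `x + y φ + z g = 0`, then `z = 0` by `hg`, `y = 0` by `hφ`, `x = 0`), so its kernel is a line; it contains `j ≠ 0`.  The vectors
orthogonal to `j` are a space of dimension `3` which contains the span of `1`, `φ`, `g`.  (Or elementary: all is explicit in
`K⁴`; e.g. `Submodule.eq_of_le_of_finrank_eq`, `LinearMap.finrank_range_add_finrank_ker`.) -/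
theorem perp (φ g j : Fin 4 → K) (hφ : ¬ ∃ c, ∀ k, φ k = c) (hg : ¬ ∃ c u : K, ∀ k, g k = c + u * φ k)
    (hj : j ≠ 0) (h1 : ∑ k, j k = 0) (h2 : ∑ k, φ k * j k = 0) (h3 : ∑ k, g k * j k = 0) :
    (∀ i : Fin 4 → K, ∑ k, i k = 0 → ∑ k, φ k * i k = 0 → ∑ k, g k * i k = 0 → ∃ t : K, i = t • j) ∧
    ∀ p : Fin 4 → K, ∑ k, j k * p k = 0 → ∃ c u w : K, ∀ k, p k = c + u * φ k + w * g k := by
  have e4 : ∀ f : Fin 4 → K, ∑ k, f k = f 0 + f 1 + f 2 + f 3 := fun f => Fin.sum_univ_four f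
  let M : Fin 3 → Fin 4 → K := ![fun _ => 1, φ, g]
  have hM0 : M 0 = fun _ => 1 := rfl
  have hM1 : M 1 = φ := rfl
  have hM2 : M 2 = g := rfl
  have hli : LinearIndependent K M := by
    rw [Fintype.linearIndependent_iff]
    intro c hc
    rw [Fin.sum_univ_three, hM0, hM1, hM2] at hc
    have hk : ∀ k, c 0 + c 1 * φ k + c 2 * g k = 0 := by
      intro k
      have := congrFun hc k
      simpa only [Pi.add_apply, Pi.smul_apply, smul_eq_mul, mul_one, Pi.zero_apply] using this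
    have h2' : c 2 = 0 := by
      by_contra hne
      apply hg
      refine ⟨-(c 0 / c 2), -(c 1 / c 2), fun k => ?_⟩
      have := hk k
      field_simp
      linear_combination this
    have h1' : c 1 = 0 := by
      by_contra hne
      apply hφ
      refine ⟨-(c 0 / c 1), fun k => ?_⟩
      have := hk k
      rw [h2', zero_mul, add_zero] at this
      field_simp
      linear_combination this
    have h0' : c 0 = 0 := by
      have := hk 0
      rw [h2', h1', zero_mul, zero_mul, add_zero, add_zero] at this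
      exact this
    intro i
    fin_cases i
    · exact h0'
    · exact h1'
    · exact h2'
  have hMj : ∀ i : Fin 3, ∑ k, j k * M i k = 0 := by
    intro i
    fin_cases i
    · show ∑ k, j k * (1 : K) = 0
      simpa only [mul_one] using h1
    · show ∑ k, j k * φ k = 0
      rw [← h2]
      exact Finset.sum_congr rfl fun k _ => mul_comm _ _
    · show ∑ k, j k * g k = 0
      rw [← h3]
      exact Finset.sum_congr rfl fun k _ => mul_comm _ _
  constructor
  · intro i i1 i2 i3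
    have hr : (Matrix.of M).rank = 3 := by
      have h : LinearIndependent K (Matrix.of M).row := hli
      have := h.rank_matrix
      rw [this, Fintype.card_fin]
    have hker : Module.finrank K (LinearMap.ker (Matrix.of M).mulVecLin) = 1 := by
      have h := LinearMap.finrank_range_add_finrank_ker (Matrix.of M).mulVecLin
      have h' : Module.finrank K (LinearMap.range (Matrix.of M).mulVecLin) = 3 := hr
      rw [h', Module.finrank_fintype_fun_eq_card, Fintype.card_fin] at h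
      omega
    have hmem : ∀ w : Fin 4 → K, ∑ k, w k = 0 → ∑ k, φ k * w k = 0 → ∑ k, g k * w k = 0 →
        w ∈ LinearMap.ker (Matrix.of M).mulVecLin := by
      intro w w1 w2 w3
      rw [LinearMap.mem_ker, Matrix.mulVecLin_apply]
      funext l
      fin_cases l
      · show ∑ k, (1 : K) * w k = 0
        simpa only [one_mul] using w1
      · exact w2
      · exact w3
    have hj' : (⟨j, hmem j h1 h2 h3⟩ : LinearMap.ker (Matrix.of M).mulVecLin) ≠ 0 := by
      intro h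
      exact hj (congrArg Subtype.val h)
    obtain ⟨t, ht⟩ := (finrank_eq_one_iff_of_nonzero' _ hj').1 hker ⟨i, hmem i i1 i2 i3⟩
    exact ⟨t, (congrArg Subtype.val ht).symm⟩
  · intro p hp
    have hle : Submodule.span K (Set.range M) ≤
        LinearMap.ker (Fintype.linearCombination K j : (Fin 4 → K) →ₗ[K] K) := by
      rw [Submodule.span_le]
      rintro w ⟨i, rfl⟩
      show (Fintype.linearCombination K j : (Fin 4 → K) →ₗ[K] K) (M i) = 0
      rw [Fintype.linearCombination_apply]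
      rw [← hMj i]
      exact Finset.sum_congr rfl fun k _ => by rw [smul_eq_mul, mul_comm]
    have hd : Module.finrank K (Submodule.span K (Set.range M)) = 3 := by
      rw [finrank_span_eq_card hli, Fintype.card_fin]
    have hk : Module.finrank K
        (LinearMap.ker (Fintype.linearCombination K j : (Fin 4 → K) →ₗ[K] K)) = 3 := by
      have h := LinearMap.finrank_range_add_finrank_ker
        (Fintype.linearCombination K j : (Fin 4 → K) →ₗ[K] K)
      have hsur : LinearMap.range (Fintype.linearCombination K j : (Fin 4 → K) →ₗ[K] K) = ⊤ := by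
        obtain ⟨k, hk⟩ : ∃ k, j k ≠ 0 := by
          by_contra hc
          apply hj
          funext k
          by_contra hk
          exact hc ⟨k, hk⟩
        rw [LinearMap.range_eq_top]
        intro c
        refine ⟨Pi.single k (c / j k), ?_⟩
        rw [Fintype.linearCombination_apply, Finset.sum_eq_single k]
        · rw [Pi.single_eq_same, smul_eq_mul, div_mul_cancel₀ _ hk]
        · intro l _ hl
          rw [Pi.single_eq_of_ne hl, zero_smul]
        · intro h'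
          exact absurd (Finset.mem_univ k) h'
      rw [hsur, finrank_top, Module.finrank_self, Module.finrank_fintype_fun_eq_card,
        Fintype.card_fin] at h
      omega
    have heq := Submodule.eq_of_le_of_finrank_eq hle (hd.trans hk.symm)
    have hpm : p ∈ Submodule.span K (Set.range M) := by
      rw [heq, LinearMap.mem_ker, Fintype.linearCombination_apply, ← hp]
      exact Finset.sum_congr rfl fun k _ => by rw [smul_eq_mul, mul_comm]
    obtain ⟨c, hc⟩ := (Submodule.mem_span_range_iff_exists_fun K).1 hpm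
    refine ⟨c 0, c 1, c 2, fun k => ?_⟩
    rw [Fin.sum_univ_three, hM0, hM1, hM2] at hc
    have := congrFun hc k
    rw [← this]
    simp only [Pi.add_apply, Pi.smul_apply, smul_eq_mul, mul_one]

/-- MODULE EEL.  Elimination of the rung for `E j`, `j` not a multiple of `v = e₀ - e₁`.

Proof.  First kind: `w = (i + r v, P)` with `(i, p) ∈ B`, `P = (p 0 + a i 0, p 1 + b i 1, p 2, p 3)`, `x r = P 0 - P 1`.
`i + r v = t j` means `i = t j + u v` with `u = - r`.  `x r = P 0 - P 1` is the equation `p 0 - p 1 + ((a j 0 - b j 1) t +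
(x + a + b) u) = 0`, and `∑ j k (P k + y k t j k) = 0` is the other one.  Second kind: `(r, -r, 0, 0) = t j` is impossible for
`r ≠ 0`, as `j 2` or `j 3` is not `0`. -/
theorem elimE (j : Fin 4 → K) (hj : j 2 ≠ 0 ∨ j 3 ≠ 0) (y : Fin 4 → K) (a b x : K) (B : Set (Pt K)) :
    (∃ z ∈ bp a b x B, (∃ t : K, z.1 = t • j) ∧ ∑ k, j k * (z.2 k + y k * z.1 k) = 0) ↔
      ∃ z ∈ B, ∃ t u : K, (∀ k, z.1 k = t * j k + u * vv k) ∧
        ∑ k, j k * z.2 k + ((∑ k, y k * j k ^ 2 + a * j 0 ^ 2 + b * j 1 ^ 2) * t + (a * j 0 - b * j 1) * u) = 0 ∧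
        z.2 0 - z.2 1 + ((a * j 0 - b * j 1) * t + (x + a + b) * u) = 0 := by
  have v0 : (vv : Fin 4 → K) 0 = 1 := rfl
  have v1 : (vv : Fin 4 → K) 1 = -1 := rfl
  have v2 : (vv : Fin 4 → K) 2 = 0 := rfl
  have v3 : (vv : Fin 4 → K) 3 = 0 := rfl
  simp only [Fin.sum_univ_four]
  constructor
  · rintro ⟨w, hw, ⟨t, ht⟩, hs⟩
    rcases hw with ⟨z, hz, r, hr, rfl⟩ | ⟨r, c', hr0, hxr, rfl⟩
    · have e0 := congrFun ht 0
      have e1 := congrFun ht 1
      have e2 := congrFun ht 2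
      have e3 := congrFun ht 3
      simp only [Pi.smul_apply, smul_eq_mul, Matrix.cons_val_zero, Matrix.cons_val_one,
        Matrix.cons_val] at e0 e1 e2 e3 hs
      refine ⟨z, hz, t, -r, ?_, ?_, ?_⟩
      · intro k
        fin_cases k
        · show z.1 0 = t * j 0 + -r * vv 0
          rw [v0]
          linear_combination e0
        · show z.1 1 = t * j 1 + -r * vv 1
          rw [v1]
          linear_combination e1
        · show z.1 2 = t * j 2 + -r * vv 2
          rw [v2]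
          linear_combination e2
        · show z.1 3 = t * j 3 + -r * vv 3
          rw [v3]
          linear_combination e3
      · linear_combination hs - (y 0 * j 0 + a * j 0) * e0 - (y 1 * j 1 + b * j 1) * e1 -
          y 2 * j 2 * e2 - y 3 * j 3 * e3
      · linear_combination (-1 : K) * hr - a * e0 + b * e1
    · exfalso
      have e2 := congrFun ht 2
      have e3 := congrFun ht 3
      have e0 := congrFun ht 0
      simp only [Pi.smul_apply, smul_eq_mul, Matrix.cons_val_zero, Matrix.cons_val] at e0 e2 e3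
      rcases hj with h | h
      · have ht0 : t = 0 := (mul_eq_zero.1 e2.symm).resolve_right h
        rw [ht0, zero_mul] at e0
        exact hr0 e0
      · have ht0 : t = 0 := (mul_eq_zero.1 e3.symm).resolve_right h
        rw [ht0, zero_mul] at e0
        exact hr0 e0
  · rintro ⟨z, hz, t, u, hk, h1, h2⟩
    have e0 := hk 0
    have e1 := hk 1
    have e2 := hk 2
    have e3 := hk 3
    rw [v0] at e0
    rw [v1] at e1
    rw [v2] at e2
    rw [v3] at e3
    refine ⟨(![z.1 0 + -u, z.1 1 - -u, z.1 2, z.1 3],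
          ![z.2 0 + a * z.1 0, z.2 1 + b * z.1 1, z.2 2, z.2 3]), Or.inl ⟨z, hz, -u, ?_, rfl⟩, ⟨t, ?_⟩, ?_⟩
    · linear_combination (-1 : K) * h2 - a * e0 + b * e1
    · funext k
      fin_cases k
      · show z.1 0 + -u = t * j 0
        linear_combination e0
      · show z.1 1 - -u = t * j 1
        linear_combination e1
      · show z.1 2 = t * j 2
        linear_combination e2
      · show z.1 3 = t * j 3
        linear_combination e3
    · simp only [Matrix.cons_val_zero, Matrix.cons_val_one, Matrix.cons_val]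
      linear_combination h1 + (y 0 * j 0 + a * j 0) * e0 + (y 1 * j 1 + b * j 1) * e1 +
          y 2 * j 2 * e2 + y 3 * j 3 * e3

private theorem EGL_mv (Q : Matrix (Fin 4) (Fin 4) K) (y w : Fin 4 → K) (k : Fin 4) :
    (Q + Matrix.diagonal y).mulVec w k =
      (Q k 0 * w 0 + Q k 1 * w 1 + Q k 2 * w 2 + Q k 3 * w 3) + y k * w k := by
  rw [Matrix.add_mulVec, Pi.add_apply, Matrix.mulVec_diagonal]
  simp only [Matrix.mulVec, dotProduct, Fin.sum_univ_four]

private theorem EGL_m (Q : Matrix (Fin 4) (Fin 4) K) (w : Fin 4 → K) (k : Fin 4) :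
    Q.mulVec w k = (Q k 0 * w 0 + Q k 1 * w 1 + Q k 2 * w 2 + Q k 3 * w 3) := by
  simp only [Matrix.mulVec, dotProduct, Fin.sum_univ_four]

private theorem EGL_div (j2 j3 p q : K) (hj : j2 ≠ 0 ∨ j3 ≠ 0) (h : j3 * p = j2 * q) :
    ∃ t : K, p = t * j2 ∧ q = t * j3 := by
  rcases hj with h2 | h3
  · refine ⟨p / j2, by field_simp, ?_⟩
    have : q = p / j2 * j3 ↔ j2 * q = j3 * p := by
      constructor
      · intro hq
        rw [hq]
        field_simp
      · intro hq
        field_simp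
        linear_combination hq
    exact this.2 h.symm
  · refine ⟨q / j3, ?_, by field_simp⟩
    field_simp
    linear_combination h

/-- MODULE EGL.  `LamF` for `φ = (0, 0, j 3, - j 2)` in terms of the plane spanned by `j`, `v`.

Proof.  `φ` is not constant.  The vectors `i` with `∑ i = 0`, `φ · i = 0` are the plane spanned by `j` and `v` (`∑ j = 0`;
`(j 2, j 3) ≠ 0`: `i 2 = t j 2`, `i 3 = t j 3` from `j 3 i 2 = j 2 i 3`, and then `u = i 0 - t j 0`).  A vector `P` is of the form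
`c + u φ` iff `j · P = 0` and `v · P = 0` (`P 0 = P 1 = c`, and `j 2 (P 2 - c) + j 3 (P 3 - c) = 0` iff `(P 2 - c, P 3 - c)` is a
multiple of `(j 3, - j 2)`).  Apply this to `P = z.2 + (Q + diag y) z.1`, `z.1 = t j + u v`, `Q` symmetric. -/
theorem lamF_plane (j : Fin 4 → K) (h1 : ∑ k, j k = 0) (hj : j 2 ≠ 0 ∨ j 3 ≠ 0) (Q : Matrix (Fin 4) (Fin 4) K)
    (hQ : Q.IsSymm) (y : Fin 4 → K) (z : Pt K) :
    LamF ![0, 0, j 3, - j 2] (Q + Matrix.diagonal y) z ↔ ∃ t u : K, (∀ k, z.1 k = t * j k + u * vv k) ∧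
      ∑ k, j k * z.2 k + ((∑ k, j k * Q.mulVec j k + ∑ k, y k * j k ^ 2) * t +
        (∑ k, j k * Q.mulVec vv k + (y 0 * j 0 - y 1 * j 1)) * u) = 0 ∧
      z.2 0 - z.2 1 + ((∑ k, j k * Q.mulVec vv k + (y 0 * j 0 - y 1 * j 1)) * t +
        (∑ k, vv k * Q.mulVec vv k + (y 0 + y 1)) * u) = 0 := by
  have v0 : (vv : Fin 4 → K) 0 = 1 := rfl
  have v1 : (vv : Fin 4 → K) 1 = -1 := rfl
  have v2 : (vv : Fin 4 → K) 2 = 0 := rfl
  have v3 : (vv : Fin 4 → K) 3 = 0 := rfl
  have f0 : (![0, 0, j 3, - j 2] : Fin 4 → K) 0 = 0 := rfl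
  have f1 : (![0, 0, j 3, - j 2] : Fin 4 → K) 1 = 0 := rfl
  have f2 : (![0, 0, j 3, - j 2] : Fin 4 → K) 2 = j 3 := rfl
  have f3 : (![0, 0, j 3, - j 2] : Fin 4 → K) 3 = - j 2 := rfl
  have s01 := hQ.apply 1 0
  have s02 := hQ.apply 2 0
  have s03 := hQ.apply 3 0
  have s12 := hQ.apply 2 1
  have s13 := hQ.apply 3 1
  have s23 := hQ.apply 3 2
  unfold LamF
  simp only [EGL_mv]
  simp only [EGL_m, Fin.sum_univ_four] at h1 ⊢
  simp only [f0, f1, f2, f3, v0, v1, v2, v3]
  constructor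
  · rintro ⟨g1, g2, c, w, hk⟩
    have k0 := hk 0
    have k1 := hk 1
    have k2 := hk 2
    have k3 := hk 3
    rw [f0] at k0
    rw [f1] at k1
    rw [f2] at k2
    rw [f3] at k3
    obtain ⟨t, t2, t3⟩ := EGL_div (j 2) (j 3) (z.1 2) (z.1 3) hj (by linear_combination g2)
    have e0 : z.1 0 = t * j 0 + (z.1 0 - t * j 0) := by ring
    have e1 : z.1 1 = t * j 1 - (z.1 0 - t * j 0) := by linear_combination g1 - t2 - t3 - t * h1
    generalize z.1 0 - t * j 0 = u at e0 e1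
    refine ⟨t, u, ?_, ?_, ?_⟩
    · intro k
      fin_cases k
      · show z.1 0 = t * j 0 + u * vv 0
        rw [v0, e0]
        ring
      · show z.1 1 = t * j 1 + u * vv 1
        rw [v1, e1]
        ring
      · show z.1 2 = t * j 2 + u * vv 2
        rw [v2, t2]
        ring
      · show z.1 3 = t * j 3 + u * vv 3
        rw [v3, t3]
        ring
    · rw [e0, e1, t2, t3] at k0 k1 k2 k3
      linear_combination j 0 * k0 + j 1 * k1 + j 2 * k2 + j 3 * k3 + c * h1
    · rw [e0, e1, t2, t3] at k0 k1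
      simp only [s01, s02, s03, s12, s13] at k0 k1 ⊢
      linear_combination k0 - k1
  · rintro ⟨t, u, hk, h2, h3⟩
    have e0 := hk 0
    have e1 := hk 1
    have e2 := hk 2
    have e3 := hk 3
    rw [v0] at e0
    rw [v1] at e1
    rw [v2] at e2
    rw [v3] at e3
    refine ⟨?_, ?_, ?_⟩
    · rw [e0, e1, e2, e3]
      linear_combination t * h1
    · rw [e0, e1, e2, e3]
      ring
    · obtain ⟨P0, hP0⟩ : ∃ P : K, P = z.2 0 + (Q 0 0 * z.1 0 + Q 0 1 * z.1 1 + Q 0 2 * z.1 2 +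
        Q 0 3 * z.1 3 + y 0 * z.1 0) := ⟨_, rfl⟩
      obtain ⟨P1, hP1⟩ : ∃ P : K, P = z.2 1 + (Q 1 0 * z.1 0 + Q 1 1 * z.1 1 + Q 1 2 * z.1 2 +
        Q 1 3 * z.1 3 + y 1 * z.1 1) := ⟨_, rfl⟩
      obtain ⟨P2, hP2⟩ : ∃ P : K, P = z.2 2 + (Q 2 0 * z.1 0 + Q 2 1 * z.1 1 + Q 2 2 * z.1 2 +
        Q 2 3 * z.1 3 + y 2 * z.1 2) := ⟨_, rfl⟩
      obtain ⟨P3, hP3⟩ : ∃ P : K, P = z.2 3 + (Q 3 0 * z.1 0 + Q 3 1 * z.1 1 + Q 3 2 * z.1 2 +
        Q 3 3 * z.1 3 + y 3 * z.1 3) := ⟨_, rfl⟩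
      have a1 : P0 = P1 := by
        rw [hP0, hP1, e0, e1, e2, e3]
        simp only [s01, s02, s03, s12, s13] at h3 ⊢
        linear_combination h3
      have a2 : j 0 * P0 + j 1 * P1 + j 2 * P2 + j 3 * P3 = 0 := by
        rw [hP0, hP1, hP2, hP3, e0, e1, e2, e3]
        linear_combination h2
      obtain ⟨w, w2, w3⟩ := EGL_div (j 3) (-(j 2)) (P2 - P0) (P3 - P0)
        (hj.symm.imp id neg_ne_zero.2) (by linear_combination P0 * h1 - a2 - j 1 * a1)
      refine ⟨P0, w, fun k => ?_⟩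
      fin_cases k
      · show z.2 0 + (Q 0 0 * z.1 0 + Q 0 1 * z.1 1 + Q 0 2 * z.1 2 +
          Q 0 3 * z.1 3 + y 0 * z.1 0) = P0 + w * (![0, 0, j 3, - j 2] : Fin 4 → K) 0
        rw [f0, ← hP0]
        ring
      · show z.2 1 + (Q 1 0 * z.1 0 + Q 1 1 * z.1 1 + Q 1 2 * z.1 2 +
          Q 1 3 * z.1 3 + y 1 * z.1 1) = P0 + w * (![0, 0, j 3, - j 2] : Fin 4 → K) 1
        rw [f1, ← hP1, a1]
        ring
      · show z.2 2 + (Q 2 0 * z.1 0 + Q 2 1 * z.1 1 + Q 2 2 * z.1 2 +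
          Q 2 3 * z.1 3 + y 2 * z.1 2) = P0 + w * (![0, 0, j 3, - j 2] : Fin 4 → K) 2
        rw [f2, ← hP2]
        linear_combination w2
      · show z.2 3 + (Q 3 0 * z.1 0 + Q 3 1 * z.1 1 + Q 3 2 * z.1 2 +
          Q 3 3 * z.1 3 + y 3 * z.1 3) = P0 + w * (![0, 0, j 3, - j 2] : Fin 4 → K) 3
        rw [f3, ← hP3]
        linear_combination w3

end Pool.Agent.Prm3
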