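import Pool.Agent.Prm3.Fn

/-!
# The symmetries of the ports on the basic functionals
-/

set_option autoImplicit false

open scoped BigOperators

namespace Pool.Agent.Prm3

open Pool.Agent.KG Pool.Agent.P3 Pool.Agent.PL3

variable {K : Type} [Field K]

/-- MODULE SYA (1).  `pm σ (pm τ B) = pm (σ * τ) B` or `pm (τ * σ) B`, and `(finRotate 4) ^ 4 = 1`: unfold `pm`, `ro`; the
composition of four `(finRotate 4).symm` is the identity (`fin_cases`, `decide`). -/
theorem ro4 (X : Set (Pt K) → ℤ) : ro (ro (ro (ro X))) = X := by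
  have h : ∀ f : Fin 4 → K, (((f ∘ (finRotate 4).symm) ∘ (finRotate 4).symm) ∘
      (finRotate 4).symm) ∘ (finRotate 4).symm = f := by
    intro f
    funext k
    show f ((finRotate 4).symm ((finRotate 4).symm ((finRotate 4).symm ((finRotate 4).symm k)))) = f k
    refine congrArg f ?_
    revert k
    decide
  funext B
  show X (pm (finRotate 4) (pm (finRotate 4) (pm (finRotate 4) (pm (finRotate 4) B)))) = X B
  refine congrArg X ?_
  ext w
  show ((((w.1 ∘ (finRotate 4).symm) ∘ (finRotate 4).symm) ∘ (finRotate 4).symm) ∘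
    (finRotate 4).symm, (((w.2 ∘ (finRotate 4).symm) ∘ (finRotate 4).symm) ∘
      (finRotate 4).symm) ∘ (finRotate 4).symm) ∈ B ↔ w ∈ B
  rw [h, h]

private theorem SYA_sw (B : Set (Pt K)) : pm sw (pm sw B) = B := by
  have h : ∀ f : Fin 4 → K, (f ∘ sw.symm) ∘ sw.symm = f := by
    intro f
    funext k
    show f (sw.symm (sw.symm k)) = f k
    refine congrArg f ?_
    revert k
    decide
  ext w
  show ((w.1 ∘ sw.symm) ∘ sw.symm, (w.2 ∘ sw.symm) ∘ sw.symm) ∈ B ↔ w ∈ B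
  rw [h, h]

/-- MODULE SYA (2). -/
theorem sg2 (X : Set (Pt K) → ℤ) : sg (sg X) = X := by
  funext B
  show X (pm sw (pm sw B)) = X B
  rw [SYA_sw]

theorem ro_add (X Y : Set (Pt K) → ℤ) (B : Set (Pt K)) : ro (fun B => X B + Y B) B = ro X B + ro Y B := rfl

theorem ro_smul (c : ℤ) (X : Set (Pt K) → ℤ) (B : Set (Pt K)) : ro (fun B => c * X B) B = c * ro X B := rfl

theorem sg_add (X Y : Set (Pt K) → ℤ) (B : Set (Pt K)) : sg (fun B => X B + Y B) B = sg X B + sg Y B := rfl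

theorem sg_smul (c : ℤ) (X : Set (Pt K) → ℤ) (B : Set (Pt K)) : sg (fun B => c * X B) B = c * sg X B := rfl

variable [Fintype K]

omit [Field K] [Fintype K] in
private theorem SYB_sw : sw.symm 0 = 1 ∧ sw.symm 1 = 0 ∧ sw.symm 2 = 3 ∧ sw.symm 3 = 2 := by
  refine ⟨?_, ?_, ?_, ?_⟩ <;> decide

omit [Fintype K] in
private theorem SYB_sub (a b x : K) (B : Set (Pt K)) : bp a b x (pm sw B) ⊆ pm sw (bp b a x B) := by
  obtain ⟨e0, e1, e2, e3⟩ := SYB_sw
  have hv : ∀ p q r s : K, (![p, q, r, s] : Fin 4 → K) ∘ sw.symm = ![q, p, s, r] := by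
    intro p q r s
    funext k
    rw [Function.comp_apply]
    fin_cases k
    · exact congrArg _ e0
    · exact congrArg _ e1
    · exact congrArg _ e2
    · exact congrArg _ e3
  rintro w (⟨z, hz, r, hr, rfl⟩ | ⟨r, c, hr, hxr, rfl⟩)
  · refine Or.inl ⟨(z.1 ∘ sw.symm, z.2 ∘ sw.symm), hz, -r, ?_, ?_⟩
    · simp only [Function.comp_apply, e0, e1]
      linear_combination -hr
    · refine Prod.ext ?_ ?_
      · show (![z.1 0 + r, z.1 1 - r, z.1 2, z.1 3] : Fin 4 → K) ∘ sw.symm = _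
        rw [hv]
        simp only [Function.comp_apply, e0, e1, e2, e3]
        funext k
        fin_cases k
        · show z.1 1 - r = z.1 1 + -r
          ring
        · show z.1 0 + r = z.1 0 - -r
          ring
        · rfl
        · rfl
      · show (![z.2 0 + a * z.1 0, z.2 1 + b * z.1 1, z.2 2, z.2 3] : Fin 4 → K) ∘ sw.symm = _
        rw [hv]
        simp only [Function.comp_apply, e0, e1, e2, e3]
  · refine Or.inr ⟨-r, c, neg_ne_zero.2 hr, ?_, ?_⟩
    · rw [mul_neg, hxr, neg_zero]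
    · refine Prod.ext ?_ ?_
      · show (![r, -r, 0, 0] : Fin 4 → K) ∘ sw.symm = _
        rw [hv, neg_neg]
      · rfl

omit [Fintype K] in
private theorem SYB_eq (a b x : K) (B : Set (Pt K)) : bp a b x (pm sw B) = pm sw (bp b a x B) := by
  refine Set.Subset.antisymm (SYB_sub a b x B) ?_
  have h1 := SYB_sub b a x (pm sw B)
  rw [SYA_sw] at h1
  intro w hw
  have h2 := h1 hw
  have h3 : w ∈ pm sw (pm sw (bp a b x (pm sw B))) := h2
  rwa [SYA_sw] at h3

/-- MODULE SYB.  The rung at the ports `0`, `1` commutes with the reflection.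

Proof.  `bp a b x (pm sw B) = pm sw (bp b a x B)`: in the first kind replace `r` by `- r`; in the second kind too.  Exchange the
sums over `a` and `b`. -/
theorem R_sg (X : Set (Pt K) → ℤ) (B : Set (Pt K)) : R (sg X) B = sg (R X) B := by
  show ∑ a : K, ∑ b : K, ∑ x : K, X (pm sw (bp a b x B)) =
    ∑ a : K, ∑ b : K, ∑ x : K, X (bp a b x (pm sw B))
  rw [Finset.sum_comm]
  refine Finset.sum_congr rfl fun a _ => Finset.sum_congr rfl fun b _ =>
    Finset.sum_congr rfl fun x _ => ?_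
  rw [SYB_eq]

private theorem SYC_ite {p q : Prop} [Decidable p] [Decidable q] (h : p ↔ q) :
    (if p then (1 : ℤ) else 0) = if q then 1 else 0 := by
  by_cases hp : p
  · rw [if_pos hp, if_pos (h.1 hp)]
  · rw [if_neg hp, if_neg fun h3 => hp (h.2 h3)]

private theorem SYC_all {K : Type} (σ : Equiv.Perm (Fin 4)) (B : Set (Pt K)) (P P' : Pt K → Prop)
    (h : ∀ w, P w ↔ P' (w.1 ∘ σ.symm, w.2 ∘ σ.symm)) : (∀ z ∈ pm σ B, ¬ P z) ↔ ∀ z ∈ B, ¬ P' z := by
  constructor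
  · intro h1 z hz hP
    have h2 : ((z.1 ∘ σ) ∘ σ.symm, (z.2 ∘ σ) ∘ σ.symm) = z := by
      refine Prod.ext ?_ ?_
      · funext k
        simp
      · funext k
        simp
    refine h1 (z.1 ∘ σ, z.2 ∘ σ) ?_ ?_
    · show ((z.1 ∘ σ) ∘ σ.symm, (z.2 ∘ σ) ∘ σ.symm) ∈ B
      rw [h2]
      exact hz
    · rw [h]
      show P' ((z.1 ∘ σ) ∘ σ.symm, (z.2 ∘ σ) ∘ σ.symm)
      rw [h2]
      exact hP
  · intro h1 w hw hP
    exact h1 _ hw ((h w).1 hP)

/-- MODULE SYC (1).  The permutation of the ports on `E` (compare `P3.G_pm`, P3/Prm.lean): reindex the sum over `y` by `σ`. -/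
theorem E_pm (σ : Equiv.Perm (Fin 4)) (j : Fin 4 → K) (B : Set (Pt K)) : E j (pm σ B) = E (j ∘ σ.symm) B := by
  classical
  have hinj : ∀ f f' : Fin 4 → K, f ∘ σ.symm = f' ∘ σ.symm ↔ f = f' := fun f f' =>
    ⟨fun h => σ.symm.surjective.injective_comp_right h, fun h => by rw [h]⟩
  unfold E
  refine Fintype.sum_equiv (Equiv.arrowCongr σ (Equiv.refl K)) _ _ fun y => SYC_ite
    (and_congr (not_congr ?_) ?_)
  · exact (hinj j 0).symm
  · refine SYC_all σ B _ _ fun w => and_congr ⟨fun ⟨t, ht⟩ => ⟨t, ?_⟩, fun ⟨t, ht⟩ => ⟨t, ?_⟩⟩ ?_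
    · show w.1 ∘ σ.symm = (t • j) ∘ σ.symm
      rw [ht]
    · have h2 : w.1 ∘ σ.symm = (t • j) ∘ σ.symm := ht
      exact (hinj _ _).1 h2
    · have h3 : ∑ k, (j ∘ σ.symm) k * ((w.2 ∘ σ.symm) k + (y ∘ σ.symm) k * (w.1 ∘ σ.symm) k) =
          ∑ k, j k * (w.2 k + y k * w.1 k) :=
        Equiv.sum_comp σ.symm fun k => j k * (w.2 k + y k * w.1 k)
      rw [← h3]
      rfl

/-- MODULE SYC (2). -/
theorem J_pm (σ : Equiv.Perm (Fin 4)) (B : Set (Pt K)) : J (pm σ B) = J B := by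
  classical
  unfold J
  refine Finset.sum_congr rfl fun y _ => SYC_ite ?_
  refine SYC_all σ B (fun z => z.1 = 0) (fun z => z.1 = 0) fun w => ?_
  show w.1 = 0 ↔ w.1 ∘ σ.symm = 0
  constructor
  · intro h
    rw [h]
    rfl
  · intro h
    have h2 : w.1 ∘ σ.symm = (0 : Fin 4 → K) ∘ σ.symm := h
    exact σ.symm.surjective.injective_comp_right h2

/-- MODULE SYC (3).  `z.1 = t • (c • j)` iff `z.1 = (t * c) • j`. -/
theorem E_smul (c : K) (hc : c ≠ 0) (j j' : Fin 4 → K) (h : ∀ k, j' k = c * j k) (B : Set (Pt K)) :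
    E j' B = E j B := by
  classical
  have hj : j' = c • j := funext fun k => h k
  have hsum : ∀ f : Fin 4 → K, ∑ k, j' k * f k = c * ∑ k, j k * f k := by
    intro f
    rw [Finset.mul_sum]
    refine Finset.sum_congr rfl fun k _ => ?_
    rw [h]
    ring
  unfold E
  refine Finset.sum_congr rfl fun y _ => SYC_ite (and_congr (not_congr ?_) ?_)
  · rw [hj]
    exact smul_eq_zero_iff_right hc
  · refine forall_congr' fun z => imp_congr_right fun _ => not_congr (and_congr ?_ ?_)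
    · constructor
      · rintro ⟨t, ht⟩
        exact ⟨t * c, by rw [ht, hj, smul_smul]⟩
      · rintro ⟨t, ht⟩
        exact ⟨t * c⁻¹, by rw [ht, hj, smul_smul, mul_assoc, inv_mul_cancel₀ hc, mul_one]⟩
    · rw [hsum (fun k => z.2 k + y k * z.1 k)]
      exact mul_eq_zero_iff_left hc

/-- MODULE SYC (4). -/
theorem E_zero (B : Set (Pt K)) : E (0 : Fin 4 → K) B = 0 := by
  classical
  unfold E
  refine Finset.sum_eq_zero fun y _ => ?_
  rw [if_neg fun h => h.1 rfl]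

omit [Field K] [Fintype K] in
private theorem SYD_rot (a b c d : K) :
    (![a, b, c, d] : Fin 4 → K) ∘ (finRotate 4).symm = ![d, a, b, c] := by
  have e0 : (finRotate 4).symm 0 = 3 := by decide
  have e1 : (finRotate 4).symm 1 = 0 := by decide
  have e2 : (finRotate 4).symm 2 = 1 := by decide
  have e3 : (finRotate 4).symm 3 = 2 := by decide
  funext k
  rw [Function.comp_apply]
  fin_cases k
  · exact congrArg _ e0
  · exact congrArg _ e1
  · exact congrArg _ e2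
  · exact congrArg _ e3

omit [Field K] [Fintype K] in
private theorem SYD_sw (a b c d : K) : (![a, b, c, d] : Fin 4 → K) ∘ sw.symm = ![b, a, d, c] := by
  have e0 : sw.symm 0 = 1 := by decide
  have e1 : sw.symm 1 = 0 := by decide
  have e2 : sw.symm 2 = 3 := by decide
  have e3 : sw.symm 3 = 2 := by decide
  funext k
  rw [Function.comp_apply]
  fin_cases k
  · exact congrArg _ e0
  · exact congrArg _ e1
  · exact congrArg _ e2
  · exact congrArg _ e3

/-- MODULE SYD (1).  `E_pm`, and `![a, b, c, d] ∘ (finRotate 4).symm = ![d, a, b, c]` (see PL3/PWord `rot_vec`). -/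
theorem ro_E (a b c d : K) (B : Set (Pt K)) : ro (E ![a, b, c, d]) B = E ![d, a, b, c] B := by
  unfold ro
  rw [E_pm, SYD_rot]

/-- MODULE SYD (2). -/
theorem sg_E (a b c d : K) (B : Set (Pt K)) : sg (E ![a, b, c, d]) B = E ![b, a, d, c] B := by
  unfold sg
  rw [E_pm, SYD_sw]

theorem ro_J (B : Set (Pt K)) : ro J B = J B := J_pm _ B

theorem sg_J (B : Set (Pt K)) : sg J B = J B := J_pm _ B

/-- MODULE SYD (3).  `P3.G_pm`. -/
theorem ro_G (a b c d : K) (B : Set (Pt K)) : ro (G ![a, b, c, d] 0) B = G ![d, a, b, c] 0 B := by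
  unfold ro
  rw [G_pm, Matrix.submatrix_zero, SYD_rot]
  rfl

/-- MODULE SYD (4). -/
theorem sg_G (a b c d : K) (B : Set (Pt K)) : sg (G ![a, b, c, d] 0) B = G ![b, a, d, c] 0 B := by
  unfold sg
  rw [G_pm, Matrix.submatrix_zero, SYD_sw]
  rfl

/-- MODULE SYE (1).  `PL3.cf_rot`. -/
theorem ro_cf (α β : K) (B : Set (Pt K)) : ro (cf α β) B = cf (-β) (-α) B := cf_rot α β B

/-- MODULE SYE (2).  As `PL3.cf_rot`: `C_pm`, `C_eq_cf`; both invariants of `(mt α β).submatrix sw.symm sw.symm` are the old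
ones. -/
theorem sg_cf (α β : K) (B : Set (Pt K)) : sg (cf α β) B = cf α β B := by
  show C (mt α β) (pm sw B) = _
  rw [C_pm, C_eq_cf _ ((mt_symm α β).submatrix sw.symm)]
  have e0 : sw.symm 0 = 1 := by decide
  have e1 : sw.symm 1 = 0 := by decide
  have e2 : sw.symm 2 = 3 := by decide
  have e3 : sw.symm 3 = 2 := by decide
  refine congrArg₂ (fun a b : K => cf a b B) ?_ ?_
  · unfold al
    simp only [Matrix.submatrix_apply, e0, e1, e2, e3]
    simp [P3.mt]
  · unfold be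
    simp only [Matrix.submatrix_apply, e0, e1, e2, e3]
    simp [P3.mt]

/-- MODULE SYE (3).  From `ro_cf`, `sg_cf` by sums (`H1 = ∑ cf 0 r`, `H2 = ∑ cf r (-r)`, `H3 = ∑ cf r 0`, `PI = ∑ ∑ cf`). -/
theorem ro_H1 (B : Set (Pt K)) : ro H1 B = H3 B := by
  show ∑ r : K, ro (cf 0 r) B = ∑ r : K, cf r 0 B
  refine Fintype.sum_equiv (Equiv.neg K) _ _ fun r => ?_
  rw [ro_cf, neg_zero]
  rfl

theorem ro_H3 (B : Set (Pt K)) : ro H3 B = H1 B := (H1_rot B).symm

theorem ro_H2 (B : Set (Pt K)) : ro H2 B = H2 B := by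
  show ∑ r : K, ro (cf r (-r)) B = ∑ r : K, cf r (-r) B
  refine Finset.sum_congr rfl fun r _ => ?_
  rw [ro_cf, neg_neg]

theorem ro_PI (B : Set (Pt K)) : ro PI B = PI B := by
  show ∑ α : K, ∑ β : K, ro (cf α β) B = ∑ α : K, ∑ β : K, cf α β B
  rw [Finset.sum_comm]
  refine Fintype.sum_equiv (Equiv.neg K) _ _ fun β => ?_
  refine Fintype.sum_equiv (Equiv.neg K) _ _ fun α => ?_
  rw [ro_cf]
  rfl

theorem ro_c0 (B : Set (Pt K)) : ro (cf 0 0) B = cf 0 0 B := by
  rw [ro_cf, neg_zero]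

theorem sg_H1 (B : Set (Pt K)) : sg H1 B = H1 B := by
  show ∑ r : K, sg (cf 0 r) B = ∑ r : K, cf 0 r B
  exact Finset.sum_congr rfl fun r _ => sg_cf 0 r B

theorem sg_H2 (B : Set (Pt K)) : sg H2 B = H2 B := by
  show ∑ r : K, sg (cf r (-r)) B = ∑ r : K, cf r (-r) B
  exact Finset.sum_congr rfl fun r _ => sg_cf r (-r) B

theorem sg_H3 (B : Set (Pt K)) : sg H3 B = H3 B := by
  show ∑ r : K, sg (cf r 0) B = ∑ r : K, cf r 0 B
  exact Finset.sum_congr rfl fun r _ => sg_cf r 0 B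

theorem sg_PI (B : Set (Pt K)) : sg PI B = PI B := by
  show ∑ α : K, ∑ β : K, sg (cf α β) B = ∑ α : K, ∑ β : K, cf α β B
  exact Finset.sum_congr rfl fun α _ => Finset.sum_congr rfl fun β _ => sg_cf α β B

/-- MODULE SYF (1).  `ro_G`, sums over `a`, `b` (exchange them where necessary). -/
theorem ro_Ps (B : Set (Pt K)) : ro Ps B = Ps12 B := (Ps12_eq B).symm

theorem ro_Ps12 (B : Set (Pt K)) : ro Ps12 B = Ps01 B := (Ps01_rot B).symm

theorem ro_Ps01 (B : Set (Pt K)) : ro Ps01 B = Ps30 B := by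
  show ∑ a : K, ∑ b : K, ro (G ![0, 0, a, b] 0) B = ∑ a : K, ∑ b : K, G ![a, 0, 0, b] 0 B
  rw [Finset.sum_comm]
  exact Finset.sum_congr rfl fun b _ => Finset.sum_congr rfl fun a _ => ro_G 0 0 a b B

theorem ro_Ps30 (B : Set (Pt K)) : ro Ps30 B = Ps B := by
  show ∑ a : K, ∑ b : K, ro (G ![a, 0, 0, b] 0) B = ∑ a : K, ∑ b : K, G ![a, b, 0, 0] 0 B
  rw [Finset.sum_comm]
  exact Finset.sum_congr rfl fun b _ => Finset.sum_congr rfl fun a _ => ro_G a 0 0 b B

theorem sg_Ps (B : Set (Pt K)) : sg Ps B = Ps B := by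
  show ∑ a : K, ∑ b : K, sg (G ![a, b, 0, 0] 0) B = ∑ a : K, ∑ b : K, G ![a, b, 0, 0] 0 B
  rw [Finset.sum_comm]
  exact Finset.sum_congr rfl fun b _ => Finset.sum_congr rfl fun a _ => sg_G a b 0 0 B

theorem sg_Ps12 (B : Set (Pt K)) : sg Ps12 B = Ps30 B := by
  show ∑ a : K, ∑ b : K, sg (G ![0, a, b, 0] 0) B = ∑ a : K, ∑ b : K, G ![a, 0, 0, b] 0 B
  exact Finset.sum_congr rfl fun a _ => Finset.sum_congr rfl fun b _ => sg_G 0 a b 0 B

theorem sg_Ps01 (B : Set (Pt K)) : sg Ps01 B = Ps01 B := by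
  show ∑ a : K, ∑ b : K, sg (G ![0, 0, a, b] 0) B = ∑ a : K, ∑ b : K, G ![0, 0, a, b] 0 B
  rw [Finset.sum_comm]
  exact Finset.sum_congr rfl fun b _ => Finset.sum_congr rfl fun a _ => sg_G 0 0 a b B

theorem sg_Ps30 (B : Set (Pt K)) : sg Ps30 B = Ps12 B := by
  show ∑ a : K, ∑ b : K, sg (G ![a, 0, 0, b] 0) B = ∑ a : K, ∑ b : K, G ![0, a, b, 0] 0 B
  exact Finset.sum_congr rfl fun a _ => Finset.sum_congr rfl fun b _ => sg_G a 0 0 b B

/-- MODULE SYG (1).  The strands.  `P3.G_pm`; the matrix `(mt 0 c).submatrix (finRotate 4).symm (finRotate 4).symm` and the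
vector `![1, 1, 0, 0]` (`![1, 0, 0, 1]` shifted) are brought to the normal form by `P3.G_shift` (compare `PL3.T_B3`). -/
theorem ro_B3 (c : K) (B : Set (Pt K)) : ro (B3 c) B = p01 (-c) B := by
  unfold ro B3 p01
  rw [G_pm, SYD_rot]
  have e0 : (finRotate 4).symm 0 = 3 := by decide
  have e1 : (finRotate 4).symm 1 = 0 := by decide
  have e2 : (finRotate 4).symm 2 = 1 := by decide
  have e3 : (finRotate 4).symm 3 = 2 := by decide
  refine G_shift ![1, 1, 0, 0] ![1, 1, 0, 0] 0 (fun k => (add_zero _).symm) (mt (-c) 0) _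
    ![0, 0, 0, -(2 * c)] ![0, 0, 0, c] ![0, 0, 0, c] 0 0 (fun k l => ?_) B
  rw [Matrix.submatrix_apply]
  fin_cases k <;> fin_cases l <;> simp [e0, e1, e2, e3, P3.mt] <;> ring

/-- MODULE SYG (2).  The vector is `![0, 1, 1, 0]`, i.e. `1 - ![1, 0, 0, 1]`: `P3.G_smul` with `- 1` and `P3.G_shift`. -/
theorem ro_p01 (c : K) (B : Set (Pt K)) : ro (p01 c) B = B3 (-c) B := by
  unfold ro B3 p01
  rw [G_pm, SYD_rot]
  have e0 : (finRotate 4).symm 0 = 3 := by decide
  have e1 : (finRotate 4).symm 1 = 0 := by decide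
  have e2 : (finRotate 4).symm 2 = 1 := by decide
  have e3 : (finRotate 4).symm 3 = 2 := by decide
  rw [G_smul (-1) (neg_ne_zero.2 one_ne_zero) ![0, -1, -1, 0] ![0, 1, 1, 0]
    (fun k => by fin_cases k <;> simp)]
  refine G_shift ![1, 0, 0, 1] ![0, -1, -1, 0] (-1) (fun k => by fin_cases k <;> simp)
    (mt 0 (-c)) _ ![-(2 * c), 0, 0, 0] 0 0 ![c, 0, c, 0] ![c, 0, c, 0] (fun k l => ?_) B
  rw [Matrix.submatrix_apply]
  fin_cases k <;> fin_cases l <;> simp [e0, e1, e2, e3, P3.mt] <;> ring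

/-- MODULE SYG (3). -/
theorem ro_bt (B : Set (Pt K)) : ro bt B = bt' B := by
  show (∑ c : K, ro (B3 c) B) - qK K * ro (B3 0) B = (∑ r : K, p01 r B) - qK K * p01 0 B
  rw [ro_B3, neg_zero]
  refine congrArg (fun x : ℤ => x - qK K * p01 0 B) ?_
  refine Fintype.sum_equiv (Equiv.neg K) _ _ fun c => ?_
  rw [ro_B3]
  rfl

private theorem SYG_ro (c : K) (B : Set (Pt K)) : ro (P2 c) B = P2 (-c) B := by
  unfold ro P2
  rw [G_pm, SYD_rot]
  have e0 : (finRotate 4).symm 0 = 3 := by decide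
  have e1 : (finRotate 4).symm 1 = 0 := by decide
  have e2 : (finRotate 4).symm 2 = 1 := by decide
  have e3 : (finRotate 4).symm 3 = 2 := by decide
  rw [G_smul (-1) (neg_ne_zero.2 one_ne_zero) ![-1, 0, -1, 0] ![1, 0, 1, 0]
    (fun k => by fin_cases k <;> simp)]
  refine G_shift ![0, 1, 0, 1] ![-1, 0, -1, 0] (-1) (fun k => by fin_cases k <;> simp)
    (mt 0 (-c)) _ ![0, 2 * c, 0, -(2 * c)] ![0, 0, 0, c] ![0, 0, 0, c] ![0, -c, 0, 0]
    ![0, -c, 0, 0] (fun k l => ?_) B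
  rw [Matrix.submatrix_apply]
  fin_cases k <;> fin_cases l <;> simp [e0, e1, e2, e3, P3.mt] <;> ring

private theorem SYG_sg (c : K) (B : Set (Pt K)) : sg (P2 c) B = P2 c B := by
  unfold sg P2
  rw [G_pm, SYD_sw]
  have e0 : sw.symm 0 = 1 := by decide
  have e1 : sw.symm 1 = 0 := by decide
  have e2 : sw.symm 2 = 3 := by decide
  have e3 : sw.symm 3 = 2 := by decide
  rw [G_smul (-1) (neg_ne_zero.2 one_ne_zero) ![-1, 0, -1, 0] ![1, 0, 1, 0]
    (fun k => by fin_cases k <;> simp)]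
  refine G_shift ![0, 1, 0, 1] ![-1, 0, -1, 0] (-1) (fun k => by fin_cases k <;> simp)
    (mt 0 c) _ 0 0 0 0 0 (fun k l => ?_) B
  rw [Matrix.submatrix_apply]
  fin_cases k <;> fin_cases l <;> simp [e0, e1, e2, e3, P3.mt]

private theorem SYG_sp (c : K) (B : Set (Pt K)) : sg (p01 c) B = p01 c B := by
  unfold sg p01
  rw [G_pm, SYD_sw]
  have e0 : sw.symm 0 = 1 := by decide
  have e1 : sw.symm 1 = 0 := by decide
  have e2 : sw.symm 2 = 3 := by decide
  have e3 : sw.symm 3 = 2 := by decide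
  refine G_shift ![1, 1, 0, 0] ![1, 1, 0, 0] 0 (fun k => (add_zero _).symm)
    (mt c 0) _ 0 ![c, 0, 0, 0] ![c, 0, 0, 0] ![-c, 0, 0, -c] ![-c, 0, 0, -c] (fun k l => ?_) B
  rw [Matrix.submatrix_apply]
  fin_cases k <;> fin_cases l <;> simp [e0, e1, e2, e3, P3.mt] <;> ring

/-- MODULE SYG (4).  The coupling of `P2` changes (sign or not), the sum over all couplings and the coupling `0` do not. -/
theorem ro_gm (B : Set (Pt K)) : ro gm B = gm B := by
  show (∑ c : K, ro (P2 c) B) - qK K * ro (P2 0) B = (∑ c : K, P2 c B) - qK K * P2 0 B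
  rw [SYG_ro, neg_zero]
  refine congrArg (fun x : ℤ => x - qK K * P2 0 B) ?_
  refine Fintype.sum_equiv (Equiv.neg K) _ _ fun c => ?_
  rw [SYG_ro]
  rfl

theorem sg_gm (B : Set (Pt K)) : sg gm B = gm B := by
  show (∑ c : K, sg (P2 c) B) - qK K * sg (P2 0) B = (∑ c : K, P2 c B) - qK K * P2 0 B
  rw [SYG_sg]
  refine congrArg (fun x : ℤ => x - qK K * P2 0 B) ?_
  exact Finset.sum_congr rfl fun c _ => SYG_sg c B

theorem sg_bt' (B : Set (Pt K)) : sg bt' B = bt' B := by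
  show (∑ r : K, sg (p01 r) B) - qK K * sg (p01 0) B = (∑ r : K, p01 r B) - qK K * p01 0 B
  rw [SYG_sp]
  refine congrArg (fun x : ℤ => x - qK K * p01 0 B) ?_
  exact Finset.sum_congr rfl fun r _ => SYG_sp r B

end Pool.Agent.Prm3
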