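import Pool.Agent.Prm3.Elm
import Pool.Agent.Prm3.Sy

/-!
# The rung on the functionals `E`, `J`
-/

set_option autoImplicit false

open scoped BigOperators

namespace Pool.Agent.Prm3

open Pool.Agent.KG Pool.Agent.P3 Pool.Agent.PL3

variable {K : Type} [Field K] [Fintype K]

private theorem ERA_ite {p q : Prop} [Decidable p] [Decidable q] (h : p ↔ q) :
    (if p then (1 : ℤ) else 0) = if q then 1 else 0 := by
  by_cases hp : p
  · rw [if_pos hp, if_pos (h.1 hp)]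
  · rw [if_neg hp, if_neg fun h3 => hp (h.2 h3)]

/-- MODULE ERA (1).  `elimE` inserted in the definitions. -/
theorem R_E_F2 (j : Fin 4 → K) (hj : j 2 ≠ 0 ∨ j 3 ≠ 0) (B : Set (Pt K)) :
    R (E j) B = ∑ a : K, ∑ b : K, ∑ x : K, ∑ y : Fin 4 → K,
      F2 j (∑ k, y k * j k ^ 2 + a * j 0 ^ 2 + b * j 1 ^ 2) (a * j 0 - b * j 1) (x + a + b) B := by
  classical
  unfold R E F2
  refine Finset.sum_congr rfl fun a _ => Finset.sum_congr rfl fun b _ =>
    Finset.sum_congr rfl fun x _ => Finset.sum_congr rfl fun y _ => ERA_ite ?_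
  have h1 : j ≠ 0 := by
    rintro rfl
    rcases hj with h | h <;> exact h rfl
  have h2 := elimE j hj y a b x B
  constructor
  · rintro ⟨_, h⟩ z hz hh
    obtain ⟨z', hz', h'⟩ := h2.2 ⟨z, hz, hh⟩
    exact h z' hz' h'
  · intro h
    refine ⟨h1, fun z hz hh => ?_⟩
    obtain ⟨z', hz', h'⟩ := h2.1 ⟨z, hz, hh⟩
    exact h z' hz' h'

/-- MODULE ERA (2).  `lamF_plane` inserted in the definition of `G`; `![0, 0, j 3, - j 2]` is not constant. -/
theorem G_F2 (j : Fin 4 → K) (h1 : ∑ k, j k = 0) (hj : j 2 ≠ 0 ∨ j 3 ≠ 0) (Q : Matrix (Fin 4) (Fin 4) K)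
    (hQ : Q.IsSymm) (B : Set (Pt K)) :
    G ![0, 0, j 3, - j 2] Q B = ∑ y : Fin 4 → K,
      F2 j (∑ k, j k * Q.mulVec j k + ∑ k, y k * j k ^ 2)
        (∑ k, j k * Q.mulVec vv k + (y 0 * j 0 - y 1 * j 1)) (∑ k, vv k * Q.mulVec vv k + (y 0 + y 1)) B := by
  classical
  unfold G F2
  refine Finset.sum_congr rfl fun y _ => ERA_ite ?_
  have hnc : ¬ ∃ c, ∀ k, (![0, 0, j 3, - j 2] : Fin 4 → K) k = c := by
    rintro ⟨c, hc⟩
    have e0 : (0 : K) = c := hc 0
    have e2 : j 3 = c := hc 2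
    have e3 : - j 2 = c := hc 3
    rcases hj with h | h
    · exact h (by rw [← neg_eq_zero, e3, ← e0])
    · exact h (by rw [e2, ← e0])
  rw [and_iff_right hnc]
  exact forall_congr' fun z => imp_congr_right fun _ => not_congr (lamF_plane j h1 hj Q hQ y z)

/-- MODULE ERS (1).  Sums over `Fin 4 → K` as fourfold sums (`P3.Mst` `mst_sum4` is private; copy it). -/
theorem sum4 (f : (Fin 4 → K) → ℤ) :
    ∑ y : Fin 4 → K, f y = ∑ y0 : K, ∑ y1 : K, ∑ y2 : K, ∑ y3 : K, f ![y0, y1, y2, y3] := by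
  classical
  have h : ∑ y0 : K, ∑ y1 : K, ∑ y2 : K, ∑ y3 : K, f ![y0, y1, y2, y3] =
      ∑ p : K × K × K × K, f ![p.1, p.2.1, p.2.2.1, p.2.2.2] := by
    simp only [Fintype.sum_prod_type]
  rw [h]
  refine Fintype.sum_equiv
    { toFun := fun y => (y 0, y 1, y 2, y 3)
      invFun := fun p => ![p.1, p.2.1, p.2.2.1, p.2.2.2]
      left_inv := by
        intro y
        funext k
        fin_cases k <;> rfl
      right_inv := by
        rintro ⟨a, b, c, d⟩
        rfl } _ _ fun y => ?_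
  congr 1
  funext k
  fin_cases k <;> rfl

private theorem ERS_aff (c e : K) (hc : c ≠ 0) (g : K → ℤ) : ∑ x : K, g (c * x + e) = ∑ x : K, g x :=
  Fintype.sum_equiv ((Equiv.mulLeft₀ c hc).trans (Equiv.addRight e)) _ _ fun _ => rfl

omit [Field K] in
private theorem ERS_const (c : ℤ) : ∑ _x : K, c = qK K * c := by
  rw [Finset.sum_const, Finset.card_univ, nsmul_eq_mul]

/-- The sum over `y 2`, `y 3`. -/
private theorem ERS_two (g : K → ℤ) (s t C : K) (h : s ≠ 0 ∨ t ≠ 0) :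
    ∑ y2 : K, ∑ y3 : K, g (C + y2 * s ^ 2 + y3 * t ^ 2) = qK K * ∑ a : K, g a := by
  by_cases ht : t = 0
  · have hs : s ≠ 0 := h.resolve_right (fun h => h ht)
    rw [Finset.sum_comm, ← ERS_const]
    refine Finset.sum_congr rfl fun y3 _ => ?_
    rw [← ERS_aff (s ^ 2) (C + y3 * t ^ 2) (pow_ne_zero 2 hs) g]
    refine Finset.sum_congr rfl fun y2 _ => ?_
    congr 1
    ring
  · rw [← ERS_const]
    refine Finset.sum_congr rfl fun y2 _ => ?_
    rw [← ERS_aff (t ^ 2) (C + y2 * s ^ 2) (pow_ne_zero 2 ht) g]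
    refine Finset.sum_congr rfl fun y3 _ => ?_
    congr 1
    ring

private theorem ERS_y (g : K → ℤ) (j : Fin 4 → K) (hj : j 2 ≠ 0 ∨ j 3 ≠ 0) (C : K) :
    ∑ y : Fin 4 → K, g (∑ k, y k * j k ^ 2 + C) = qK K ^ 3 * ∑ a : K, g a := by
  rw [sum4]
  have h1 : ∀ y0 y1 : K, (∑ y2 : K, ∑ y3 : K,
      g (∑ k, (![y0, y1, y2, y3] : Fin 4 → K) k * j k ^ 2 + C)) = qK K * ∑ a : K, g a := by
    intro y0 y1
    rw [← ERS_two g (j 2) (j 3) (y0 * j 0 ^ 2 + y1 * j 1 ^ 2 + C) hj]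
    refine Finset.sum_congr rfl fun y2 _ => Finset.sum_congr rfl fun y3 _ => ?_
    congr 1
    rw [Fin.sum_univ_four]
    simp
    ring
  rw [Finset.sum_congr rfl fun y0 _ => Finset.sum_congr rfl fun y1 _ => h1 y0 y1]
  rw [ERS_const, ERS_const]
  ring

/-- The sum of a function of a linear form in two variables. -/
private theorem ERS_lin (g : K → ℤ) (s t : K) (h : s ≠ 0 ∨ t ≠ 0) :
    ∑ a : K, ∑ b : K, g (a * s - b * t) = qK K * ∑ d : K, g d := by
  by_cases ht : t = 0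
  · have hs : s ≠ 0 := h.resolve_right (fun h => h ht)
    rw [Finset.sum_comm, ← ERS_const]
    refine Finset.sum_congr rfl fun b _ => ?_
    rw [← ERS_aff s (-(b * t)) hs g]
    refine Finset.sum_congr rfl fun a _ => ?_
    congr 1
    ring
  · rw [← ERS_const]
    refine Finset.sum_congr rfl fun a _ => ?_
    rw [← ERS_aff (-t) (a * s) (neg_ne_zero.2 ht) g]
    refine Finset.sum_congr rfl fun b _ => ?_
    congr 1
    ring

private theorem ERS_add (g : K → ℤ) : ∑ a : K, ∑ b : K, g (a + b) = qK K * ∑ d : K, g d := by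
  have h1 := ERS_lin g (1 : K) (-1) (Or.inl one_ne_zero)
  rw [← h1]
  refine Finset.sum_congr rfl fun a _ => Finset.sum_congr rfl fun b _ => ?_
  congr 1
  ring

/-- The sum over `x` and `y` for fixed `a`, `b`. -/
private theorem ERS_xy (f : K → K → K → ℤ) (j : Fin 4 → K) (hj : j 2 ≠ 0 ∨ j 3 ≠ 0) (a b β : K) :
    ∑ x : K, ∑ y : Fin 4 → K,
      f (∑ k, y k * j k ^ 2 + a * j 0 ^ 2 + b * j 1 ^ 2) β (x + a + b) =
      qK K ^ 3 * ∑ α : K, ∑ d : K, f α β d := by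
  have h1 : ∀ x : K, ∑ y : Fin 4 → K,
      f (∑ k, y k * j k ^ 2 + a * j 0 ^ 2 + b * j 1 ^ 2) β (x + a + b) =
      qK K ^ 3 * ∑ α : K, f α β (x + a + b) := by
    intro x
    rw [← ERS_y (fun α => f α β (x + a + b)) j hj (a * j 0 ^ 2 + b * j 1 ^ 2)]
    refine Finset.sum_congr rfl fun y _ => ?_
    rw [add_assoc]
  rw [Finset.sum_congr rfl fun x _ => h1 x, ← Finset.mul_sum]
  congr 1
  rw [Finset.sum_comm]
  refine Finset.sum_congr rfl fun α _ => ?_
  rw [← ERS_aff 1 (a + b) one_ne_zero (fun d => f α β d)]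
  refine Finset.sum_congr rfl fun x _ => ?_
  rw [one_mul, add_assoc]

/-- MODULE ERS (2).  Uniform distribution, `(j 0, j 1) ≠ 0`.

Proof.  Replace `x` by `x - a - b`; then the sum over `y` of `h (∑ y k j k² + c)` is `q³ ∑ h` (`sum4`; one of `j 2`, `j 3` is not
`0`), and the sum over `a`, `b` of `h (a j 0 - b j 1)` is `q ∑ h`. -/
theorem cntE (f : K → K → K → ℤ) (j : Fin 4 → K) (hj : j 2 ≠ 0 ∨ j 3 ≠ 0) (h0 : j 0 ≠ 0 ∨ j 1 ≠ 0) :
    ∑ a : K, ∑ b : K, ∑ x : K, ∑ y : Fin 4 → K,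
      f (∑ k, y k * j k ^ 2 + a * j 0 ^ 2 + b * j 1 ^ 2) (a * j 0 - b * j 1) (x + a + b) =
      qK K ^ 4 * ∑ a : K, ∑ b : K, ∑ d : K, f a b d := by
  rw [Finset.sum_congr rfl fun a _ => Finset.sum_congr rfl fun b _ =>
    ERS_xy f j hj a b (a * j 0 - b * j 1)]
  rw [ERS_lin (fun β => qK K ^ 3 * ∑ α : K, ∑ d : K, f α β d) (j 0) (j 1) h0]
  rw [← Finset.mul_sum, ← mul_assoc, ← pow_succ', Finset.sum_comm]

/-- MODULE ERS (3).  The same for `j 0 = j 1 = 0`. -/
theorem cntE0 (f : K → K → K → ℤ) (j : Fin 4 → K) (hj : j 2 ≠ 0 ∨ j 3 ≠ 0) (h0 : j 0 = 0) (h1 : j 1 = 0) :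
    ∑ a : K, ∑ b : K, ∑ x : K, ∑ y : Fin 4 → K,
      f (∑ k, y k * j k ^ 2 + a * j 0 ^ 2 + b * j 1 ^ 2) (a * j 0 - b * j 1) (x + a + b) =
      qK K ^ 5 * ∑ a : K, ∑ d : K, f a 0 d := by
  rw [Finset.sum_congr rfl fun a _ => Finset.sum_congr rfl fun b _ =>
    ERS_xy f j hj a b (a * j 0 - b * j 1)]
  rw [h0, h1]
  simp only [mul_zero, sub_zero]
  rw [ERS_const, ERS_const]
  ring

/-- MODULE ERS (4).  `(y 0, y 1) ↦ (y 0 j 0 - y 1 j 1, y 0 + y 1)` is bijective. -/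
theorem cntG (f : K → K → K → ℤ) (j : Fin 4 → K) (hj : j 2 ≠ 0 ∨ j 3 ≠ 0) (h0 : j 0 + j 1 ≠ 0) :
    ∑ y : Fin 4 → K, f (∑ k, y k * j k ^ 2) (y 0 * j 0 - y 1 * j 1) (y 0 + y 1) =
      qK K * ∑ a : K, ∑ b : K, ∑ d : K, f a b d := by
  rw [sum4]
  have h1 : ∀ y0 y1 : K, (∑ y2 : K, ∑ y3 : K,
      f (∑ k, (![y0, y1, y2, y3] : Fin 4 → K) k * j k ^ 2)
        ((![y0, y1, y2, y3] : Fin 4 → K) 0 * j 0 - (![y0, y1, y2, y3] : Fin 4 → K) 1 * j 1)
        ((![y0, y1, y2, y3] : Fin 4 → K) 0 + (![y0, y1, y2, y3] : Fin 4 → K) 1)) =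
      qK K * ∑ a : K, f a (y0 * j 0 - y1 * j 1) (y0 + y1) := by
    intro y0 y1
    rw [← ERS_two (fun a => f a (y0 * j 0 - y1 * j 1) (y0 + y1)) (j 2) (j 3)
      (y0 * j 0 ^ 2 + y1 * j 1 ^ 2) hj]
    refine Finset.sum_congr rfl fun y2 _ => Finset.sum_congr rfl fun y3 _ => ?_
    rw [Fin.sum_univ_four]
    rfl
  rw [Finset.sum_congr rfl fun y0 _ => Finset.sum_congr rfl fun y1 _ => h1 y0 y1]
  simp only [← Finset.mul_sum]
  congr 1
  have h2 : ∀ y0 : K, ∑ y1 : K, ∑ a : K, f a (y0 * j 0 - y1 * j 1) (y0 + y1) =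
      ∑ d : K, ∑ a : K, f a ((j 0 + j 1) * y0 + -(d * j 1)) d := by
    intro y0
    rw [← ERS_aff 1 y0 one_ne_zero (fun d => ∑ a : K, f a ((j 0 + j 1) * y0 + -(d * j 1)) d)]
    refine Finset.sum_congr rfl fun y1 _ => Finset.sum_congr rfl fun a _ => ?_
    have e1 : y0 * j 0 - y1 * j 1 = (j 0 + j 1) * y0 + -((1 * y1 + y0) * j 1) := by ring
    have e2 : y0 + y1 = 1 * y1 + y0 := by ring
    rw [e1, e2]
  rw [Finset.sum_congr rfl fun y0 _ => h2 y0, Finset.sum_comm]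
  have h3 : ∀ d : K, ∑ y0 : K, ∑ a : K, f a ((j 0 + j 1) * y0 + -(d * j 1)) d =
      ∑ b : K, ∑ a : K, f a b d := fun d =>
    ERS_aff (j 0 + j 1) (-(d * j 1)) h0 (fun b => ∑ a : K, f a b d)
  rw [Finset.sum_congr rfl fun d _ => h3 d]
  rw [Finset.sum_comm]
  have h4 : ∀ b : K, ∑ d : K, ∑ a : K, f a b d = ∑ a : K, ∑ d : K, f a b d := fun b => Finset.sum_comm
  rw [Finset.sum_congr rfl fun b _ => h4 b, Finset.sum_comm]

/-- MODULE ERS (5). -/
theorem cntG0 (f : K → K → K → ℤ) (j : Fin 4 → K) (hj : j 2 ≠ 0 ∨ j 3 ≠ 0) (h0 : j 0 = 0) (h1 : j 1 = 0) :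
    ∑ y : Fin 4 → K, f (∑ k, y k * j k ^ 2) (y 0 * j 0 - y 1 * j 1) (y 0 + y 1) =
      qK K ^ 2 * ∑ a : K, ∑ d : K, f a 0 d := by
  rw [sum4]
  have h2 : ∀ y0 y1 : K, (∑ y2 : K, ∑ y3 : K,
      f (∑ k, (![y0, y1, y2, y3] : Fin 4 → K) k * j k ^ 2)
        ((![y0, y1, y2, y3] : Fin 4 → K) 0 * j 0 - (![y0, y1, y2, y3] : Fin 4 → K) 1 * j 1)
        ((![y0, y1, y2, y3] : Fin 4 → K) 0 + (![y0, y1, y2, y3] : Fin 4 → K) 1)) =
      qK K * ∑ a : K, f a 0 (y0 + y1) := by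
    intro y0 y1
    rw [← ERS_two (fun a => f a 0 (y0 + y1)) (j 2) (j 3)
      (y0 * j 0 ^ 2 + y1 * j 1 ^ 2) hj]
    refine Finset.sum_congr rfl fun y2 _ => Finset.sum_congr rfl fun y3 _ => ?_
    rw [Fin.sum_univ_four, h0, h1]
    simp
  rw [Finset.sum_congr rfl fun y0 _ => Finset.sum_congr rfl fun y1 _ => h2 y0 y1]
  simp only [← Finset.mul_sum]
  rw [ERS_add (fun d => ∑ a : K, f a 0 d), Finset.sum_comm]
  ring

/-- MODULE ERS (6).  For `j = (s, -s, u, -u)` and the matrices `mt r 0`: `j · (mt r 0) j = 2 r j 3 (j 1 + j 2) = 2 r u (s - u)`,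
`j · (mt r 0) v = - r j 3 = r u`.  Substitute `r ↦ b = r u + s (y 0 + y 1)` (`u ≠ 0`), then `y 2 ↦ a` (`j 2² = u² ≠ 0`),
`y 0 ↦ d = y 0 + y 1`. -/
theorem cntP (f : K → K → K → ℤ) (s u : K) (hu : u ≠ 0) :
    ∑ r : K, ∑ y : Fin 4 → K, f (2 * r * u * (s - u) + ((y 0 + y 1) * s ^ 2 + (y 2 + y 3) * u ^ 2))
      (r * u + s * (y 0 + y 1)) (y 0 + y 1) =
      qK K ^ 2 * ∑ a : K, ∑ b : K, ∑ d : K, f a b d := by
  have h1 : ∀ r : K, ∑ y : Fin 4 → K,
      f (2 * r * u * (s - u) + ((y 0 + y 1) * s ^ 2 + (y 2 + y 3) * u ^ 2))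
        (r * u + s * (y 0 + y 1)) (y 0 + y 1) =
      qK K ^ 2 * ∑ d : K, ∑ a : K, f a (r * u + s * d) d := by
    intro r
    rw [sum4]
    have h2 : ∀ y0 y1 : K, (∑ y2 : K, ∑ y3 : K,
      f (2 * r * u * (s - u) + (((![y0, y1, y2, y3] : Fin 4 → K) 0 +
          (![y0, y1, y2, y3] : Fin 4 → K) 1) * s ^ 2 + ((![y0, y1, y2, y3] : Fin 4 → K) 2 +
          (![y0, y1, y2, y3] : Fin 4 → K) 3) * u ^ 2))
        (r * u + s * ((![y0, y1, y2, y3] : Fin 4 → K) 0 + (![y0, y1, y2, y3] : Fin 4 → K) 1))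
        ((![y0, y1, y2, y3] : Fin 4 → K) 0 + (![y0, y1, y2, y3] : Fin 4 → K) 1)) =
        qK K * ∑ a : K, f a (r * u + s * (y0 + y1)) (y0 + y1) := by
      intro y0 y1
      rw [← ERS_two (fun a => f a (r * u + s * (y0 + y1)) (y0 + y1)) u u
        (2 * r * u * (s - u) + (y0 + y1) * s ^ 2) (Or.inl hu)]
      refine Finset.sum_congr rfl fun y2 _ => Finset.sum_congr rfl fun y3 _ => ?_
      have e1 : 2 * r * u * (s - u) + (((![y0, y1, y2, y3] : Fin 4 → K) 0 +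
          (![y0, y1, y2, y3] : Fin 4 → K) 1) * s ^ 2 + ((![y0, y1, y2, y3] : Fin 4 → K) 2 +
          (![y0, y1, y2, y3] : Fin 4 → K) 3) * u ^ 2) =
          2 * r * u * (s - u) + (y0 + y1) * s ^ 2 + y2 * u ^ 2 + y3 * u ^ 2 := by
        change 2 * r * u * (s - u) + ((y0 + y1) * s ^ 2 + (y2 + y3) * u ^ 2) = _
        ring
      rw [e1]
      rfl
    rw [Finset.sum_congr rfl fun y0 _ => Finset.sum_congr rfl fun y1 _ => h2 y0 y1]
    simp only [← Finset.mul_sum]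
    rw [ERS_add (fun d => ∑ a : K, f a (r * u + s * d) d)]
    ring
  rw [Finset.sum_congr rfl fun r _ => h1 r, ← Finset.mul_sum]
  congr 1
  rw [Finset.sum_comm]
  have h3 : ∀ d : K, ∑ r : K, ∑ a : K, f a (r * u + s * d) d = ∑ b : K, ∑ a : K, f a b d := by
    intro d
    rw [← ERS_aff u (s * d) hu (fun b => ∑ a : K, f a b d)]
    refine Finset.sum_congr rfl fun r _ => ?_
    rw [mul_comm r u]
  rw [Finset.sum_congr rfl fun d _ => h3 d]
  rw [Finset.sum_comm]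
  have h4 : ∀ b : K, ∑ d : K, ∑ a : K, f a b d = ∑ a : K, ∑ d : K, f a b d := fun b => Finset.sum_comm
  rw [Finset.sum_congr rfl fun b _ => h4 b, Finset.sum_comm]

/-- MODULE ERG.  The rung on `E j`.

Proof.  If `j 2 = j 3 = 0`, then `j 0 + j 1 = 0`, and the hypothesis gives `j 0 = j 1 = 0`: both sides are `0` (`E_zero`, `P3.G_const`).
Otherwise `R_E_F2`, `G_F2` with `Q = 0`, and `cntE`, `cntG` (`j 0 + j 1 = - (j 2 + j 3) ≠ 0`) or `cntE0`, `cntG0`. -/
theorem R_E (j : Fin 4 → K) (h1 : ∑ k, j k = 0) (h : j 2 + j 3 ≠ 0 ∨ (j 0 = 0 ∧ j 1 = 0)) (B : Set (Pt K)) :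
    R (E j) B = qK K ^ 3 * G ![0, 0, j 3, - j 2] 0 B := by
  by_cases hj : j 2 ≠ 0 ∨ j 3 ≠ 0
  · rw [R_E_F2 j hj, G_F2 j h1 hj 0 Matrix.isSymm_zero]
    have e1 : ∀ y : Fin 4 → K,
        F2 j (∑ k, j k * (0 : Matrix (Fin 4) (Fin 4) K).mulVec j k + ∑ k, y k * j k ^ 2)
          (∑ k, j k * (0 : Matrix (Fin 4) (Fin 4) K).mulVec vv k + (y 0 * j 0 - y 1 * j 1))
          (∑ k, vv k * (0 : Matrix (Fin 4) (Fin 4) K).mulVec vv k + (y 0 + y 1)) B =
        F2 j (∑ k, y k * j k ^ 2) (y 0 * j 0 - y 1 * j 1) (y 0 + y 1) B := by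
      intro y
      simp [Matrix.zero_mulVec]
    rw [Finset.sum_congr rfl fun y _ => e1 y]
    rw [Fin.sum_univ_four] at h1
    rcases h with h | ⟨h2, h3⟩
    · have h01 : j 0 + j 1 ≠ 0 := by
        intro h2
        apply h
        linear_combination h1 - h2
      have h0 : j 0 ≠ 0 ∨ j 1 ≠ 0 := by
        by_contra h2
        push Not at h2
        exact h01 (by rw [h2.1, h2.2, add_zero])
      rw [cntE (fun a b d => F2 j a b d B) j hj h0, cntG (fun a b d => F2 j a b d B) j hj h01]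
      ring
    · rw [cntE0 (fun a b d => F2 j a b d B) j hj h2 h3, cntG0 (fun a b d => F2 j a b d B) j hj h2 h3]
      ring
  · push Not at hj
    obtain ⟨h2, h3⟩ := hj
    have h01 : j 0 = 0 ∧ j 1 = 0 := by
      rcases h with h | h
      · exact absurd (by rw [h2, h3, add_zero]) h
      · exact h
    have hj0 : j = 0 := by
      funext k
      fin_cases k
      · exact h01.1
      · exact h01.2
      · exact h2
      · exact h3
    rw [P3.G_const ![0, 0, j 3, - j 2] ⟨0, fun k => by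
      fin_cases k
      · rfl
      · rfl
      · exact h3
      · exact neg_eq_zero.2 h2⟩, hj0, mul_zero]
    unfold R
    refine Finset.sum_eq_zero fun a _ => Finset.sum_eq_zero fun b _ => Finset.sum_eq_zero fun x _ => ?_
    exact E_zero _

/-- MODULE ERP.  The rung on `E (s, -s, u, -u)`.

Proof.  `R_E_F2`, `cntE` (left side `q⁴ ∑ F2`); `p01 r = G ![0, 0, j 3, - j 2] (mt r 0)` for `j = ![s, -s, u, -u]`
(`![0, 0, -u, -u] = u • ![1, 1, 0, 0] - u`: `P3.G_smul`, `P3.G_shift`), `G_F2` with `Q = mt r 0` (symmetric: `P3.mt_symm`),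
`cntP`. -/
theorem R_E_P (s u : K) (hs : s ≠ 0) (hu : u ≠ 0) (B : Set (Pt K)) :
    R (E ![s, -s, u, -u]) B = qK K ^ 2 * ∑ r : K, p01 r B := by
  obtain ⟨j, hjd⟩ : ∃ j : Fin 4 → K, j = ![s, -s, u, -u] := ⟨_, rfl⟩
  have j0 : j 0 = s := by rw [hjd]; rfl
  have j1 : j 1 = -s := by rw [hjd]; rfl
  have j2 : j 2 = u := by rw [hjd]; rfl
  have j3 : j 3 = -u := by rw [hjd]; rfl
  have hj : j 2 ≠ 0 ∨ j 3 ≠ 0 := Or.inl (by rw [j2]; exact hu)
  have h1 : ∑ k, j k = 0 := by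
    rw [Fin.sum_univ_four, j0, j1, j2, j3]
    ring
  rw [← hjd, R_E_F2 j hj, cntE (fun a b d => F2 j a b d B) j hj (Or.inl (by rw [j0]; exact hs))]
  have hp : ∀ r : K, p01 r B = ∑ y : Fin 4 → K,
      F2 j (2 * r * u * (s - u) + ((y 0 + y 1) * s ^ 2 + (y 2 + y 3) * u ^ 2))
        (r * u + s * (y 0 + y 1)) (y 0 + y 1) B := by
    intro r
    have e1 : p01 r B = G ![0, 0, j 3, - j 2] (mt r 0) B := by
      unfold p01
      rw [P3.G_shift ![0, 0, -1, -1] ![1, 1, 0, 0] 1 (fun k => by fin_cases k <;> simp) (mt r 0)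
        (mt r 0) 0 0 0 0 0 (fun k l => by simp)]
      refine P3.G_smul u⁻¹ (inv_ne_zero hu) ![0, 0, j 3, - j 2] ![0, 0, -1, -1] (fun k => ?_) _ _
      rw [j3, j2]
      fin_cases k
      · simp
      · simp
      · change (-1 : K) = u⁻¹ * (-u)
        rw [mul_neg, inv_mul_cancel₀ hu]
      · change (-1 : K) = u⁻¹ * (-u)
        rw [mul_neg, inv_mul_cancel₀ hu]
    rw [e1, G_F2 j h1 hj (mt r 0) (P3.mt_symm r 0)]
    refine Finset.sum_congr rfl fun y _ => ?_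
    have ea : ∑ k, j k * (mt r 0).mulVec j k + ∑ k, y k * j k ^ 2 =
        2 * r * u * (s - u) + ((y 0 + y 1) * s ^ 2 + (y 2 + y 3) * u ^ 2) := by
      simp only [Matrix.mulVec, dotProduct, Fin.sum_univ_four, j0, j1, j2, j3, P3.mt]
      simp
      ring
    have eb : ∑ k, j k * (mt r 0).mulVec vv k + (y 0 * j 0 - y 1 * j 1) =
        r * u + s * (y 0 + y 1) := by
      simp only [Matrix.mulVec, dotProduct, Fin.sum_univ_four, j0, j1, j2, j3, P3.mt, vv]
      simp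
      ring
    have ec : ∑ k, vv k * (mt r 0).mulVec vv k + (y 0 + y 1) = y 0 + y 1 := by
      simp only [Matrix.mulVec, dotProduct, Fin.sum_univ_four, P3.mt, vv]
      simp
    rw [ea, eb, ec]
  rw [Finset.sum_congr rfl fun r _ => hp r, cntP (fun a b d => F2 j a b d B) s u hu]
  ring

/-- The condition on a pair for `E v`, `d = y 0 + y 1`. -/
private def ERV_P (d : K) (z : Pt K) : Prop :=
  z.1 1 = - z.1 0 ∧ z.1 2 = 0 ∧ z.1 3 = 0 ∧ z.2 0 - z.2 1 + d * z.1 0 = 0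

omit [Fintype K] in
private theorem ERV_iff (y : Fin 4 → K) (z : Pt K) :
    ((∃ t : K, z.1 = t • (![1, -1, 0, 0] : Fin 4 → K)) ∧
      ∑ k, (![1, -1, 0, 0] : Fin 4 → K) k * (z.2 k + y k * z.1 k) = 0) ↔ ERV_P (y 0 + y 1) z := by
  have e1 : ∑ k, (![1, -1, 0, 0] : Fin 4 → K) k * (z.2 k + y k * z.1 k) =
      (z.2 0 + y 0 * z.1 0) - (z.2 1 + y 1 * z.1 1) := by
    rw [Fin.sum_univ_four]
    simp
    ring
  rw [e1]
  constructor
  · rintro ⟨⟨t, ht⟩, hs⟩
    have h0 : z.1 0 = t := by rw [ht]; simp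
    have h1 : z.1 1 = -t := by rw [ht]; simp
    have h2 : z.1 2 = 0 := by rw [ht]; simp
    have h3 : z.1 3 = 0 := by rw [ht]; simp
    refine ⟨by rw [h1, h0], h2, h3, ?_⟩
    rw [h0, h1] at hs
    rw [h0]
    linear_combination hs
  · rintro ⟨h1, h2, h3, h4⟩
    refine ⟨⟨z.1 0, ?_⟩, ?_⟩
    · funext k
      fin_cases k
      · simp
      · simpa using h1
      · simpa using h2
      · simpa using h3
    · rw [h1]
      linear_combination h4

omit [Fintype K] in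
private theorem ERV_ne (h : (![1, -1, 0, 0] : Fin 4 → K) = 0) : False := by
  have h1 : (1 : K) = 0 := congrFun h 0
  exact one_ne_zero h1

private noncomputable def ERV_e (d : K) (B : Set (Pt K)) : ℤ :=
  open Classical in if ∀ z ∈ B, ¬ ERV_P d z then 1 else 0

private noncomputable def ERV_j (B : Set (Pt K)) : ℤ :=
  open Classical in if ∀ z ∈ B, z.1 ≠ 0 then 1 else 0

private theorem ERV_sum (g : K → ℤ) : ∑ y : Fin 4 → K, g (y 0 + y 1) = qK K ^ 3 * ∑ d : K, g d := by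
  rw [sum4]
  have h1 : ∀ y0 y1 : K, (∑ y2 : K, ∑ y3 : K,
      g ((![y0, y1, y2, y3] : Fin 4 → K) 0 + (![y0, y1, y2, y3] : Fin 4 → K) 1)) =
      qK K * (qK K * g (y0 + y1)) := by
    intro y0 y1
    rw [← ERS_const, ← ERS_const]
    rfl
  rw [Finset.sum_congr rfl fun y0 _ => Finset.sum_congr rfl fun y1 _ => h1 y0 y1]
  simp only [← Finset.mul_sum]
  rw [ERS_add g]
  ring

private theorem ERV_E (B : Set (Pt K)) : E ![1, -1, 0, 0] B = qK K ^ 3 * ∑ d : K, ERV_e d B := by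
  classical
  rw [← ERV_sum (fun d => ERV_e d B)]
  unfold E ERV_e
  refine Finset.sum_congr rfl fun y _ => ERA_ite ?_
  rw [and_iff_right fun h => ERV_ne h]
  exact forall_congr' fun z => imp_congr_right fun _ => not_congr (ERV_iff y z)

private theorem ERV_J (B : Set (Pt K)) : J B = qK K ^ 4 * ERV_j B := by
  classical
  unfold J
  rw [sum4]
  change ∑ _y0 : K, ∑ _y1 : K, ∑ _y2 : K, ∑ _y3 : K, ERV_j B = _
  rw [ERS_const, ERS_const, ERS_const, ERS_const]
  ring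

omit [Fintype K] in
private theorem ERV_bp1 (a b x Y : K) (hS : x + Y ≠ 0) (B : Set (Pt K)) :
    (∃ w ∈ bp a b x B, ERV_P Y w) ↔ ∃ z ∈ B, ERV_P (a + b + x * Y * (x + Y)⁻¹) z := by
  obtain ⟨i, hi⟩ : ∃ i, i = (x + Y)⁻¹ := ⟨_, rfl⟩
  have hii : (x + Y) * i = 1 := by rw [hi]; exact mul_inv_cancel₀ hS
  rw [← hi]
  constructor
  · rintro ⟨w, (⟨z, hz, r, hr, rfl⟩ | ⟨r, c, hr, hxr, rfl⟩), h1, h2, h3, h4⟩
    · have h1' : z.1 1 - r = -(z.1 0 + r) := h1
      have h2' : z.1 2 = 0 := h2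
      have h3' : z.1 3 = 0 := h3
      have h4' : (z.2 0 + a * z.1 0) - (z.2 1 + b * z.1 1) + Y * (z.1 0 + r) = 0 := h4
      have h5 : z.1 1 = - z.1 0 := by linear_combination h1'
      refine ⟨z, hz, h5, h2', h3', ?_⟩
      rw [h5] at hr h4'
      have h6 : x * r + Y * (z.1 0 + r) = 0 := by rw [hr]; exact h4'
      linear_combination (-1 : K) * hr - x * r * hii + x * i * h6
    · exfalso
      have h4' : c - c + Y * r = 0 := h4
      have h5 : Y * r = 0 := by linear_combination h4'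
      apply hS
      rw [(mul_eq_zero.1 hxr).resolve_right hr, (mul_eq_zero.1 h5).resolve_right hr, add_zero]
  · rintro ⟨z, hz, h1, h2, h3, h4⟩
    refine ⟨_, Or.inl ⟨z, hz, -(Y * z.1 0) * i, ?_, rfl⟩, ?_, h2, h3, ?_⟩
    · rw [h1]
      linear_combination (-1 : K) * h4
    · change z.1 1 - -(Y * z.1 0) * i = -(z.1 0 + -(Y * z.1 0) * i)
      rw [h1]
      ring
    · change (z.2 0 + a * z.1 0) - (z.2 1 + b * z.1 1) + Y * (z.1 0 + -(Y * z.1 0) * i) = 0
      rw [h1]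
      linear_combination h4 - Y * z.1 0 * hii

omit [Fintype K] in
private theorem ERV_bp2 (a b x Y : K) (hS : x + Y = 0) (hx : x ≠ 0) (B : Set (Pt K)) :
    (∃ w ∈ bp a b x B, ERV_P Y w) ↔ ∃ z ∈ B, z.1 = 0 := by
  have hY : Y = -x := by linear_combination hS
  subst hY
  constructor
  · rintro ⟨w, (⟨z, hz, r, hr, rfl⟩ | ⟨r, c, hr, hxr, rfl⟩), h1, h2, h3, h4⟩
    · have h1' : z.1 1 - r = -(z.1 0 + r) := h1
      have h2' : z.1 2 = 0 := h2
      have h3' : z.1 3 = 0 := h3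
      have h4' : (z.2 0 + a * z.1 0) - (z.2 1 + b * z.1 1) + -x * (z.1 0 + r) = 0 := h4
      have h5 : z.1 1 = - z.1 0 := by linear_combination h1'
      have h6 : x * z.1 0 = 0 := by linear_combination (-1 : K) * hr - h4'
      have h7 : z.1 0 = 0 := (mul_eq_zero.1 h6).resolve_left hx
      refine ⟨z, hz, ?_⟩
      funext k
      fin_cases k
      · exact h7
      · exact h5.trans (by rw [h7, neg_zero]; rfl)
      · exact h2'
      · exact h3'
    · exact absurd ((mul_eq_zero.1 hxr).resolve_right hr) hx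
  · rintro ⟨z, hz, h1⟩
    have e0 : z.1 0 = 0 := congrFun h1 0
    have e1 : z.1 1 = 0 := congrFun h1 1
    have e2 : z.1 2 = 0 := congrFun h1 2
    have e3 : z.1 3 = 0 := congrFun h1 3
    refine ⟨_, Or.inl ⟨z, hz, x⁻¹ * (z.2 0 - z.2 1), ?_, rfl⟩, ?_, e2, e3, ?_⟩
    · rw [e0, e1, mul_inv_cancel_left₀ hx]
      ring
    · change z.1 1 - x⁻¹ * (z.2 0 - z.2 1) = -(z.1 0 + x⁻¹ * (z.2 0 - z.2 1))
      rw [e0, e1]
      ring
    · change (z.2 0 + a * z.1 0) - (z.2 1 + b * z.1 1) + -x * (z.1 0 + x⁻¹ * (z.2 0 - z.2 1)) = 0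
      rw [e0, e1]
      have := mul_inv_cancel₀ hx
      linear_combination -(z.2 0 - z.2 1) * this

omit [Fintype K] in
private theorem ERV_bp3 (a b : K) (B : Set (Pt K)) : ∃ w ∈ bp a b 0 B, ERV_P 0 w := by
  refine ⟨_, Or.inr ⟨1, 0, one_ne_zero, zero_mul _, rfl⟩, rfl, rfl, rfl, ?_⟩
  change (0 : K) - 0 + 0 * 1 = 0
  ring

private theorem ERV_ifs (c d : ℤ) (inst : DecidableEq K) :
    ∑ S : K, (if S = 0 then d else c) = (qK K - 1) * c + d := by
  have h : ∀ S : K, (if S = 0 then d else c) = c + (if S = 0 then d - c else 0) := by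
    intro S
    split_ifs <;> ring
  rw [Finset.sum_congr rfl fun S _ => h S, Finset.sum_add_distrib, ERS_const,
    Finset.sum_ite_eq' Finset.univ (0 : K) (fun _ => d - c), if_pos (Finset.mem_univ _)]
  ring

/-- MODULE ERV.  The rung on `E v`, `v = e₀ - e₁`.

Proof.  Let `Y = y 0 + y 1`.  (First kind) `w = (i + r v, P)`, `i + r v = t v`, so `i = τ v` with `t = τ + r`; the conditions are
`x r = v · P = v · p + (a + b) τ` and `v · P + t Y = 0`, i.e. `x r + (τ + r) Y = 0`.  (Second kind) `(r, -r, 0, 0)`, `r ≠ 0`, `x r = 0`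
and `r Y = 0`: it occurs iff `x = 0` and `Y = 0`.
Case `x + Y ≠ 0`: `r = - τ Y / (x + Y)`; the condition on `(i, p)` is `i = τ v`, `v · p + τ (a + b + x Y / (x + Y)) = 0`, which is the
condition in `E v` for any `y` with `y 0 + y 1 = a + b + x Y / (x + Y)`; no element of the second kind.
Case `x + Y = 0`, `x ≠ 0`: `τ = 0`, so `i = 0`, and `r = v · p / x` exists for each `p`: the condition is `i = 0`.
Case `x = Y = 0`: the element of the second kind satisfies the condition, the term is `0`.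
Count: in the first case, for fixed `x`, `y` the sum over `a`, `b` is `q ∑ d` of the indicator for `d`, and `E v = q³ ∑ d`; there
are `q² (q - 1)` triples `(x, y 0, y 1)` with `x + Y ≠ 0` and `q²` pairs `(y 2, y 3)`: together `q² (q - 1) E v`.  In the second case
there are `q (q - 1)` triples and `q⁴` quadruples `(a, b, y 2, y 3)`: `q (q - 1) J`. -/
theorem R_Ev (B : Set (Pt K)) :
    R (E ![1, -1, 0, 0]) B = qK K ^ 2 * (qK K - 1) * E ![1, -1, 0, 0] B + qK K * (qK K - 1) * J B := by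
  classical
  obtain ⟨T, hT⟩ : ∃ T : K → K → K → ℤ, T = fun s x Y => if x + Y = 0 then
      (if x = 0 then 0 else ERV_j B) else ERV_e (s + x * Y * (x + Y)⁻¹) B := ⟨_, rfl⟩
  have h1 : R (E ![1, -1, 0, 0]) B = ∑ a : K, ∑ b : K, ∑ x : K, ∑ y : Fin 4 → K,
      T (a + b) x (y 0 + y 1) := by
    unfold R E
    refine Finset.sum_congr rfl fun a _ => Finset.sum_congr rfl fun b _ =>
      Finset.sum_congr rfl fun x _ => Finset.sum_congr rfl fun y _ => ?_
    have h2 : ((![1, -1, 0, 0] : Fin 4 → K) ≠ 0 ∧ ∀ z ∈ bp a b x B,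
        ¬ ((∃ t : K, z.1 = t • (![1, -1, 0, 0] : Fin 4 → K)) ∧
          ∑ k, (![1, -1, 0, 0] : Fin 4 → K) k * (z.2 k + y k * z.1 k) = 0)) ↔
        ¬ ∃ w ∈ bp a b x B, ERV_P (y 0 + y 1) w := by
      rw [and_iff_right fun h => ERV_ne h]
      push Not
      exact forall_congr' fun z => imp_congr_right fun _ => by
        rw [← ERV_iff y z]
        push Not
        rfl
    rw [ERA_ite h2, hT]
    dsimp only
    by_cases hS : x + (y 0 + y 1) = 0
    · rw [if_pos hS]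
      by_cases hx : x = 0
      · rw [if_pos hx]
        have hY : y 0 + y 1 = 0 := by rw [hx, zero_add] at hS; exact hS
        rw [hx, hY, if_neg (not_not.2 (ERV_bp3 a b B))]
      · rw [if_neg hx, ERV_j]
        refine ERA_ite ?_
        rw [ERV_bp2 a b x _ hS hx B]
        push Not
        rfl
    · rw [if_neg hS, ERV_e]
      refine ERA_ite ?_
      rw [ERV_bp1 a b x _ hS B]
      push Not
      rfl
  rw [h1]
  have h2 : ∀ a b x : K, ∑ y : Fin 4 → K, T (a + b) x (y 0 + y 1) =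
      qK K ^ 3 * ∑ Y : K, T (a + b) x Y := fun a b x => ERV_sum (fun Y => T (a + b) x Y)
  rw [Finset.sum_congr rfl fun a _ => Finset.sum_congr rfl fun b _ =>
    Finset.sum_congr rfl fun x _ => h2 a b x]
  simp only [← Finset.mul_sum]
  rw [ERS_add (fun s => ∑ x : K, ∑ Y : K, T s x Y)]
  have h3 : ∑ s : K, ∑ x : K, ∑ Y : K, T s x Y =
      ∑ x : K, ((qK K - 1) * (∑ d : K, ERV_e d B) + (if x = 0 then 0 else qK K * ERV_j B)) := by
    rw [Finset.sum_comm]
    refine Finset.sum_congr rfl fun x _ => ?_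
    rw [Finset.sum_comm]
    have h4 : ∀ Y : K, ∑ s : K, T s x Y = (fun S : K => if S = 0 then
        (if x = 0 then 0 else qK K * ERV_j B) else ∑ d : K, ERV_e d B) (1 * Y + x) := by
      intro Y
      rw [hT]
      dsimp only
      rw [one_mul, add_comm Y x]
      by_cases hS : x + Y = 0
      · simp only [hS, if_true]
        rw [ERS_const]
        split_ifs
        · ring
        · rfl
      · simp only [hS, if_false]
        rw [← ERS_aff 1 (x * Y * (x + Y)⁻¹) one_ne_zero (fun d => ERV_e d B)]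
        refine Finset.sum_congr rfl fun s _ => ?_
        rw [one_mul]
    refine (Finset.sum_congr rfl fun Y _ => h4 Y).trans ?_
    refine (ERS_aff 1 x one_ne_zero (fun S : K => if S = 0 then
      (if x = 0 then 0 else qK K * ERV_j B) else ∑ d : K, ERV_e d B)).trans ?_
    exact ERV_ifs _ _ _
  rw [h3, Finset.sum_add_distrib, ERS_const, ERV_ifs, ERV_E, ERV_J]
  ring

/-- MODULE ERJ.  The rung on `J`.

Proof.  `w.1 = 0` for `w = (i + r v, P)` of the first kind iff `i = - r v`; then `x r = v · P = v · p - (a + b) r`, i.e. with `t = - r`: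
`i = t v`, `v · p + (x + a + b) t = 0`, the condition in `E v` for `y 0 + y 1 = x + a + b`.  No element of the second kind has
`w.1 = 0`.  Count: `R J = q⁴ q² ∑ d`, `E v = q³ ∑ d`. -/
theorem R_J (B : Set (Pt K)) : R J B = qK K ^ 3 * E ![1, -1, 0, 0] B := by
  classical
  have h1 : R J B = ∑ a : K, ∑ b : K, ∑ x : K, ∑ _y : Fin 4 → K, ERV_e (x + a + b) B := by
    unfold R J
    refine Finset.sum_congr rfl fun a _ => Finset.sum_congr rfl fun b _ =>
      Finset.sum_congr rfl fun x _ => Finset.sum_congr rfl fun y _ => ?_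
    rw [ERV_e]
    refine ERA_ite ?_
    constructor
    · rintro h z hz ⟨h1, h2, h3, h4⟩
      refine h _ (Or.inl ⟨z, hz, - z.1 0, ?_, rfl⟩) ?_
      · rw [h1]
        linear_combination (-1 : K) * h4
      · funext k
        fin_cases k
        · change z.1 0 + - z.1 0 = 0
          ring
        · change z.1 1 - - z.1 0 = 0
          rw [h1]
          ring
        · exact h2
        · exact h3
    · rintro h w (⟨z, hz, r, hr, rfl⟩ | ⟨r, c, hr, hxr, rfl⟩) h0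
      · have e0 : z.1 0 + r = 0 := congrFun h0 0
        have e1 : z.1 1 - r = 0 := congrFun h0 1
        have e2 : z.1 2 = 0 := congrFun h0 2
        have e3 : z.1 3 = 0 := congrFun h0 3
        refine h z hz ⟨by linear_combination e1 + e0, e2, e3, ?_⟩
        have e4 : r = - z.1 0 := by linear_combination e0
        have e5 : z.1 1 = - z.1 0 := by linear_combination e1 + e0
        rw [e4, e5] at hr
        linear_combination (-1 : K) * hr
      · exact hr (congrFun h0 0)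
  rw [h1, ERV_E]
  have h2 : ∀ a b : K, ∑ x : K, ∑ _y : Fin 4 → K, ERV_e (x + a + b) B =
      qK K ^ 4 * ∑ d : K, ERV_e d B := by
    intro a b
    rw [← ERS_aff 1 (a + b) one_ne_zero (fun d => ERV_e d B), Finset.mul_sum]
    refine Finset.sum_congr rfl fun x _ => ?_
    rw [sum4, ERS_const, ERS_const, ERS_const, ERS_const, one_mul, add_assoc]
    ring
  rw [Finset.sum_congr rfl fun a _ => Finset.sum_congr rfl fun b _ => h2 a b, ERS_const, ERS_const]
  ring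

end Pool.Agent.Prm3
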