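import Pool.Agent.PLN.Pc

/-!
# Primitive graphs of `φ³` theory

The definitions which are used in the statement of the final theorem.
-/

set_option autoImplicit false

open scoped BigOperators

namespace Pool.Agent.Prm3

open Pool.Agent.KG Pool.Agent.HGC

/-- A primitive graph of `φ³` theory: a simple connected cubic graph in which every set of edges which
separates two sets of at least two vertices has at least four elements.  If `b = true`, it is planar. -/
structure PrimCubic (b : Bool) where
  /-- number of vertices -/
  n : ℕ
  /-- number of edges -/
  m : ℕ
  /-- one end of the edges -/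
  s : Fin m → Fin n
  /-- the other end -/
  t : Fin m → Fin n
  /-- the degrees are three -/
  deg_eq : ∀ v, deg s t v = 3
  /-- there are no loops -/
  noloop : ∀ e, s e ≠ t e
  /-- there are no multiple edges -/
  simple : ∀ e f, e ≠ f → ¬ ((s e = s f ∧ t e = t f) ∨ (s e = t f ∧ t e = s f))
  /-- there is a spanning tree -/
  conn : ∃ T, IsTree s t T
  /-- two sets of at least two vertices are joined by at least four edges -/
  cyc4 : ∀ U : Set (Fin n), 2 ≤ U.ncard → 2 ≤ Uᶜ.ncard → 4 ≤ {e | ¬ (s e ∈ U ↔ t e ∈ U)}.ncard
  /-- there is a dual graph -/
  planar : b = true → ∃ (k : ℕ) (l r : Fin m → Fin k), PLN.Dual s t l r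

/-- The number of zeros of the first Symanzik polynomial. -/
noncomputable def PrimCubic.count {b : Bool} (G : PrimCubic b) : PF := countPF fun K _ => NS G.s G.t K

end Pool.Agent.Prm3
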