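import Pool.Agent.Prm3.Stg
import Pool.Agent.Prm3.Pc

/-!
# Graphs without nontrivial cuts with at most three edges
-/

set_option autoImplicit false

open scoped BigOperators

namespace Pool.Agent.Prm3

open Pool.Agent.KG Pool.Agent.P3 Pool.Agent.PL3

/-- The functions `ns` of the primitive graphs. -/
def PrS (b : Bool) : Set (FinField → ℤ) := {f | ∃ G : PrimCubic b, f = ns G.s G.t}

/-- MODULE FNA.  No multiple edges.

Proof.  Let `e ≠ f` both join `u` and `v` (`u ≠ v`).  `dv s t u {v} ≥ 2`, so `cs {u, v} + 4 ≤ cs {v} + 3 = 6` (`cs_insert`, `cs_single`), `cs {u, v} ≤ 2`; but `{u,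
v}` is nonempty and not the whole set. -/
theorem simple_of_con {V E : Type} [Fintype V] [Fintype E] (s t : E → V) (hl : LL s t) (h3 : ∀ v, deg s t v = 3)
    (hc : Con s t 3) (hV : Fintype.card V ≠ 2) (e f : E) (hne : e ≠ f) :
    ¬ ((s e = s f ∧ t e = t f) ∨ (s e = t f ∧ t e = s f)) := by
  classical
  intro hp
  have hne' : s e ≠ t e := hl e
  have hd : 2 ≤ dv s t (s e) {t e} := by
    unfold dv
    have h1 : ∑ x ∈ ({e, f} : Finset E), ((if s x = s e ∧ t x ∈ ({t e} : Set V) then 1 else 0) +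
        if t x = s e ∧ s x ∈ ({t e} : Set V) then 1 else 0) = 2 := by
      rw [Finset.sum_pair hne]
      have h2 : ¬ (t e = s e ∧ s e ∈ ({t e} : Set V)) := fun h => hne' h.1.symm
      rw [if_pos ⟨rfl, rfl⟩, if_neg h2]
      rcases hp with ⟨ha, hb⟩ | ⟨ha, hb⟩
      · have h3 : ¬ (t f = s e ∧ s f ∈ ({t e} : Set V)) := fun h => hne' (by rw [hb, h.1])
        rw [if_pos ⟨ha.symm, hb.symm⟩, if_neg h3]
      · have h3 : ¬ (s f = s e ∧ t f ∈ ({t e} : Set V)) := fun h => hne' (by rw [hb, h.1])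
        rw [if_neg h3, if_pos ⟨ha.symm, hb.symm⟩]
    rw [← h1]
    refine (Finset.sum_le_sum_of_subset (Finset.subset_univ ({e, f} : Finset E))).trans (le_of_eq ?_)
    exact Finset.sum_congr rfl fun x _ => by congr
  have h1 := cs_insert s t hl (s e) {t e} hne'
  rw [cs_single s t hl, h3, h3] at h1
  have h2 := hc (insert (s e) {t e}) (Set.insert_nonempty _ _) (fun hu => hV (by
    rw [← Nat.card_eq_fintype_card, ← Set.ncard_univ, ← hu]
    exact Set.ncard_pair hne'))
  omega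

private theorem FNB_kd {X Y : Type} (e : X ≃ Y) (a : X) (b : Y) :
    PLN.kd (e a) b = PLN.kd a (e.symm b) := by
  unfold PLN.kd
  by_cases h : a = e.symm b
  · rw [if_pos h, if_pos]
    rw [h, Equiv.apply_symm_apply]
  · rw [if_neg h, if_neg]
    rintro rfl
    exact h (Equiv.symm_apply_apply e a).symm

private theorem FNB_ic {V W E E' : Type} (f : V ≃ W) (g : E ≃ E') (s t : E → V) (s' t' : E' → W)
    (hs : ∀ e, s' (g e) = f (s e)) (ht : ∀ e, t' (g e) = f (t e)) (e : E) (w : W) :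
    PLN.ic s' t' (g e) w = PLN.ic s t e (f.symm w) := by
  unfold PLN.ic
  rw [hs, ht, FNB_kd, FNB_kd]

/-- MODULE FNB.  Numbering of the vertices and edges.

Proof.  As `PL3.reg3_base` (PL3/Reg.lean): `Fintype.equivFin`; `deg_iso`, `isTree_iso`, `ns_iso`; `cyc4`: let `U` be a set of numbers, `U' = e.symm '' U`;
`nc s t 3 = 0` and `Con s t 3` give `cs s t U' ≥ 4` (`Set.ncard_eq_zero`; `U'`, `U'ᶜ` have at least two elements), and the set in the statement has
`cs s t U'` elements (`cs_ncard`, `cs_key`); `planar`: `exists_conn_dual`, `dual_of_du` and the transport as there (`prc_ic`, `prc_kd` are private there; copy them). -/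
theorem prim_base (b : Bool) {V E : Type} [Fintype V] [Fintype E] (s t : E → V) (hl : LL s t)
    (h3 : ∀ v, deg s t v = 3) (hT : ∃ T, IsTree s t T) (hc : Con s t 3) (hn : nc s t 3 = 0)
    (hsim : ∀ e f, e ≠ f → ¬ ((s e = s f ∧ t e = t f) ∨ (s e = t f ∧ t e = s f))) (hp : b = true → Pl s t) :
    ns s t ∈ PrS b := by
  obtain ⟨e⟩ : Nonempty (V ≃ Fin (Fintype.card V)) := ⟨Fintype.equivFin V⟩
  obtain ⟨g⟩ : Nonempty (E ≃ Fin (Fintype.card E)) := ⟨Fintype.equivFin E⟩
  have hs : ∀ x, (e ∘ s ∘ g.symm) (g x) = e (s x) := fun x => by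
    show e (s (g.symm (g x))) = e (s x)
    rw [Equiv.symm_apply_apply]
  have ht : ∀ x, (e ∘ t ∘ g.symm) (g x) = e (t x) := fun x => by
    show e (t (g.symm (g x))) = e (t x)
    rw [Equiv.symm_apply_apply]
  refine ⟨⟨Fintype.card V, Fintype.card E, e ∘ s ∘ g.symm, e ∘ t ∘ g.symm, ?_, ?_, ?_, ?_, ?_, ?_⟩, ?_⟩
  · intro v
    have h4 := deg_iso e g s t (e ∘ s ∘ g.symm) (e ∘ t ∘ g.symm) hs ht (e.symm v)
    rw [Equiv.apply_symm_apply] at h4
    rw [h4]
    exact h3 _
  · intro i hi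
    exact hl (g.symm i) (e.injective hi)
  · intro i j hij hh
    refine hsim (g.symm i) (g.symm j) (fun h => hij (g.symm.injective h)) ?_
    rcases hh with ⟨ha, hb⟩ | ⟨ha, hb⟩
    · exact Or.inl ⟨e.injective ha, e.injective hb⟩
    · exact Or.inr ⟨e.injective ha, e.injective hb⟩
  · obtain ⟨T, hT⟩ := hT
    exact ⟨T.map g.toEmbedding, (isTree_iso e g s t _ _ hs ht T).2 hT⟩
  · intro U hU hU'
    rw [← cs_ncard, cs_key e.symm g.symm s t (e ∘ s ∘ g.symm) (e ∘ t ∘ g.symm) (fun o => Or.inl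
      ⟨(Equiv.symm_apply_apply e _).symm, (Equiv.symm_apply_apply e _).symm⟩) U]
    have hn' : {U : Set V | 2 ≤ U.ncard ∧ 2 ≤ Uᶜ.ncard ∧ cs s t U = 3} = ∅ :=
      (Set.ncard_eq_zero (Set.toFinite _)).1 hn
    have h5 : (e.symm '' U).ncard = U.ncard := Set.ncard_image_of_injective U e.symm.injective
    have h6 : (e.symm '' U)ᶜ.ncard = Uᶜ.ncard := by
      rw [← Set.image_compl_eq e.symm.bijective]
      exact Set.ncard_image_of_injective Uᶜ e.symm.injective
    have h7 : 3 ≤ cs s t (e.symm '' U) := by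
      refine hc _ (Set.nonempty_of_ncard_ne_zero (by omega)) fun hu => ?_
      rw [hu, Set.compl_univ, Set.ncard_empty] at h6
      omega
    have h8 : cs s t (e.symm '' U) ≠ 3 := fun h => by
      have h9 : (e.symm '' U) ∈ {U : Set V | 2 ≤ U.ncard ∧ 2 ≤ Uᶜ.ncard ∧ cs s t U = 3} :=
        ⟨by rw [h5]; exact hU, by rw [h6]; exact hU', h⟩
      rw [hn'] at h9
      exact h9
    omega
  · intro hb
    obtain ⟨D, hDf, l, r, hd⟩ := hp hb
    obtain ⟨D', hD'f, l', r', hd', hT'⟩ := exists_conn_dual s t l r hd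
    have hdu : PLN.Dual s t l' r' := dual_of_du s t l' r' hd' hT hT'
    obtain ⟨T', hT'⟩ := hT'
    obtain ⟨k⟩ : Nonempty (D' ≃ Fin (Fintype.card D')) := ⟨Fintype.equivFin D'⟩
    have hl' : ∀ x, (k ∘ l' ∘ g.symm) (g x) = k (l' x) := fun x => by
      show k (l' (g.symm (g x))) = k (l' x)
      rw [Equiv.symm_apply_apply]
    have hr' : ∀ x, (k ∘ r' ∘ g.symm) (g x) = k (r' x) := fun x => by
      show k (r' (g.symm (g x))) = k (r' x)
      rw [Equiv.symm_apply_apply]
    refine ⟨Fintype.card D', k ∘ l' ∘ g.symm, k ∘ r' ∘ g.symm, fun v d => ?_, ?_,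
      ⟨T'.map g.toEmbedding, (isTree_iso k g l' r' _ _ hl' hr' T').2 hT'⟩⟩
    · rw [← Equiv.sum_comp g]
      rw [← hdu.chain (e.symm v) (k.symm d)]
      refine Finset.sum_congr rfl fun x _ => ?_
      rw [FNB_ic e g s t _ _ hs ht x v, FNB_ic k g l' r' _ _ hl' hr' x d]
    · rw [Fintype.card_fin, Fintype.card_fin, Fintype.card_fin]
      exact hdu.euler
  · exact (ns_iso e g s t _ _ hs ht).symm

/-- MODULE FNC.  `theta` if there are two vertices; otherwise `simple_of_con`, `tree_of_con` (`Con s t 3` implies `Con s t 1`), `prim_base`. -/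
theorem cg_prim (b : Bool) {f : FinField → ℤ} (hf : f ∈ CG b 3 0) : Sp (PrS b) f := by
  obtain ⟨V, E, _, _, s, t, hV, hl, h3, hc, hn, hp, rfl⟩ := hf
  by_cases h2 : Fintype.card V = 2
  · exact theta _ s t hl h3 h2
  · refine Sp.base (prim_base b s t hl h3 (tree_of_con s t fun U hU hU' => le_trans (by norm_num) (hc U hU hU')) hc
      (Nat.le_zero.1 hn) (simple_of_con s t hl h3 hc h2) hp)

end Pool.Agent.Prm3
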