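import Pool.Agent.PL3.PWord

/-!
# Functionals of networks with four ports, closings by a square

The basic functional is `R H3`: the four ports are joined to the vertices of a square (two legs and a rung at
the ports `0`, `1`, then the pairing `03|12`).  `WdB` is the set of the functionals which are obtained from it by
rungs, by the symmetries of the square and by linear combinations.
-/

set_option autoImplicit false

open scoped BigOperators

namespace Pool.Agent.Prm3

open Pool.Agent.KG Pool.Agent.P3 Pool.Agent.PL3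

/-- The reflection which exchanges the ports `0` and `1`, `2` and `3`. -/
def sw : Equiv.Perm (Fin 4) := Equiv.swap 0 1 * Equiv.swap 2 3

section

variable {K : Type} [Field K]

/-- The cyclic shift of the ports. -/
def ro (X : Set (Pt K) → ℤ) (B : Set (Pt K)) : ℤ := X (pm (finRotate 4) B)

/-- The reflection of the ports. -/
def sg (X : Set (Pt K) → ℤ) (B : Set (Pt K)) : ℤ := X (pm sw B)

variable [Fintype K]

/-- The currents are multiples of `j`, the potentials after the legs are orthogonal to `j`. -/
noncomputable def E (j : Fin 4 → K) (B : Set (Pt K)) : ℤ :=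
  open Classical in ∑ y : Fin 4 → K,
    if j ≠ 0 ∧ ∀ z ∈ B, ¬ ((∃ t : K, z.1 = t • j) ∧ ∑ k, j k * (z.2 k + y k * z.1 k) = 0) then 1 else 0

/-- All currents are `0`. -/
noncomputable def J (B : Set (Pt K)) : ℤ :=
  open Classical in ∑ _y : Fin 4 → K, if ∀ z ∈ B, z.1 ≠ 0 then 1 else 0

/-- The currents are in the plane spanned by `j` and `v = e₀ - e₁`, with the quadratic form `(a, b, d)`. -/
noncomputable def F2 (j : Fin 4 → K) (a b d : K) (B : Set (Pt K)) : ℤ :=
  open Classical in
    if ∀ z ∈ B, ¬ ∃ t u : K, (∀ k, z.1 k = t * j k + u * vv k) ∧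
      ∑ k, j k * z.2 k + (a * t + b * u) = 0 ∧ z.2 0 - z.2 1 + (b * t + d * u) = 0 then 1 else 0

/-- Two legs and a rung at the ports `1`, `2`. -/
noncomputable def Rb (X : Set (Pt K) → ℤ) : Set (Pt K) → ℤ := ro (R (ro (ro (ro X))))

/-- `(1 - σ) A B`. -/
noncomputable def el (X : Set (Pt K) → ℤ) (B : Set (Pt K)) : ℤ := R (Rb X) B - sg (R (Rb X)) B

/-- The port `0` is separated from the others. -/
noncomputable def g0 (B : Set (Pt K)) : ℤ := G ![1, 0, 0, 0] 0 B

/-- The port `1` is separated from the others. -/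
noncomputable def g1 (B : Set (Pt K)) : ℤ := G ![0, 1, 0, 0] 0 B

/-- The port `2` is separated from the others. -/
noncomputable def g2 (B : Set (Pt K)) : ℤ := G ![0, 0, 1, 0] 0 B

/-- The port `3` is separated from the others. -/
noncomputable def g3 (B : Set (Pt K)) : ℤ := G ![0, 0, 0, 1] 0 B

/-- Two strands `01|23` with the coupling `r`. -/
noncomputable def p01 (r : K) (B : Set (Pt K)) : ℤ := G ![1, 1, 0, 0] (mt r 0) B

/-- Potentials with `φ₁ = φ₂ = 0`. -/
noncomputable def Ps30 (B : Set (Pt K)) : ℤ := ∑ a : K, ∑ b : K, G ![a, 0, 0, b] 0 B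

/-- The difference of two triangles. -/
noncomputable def dT (B : Set (Pt K)) : ℤ := R g3 B - R g2 B

/-- The difference of two separated ports. -/
noncomputable def e1 (B : Set (Pt K)) : ℤ := g3 B - g2 B

/-- The nonconstant part of the strands `03|12`. -/
noncomputable def bt (B : Set (Pt K)) : ℤ := B3s B - qK K * B3 0 B

/-- The nonconstant part of the strands `01|23`. -/
noncomputable def bt' (B : Set (Pt K)) : ℤ := ∑ r : K, p01 r B - qK K * p01 0 B

/-- The nonconstant part of the strands `02|13`. -/
noncomputable def gm (B : Set (Pt K)) : ℤ := ∑ c : K, P2 c B - qK K * P2 0 B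

end

/-- The functionals which are combinations of closings by ladders over a square. -/
inductive WdB : ((F : FinField) → Set (Pt F.K) → ℤ) → Prop
  | box : WdB fun _ B => R H3 B
  | rung {X : (F : FinField) → Set (Pt F.K) → ℤ} : WdB X → WdB fun F B => R (X F) B
  | rot {X : (F : FinField) → Set (Pt F.K) → ℤ} : WdB X → WdB fun F B => X F (pm (finRotate 4) B)
  | refl {X : (F : FinField) → Set (Pt F.K) → ℤ} : WdB X → WdB fun F B => X F (pm sw B)
  | add {X Y : (F : FinField) → Set (Pt F.K) → ℤ} : WdB X → WdB Y → WdB fun F B => X F B + Y F B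
  | mulp (c : Polynomial ℤ) {X : (F : FinField) → Set (Pt F.K) → ℤ} : WdB X →
      WdB fun F B => c.eval F.q * X F B
  | div (m : Polynomial ℤ) {X : (F : FinField) → Set (Pt F.K) → ℤ} : m.Monic →
      (WdB fun F B => m.eval F.q * X F B) → WdB X

/-! ### calculus in `WdB` -/

theorem WdB.congr {X Y : (F : FinField) → Set (Pt F.K) → ℤ} (hX : WdB X) (h : ∀ F B, X F B = Y F B) :
    WdB Y := by
  have h' : X = Y := by
    funext F B
    exact h F B
  exact h' ▸ hX

theorem WdB.smul (c : Polynomial ℤ) {X Y : (F : FinField) → Set (Pt F.K) → ℤ} (hX : WdB X)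
    (h : ∀ F B, Y F B = c.eval F.q * X F B) : WdB Y :=
  (WdB.mulp c hX).congr fun F B => (h F B).symm

theorem WdB.neg {X : (F : FinField) → Set (Pt F.K) → ℤ} (hX : WdB X) : WdB fun F B => - X F B := by
  refine (WdB.mulp (-1) hX).congr fun F B => ?_
  rw [Polynomial.eval_neg, Polynomial.eval_one]
  ring

theorem WdB.sub {X Y : (F : FinField) → Set (Pt F.K) → ℤ} (hX : WdB X) (hY : WdB Y) :
    WdB fun F B => X F B - Y F B := by
  refine (WdB.add hX (WdB.mulp (-1) hY)).congr fun F B => ?_
  rw [Polynomial.eval_neg, Polynomial.eval_one]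
  ring

/-- Multiplication by a power of `q` and a power of `q - 1` can be undone. -/
theorem WdB.cancel (m n : ℕ) {X : (F : FinField) → Set (Pt F.K) → ℤ}
    (hX : WdB fun F B => qK F.K ^ m * (qK F.K - 1) ^ n * X F B) : WdB X := by
  refine WdB.div (Polynomial.X ^ m * (Polynomial.X - Polynomial.C 1) ^ n)
    ((Polynomial.monic_X_pow m).mul ((Polynomial.monic_X_sub_C 1).pow n)) (hX.congr fun F B => ?_)
  rw [qK_eq]
  simp only [Polynomial.eval_sub, Polynomial.eval_mul, Polynomial.eval_C, Polynomial.eval_X,
    Polynomial.eval_pow]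

/-- Multiplication by a polynomial in `q`. -/
theorem WdB.mulq (c : Polynomial ℤ) {X Y : (F : FinField) → Set (Pt F.K) → ℤ} (hX : WdB X)
    (h : ∀ F B, Y F B = c.eval (qK F.K) * X F B) : WdB Y :=
  hX.smul c fun F B => by rw [h F B, qK_eq]

theorem WdB.el {X : (F : FinField) → Set (Pt F.K) → ℤ} (hX : WdB X) : WdB fun F B => el (X F) B := by
  have h1 : WdB fun F B => Rb (X F) B := WdB.rot (WdB.rung (WdB.rot (WdB.rot (WdB.rot hX))))
  have h2 : WdB fun F B => R (Rb (X F)) B := WdB.rung h1
  exact h2.sub (WdB.refl h2)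

end Pool.Agent.Prm3
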