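import Pool.Agent.Prm3.Fn
import Pool.Agent.PL3.Main

/-!
# Edge cuts of graphs and of graphs with four ports
-/

set_option autoImplicit false

open scoped BigOperators

namespace Pool.Agent.Prm3

open Pool.Agent.KG Pool.Agent.P3 Pool.Agent.PL3

variable {V E : Type}

open Classical in
/-- The number of edges between `U` and its complement. -/
noncomputable def cs [Fintype E] (s t : E → V) (U : Set V) : ℕ := ∑ e, if (s e ∈ U ↔ t e ∈ U) then 0 else 1

open Classical in
/-- The number of ports in `U`. -/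
noncomputable def pc (a : Fin 4 → V) (U : Set V) : ℕ := ∑ k, if a k ∈ U then 1 else 0

/-- The number of edges which leave `U`, the ports included. -/
noncomputable def cu [Fintype E] (s t : E → V) (a : Fin 4 → V) (U : Set V) : ℕ := cs s t U + pc a U

open Classical in
/-- The number of edges from the vertex `v` to `X`. -/
noncomputable def dv [Fintype E] (s t : E → V) (v : V) (X : Set V) : ℕ :=
  ∑ e, ((if s e = v ∧ t e ∈ X then 1 else 0) + if t e = v ∧ s e ∈ X then 1 else 0)

open Classical in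
/-- The number of edges between `X` and `Y` (for disjoint sets). -/
noncomputable def ee [Fintype E] (s t : E → V) (X Y : Set V) : ℕ :=
  ∑ e, ((if s e ∈ X ∧ t e ∈ Y then 1 else 0) + if s e ∈ Y ∧ t e ∈ X then 1 else 0)

/-- Each cut has at least `k` edges. -/
def Con [Fintype E] (s t : E → V) (k : ℕ) : Prop := ∀ U : Set V, U.Nonempty → U ≠ Set.univ → k ≤ cs s t U

/-- The number of the cuts with `k` edges and at least two vertices on both sides (each side is counted). -/
noncomputable def nc [Fintype E] (s t : E → V) (k : ℕ) : ℕ :=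
  {U : Set V | 2 ≤ U.ncard ∧ 2 ≤ Uᶜ.ncard ∧ cs s t U = k}.ncard

/-- The closing `01|23` of the ports by two vertices joined by an edge: sources. -/
def hcS (s : E → V) : E ⊕ Fin 5 → V ⊕ Fin 2 :=
  Sum.elim (fun e => Sum.inl (s e)) ![Sum.inr 0, Sum.inr 0, Sum.inr 1, Sum.inr 1, Sum.inr 0]

/-- The closing `01|23`: targets. -/
def hcT (t : E → V) (a : Fin 4 → V) : E ⊕ Fin 5 → V ⊕ Fin 2 :=
  Sum.elim (fun e => Sum.inl (t e)) ![Sum.inl (a 0), Sum.inl (a 1), Sum.inl (a 2), Sum.inl (a 3), Sum.inr 1]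

/-- The functions `ns` of the 3-regular graphs without loops all whose cuts have at least `k` edges, at most `m`
of the nontrivial ones exactly `k`; planar if `b = true`. -/
def CG (b : Bool) (k m : ℕ) : Set (FinField → ℤ) :=
  {f | ∃ (V E : Type) (_ : Fintype V) (_ : Fintype E) (s t : E → V), Nonempty V ∧ LL s t ∧
    (∀ v, deg s t v = 3) ∧ Con s t k ∧ nc s t k ≤ m ∧ (b = true → Pl s t) ∧ f = ns s t}

/-- The graphs with four ports which arise from the graphs in `CG`. -/
structure NW (b : Bool) (k m : ℕ) [Fintype E] (s t : E → V) (a : Fin 4 → V) : Prop where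
  ll : LL s t
  pd3 : ∀ v, pd s t a v = 3
  p1 : ∀ U : Set V, U.Nonempty → k ≤ cu s t a U
  p2 : ∀ U : Set V, U.Nonempty → pc a U = 2 → k + 1 ≤ cu s t a U
  p3 : {U : Set V | 2 ≤ U.ncard ∧ cu s t a U = k}.ncard ≤ m
  pln : b = true → PlN s t a

/-! ### cuts -/

/-- MODULE CTB (1). -/
theorem cs_compl [Fintype E] (s t : E → V) (U : Set V) : cs s t Uᶜ = cs s t U := by
  classical
  unfold cs
  refine Finset.sum_congr rfl fun e _ => ?_
  by_cases h1 : s e ∈ U <;> by_cases h2 : t e ∈ U <;> simp [h1, h2]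

/-- MODULE CTB (2). -/
theorem cs_empty [Fintype E] (s t : E → V) : cs s t ∅ = 0 := by
  simp [cs]

/-- MODULE CTB (3). -/
theorem cs_univ [Fintype E] (s t : E → V) : cs s t Set.univ = 0 := by
  simp [cs]

/-- MODULE CTB (4). -/
theorem pc_compl (a : Fin 4 → V) (U : Set V) : pc a U + pc a Uᶜ = 4 := by
  classical
  unfold pc
  rw [← Finset.sum_add_distrib]
  refine (Finset.sum_congr rfl (g := fun _ => 1) fun k _ => ?_).trans (by simp)
  by_cases h1 : a k ∈ U <;> simp [h1]

/-- MODULE CTB (5).  `pc a U ≠ 0` iff a port is in `U`. -/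
theorem pc_pos (a : Fin 4 → V) (U : Set V) (k : Fin 4) (h : a k ∈ U) : 0 < pc a U := by
  classical
  unfold pc
  refine Finset.sum_pos' (fun _ _ => Nat.zero_le _) ⟨k, Finset.mem_univ k, ?_⟩
  rw [if_pos h]
  exact Nat.one_pos

/-- MODULE CTB (6).  `cs` as the number of elements of a set. -/
theorem cs_ncard [Fintype E] (s t : E → V) (U : Set V) : cs s t U = {e | ¬ (s e ∈ U ↔ t e ∈ U)}.ncard := by
  classical
  have h1 : {e | ¬ (s e ∈ U ↔ t e ∈ U)} =
      ((Finset.univ.filter fun e => ¬ (s e ∈ U ↔ t e ∈ U) : Finset E) : Set E) := by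
    ext e
    simp
  rw [h1, Set.ncard_coe_finset, Finset.card_filter]
  unfold cs
  refine Finset.sum_congr rfl fun e _ => ?_
  by_cases h2 : s e ∈ U <;> by_cases h3 : t e ∈ U <;> simp [h2, h3]

open Classical in
private theorem CTC_deg {V E : Type} [Fintype E] (s t : E → V) (v : V) :
    deg s t v = ∑ e, ((if s e = v then 1 else 0) + (if t e = v then 1 else 0)) := by
  have h : ∀ f : E → V, {e | f e = v}.ncard = ∑ e, if f e = v then 1 else 0 := by
    intro f
    have h1 : {e | f e = v} = ((Finset.univ.filter fun e => f e = v : Finset E) : Set E) := by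
      ext e
      simp
    rw [h1, Set.ncard_coe_finset, Finset.card_filter]
  unfold deg
  rw [h, h, Finset.sum_add_distrib]

/-- MODULE CTC (1).  No loops: the edges at `v` are the edges between `{v}` and the complement. -/
theorem cs_single [Fintype E] (s t : E → V) (hl : LL s t) (v : V) : cs s t {v} = deg s t v := by
  classical
  rw [CTC_deg]
  unfold cs
  refine Finset.sum_congr rfl fun e _ => ?_
  have := hl e
  by_cases h1 : s e = v
  · have h2 : ¬ t e = v := fun h => this (h1.trans h.symm)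
    simp [h1, h2]
  · by_cases h2 : t e = v <;> simp [h1, h2]

/-- MODULE CTC (2).  `dv` of a set and of its complement. -/
theorem dv_compl [Fintype E] (s t : E → V) (v : V) (X : Set V) : dv s t v X + dv s t v Xᶜ = deg s t v := by
  classical
  rw [CTC_deg]
  unfold dv
  rw [← Finset.sum_add_distrib]
  refine Finset.sum_congr rfl fun e _ => ?_
  simp only [Set.mem_compl_iff]
  generalize (s e = v) = P1
  generalize (t e = v) = P2
  generalize (s e ∈ X) = P3
  generalize (t e ∈ X) = P4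
  by_cases h1 : P1 <;> by_cases h2 : P2 <;> by_cases h3 : P3 <;> by_cases h4 : P4 <;>
    simp [h1, h2, h3, h4]

/-- MODULE CTC (3).  A vertex is added to `X`.

Proof.  Edge by edge: an edge from `v` to `X` is in the cut of `X` and not in the cut of `insert v X`; the other edges at `v` (no
loops) are in the cut of `insert v X` and not in the cut of `X`; the edges not at `v` are in both or in none.  So
`cs (insert v X) + dv v X = cs X + dv v Xᶜ`, and `dv_compl`. -/
theorem cs_insert [Fintype E] (s t : E → V) (hl : LL s t) (v : V) (X : Set V) (hv : v ∉ X) :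
    cs s t (insert v X) + 2 * dv s t v X = cs s t X + deg s t v := by
  classical
  rw [CTC_deg]
  unfold dv cs
  rw [Finset.mul_sum, ← Finset.sum_add_distrib, ← Finset.sum_add_distrib]
  refine Finset.sum_congr rfl fun e _ => ?_
  have hle := hl e
  by_cases h1 : s e = v
  · have h2 : ¬ t e = v := fun h => hle (h1.trans h.symm)
    have h3 : s e ∉ X := by rw [h1]; exact hv
    by_cases h4 : t e ∈ X <;> simp [h1, h2, h4, hv]
  · by_cases h2 : t e = v
    · have h3 : t e ∉ X := by rw [h2]; exact hv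
      by_cases h4 : s e ∈ X <;> simp [h1, h2, h4, hv]
    · by_cases h3 : s e ∈ X <;> by_cases h4 : t e ∈ X <;> simp [h1, h2, h3, h4]

/-- MODULE CTC (4).  `dv` is additive. -/
theorem dv_union [Fintype E] (s t : E → V) (v : V) (X Y : Set V) (h : Disjoint X Y) :
    dv s t v (X ∪ Y) = dv s t v X + dv s t v Y := by
  classical
  unfold dv
  rw [← Finset.sum_add_distrib]
  refine Finset.sum_congr rfl fun e _ => ?_
  have h5 : s e ∈ X → ¬ s e ∈ Y := fun hx hy => Set.disjoint_left.1 h hx hy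
  have h8 : t e ∈ X → ¬ t e ∈ Y := fun hx hy => Set.disjoint_left.1 h hx hy
  simp only [Set.mem_union]
  revert h5 h8
  generalize (s e = v) = P1
  generalize (t e = v) = P2
  generalize (s e ∈ X) = P3
  generalize (t e ∈ X) = P4
  generalize (s e ∈ Y) = P5
  generalize (t e ∈ Y) = P6
  intro h5 h8
  by_cases h1 : P1 <;> by_cases h2 : P2 <;> by_cases h3 : P3 <;> by_cases h4 : P4 <;>
    by_cases h6 : P5 <;> by_cases h7 : P6 <;>
    first
      | exact absurd h6 (h5 h3)
      | exact absurd h7 (h8 h4)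
      | simp [h1, h2, h3, h4, h6, h7]

/-- MODULE CTC (5). -/
theorem dv_le_ee [Fintype E] (s t : E → V) (v : V) (X Y : Set V) (hv : v ∈ X) : dv s t v Y ≤ ee s t X Y := by
  classical
  unfold dv ee
  refine Finset.sum_le_sum fun e _ => ?_
  refine Nat.add_le_add ?_ ?_
  · by_cases h1 : s e = v ∧ t e ∈ Y
    · have h2 : s e ∈ X ∧ t e ∈ Y := ⟨by rw [h1.1]; exact hv, h1.2⟩
      rw [if_pos h1, if_pos h2]
    · rw [if_neg h1]
      exact Nat.zero_le _
  · by_cases h1 : t e = v ∧ s e ∈ Y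
    · have h2 : s e ∈ Y ∧ t e ∈ X := ⟨h1.2, by rw [h1.1]; exact hv⟩
      rw [if_pos h1, if_pos h2]
    · rw [if_neg h1]
      exact Nat.zero_le _

/-- MODULE CTC (6). -/
theorem dv_pos [Fintype E] (s t : E → V) (e : E) (v w : V) (X : Set V)
    (he : (s e = v ∧ t e = w) ∨ (s e = w ∧ t e = v)) (hw : w ∈ X) : 1 ≤ dv s t v X := by
  classical
  unfold dv
  refine Nat.succ_le_of_lt (Finset.sum_pos' (fun _ _ => Nat.zero_le _) ⟨e, Finset.mem_univ e, ?_⟩)
  rcases he with ⟨h1, h2⟩ | ⟨h1, h2⟩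
  · rw [if_pos ⟨h1, by rw [h2]; exact hw⟩]
    omega
  · rw [if_pos (⟨h2, by rw [h1]; exact hw⟩ : t e = v ∧ s e ∈ X)]
    omega

/-- MODULE CTI (1).  Isomorphic graphs (edges may be turned round): reindex by `g`. -/
theorem cs_key {V' E' : Type} [Fintype E] [Fintype E'] (f : V' ≃ V) (g : E' ≃ E) (s t : E → V) (S T : E' → V')
    (h : ∀ o, (s (g o) = f (S o) ∧ t (g o) = f (T o)) ∨ (s (g o) = f (T o) ∧ t (g o) = f (S o))) (U : Set V') :
    cs S T U = cs s t (f '' U) := by
  classical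
  unfold cs
  rw [← Equiv.sum_comp g]
  refine Finset.sum_congr rfl fun o _ => ?_
  rcases h o with ⟨h1, h2⟩ | ⟨h1, h2⟩
  · rw [h1, h2, f.injective.mem_set_image, f.injective.mem_set_image]
  · rw [h1, h2, f.injective.mem_set_image, f.injective.mem_set_image]
    by_cases h3 : S o ∈ U <;> by_cases h4 : T o ∈ U <;> simp [h3, h4]

/-- MODULE CTI (2). -/
theorem dv_key {V' E' : Type} [Fintype E] [Fintype E'] (f : V' ≃ V) (g : E' ≃ E) (s t : E → V) (S T : E' → V')
    (h : ∀ o, (s (g o) = f (S o) ∧ t (g o) = f (T o)) ∨ (s (g o) = f (T o) ∧ t (g o) = f (S o))) (v : V')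
    (U : Set V') : dv S T v U = dv s t (f v) (f '' U) := by
  classical
  unfold dv
  rw [← Equiv.sum_comp g]
  refine Finset.sum_congr rfl fun o _ => ?_
  rcases h o with ⟨h1, h2⟩ | ⟨h1, h2⟩
  · rw [h1, h2]
    simp only [f.injective.mem_set_image, f.injective.eq_iff]
  · rw [h1, h2]
    simp only [f.injective.mem_set_image, f.injective.eq_iff]
    exact add_comm _ _

/-- MODULE CTI (3).  `PRA_ns` in PL3/Reg.lean (private there; copy it). -/
theorem ns_key {V' E' : Type} [Fintype V] [Fintype E] [Fintype V'] [Fintype E'] (f : V' ≃ V) (g : E' ≃ E)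
    (s t : E → V) (S T : E' → V')
    (h : ∀ o, (s (g o) = f (S o) ∧ t (g o) = f (T o)) ∨ (s (g o) = f (T o) ∧ t (g o) = f (S o))) :
    ns s t = ns S T := by
  have h1 : ns (fun o => s (g o)) (fun o => t (g o)) = ns s t :=
    (ns_iso (Equiv.refl V) g (fun o => s (g o)) (fun o => t (g o)) s t (fun o => rfl) (fun o => rfl)).symm
  have h2 : ns (fun o => f (S o)) (fun o => f (T o)) = ns S T :=
    ns_iso f (Equiv.refl E') S T (fun o => f (S o)) (fun o => f (T o)) (fun o => rfl) (fun o => rfl)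
  rw [← h1, ← h2]
  exact ns_flip (fun o => f (S o)) (fun o => f (T o)) (fun o => s (g o)) (fun o => t (g o)) h

/-- MODULE CTI (4).  `PRA_dg` in PL3/Reg.lean (private there; copy it). -/
theorem deg_key {V' E' : Type} [Fintype E] [Fintype E'] (f : V' ≃ V) (g : E' ≃ E) (s t : E → V) (S T : E' → V')
    (h : ∀ o, (s (g o) = f (S o) ∧ t (g o) = f (T o)) ∨ (s (g o) = f (T o) ∧ t (g o) = f (S o))) (u : V') :
    deg S T u = deg s t (f u) := by
  classical
  rw [CTC_deg, CTC_deg, ← Equiv.sum_comp g]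
  refine Finset.sum_congr rfl fun o _ => ?_
  rcases h o with ⟨h1, h2⟩ | ⟨h1, h2⟩
  · rw [h1, h2]
    simp only [f.injective.eq_iff]
  · rw [h1, h2]
    simp only [f.injective.eq_iff]
    ring

open Classical in
/-- MODULE CTR (1).  `Fintype.sum_sum_type`, `Fin.sum_univ_three`. -/
theorem cs_rg [Fintype E] (s t : E → V) (a : Fin 4 → V) (U : Set (V ⊕ Fin 2)) :
    cs (rgS s) (rgT t a) U = cs s t (Sum.inl ⁻¹' U) +
      (if (Sum.inr 0 ∈ U ↔ Sum.inl (a 0) ∈ U) then 0 else 1) +
      (if (Sum.inr 1 ∈ U ↔ Sum.inl (a 1) ∈ U) then 0 else 1) +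
      (if ((Sum.inr 0 : V ⊕ Fin 2) ∈ U ↔ Sum.inr 1 ∈ U) then 0 else 1) := by
  unfold cs
  rw [Fintype.sum_sum_type, Fin.sum_univ_three, ← add_assoc, ← add_assoc]
  refine congrArg₂ (· + ·) (congrArg₂ (· + ·) (congrArg₂ (· + ·) ?_ ?_) ?_) ?_
  · exact Finset.sum_congr rfl fun e _ => if_congr Iff.rfl rfl rfl
  · exact if_congr Iff.rfl rfl rfl
  · exact if_congr Iff.rfl rfl rfl
  · exact if_congr Iff.rfl rfl rfl

open Classical in
/-- MODULE CTR (2). -/
theorem pc_rg (a : Fin 4 → V) (U : Set (V ⊕ Fin 2)) :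
    pc (rgA a) U = (if (Sum.inr 0 : V ⊕ Fin 2) ∈ U then 1 else 0) + (if (Sum.inr 1 : V ⊕ Fin 2) ∈ U then 1 else 0) +
      (if Sum.inl (a 2) ∈ U then 1 else 0) + (if Sum.inl (a 3) ∈ U then 1 else 0) := by
  unfold pc
  rw [Fin.sum_univ_four]
  refine congrArg₂ (· + ·) (congrArg₂ (· + ·) (congrArg₂ (· + ·) ?_ ?_) ?_) ?_
  · exact if_congr Iff.rfl rfl rfl
  · exact if_congr Iff.rfl rfl rfl
  · exact if_congr Iff.rfl rfl rfl
  · exact if_congr Iff.rfl rfl rfl

open Classical in
/-- MODULE CTR (3).  `pc` written out (`Fin.sum_univ_four`). -/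
theorem pc_inl (a : Fin 4 → V) (U : Set (V ⊕ Fin 2)) :
    pc a (Sum.inl ⁻¹' U) = (if Sum.inl (a 0) ∈ U then 1 else 0) + (if Sum.inl (a 1) ∈ U then 1 else 0) +
      (if Sum.inl (a 2) ∈ U then 1 else 0) + (if Sum.inl (a 3) ∈ U then 1 else 0) := by
  unfold pc
  rw [Fin.sum_univ_four]
  simp

open Classical in
/-- MODULE CTR (4). -/
theorem cs_hc [Fintype E] (s t : E → V) (a : Fin 4 → V) (U : Set (V ⊕ Fin 2)) :
    cs (hcS s) (hcT t a) U = cs s t (Sum.inl ⁻¹' U) +
      (if (Sum.inr 0 ∈ U ↔ Sum.inl (a 0) ∈ U) then 0 else 1) +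
      (if (Sum.inr 0 ∈ U ↔ Sum.inl (a 1) ∈ U) then 0 else 1) +
      (if (Sum.inr 1 ∈ U ↔ Sum.inl (a 2) ∈ U) then 0 else 1) +
      (if (Sum.inr 1 ∈ U ↔ Sum.inl (a 3) ∈ U) then 0 else 1) +
      (if ((Sum.inr 0 : V ⊕ Fin 2) ∈ U ↔ Sum.inr 1 ∈ U) then 0 else 1) := by
  unfold cs
  rw [Fintype.sum_sum_type, Fin.sum_univ_five, ← add_assoc, ← add_assoc, ← add_assoc, ← add_assoc]
  refine congrArg₂ (· + ·) (congrArg₂ (· + ·) (congrArg₂ (· + ·) (congrArg₂ (· + ·)
    (congrArg₂ (· + ·) ?_ ?_) ?_) ?_) ?_) ?_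
  · exact Finset.sum_congr rfl fun e _ => if_congr Iff.rfl rfl rfl
  · exact if_congr Iff.rfl rfl rfl
  · exact if_congr Iff.rfl rfl rfl
  · exact if_congr Iff.rfl rfl rfl
  · exact if_congr Iff.rfl rfl rfl
  · exact if_congr Iff.rfl rfl rfl

private theorem CTR_sum {E F W : Type} [Finite E] [Finite F] (f : E ⊕ F → W) (w : W) :
    {e' | f e' = w}.ncard = {e | f (Sum.inl e) = w}.ncard + {k | f (Sum.inr k) = w}.ncard := by
  have h : {e' | f e' = w} = (Sum.inl '' {e | f (Sum.inl e) = w} : Set (E ⊕ F)) ∪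
      Sum.inr '' {k | f (Sum.inr k) = w} := by
    ext e'
    rcases e' with e | k
    · simp
    · simp
  rw [h, Set.ncard_union_eq _ (Set.toFinite _) (Set.toFinite _),
    Set.ncard_image_of_injective _ Sum.inl_injective,
    Set.ncard_image_of_injective _ Sum.inr_injective]
  rw [Set.disjoint_left]
  rintro _ ⟨e, _, rfl⟩ ⟨k, _, hk⟩
  exact Sum.inr_ne_inl hk

open Classical in
private theorem CTR_fin {m : ℕ} (p : Fin m → Prop) :
    {k | p k}.ncard = ∑ k, if p k then 1 else 0 := by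
  have h : {k | p k} = ((Finset.univ.filter p : Finset (Fin m)) : Set (Fin m)) := by
    ext k
    simp
  rw [h, Set.ncard_coe_finset, Finset.card_filter]

/-- MODULE CTR (5).  Degrees: compare `P3.deg_clo_inl`, `P3.deg_clo_inr` (P3/Pd.lean). -/
theorem deg_hc_inl [Fintype V] [Fintype E] (s t : E → V) (a : Fin 4 → V) (v : V) :
    deg (hcS s) (hcT t a) (Sum.inl v) = pd s t a v := by
  classical
  unfold pd deg
  rw [CTR_sum, CTR_sum, CTR_fin, CTR_fin, CTR_fin, Fin.sum_univ_five, Fin.sum_univ_five,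
    Fin.sum_univ_four]
  simp [hcS, hcT]
  omega

/-- MODULE CTR (6). -/
theorem deg_hc_inr [Fintype V] [Fintype E] (s t : E → V) (a : Fin 4 → V) (j : Fin 2) :
    deg (hcS s) (hcT t a) (Sum.inr j) = 3 := by
  classical
  unfold deg
  rw [CTR_sum, CTR_sum, CTR_fin, CTR_fin]
  fin_cases j <;> simp [hcS, hcT, Fin.sum_univ_five]

end Pool.Agent.Prm3
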