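import Pool.Agent.Prm3.Elm
import Pool.Agent.Prm3.Sy
import Pool.Agent.P3.Mst

/-!
# The rung on the functionals `G φ` with `φ 0 = φ 1`
-/

set_option autoImplicit false

open scoped BigOperators

namespace Pool.Agent.Prm3

open Pool.Agent.KG Pool.Agent.P3 Pool.Agent.PL3

variable {K : Type} [Field K] [Fintype K]

omit [Field K] in
private theorem GRF_sum4 (f : (Fin 4 → K) → ℤ) :
    ∑ y : Fin 4 → K, f y = ∑ y0 : K, ∑ y1 : K, ∑ y2 : K, ∑ y3 : K, f ![y0, y1, y2, y3] := by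
  classical
  have h : ∑ y0 : K, ∑ y1 : K, ∑ y2 : K, ∑ y3 : K, f ![y0, y1, y2, y3] =
      ∑ p : K × K × K × K, f ![p.1, p.2.1, p.2.2.1, p.2.2.2] := by
    simp only [Fintype.sum_prod_type]
  rw [h]
  refine Fintype.sum_equiv
    { toFun := fun y => (y 0, y 1, y 2, y 3)
      invFun := fun p => ![p.1, p.2.1, p.2.2.1, p.2.2.2]
      left_inv := by
        intro y
        funext k
        fin_cases k <;> rfl
      right_inv := by
        rintro ⟨a, b, c, d⟩
        rfl } _ _ fun y => ?_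
  congr 1
  funext k
  fin_cases k <;> rfl

omit [Field K] in
private theorem GRF_sum5 (G : K → K → K → K → K → ℤ) :
    ∑ a : K, ∑ b : K, ∑ x : K, ∑ y0 : K, ∑ y1 : K, G a b x y0 y1 =
      ∑ y0 : K, ∑ y1 : K, ∑ x : K, ∑ a : K, ∑ b : K, G a b x y0 y1 := by
  classical
  have h1 : ∑ a : K, ∑ b : K, ∑ x : K, ∑ y0 : K, ∑ y1 : K, G a b x y0 y1 =
      ∑ p : K × K × K × K × K, G p.1 p.2.1 p.2.2.1 p.2.2.2.1 p.2.2.2.2 := by
    simp only [Fintype.sum_prod_type]
  have h2 : ∑ y0 : K, ∑ y1 : K, ∑ x : K, ∑ a : K, ∑ b : K, G a b x y0 y1 =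
      ∑ p : K × K × K × K × K, G p.2.2.2.1 p.2.2.2.2 p.2.2.1 p.1 p.2.1 := by
    simp only [Fintype.sum_prod_type]
  rw [h1, h2]
  exact Fintype.sum_equiv
    { toFun := fun p => (p.2.2.2.1, p.2.2.2.2, p.2.2.1, p.1, p.2.1)
      invFun := fun p => (p.2.2.2.1, p.2.2.2.2, p.2.2.1, p.1, p.2.1)
      left_inv := fun p => rfl
      right_inv := fun p => rfl } _ _ fun p => rfl

private theorem GRF_sum (F : K → K → K → (Fin 4 → K) → ℤ) (ϕ : K → K → K → (Fin 4 → K) → ℤ)
    (h : ∀ a b x y0 y1 y2 y3, F a b x ![y0, y1, y2, y3] = ϕ y0 y1 x ![y0 + a, y1 + b, y2, y3]) :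
    ∑ a : K, ∑ b : K, ∑ x : K, ∑ y : Fin 4 → K, F a b x y =
      ∑ y0 : K, ∑ y1 : K, ∑ x : K, ∑ y : Fin 4 → K, ϕ y0 y1 x y := by
  classical
  simp only [GRF_sum4, h]
  rw [GRF_sum5]
  refine Finset.sum_congr rfl fun y0 _ => Finset.sum_congr rfl fun y1 _ =>
    Finset.sum_congr rfl fun x _ => ?_
  refine (Fintype.sum_equiv (Equiv.addLeft y0) _ _ fun a => ?_)
  rw [Equiv.coe_addLeft]
  refine (Fintype.sum_equiv (Equiv.addLeft y1) _ _ fun b => ?_)
  rw [Equiv.coe_addLeft]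

omit [Fintype K] in
private theorem GRF_diag (Q : Matrix (Fin 4) (Fin 4) K) (N : Matrix (Fin 4) (Fin 4) K) (a b y0 y1 y2 y3 : K) :
    Q + Matrix.diagonal ![y0, y1, y2, y3] + Matrix.diagonal ![a, b, 0, 0] + N =
      (Q + N) + Matrix.diagonal ![y0 + a, y1 + b, y2, y3] := by
  have : Matrix.diagonal ![y0 + a, y1 + b, y2, y3] =
      (Matrix.diagonal ![y0, y1, y2, y3] + Matrix.diagonal ![a, b, 0, 0] : Matrix (Fin 4) (Fin 4) K) := by
    rw [Matrix.diagonal_add]
    congr 1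
    funext k
    fin_cases k
    · rfl
    · rfl
    · exact (add_zero y2).symm
    · exact (add_zero y3).symm
  rw [this]
  abel

omit [Fintype K] in
private theorem GRF_g (Q : Matrix (Fin 4) (Fin 4) K) (y0 y1 y2 y3 : K) (k : Fin 4) :
    gv Q y0 y1 k = (Q + Matrix.diagonal ![y0, y1, y2, y3]) k 0 -
      (Q + Matrix.diagonal ![y0, y1, y2, y3]) k 1 := by
  unfold gv vv
  rw [Matrix.add_apply, Matrix.add_apply]
  simp only [Matrix.mulVec, dotProduct, Fin.sum_univ_four]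
  fin_cases k <;> simp <;> ring

omit [Fintype K] in
private theorem GRF_symm (Q : Matrix (Fin 4) (Fin 4) K) (hQ : Q.IsSymm) (y : Fin 4 → K) :
    (Q + Matrix.diagonal y).IsSymm := hQ.add (Matrix.isSymm_diagonal y)

omit [Fintype K] in
private theorem GRF_vsymm (g : Fin 4 → K) : (Matrix.vecMulVec g g).IsSymm := by
  ext i j
  rw [Matrix.transpose_apply, Matrix.vecMulVec_apply, Matrix.vecMulVec_apply, mul_comm]

private theorem GRF_ite (A : ℤ) (f : K → ℤ) (inst : DecidableEq K) :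
    ∑ S : K, (if S = 0 then A else f S) = A + ∑ S : K, (if S = 0 then 0 else f S) := by
  have h : ∀ S : K, (if S = 0 then A else f S) = (if S = 0 then A else 0) + (if S = 0 then 0 else f S) := by
    intro S
    split_ifs <;> simp
  simp only [h]
  rw [Finset.sum_add_distrib, Finset.sum_ite_eq' Finset.univ (0 : K) (fun _ => A), if_pos (Finset.mem_univ _)]

private theorem GRF_shift (F : K → ℤ) (t : K) : ∑ x : K, F (x + t) = ∑ x : K, F x :=
  Equiv.sum_comp (Equiv.addRight t) F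


omit [Fintype K] in
private theorem GRF_iff (φ g j : Fin 4 → K) (hφ : ¬ ∃ c, ∀ k, φ k = c) (hg : ¬ ∃ c u : K, ∀ k, g k = c + u * φ k)
    (hj : j ≠ 0) (h1 : ∑ k, j k = 0) (h2 : ∑ k, φ k * j k = 0) (h3 : ∑ k, g k * j k = 0)
    (i p : Fin 4 → K) :
    (∑ k, i k = 0 ∧ ∑ k, φ k * i k = 0 ∧ ∑ k, g k * i k = 0 ∧ ∃ c u w : K, ∀ k, p k = c + u * φ k + w * g k) ↔
      (∃ t : K, i = t • j) ∧ ∑ k, j k * p k = 0 := by
  obtain ⟨hp1, hp2⟩ := perp φ g j hφ hg hj h1 h2 h3
  constructor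
  · rintro ⟨e1, e2, e3, c, u, w, e4⟩
    refine ⟨hp1 i e1 e2 e3, ?_⟩
    have e5 : ∀ k, j k * p k = c * j k + u * (φ k * j k) + w * (g k * j k) := by
      intro k
      rw [e4]
      ring
    rw [Finset.sum_congr rfl fun k _ => e5 k, Finset.sum_add_distrib, Finset.sum_add_distrib,
      ← Finset.mul_sum, ← Finset.mul_sum, ← Finset.mul_sum, h1, h2, h3]
    ring
  · rintro ⟨⟨t, rfl⟩, e2⟩
    refine ⟨?_, ?_, ?_, hp2 p e2⟩
    · have e5 : ∀ k, (t • j) k = t * j k := fun k => rfl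
      rw [Finset.sum_congr rfl fun k _ => e5 k, ← Finset.mul_sum, h1, mul_zero]
    · have e5 : ∀ k, φ k * (t • j) k = t * (φ k * j k) := by
        intro k
        rw [Pi.smul_apply, smul_eq_mul]
        ring
      rw [Finset.sum_congr rfl fun k _ => e5 k, ← Finset.mul_sum, h2, mul_zero]
    · have e5 : ∀ k, g k * (t • j) k = t * (g k * j k) := by
        intro k
        rw [Pi.smul_apply, smul_eq_mul]
        ring
      rw [Finset.sum_congr rfl fun k _ => e5 k, ← Finset.mul_sum, h3, mul_zero]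

private theorem GRF_if {p q : Prop} [Decidable p] [Decidable q] (h : p ↔ q) :
    (if p then (1 : ℤ) else 0) = if q then 1 else 0 := by
  by_cases hp : p
  · rw [if_pos hp, if_pos (h.1 hp)]
  · rw [if_neg hp, if_neg fun h3 => hp (h.2 h3)]

private theorem GRF_E (j : Fin 4 → K) (Q : Matrix (Fin 4) (Fin 4) K) (B : Set (Pt K)) :
    (open Classical in ∑ y : Fin 4 → K, if j ≠ 0 ∧ ∀ z ∈ B, ¬ ((∃ t : K, z.1 = t • j) ∧
      ∑ k, j k * (z.2 k + (Q + Matrix.diagonal y).mulVec z.1 k) = 0) then (1 : ℤ) else 0) = E j B := by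
  classical
  unfold E
  by_cases hj : j = 0
  · refine Finset.sum_congr rfl fun y _ => GRF_if ?_
    constructor
    · exact fun h => absurd hj h.1
    · exact fun h => absurd hj h.1
  · obtain ⟨k0, hk0⟩ : ∃ k, j k ≠ 0 := by
      by_contra h
      push Not at h
      exact hj (funext h)
    obtain ⟨d, hd⟩ : ∃ d : Fin 4 → K, d = Pi.single k0 ((∑ k, j k * Q.mulVec j k) / j k0 ^ 2) := ⟨_, rfl⟩
    refine Fintype.sum_equiv (Equiv.addRight d) _ _ fun y => GRF_if (and_congr Iff.rfl ?_)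
    refine forall_congr' fun z => imp_congr_right fun _ => not_congr (and_congr_right fun hz => ?_)
    obtain ⟨t, ht⟩ := hz
    have e1 : ∑ k, j k * (z.2 k + (Q + Matrix.diagonal y).mulVec z.1 k) =
        ∑ k, j k * z.2 k + t * ((∑ k, j k * Q.mulVec j k) + ∑ k, y k * j k ^ 2) := by
      rw [ht, Matrix.add_mulVec, Matrix.mulVec_smul]
      simp only [Pi.add_apply, Pi.smul_apply, Matrix.mulVec_diagonal, smul_eq_mul]
      rw [mul_add, Finset.mul_sum, Finset.mul_sum, ← Finset.sum_add_distrib, ← Finset.sum_add_distrib]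
      refine Finset.sum_congr rfl fun k _ => ?_
      ring
    have e2 : ∑ k, j k * (z.2 k + (Equiv.addRight d y) k * z.1 k) =
        ∑ k, j k * z.2 k + t * (∑ k, d k * j k ^ 2 + ∑ k, y k * j k ^ 2) := by
      rw [ht, mul_add, Finset.mul_sum, Finset.mul_sum, ← Finset.sum_add_distrib,
        ← Finset.sum_add_distrib]
      refine Finset.sum_congr rfl fun k _ => ?_
      simp only [Equiv.coe_addRight, Pi.add_apply, Pi.smul_apply, smul_eq_mul]
      ring
    have e3 : ∑ k, d k * j k ^ 2 = ∑ k, j k * Q.mulVec j k := by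
      rw [hd, Finset.sum_eq_single k0 (fun k _ hk => by rw [Pi.single_eq_of_ne hk, zero_mul])
        (fun h => absurd (Finset.mem_univ _) h), Pi.single_eq_same, div_mul_cancel₀ _ (pow_ne_zero 2 hk0)]
    rw [e1, e2, e3]

/-- MODULE GRF.  The third master formula.

Proof.  Copy the proof of `P3.R_C` (P3/Mst.lean, with its private helpers `mst_sum`, `mst_diag`, `mst_g`, ...): for
`Q' = Q + diag y` and `g = Q' v = gv Q (y 0) (y 1)`, `S = x + g 0 - g 1`, `elim4` (`S ≠ 0`) and `elim5` (`S = 0`); the legs `a`, `b`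
are added to `y 0`, `y 1`.  The term `S = 0`: if `j y0 y1 = 0`, then `g = c + u φ`, the left alternative of `elim5` holds, the
term is `0`, and `E 0 = 0`.  If `j = j y0 y1 ≠ 0`: the left alternative does not hold; by `perp` the condition on `z ∈ B` is
`z.1 = t j` and `j · (z.2 + (Q + diag y) z.1) = 0` (`z.1 = t j`, `z.2 + .. = c + u φ + w g` iff orthogonal to `j`; `j` is orthogonal
to `1`, `φ`, `g`).  Here `j · Q z.1 = t (j · Q j)`: let `k` be an index with `j k ≠ 0` and shift `y k` by `(j · Q j) / j k²`; the sum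
over `y` becomes `E j`. -/
theorem R_GF (φ : Fin 4 → K) (Q : Matrix (Fin 4) (Fin 4) K) (hQ : Q.IsSymm) (h01 : φ 0 = φ 1)
    (hφ : ¬ ∃ c, ∀ k, φ k = c) (j : K → K → Fin 4 → K) (h1 : ∀ y0 y1, ∑ k, j y0 y1 k = 0)
    (h2 : ∀ y0 y1, ∑ k, φ k * j y0 y1 k = 0) (h3 : ∀ y0 y1, ∑ k, gv Q y0 y1 k * j y0 y1 k = 0)
    (h0 : ∀ y0 y1, j y0 y1 = 0 ↔ ∃ c u : K, ∀ k, gv Q y0 y1 k = c + u * φ k) (B : Set (Pt K)) :
    R (G φ Q) B = ∑ y0 : K, ∑ y1 : K, ((open Classical in ∑ S : K, if S = 0 then 0 else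
      G φ (Q - S⁻¹ • Matrix.vecMulVec (gv Q y0 y1) (gv Q y0 y1)) B) + E (j y0 y1) B) := by
  classical
  unfold R G
  rw [GRF_sum (fun a b x y => if (¬ ∃ c, ∀ k, φ k = c) ∧
      ∀ z ∈ bp a b x B, ¬ LamF φ (Q + Matrix.diagonal y) z then 1 else 0)
    (fun y0 y1 x y => if x + (gv Q y0 y1 0 - gv Q y0 y1 1) = 0 then
        (if j y0 y1 ≠ 0 ∧ ∀ z ∈ B, ¬ ((∃ t : K, z.1 = t • j y0 y1) ∧
          ∑ k, j y0 y1 k * (z.2 k + (Q + Matrix.diagonal y).mulVec z.1 k) = 0) then 1 else 0)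
      else (if ∀ z ∈ B, ¬ LamF φ (Q - (x + (gv Q y0 y1 0 - gv Q y0 y1 1))⁻¹ •
        Matrix.vecMulVec (gv Q y0 y1) (gv Q y0 y1) + Matrix.diagonal y) z then 1 else 0))]
  · refine Finset.sum_congr rfl fun y0 _ => Finset.sum_congr rfl fun y1 _ => ?_
    obtain ⟨f, hf⟩ : ∃ f : K → ℤ, ∀ S, f S = ∑ y : Fin 4 → K,
        if (¬ ∃ c, ∀ k, φ k = c) ∧ ∀ z ∈ B, ¬ LamF φ (Q - S⁻¹ •
        Matrix.vecMulVec (gv Q y0 y1) (gv Q y0 y1) + Matrix.diagonal y) z then 1 else 0 :=
      ⟨_, fun S => rfl⟩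
    simp only [← hf]
    have h4 : ∀ x : K, (∑ y : Fin 4 → K, (if x + (gv Q y0 y1 0 - gv Q y0 y1 1) = 0 then
        (if j y0 y1 ≠ 0 ∧ ∀ z ∈ B, ¬ ((∃ t : K, z.1 = t • j y0 y1) ∧
          ∑ k, j y0 y1 k * (z.2 k + (Q + Matrix.diagonal y).mulVec z.1 k) = 0) then (1 : ℤ) else 0)
      else (if ∀ z ∈ B, ¬ LamF φ (Q - (x + (gv Q y0 y1 0 - gv Q y0 y1 1))⁻¹ •
        Matrix.vecMulVec (gv Q y0 y1) (gv Q y0 y1) + Matrix.diagonal y) z then 1 else 0))) =
        (fun S : K => if S = 0 then E (j y0 y1) B else f S)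
          (x + (gv Q y0 y1 0 - gv Q y0 y1 1)) := by
      intro x
      by_cases hS : x + (gv Q y0 y1 0 - gv Q y0 y1 1) = 0
      · simp only [hS, if_true]
        rw [← GRF_E (j y0 y1) Q B]
      · simp only [hS, if_false]
        rw [hf]
        exact Finset.sum_congr rfl fun y _ => GRF_if (by rw [and_iff_right hφ])
    refine (Finset.sum_congr rfl fun x _ => h4 x).trans ?_
    rw [GRF_shift (fun S : K => if S = 0 then E (j y0 y1) B else f S), GRF_ite, add_comm]
  · intro a b x y0 y1 y2 y3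
    have hsym := GRF_symm Q hQ ![y0, y1, y2, y3]
    have hg := GRF_g Q y0 y1 y2 y3
    by_cases hS : x + (gv Q y0 y1 0 - gv Q y0 y1 1) = 0
    · simp only [hS, if_true]
      have h4 := elim5 φ h01 (Q + Matrix.diagonal ![y0, y1, y2, y3]) hsym a b x (gv Q y0 y1) hg hS B
      have h5 : Q + Matrix.diagonal ![y0, y1, y2, y3] + Matrix.diagonal ![a, b, 0, 0] =
          Q + Matrix.diagonal ![y0 + a, y1 + b, y2, y3] := by
        have := GRF_diag Q 0 a b y0 y1 y2 y3
        simpa using this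
      rw [h5] at h4
      refine GRF_if ?_
      rw [and_iff_right hφ]
      have h6 : (∀ z ∈ bp a b x B, ¬ LamF φ (Q + Matrix.diagonal ![y0, y1, y2, y3]) z) ↔
          ¬ ∃ z ∈ bp a b x B, LamF φ (Q + Matrix.diagonal ![y0, y1, y2, y3]) z := by
        push Not
        rfl
      rw [h6, h4, not_or, ← h0 y0 y1]
      refine and_congr_right fun hj => ?_
      have hgn : ¬ ∃ c u : K, ∀ k, gv Q y0 y1 k = c + u * φ k := fun h => hj ((h0 y0 y1).2 h)
      have h7 := GRF_iff φ (gv Q y0 y1) (j y0 y1) hφ hgn hj (h1 y0 y1) (h2 y0 y1) (h3 y0 y1)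
      constructor
      · intro h z hz hh
        exact h ⟨z, hz, (h7 z.1 _).2 hh⟩
      · rintro h ⟨z, hz, hh⟩
        exact h z hz ((h7 z.1 _).1 hh)
    · simp only [hS, if_false]
      have h4 := elim4 φ h01 (Q + Matrix.diagonal ![y0, y1, y2, y3]) hsym a b x (gv Q y0 y1) hg _ rfl hS B
      rw [sub_eq_add_neg, GRF_diag, ← sub_eq_add_neg] at h4
      have h5 := not_congr h4
      push Not at h5
      refine GRF_if ?_
      rw [and_iff_right hφ]
      exact h5

omit [Field K] in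
private theorem GRA_const (c : ℤ) : ∑ _x : K, c = qK K * c := by
  rw [Finset.sum_const, Finset.card_univ, nsmul_eq_mul]

private theorem GRA_ite (c : ℤ) (inst : DecidableEq K) :
    ∑ S : K, (if S = 0 then 0 else c) = (qK K - 1) * c := by
  have h : ∀ S : K, (if S = 0 then 0 else c) = c - (if S = 0 then c else 0) := by
    intro S
    split_ifs <;> simp
  simp only [h]
  rw [Finset.sum_sub_distrib, Finset.sum_ite_eq' Finset.univ (0 : K) (fun _ => c),
    if_pos (Finset.mem_univ _), GRA_const]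
  ring

omit [Fintype K] in
private theorem GRA_gv0 (y0 y1 : K) : gv (0 : Matrix (Fin 4) (Fin 4) K) y0 y1 = ![y0, -y1, 0, 0] := by
  funext k
  fin_cases k <;> simp [gv, vv]

private theorem GRA_G (a b : K) (hab : ¬ (a = 0 ∧ b = 0)) (s y0 y1 : K) (B : Set (Pt K)) :
    G ![0, 0, a, b] (0 - s • Matrix.vecMulVec (gv 0 y0 y1) (gv 0 y0 y1)) B = G ![0, 0, a, b] 0 B := by
  obtain ⟨u2, u3, hu⟩ : ∃ u2 u3 : K, a * u3 + b * u2 = s * y0 * y1 := by
    by_cases ha : a = 0
    · have hb : b ≠ 0 := fun h => hab ⟨ha, h⟩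
      exact ⟨s * y0 * y1 / b, 0, by field_simp; ring⟩
    · exact ⟨0, s * y0 * y1 / a, by field_simp; ring⟩
  refine G_shift ![0, 0, a, b] ![0, 0, a, b] 0 (fun k => (add_zero _).symm) 0 _
    ![-(s * y0 ^ 2) - s * y0 * y1, -(s * y1 ^ 2) - s * y0 * y1, s * y0 * y1 - 2 * a * u2,
      s * y0 * y1 - 2 * b * u3]
    ![s * y0 * y1, s * y0 * y1, 0, 0] ![0, 0, -(s * y0 * y1), -(s * y0 * y1)]
    ![0, 0, u2, u3] ![0, 0, u2, u3] (fun k l => ?_) B
  rw [GRA_gv0]
  fin_cases k <;> fin_cases l <;> simp [-mul_eq_mul_left_iff, -mul_eq_mul_right_iff] <;>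
    first | ring1 | linear_combination hu | linear_combination -hu

/-- MODULE GRA.

Proof.  If `a = b = 0` both sides are `0` (`P3.G_const`, `E_zero`).  Otherwise `R_GF` with `φ = ![0, 0, a, b]`, `Q = 0`, `gv 0 y0 y1 =
![y0, -y1, 0, 0]`; the vector `j` vanishes iff `y0 + y1 = 0` and (`a = b` or `y0 = 0`), and this is the condition for `gv` to be
`c + u φ`.  `G ![0, 0, a, b] (- S⁻¹ g gᵀ) = G ![0, 0, a, b] 0` by `P3.G_shift`: off the diagonal the matrix has only the entry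
`c = S⁻¹ y0 y1` at `(0, 1)` and `(1, 0)`; take `w = ![c, c, 0, 0]`, `w' = ![0, 0, -c, -c]`, `u = u' = ![0, 0, u2, u3]` with
`a u3 + b u2 = c` and suitable `d`.  There are `q² (q - 1)` triples `(y0, y1, S)`. -/
theorem R_G0 (a b : K) (B : Set (Pt K)) :
    R (G ![0, 0, a, b] 0) B = qK K ^ 2 * (qK K - 1) * G ![0, 0, a, b] 0 B +
      ∑ y0 : K, ∑ y1 : K, E ![(a - b) * y1, (a - b) * y0, b * (y0 + y1), -(a * (y0 + y1))] B := by
  classical
  by_cases hab : a = 0 ∧ b = 0
  · obtain ⟨rfl, rfl⟩ := hab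
    have h1 : ∀ B' : Set (Pt K), G ![0, 0, 0, 0] 0 B' = 0 := fun B' =>
      G_const _ ⟨0, fun k => by fin_cases k <;> rfl⟩ _ _
    have h2 : ∀ y0 y1 : K, E ![(0 - 0) * y1, (0 - 0) * y0, 0 * (y0 + y1), -(0 * (y0 + y1))] B = 0 := by
      intro y0 y1
      have : (![(0 - 0) * y1, (0 - 0) * y0, 0 * (y0 + y1), -(0 * (y0 + y1))] : Fin 4 → K) = 0 := by
        funext k
        fin_cases k <;> simp
      rw [this]
      exact E_zero B
    unfold R
    simp only [h1, h2, Finset.sum_const_zero, mul_zero, add_zero]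
  · rw [R_GF ![0, 0, a, b] 0 Matrix.isSymm_zero rfl ?_
      (fun y0 y1 => ![(a - b) * y1, (a - b) * y0, b * (y0 + y1), -(a * (y0 + y1))]) ?_ ?_ ?_ ?_ B]
    · have h1 : ∀ y0 y1 : K, (∑ S : K, if S = 0 then 0 else
          G ![0, 0, a, b] (0 - S⁻¹ • Matrix.vecMulVec (gv 0 y0 y1) (gv 0 y0 y1)) B) =
          (qK K - 1) * G ![0, 0, a, b] 0 B := by
        intro y0 y1
        simp only [GRA_G a b hab]
        exact GRA_ite _ _
      simp only [Finset.sum_add_distrib]
      congr 1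
      refine (Finset.sum_congr rfl fun y0 _ => Finset.sum_congr rfl fun y1 _ => h1 y0 y1).trans ?_
      rw [GRA_const, GRA_const]
      ring
    · rintro ⟨c, hc⟩
      have h0 : 0 = c := hc 0
      have h2 : a = c := hc 2
      have h3 : b = c := hc 3
      exact hab ⟨h2.trans h0.symm, h3.trans h0.symm⟩
    · intro y0 y1
      rw [Fin.sum_univ_four]
      simp
      ring
    · intro y0 y1
      rw [Fin.sum_univ_four]
      simp
      ring
    · intro y0 y1
      rw [Fin.sum_univ_four, GRA_gv0]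
      simp
      ring
    · intro y0 y1
      rw [GRA_gv0]
      constructor
      · intro h
        have h0 : (a - b) * y1 = 0 := congrFun h 0
        have h1 : (a - b) * y0 = 0 := congrFun h 1
        have h2 : b * (y0 + y1) = 0 := congrFun h 2
        have h3 : -(a * (y0 + y1)) = 0 := congrFun h 3
        have h4 : y0 + y1 = 0 := by
          by_contra h5
          exact hab ⟨(mul_eq_zero.1 (neg_eq_zero.1 h3)).resolve_right h5, (mul_eq_zero.1 h2).resolve_right h5⟩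
        have h5 : y1 = -y0 := by linear_combination h4
        by_cases hy : y0 = 0
        · refine ⟨0, 0, fun k => ?_⟩
          rw [h5, hy]
          fin_cases k <;> simp
        · have h6 : a = b := sub_eq_zero.1 ((mul_eq_zero.1 h1).resolve_right hy)
          subst h6
          have ha : a ≠ 0 := fun h => hab ⟨h, h⟩
          refine ⟨y0, -y0 / a, fun k => ?_⟩
          rw [h5]
          fin_cases k
          · simp
          · simp
          · simp
            field_simp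
            ring
          · simp
            field_simp
            ring
      · rintro ⟨c, u, h⟩
        have h0 : y0 = c + u * 0 := h 0
        have h1 : -y1 = c + u * 0 := h 1
        have h2 : 0 = c + u * a := h 2
        have h3 : 0 = c + u * b := h 3
        have h4 : y0 + y1 = 0 := by linear_combination h0 - h1
        have h5 : (a - b) * y0 = 0 := by
          rw [h0]
          linear_combination b * h2 - a * h3
        have h6 : (a - b) * y1 = 0 := by linear_combination (a - b) * h4 - h5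
        funext k
        fin_cases k
        · exact h6
        · exact h5
        · show b * (y0 + y1) = 0
          rw [h4, mul_zero]
        · show -(a * (y0 + y1)) = 0
          rw [h4, mul_zero, neg_zero]

private theorem GRP_G (r s y0 y1 : K) (B : Set (Pt K)) :
    G ![1, 1, 0, 0] (P3.mt r 0 - s • Matrix.vecMulVec (gv (P3.mt r 0) y0 y1) (gv (P3.mt r 0) y0 y1)) B =
      p01 (r - s * (y0 + y1) * r) B := by
  unfold p01
  refine G_shift ![1, 1, 0, 0] ![1, 1, 0, 0] 0 (fun k => (add_zero _).symm) _ _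
    ![-(s * y0 ^ 2) - 2 * (s * y0 * y1), -(s * y1 ^ 2), 0, -(s * r ^ 2) - 2 * (s * (y0 + y1) * r)]
    ![0, 0, 0, s * (y0 + y1) * r] ![0, 0, 0, s * (y0 + y1) * r]
    ![s * y0 * y1, 0, 0, -(s * y1 * r)] ![s * y0 * y1, 0, 0, -(s * y1 * r)] (fun k l => ?_) B
  rw [gv_mt]
  fin_cases k <;> fin_cases l <;> simp [P3.mt, -mul_eq_mul_left_iff, -mul_eq_mul_right_iff] <;> ring1

open Classical in
/-- MODULE GRP.

Proof.  `R_GF` with `φ = ![1, 1, 0, 0]`, `Q = mt r 0`, `g = gv (mt r 0) y0 y1 = ![y0, -y1, 0, -r]` (`PL3.gv_mt`).  The vector `j` vanishes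
iff `r = 0` and `y0 + y1 = 0`, the condition for `g = c + u φ`.  `G φ Q'` for symmetric `Q'` is `p01 (al Q')` (`P3.G_shift`:
`w = w' = ![0, 0, -Q' 0 2 .., ..]`, ...; write `Q' k l` for `k < 2 ≤ l` as `al Q'` at `(1, 3)` plus `w l + w' k`; the entries `(0, 1)` and
`(2, 3)` are corrected by `u`, `u'` and `w`), and `al (mt r 0 - S⁻¹ g gᵀ) = r - S⁻¹ (y0 + y1) r` (`P3.al`). -/
theorem R_p01 (r : K) (B : Set (Pt K)) :
    R (p01 r) B = ∑ y0 : K, ∑ y1 : K, ((∑ S : K, if S = 0 then 0 else p01 (r - S⁻¹ * (y0 + y1) * r) B) +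
      E ![r, -r, -(y0 + y1), y0 + y1] B) := by
  rw [show p01 r = G ![1, 1, 0, 0] (P3.mt r 0) from rfl]
  rw [R_GF ![1, 1, 0, 0] (P3.mt r 0) (P3.mt_symm r 0) rfl ?_
    (fun y0 y1 => ![r, -r, -(y0 + y1), y0 + y1]) ?_ ?_ ?_ ?_ B]
  · simp only [GRP_G]
  · rintro ⟨c, hc⟩
    have h0 : 1 = c := hc 0
    have h2 : 0 = c := hc 2
    exact one_ne_zero (h0.trans h2.symm)
  · intro y0 y1
    rw [Fin.sum_univ_four]
    simp
  · intro y0 y1
    rw [Fin.sum_univ_four]
    simp
  · intro y0 y1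
    rw [Fin.sum_univ_four, gv_mt]
    simp
    ring
  · intro y0 y1
    rw [gv_mt]
    constructor
    · intro h
      have h0 : r = 0 := congrFun h 0
      have h3 : y0 + y1 = 0 := congrFun h 3
      refine ⟨0, y0, fun k => ?_⟩
      have h5 : y1 = -y0 := by linear_combination h3
      rw [h5, h0]
      fin_cases k <;> simp
    · rintro ⟨c, u, h⟩
      have h0 : y0 = c + u * 1 := h 0
      have h1 : -y1 = c + u * 1 := h 1
      have h2 : 0 = c + u * 0 := h 2
      have h3 : -r = c + u * 0 := h 3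
      have h4 : y0 + y1 = 0 := by linear_combination h0 - h1
      have h5 : r = 0 := by linear_combination h2 - h3
      rw [h4, h5]
      funext k
      fin_cases k <;> simp

/-- MODULE GRB (1).  `R_G0` with `a = 0`, `b = 1`; substitute `x = -y1`, `y = -y0`. -/
theorem R_g3 (B : Set (Pt K)) :
    R g3 B = qK K ^ 2 * (qK K - 1) * g3 B + ∑ x : K, ∑ y : K, E ![x, y, -(x + y), 0] B := by
  have h := R_G0 (0 : K) 1 B
  unfold g3
  refine h.trans ?_
  congr 1
  rw [Finset.sum_comm]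
  refine Fintype.sum_equiv (Equiv.neg K) _ _ fun y1 => ?_
  refine Fintype.sum_equiv (Equiv.neg K) _ _ fun y0 => ?_
  congr 1
  funext k
  fin_cases k
  · show (0 - 1) * y1 = -y1
    ring
  · show (0 - 1) * y0 = -y0
    ring
  · show 1 * (y0 + y1) = -(-y1 + -y0)
    ring
  · show -(0 * (y0 + y1)) = 0
    ring

/-- MODULE GRB (2).  `R_G0` with `a = 1`, `b = 0`. -/
theorem R_g2 (B : Set (Pt K)) :
    R g2 B = qK K ^ 2 * (qK K - 1) * g2 B + ∑ x : K, ∑ y : K, E ![x, y, 0, -(x + y)] B := by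
  have h := R_G0 (1 : K) 0 B
  unfold g2
  refine h.trans ?_
  congr 1
  rw [Finset.sum_comm]
  refine Finset.sum_congr rfl fun y1 _ => Finset.sum_congr rfl fun y0 _ => ?_
  congr 1
  funext k
  fin_cases k
  · show (1 - 0) * y1 = y1
    ring
  · show (1 - 0) * y0 = y0
    ring
  · show 0 * (y0 + y1) = 0
    ring
  · show -(1 * (y0 + y1)) = -(y1 + y0)
    ring

/-- MODULE GRB (3).  `P3.R_G` with `φ = ![1, 0, 0, 0]`, `Q = 0`: the arguments of `cf` are `0` and `y1`-linear; see `P3.R_w2`, `P3.lin1`. -/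
theorem R_g0 (B : Set (Pt K)) : R g0 B = qK K ^ 2 * H1 B := by
  have h0 : ((![1, 0, 0, 0] : Fin 4 → K) 0 - (![1, 0, 0, 0] : Fin 4 → K) 1) ≠ 0 := by
    simp
  rw [show (g0 : Set (Pt K) → ℤ) = G ![1, 0, 0, 0] 0 from rfl]
  rw [R_G _ _ (Matrix.isSymm_zero) h0 B]
  have h2 := lin1 (fun r : K => cf 0 r B) 0 0 1 0 (Or.inr (Or.inl one_ne_zero))
  unfold H1
  rw [← h2]
  refine Finset.sum_congr rfl fun y0 _ => Finset.sum_congr rfl fun y1 _ => Finset.sum_congr rfl fun s _ => ?_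
  rw [GRA_gv0]
  congr 1
  · simp [al]
  · simp [be]

/-- MODULE GRB (4).  The same. -/
theorem R_g1 (B : Set (Pt K)) : R g1 B = qK K ^ 2 * H1 B := by
  have h0 : ((![0, 1, 0, 0] : Fin 4 → K) 0 - (![0, 1, 0, 0] : Fin 4 → K) 1) ≠ 0 := by
    simp
  rw [show (g1 : Set (Pt K) → ℤ) = G ![0, 1, 0, 0] 0 from rfl]
  rw [R_G _ _ (Matrix.isSymm_zero) h0 B]
  have h2 := lin1 (fun r : K => cf 0 r B) 0 1 0 0 (Or.inl one_ne_zero)
  unfold H1
  rw [← h2]
  refine Finset.sum_congr rfl fun y0 _ => Finset.sum_congr rfl fun y1 _ => Finset.sum_congr rfl fun s _ => ?_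
  rw [GRA_gv0]
  congr 1
  · simp [al]
  · simp [be]
    try ring

/-- MODULE GRC (1).  `R_p01` for `r = 0`: all terms with `p01` are `p01 0`, and `E ![0, 0, -s, s]` is `E ![0, 0, 1, -1]` for `s ≠ 0`
(`E_smul`), `0` for `s = 0`. -/
theorem R_p010 (B : Set (Pt K)) :
    R (p01 0) B = qK K ^ 2 * (qK K - 1) * p01 0 B + qK K * (qK K - 1) * E ![0, 0, 1, -1] B := by
  classical
  rw [R_p01]
  have h1 : ∀ S y0 y1 : K, (0 : K) - S⁻¹ * (y0 + y1) * 0 = 0 := by
    intro S y0 y1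
    ring
  have h2 : ∀ y0 : K, ∑ y1 : K, E ![0, -0, -(y0 + y1), y0 + y1] B = (qK K - 1) * E ![0, 0, 1, -1] B := by
    intro y0
    rw [← GRA_ite _ (fun a b => Classical.propDecidable (a = b))]
    refine Fintype.sum_equiv (Equiv.addLeft y0) _ _ fun y1 => ?_
    rw [Equiv.coe_addLeft]
    by_cases h : y0 + y1 = 0
    · rw [if_pos h, h]
      have : (![0, -0, -0, 0] : Fin 4 → K) = 0 := by
        funext k
        fin_cases k <;> simp
      rw [this]
      exact E_zero B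
    · rw [if_neg h]
      refine E_smul (-(y0 + y1)) (neg_ne_zero.2 h) _ _ (fun k => ?_) B
      fin_cases k <;> simp
  simp only [h1, Finset.sum_add_distrib, h2, GRA_ite]
  rw [GRA_const, GRA_const, GRA_const]
  ring

end Pool.Agent.Prm3
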