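import Pool.Agent.Prm3.Gr

/-!
# Planarity: the closing `01|23` and the opening of an edge
-/

set_option autoImplicit false

open scoped BigOperators

namespace Pool.Agent.Prm3

open Pool.Agent.KG Pool.Agent.P3 Pool.Agent.PL3

variable {V E : Type}

private theorem PHA_S (s : E → V) (k : Fin 5) : hcS s (Sum.inr k : E ⊕ Fin 5) =
    (![Sum.inr 0, Sum.inr 0, Sum.inr 1, Sum.inr 1, Sum.inr 0] : Fin 5 → V ⊕ Fin 2) k := rfl

private theorem PHA_T (t : E → V) (a : Fin 4 → V) (k : Fin 5) : hcT t a (Sum.inr k : E ⊕ Fin 5) =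
    (![Sum.inl (a 0), Sum.inl (a 1), Sum.inl (a 2), Sum.inl (a 3), Sum.inr 1] : Fin 5 → V ⊕ Fin 2) k := rfl

private theorem PHA_Sl (s : E → V) (e : E) : hcS s (Sum.inl e : E ⊕ Fin 5) = Sum.inl (s e) := rfl

private theorem PHA_Tl (t : E → V) (a : Fin 4 → V) (e : E) : hcT t a (Sum.inl e : E ⊕ Fin 5) = Sum.inl (t e) := rfl

/-- MODULE PHA (1).  Currents in the closing `01|23` (`Fintype.sum_sum_type`, `Fin.sum_univ_five`; see `P3.net_clo_inl`). -/
theorem net_hc_inl {K : Type} [Fintype E] [Field K] (s t : E → V) (a : Fin 4 → V) (i : E → K) (j : Fin 5 → K)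
    (v : V) :
    net (hcS s) (hcT t a) (Sum.elim i j) (Sum.inl v) =
      net s t i v - open Classical in ∑ k : Fin 4, if a k = v then j k.castSucc else 0 := by
  classical
  have hc : (∑ k : Fin 4, @ite K (a k = v) (Classical.propDecidable _) (j k.castSucc) 0) =
      (if a 0 = v then j 0 else 0) + (if a 1 = v then j 1 else 0) + (if a 2 = v then j 2 else 0) +
        (if a 3 = v then j 3 else 0) := by
    rw [Fin.sum_univ_four]
    rfl
  rw [hc]
  unfold net
  rw [Fintype.sum_sum_type, Fintype.sum_sum_type, Fin.sum_univ_five, Fin.sum_univ_five]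
  simp only [PHA_S, PHA_T, PHA_Sl, PHA_Tl, Sum.elim_inl, Sum.elim_inr, Sum.inl.injEq, Matrix.cons_val_zero,
    Matrix.cons_val_one, Matrix.cons_val, reduceCtorEq, if_false, add_zero]
  ring

/-- MODULE PHA (2). -/
theorem net_hc_inr {K : Type} [Fintype E] [Field K] (s t : E → V) (a : Fin 4 → V) (i : E → K) (j : Fin 5 → K) :
    net (hcS s) (hcT t a) (Sum.elim i j) (Sum.inr 0) = j 0 + j 1 + j 4 ∧
      net (hcS s) (hcT t a) (Sum.elim i j) (Sum.inr 1) = j 2 + j 3 - j 4 := by
  classical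
  unfold net
  rw [Fintype.sum_sum_type, Fintype.sum_sum_type, Fin.sum_univ_five, Fin.sum_univ_five,
    Fintype.sum_sum_type, Fintype.sum_sum_type, Fin.sum_univ_five, Fin.sum_univ_five]
  constructor
  · simp [PHA_S, PHA_T, PHA_Sl, PHA_Tl]
  · simp [PHA_S, PHA_T, PHA_Sl, PHA_Tl]

/-- MODULE PHB.  The closing is planar.

Proof.  Let `l`, `r`, `g` be given for `s`, `t`, `a`.  The same faces; the edge `inr k` (`k < 4`) has the faces `g (k + 1)`, `g k`, the edge
`inr 4` has `g 0`, `g 2`: `l' = Sum.elim l ![g 1, g 2, g 3, g 0, g 0]`, `r' = Sum.elim r ![g 0, g 1, g 2, g 3, g 2]`.  By `net_hc_inl`,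
`net_hc_inr` a current `Sum.elim i j` is a cycle iff `net s t i v = ∑ k, [a k = v] j k` for all `v`, `j 4 = - j 0 - j 1`, `j 4 = j 2 + j 3`.
(→) `φ` with `j k = φ (g (k + 1)) - φ (g k)`; then `j 4 = φ (g 0) - φ (g 2)`.  (←) The same equations. -/
theorem pl_hc [Fintype E] (s t : E → V) (a : Fin 4 → V) (h : PlN s t a) : Pl (hcS s) (hcT t a) := by
  classical
  obtain ⟨D, hD, l, r, g, h⟩ := h
  refine ⟨D, hD, Sum.elim l ![g 1, g 2, g 3, g 0, g 0], Sum.elim r ![g 0, g 1, g 2, g 3, g 2], fun z => ?_⟩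
  obtain ⟨x, j, rfl⟩ : ∃ (x : E → ℚ) (j : Fin 5 → ℚ), z = Sum.elim x j :=
    ⟨fun e => z (Sum.inl e), fun k => z (Sum.inr k), (Sum.elim_comp_inl_inr z).symm⟩
  have key : (∀ v, net (hcS s) (hcT t a) (Sum.elim x j) v = 0) ↔
      (∀ v, net s t x v = ∑ k, @ite ℚ (a k = v) (Classical.propDecidable _)
        ((fun k : Fin 4 => j k.castSucc) k) 0) ∧ j 0 + j 1 + j 4 = 0 ∧ j 2 + j 3 - j 4 = 0 := by
    constructor
    · intro h1
      refine ⟨fun v => ?_, ?_, ?_⟩
      · have h2 := h1 (Sum.inl v)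
        rw [net_hc_inl] at h2
        exact sub_eq_zero.1 h2
      · exact (net_hc_inr s t a x j).1.symm.trans (h1 (Sum.inr 0))
      · exact (net_hc_inr s t a x j).2.symm.trans (h1 (Sum.inr 1))
    · rintro ⟨h1, h2, h3⟩ (v | k)
      · rw [net_hc_inl]
        exact sub_eq_zero.2 (h1 v)
      · fin_cases k
        · exact (net_hc_inr s t a x j).1.trans h2
        · exact (net_hc_inr s t a x j).2.trans h3
  rw [key, h]
  constructor
  · rintro ⟨⟨φ, h1, h2⟩, h3, h4⟩
    have e0 : j 0 = φ (g 1) - φ (g 0) := h2 0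
    have e1 : j 1 = φ (g 2) - φ (g 1) := h2 1
    have e2 : j 2 = φ (g 3) - φ (g 2) := h2 2
    have e3 : j 3 = φ (g 0) - φ (g 3) := h2 3
    refine ⟨φ, ?_⟩
    rintro (e | k)
    · exact h1 e
    · fin_cases k
      · exact e0
      · exact e1
      · exact e2
      · exact e3
      · show j 4 = φ (g 0) - φ (g 2)
        linarith
  · rintro ⟨φ, h1⟩
    have e0 : j 0 = φ (g 1) - φ (g 0) := h1 (Sum.inr 0)
    have e1 : j 1 = φ (g 2) - φ (g 1) := h1 (Sum.inr 1)
    have e2 : j 2 = φ (g 3) - φ (g 2) := h1 (Sum.inr 2)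
    have e3 : j 3 = φ (g 0) - φ (g 3) := h1 (Sum.inr 3)
    have e4 : j 4 = φ (g 0) - φ (g 2) := h1 (Sum.inr 4)
    refine ⟨⟨φ, fun e => h1 (Sum.inl e), fun k => ?_⟩, ?_, ?_⟩
    · fin_cases k
      · exact e0
      · exact e1
      · exact e2
      · exact e3
    · linarith
    · linarith

/-- MODULE PHB (2).  `PL3.plN_rung`, `PL3.plN_rot` three times (`(finRotate 4).symm` is the third power), `pl_hc`. -/
theorem pl_closing [Fintype E] (s t : E → V) (a : Fin 4 → V) (h : PlN s t a) :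
    Pl (hcS (rgS s)) (hcT (rgT t a) (rgA a ∘ (finRotate 4).symm)) := by
  have h1 : ∀ k : Fin 4, (finRotate 4).symm k = finRotate 4 (finRotate 4 (finRotate 4 k)) := by decide
  have h2 : rgA a ∘ (finRotate 4).symm = ((rgA a ∘ finRotate 4) ∘ finRotate 4) ∘ finRotate 4 := by
    funext k
    exact congrArg (rgA a) (h1 k)
  rw [h2]
  exact pl_hc _ _ _ (plN_rot _ _ _ (plN_rot _ _ _ (plN_rot _ _ _ (plN_rung s t a h))))

private theorem OPN_net {V1 W E1 E2 : Type} [Fintype E1] [Fintype E2] (f : W ≃ V1) (g : E2 ≃ E1)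
    (s1 t1 : E2 → W) (s t : E1 → V1) (z : E2 → ℚ) (y : E1 → ℚ)
    (h : ∀ o, (s (g o) = f (s1 o) ∧ t (g o) = f (t1 o) ∧ y (g o) = z o) ∨
      (s (g o) = f (t1 o) ∧ t (g o) = f (s1 o) ∧ y (g o) = - z o)) (w : W) :
    net s t y (f w) = net s1 t1 z w := by
  classical
  unfold net
  rw [← Finset.sum_sub_distrib, ← Finset.sum_sub_distrib, ← Equiv.sum_comp g]
  refine Finset.sum_congr rfl fun o _ => ?_
  rcases h o with ⟨h1, h2, h3⟩ | ⟨h1, h2, h3⟩
  · simp only [h1, h2, h3, f.injective.eq_iff]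
  · simp only [h1, h2, h3, f.injective.eq_iff]
    split_ifs <;> ring

/-- MODULE OPN.  The opened graph is planar.

Proof.  `DuN s' t' a l' r' g4` with `l' = l ∘ g ∘ inl`, `r' = r ∘ g ∘ inl`, `g4 = ![hd s l r v₁ e, hd s l r v₁ f₀, tl s l r v₁ e, hd s l r v₂ f₂]`, where
`v₁ = f (inr 0)`, `v₂ = f (inr 1)`, `e = g (inr 4)`, `f₀ = g (inr 0)`, `f₂ = g (inr 2)`.  Let `x : E' → ℚ`, `j : Fin 4 → ℚ`.  Extend to `y : E → ℚ`: `y (g (inl x')) =
x x'`, `y (g (inr k)) = j k` if the edge `g (inr k)` leaves `v₁` (or `v₂`), `- j k` if it enters, and for `e` the current from `v₁` to `v₂` is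
`- (j 0 + j 1)`.  Compare the proofs of `PL3.exists_portsP` and `net_hc_inl`, `net_hc_inr` (a current `z` of `hcS`, `hcT` with `z o = ± y (g o)`; the
vertices `f u`).  `y` is a cycle of `s`, `t` iff `net s' t' x v = ∑ k, [a k = v] j k` for all `v` (then `∑ j = 0`, so the equation at `v₂` holds; sum of
the equations over all `v`: `P3.sum_net`).
(→) `y` is a cycle, so the coboundary of some `φ`: `j 0 = φ (hd v₁ f₀) - φ (tl v₁ f₀)` and `tl v₁ f₀ = hd v₁ e` (`h0`); `- (j 0 + j 1) = φ (hd v₁ e) -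
φ (tl v₁ e)`, so `j 1 = φ (tl v₁ e) - φ (hd v₁ f₀)`; `hd v₂ e = tl v₁ e`, `tl v₂ e = hd v₁ e` (`s e ≠ t e`); `j 2 = φ (hd v₂ f₂) - φ (tl v₂ f₂)`, `tl v₂ f₂ =
hd v₂ e = tl v₁ e` (`h2`), and `j 3 = - j 0 - j 1 - j 2 = φ (hd v₁ e) - φ (hd v₂ f₂)`.
(←) The coboundary `y` of `φ` is a cycle of `s`, `t`; the equations at `v₁`, `v₂` show that its values at the five edges are those of `j`. -/
theorem open_pl {V' E' D : Type} [Fintype V] [Fintype E] [Fintype V'] [Fintype E'] [Finite D] (s t : E → V)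
    (s' t' : E' → V') (a : Fin 4 → V') (f : V' ⊕ Fin 2 ≃ V) (g : E' ⊕ Fin 5 ≃ E) (hl : LL s t)
    (hi : ∀ x, s (g (Sum.inl x)) = f (Sum.inl (s' x)) ∧ t (g (Sum.inl x)) = f (Sum.inl (t' x)))
    (h : ∀ o, (s (g o) = f (hcS s' o) ∧ t (g o) = f (hcT t' a o)) ∨
      (s (g o) = f (hcT t' a o) ∧ t (g o) = f (hcS s' o))) (l r : E → D) (hd' : Du s t l r)
    (h0 : tl s l r (f (Sum.inr 0)) (g (Sum.inr 0)) = hd s l r (f (Sum.inr 0)) (g (Sum.inr 4)))
    (h2 : tl s l r (f (Sum.inr 1)) (g (Sum.inr 2)) = hd s l r (f (Sum.inr 1)) (g (Sum.inr 4))) : PlN s' t' a := by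
  classical
  let v1 : V := f (Sum.inr 0)
  let v2 : V := f (Sum.inr 1)
  have hv : v1 ≠ v2 := by
    intro h1
    have h3 : (Sum.inr 0 : V' ⊕ Fin 2) = Sum.inr 1 := f.injective h1
    exact absurd (Sum.inr_injective h3) (by decide)
  -- the faces of the middle edge
  have he4 : hd s l r v2 (g (Sum.inr 4)) = tl s l r v1 (g (Sum.inr 4)) := by
    have h1 : (s (g (Sum.inr 4)) = v1 ∧ t (g (Sum.inr 4)) = v2) ∨
        (s (g (Sum.inr 4)) = v2 ∧ t (g (Sum.inr 4)) = v1) := h (Sum.inr 4)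
    unfold hd tl
    rcases h1 with ⟨h3, h4⟩ | ⟨h3, h4⟩
    · rw [h3, if_neg hv, if_pos rfl]
    · rw [h3, if_pos rfl, if_neg (fun h5 => hv h5.symm)]
  -- the value of a coboundary at the edge `g o`, seen from `f (hcS s' o)`
  have hval : ∀ (φ : D → ℚ) (o : E' ⊕ Fin 5),
      (s (g o) = f (hcS s' o) ∧ t (g o) = f (hcT t' a o) ∧ φ (l (g o)) - φ (r (g o)) =
        φ (hd s l r (f (hcS s' o)) (g o)) - φ (tl s l r (f (hcS s' o)) (g o))) ∨
      (s (g o) = f (hcT t' a o) ∧ t (g o) = f (hcS s' o) ∧ φ (l (g o)) - φ (r (g o)) =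
        - (φ (hd s l r (f (hcS s' o)) (g o)) - φ (tl s l r (f (hcS s' o)) (g o)))) := by
    intro φ o
    unfold hd tl
    rcases h o with ⟨h3, h4⟩ | ⟨h3, h4⟩
    · left
      refine ⟨h3, h4, ?_⟩
      rw [if_pos h3, if_pos h3]
    · right
      have h5 : s (g o) ≠ f (hcS s' o) := fun h6 => hl _ (h6.trans h4.symm)
      refine ⟨h3, h4, ?_⟩
      rw [if_neg h5, if_neg h5]
      ring
  refine ⟨D, inferInstance, fun x => l (g (Sum.inl x)), fun x => r (g (Sum.inl x)),
    ![hd s l r v1 (g (Sum.inr 4)), hd s l r v1 (g (Sum.inr 0)), tl s l r v1 (g (Sum.inr 4)),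
      hd s l r v2 (g (Sum.inr 2))], fun x j => ?_⟩
  let J : Fin 5 → ℚ := ![j 0, j 1, j 2, j 3, - (j 0 + j 1)]
  let z : E' ⊕ Fin 5 → ℚ := Sum.elim x J
  let y : E → ℚ := fun e => if s e = f (hcS s' (g.symm e)) then z (g.symm e) else - z (g.symm e)
  have hy : ∀ o, (s (g o) = f (hcS s' o) ∧ t (g o) = f (hcT t' a o) ∧ y (g o) = z o) ∨
      (s (g o) = f (hcT t' a o) ∧ t (g o) = f (hcS s' o) ∧ y (g o) = - z o) := by
    intro o
    have h3 : y (g o) = if s (g o) = f (hcS s' o) then z o else - z o := by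
      show (if s (g o) = f (hcS s' (g.symm (g o))) then z (g.symm (g o)) else - z (g.symm (g o))) = _
      rw [Equiv.symm_apply_apply]
    rcases h o with ⟨h4, h5⟩ | ⟨h4, h5⟩
    · left
      exact ⟨h4, h5, h3.trans (if_pos h4)⟩
    · right
      have h6 : s (g o) ≠ f (hcS s' o) := fun h6 => hl _ (h6.trans h5.symm)
      exact ⟨h4, h5, h3.trans (if_neg h6)⟩
  have hnet : ∀ w, net s t y (f w) = net (hcS s') (hcT t' a) z w :=
    fun w => OPN_net f g _ _ s t z y hy w
  have hyl : ∀ e', y (g (Sum.inl e')) = x e' := by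
    intro e'
    rcases hy (Sum.inl e') with ⟨_, _, h5⟩ | ⟨h3, h4, _⟩
    · exact h5
    · exfalso
      have h5 : s (g (Sum.inl e')) = t (g (Sum.inl e')) := (hi e').1.trans h4.symm
      exact hl _ h5
  have hJk : ∀ k : Fin 4, J k.castSucc = j k := by
    intro k
    fin_cases k <;> rfl
  have hJs : ∀ v, (∑ k : Fin 4, @ite ℚ (a k = v) (Classical.propDecidable _) (J k.castSucc) 0) =
      ∑ k, @ite ℚ (a k = v) (Classical.propDecidable _) (j k) 0 := by
    intro v
    refine Finset.sum_congr rfl fun k _ => ?_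
    rw [hJk]
  have hsum : (∀ v, net s' t' x v = ∑ k, @ite ℚ (a k = v) (Classical.propDecidable _) (j k) 0) →
      j 0 + j 1 + j 2 + j 3 = 0 := by
    intro h1
    have h3 := P3.sum_net s' t' x
    have h4 : ∀ k, (∑ u : V', @ite ℚ (a k = u) (Classical.propDecidable _) (j k) 0) = j k := by
      intro k
      rw [Finset.sum_eq_single (a k)]
      · exact if_pos rfl
      · intro u _ hu
        exact if_neg (fun h4 => hu h4.symm)
      · intro h4
        exact absurd (Finset.mem_univ _) h4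
    rw [Finset.sum_congr rfl fun u _ => h1 u, Finset.sum_comm, Finset.sum_congr rfl fun k _ => h4 k,
      Fin.sum_univ_four] at h3
    exact h3
  have key : (∀ v, net s' t' x v = ∑ k, @ite ℚ (a k = v) (Classical.propDecidable _) (j k) 0) ↔
      ∀ u, net s t y u = 0 := by
    constructor
    · intro h1 u
      obtain ⟨w, rfl⟩ := f.surjective u
      rw [hnet]
      rcases w with w | w
      · refine (net_hc_inl s' t' a x J w).trans ?_
        rw [h1, hJs]
        exact sub_self _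
      · fin_cases w
        · refine (net_hc_inr s' t' a x J).1.trans ?_
          show j 0 + j 1 + - (j 0 + j 1) = 0
          ring
        · refine (net_hc_inr s' t' a x J).2.trans ?_
          show j 2 + j 3 - - (j 0 + j 1) = 0
          have h3 := hsum h1
          linarith
    · intro h1 u
      have h3 := h1 (f (Sum.inl u))
      rw [hnet] at h3
      have h4 := (net_hc_inl s' t' a x J u).symm.trans h3
      rw [hJs] at h4
      exact sub_eq_zero.1 h4
  have hz0 : z (Sum.inr 0) = j 0 := rfl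
  have hz1 : z (Sum.inr 1) = j 1 := rfl
  have hz2 : z (Sum.inr 2) = j 2 := rfl
  have hz3 : z (Sum.inr 3) = j 3 := rfl
  have hz4 : z (Sum.inr 4) = - (j 0 + j 1) := rfl
  -- the equation at `g o`
  have heq : ∀ (φ : D → ℚ) (o : E' ⊕ Fin 5), y (g o) = φ (l (g o)) - φ (r (g o)) ↔
      z o = φ (hd s l r (f (hcS s' o)) (g o)) - φ (tl s l r (f (hcS s' o)) (g o)) := by
    intro φ o
    rcases hval φ o with ⟨h3, h4, h5⟩ | ⟨h3, h4, h5⟩
    · rcases hy o with ⟨_, _, h8⟩ | ⟨_, h7, _⟩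
      · rw [h5, h8]
      · exact absurd (h3.trans h7.symm) (hl _)
    · rcases hy o with ⟨h6, _, _⟩ | ⟨_, _, h8⟩
      · exact absurd (h6.trans h4.symm) (hl _)
      · rw [h5, h8, neg_inj]
  constructor
  · intro h1
    have h3 := hsum h1
    obtain ⟨φ, hφ⟩ := (hd' y).1 (key.1 h1)
    have e0 : j 0 = φ (hd s l r v1 (g (Sum.inr 0))) - φ (tl s l r v1 (g (Sum.inr 0))) :=
      (heq φ (Sum.inr 0)).1 (hφ _)
    have e2 : j 2 = φ (hd s l r v2 (g (Sum.inr 2))) - φ (tl s l r v2 (g (Sum.inr 2))) :=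
      (heq φ (Sum.inr 2)).1 (hφ _)
    have e4 : - (j 0 + j 1) = φ (hd s l r v1 (g (Sum.inr 4))) - φ (tl s l r v1 (g (Sum.inr 4))) :=
      (heq φ (Sum.inr 4)).1 (hφ _)
    have e5 : tl s l r v1 (g (Sum.inr 0)) = hd s l r v1 (g (Sum.inr 4)) := h0
    have e6 : tl s l r v2 (g (Sum.inr 2)) = tl s l r v1 (g (Sum.inr 4)) := h2.trans he4
    rw [e5] at e0
    rw [e6] at e2
    refine ⟨φ, fun e' => (hyl e').symm.trans (hφ _), fun k => ?_⟩
    fin_cases k
    · exact e0
    · show j 1 = φ (tl s l r v1 (g (Sum.inr 4))) - φ (hd s l r v1 (g (Sum.inr 0)))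
      linarith
    · exact e2
    · show j 3 = φ (hd s l r v1 (g (Sum.inr 4))) - φ (hd s l r v2 (g (Sum.inr 2)))
      linarith
  · rintro ⟨φ, h1, h3⟩
    refine key.2 ((hd' y).2 ⟨φ, ?_⟩)
    have j0 : j 0 = φ (hd s l r v1 (g (Sum.inr 0))) - φ (hd s l r v1 (g (Sum.inr 4))) := h3 0
    have j1 : j 1 = φ (tl s l r v1 (g (Sum.inr 4))) - φ (hd s l r v1 (g (Sum.inr 0))) := h3 1
    have j2 : j 2 = φ (hd s l r v2 (g (Sum.inr 2))) - φ (tl s l r v1 (g (Sum.inr 4))) := h3 2
    have j3 : j 3 = φ (hd s l r v1 (g (Sum.inr 4))) - φ (hd s l r v2 (g (Sum.inr 2))) := h3 3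
    have e5 : tl s l r v1 (g (Sum.inr 0)) = hd s l r v1 (g (Sum.inr 4)) := h0
    have e6 : tl s l r v2 (g (Sum.inr 2)) = tl s l r v1 (g (Sum.inr 4)) := h2.trans he4
    let Z : E' ⊕ Fin 5 → ℚ := fun o =>
      φ (hd s l r (f (hcS s' o)) (g o)) - φ (tl s l r (f (hcS s' o)) (g o))
    have hZ : ∀ w, net (hcS s') (hcT t' a) Z w = 0 := by
      intro w
      rw [← OPN_net f g (hcS s') (hcT t' a) s t Z (fun e => φ (l e) - φ (r e)) (hval φ) w]
      exact (hd' _).2 ⟨φ, fun _ => rfl⟩ _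
    have hZe : Z = Sum.elim (fun e => Z (Sum.inl e)) fun k => Z (Sum.inr k) := (Sum.elim_comp_inl_inr Z).symm
    have n0 : Z (Sum.inr 0) + Z (Sum.inr 1) + Z (Sum.inr 4) = 0 := by
      have h4 := hZ (Sum.inr 0)
      rw [hZe] at h4
      exact (net_hc_inr s' t' a _ _).1.symm.trans h4
    have n1 : Z (Sum.inr 2) + Z (Sum.inr 3) - Z (Sum.inr 4) = 0 := by
      have h4 := hZ (Sum.inr 1)
      rw [hZe] at h4
      exact (net_hc_inr s' t' a _ _).2.symm.trans h4
    have Z0 : Z (Sum.inr 0) = φ (hd s l r v1 (g (Sum.inr 0))) - φ (tl s l r v1 (g (Sum.inr 0))) := rfl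
    have Z2 : Z (Sum.inr 2) = φ (hd s l r v2 (g (Sum.inr 2))) - φ (tl s l r v2 (g (Sum.inr 2))) := rfl
    have Z4 : Z (Sum.inr 4) = φ (hd s l r v1 (g (Sum.inr 4))) - φ (tl s l r v1 (g (Sum.inr 4))) := rfl
    rw [e5] at Z0
    rw [e6] at Z2
    have hall : ∀ o, y (g o) = φ (l (g o)) - φ (r (g o)) := by
      rintro (e' | k)
      · exact (hyl e').trans (h1 e')
      · refine (heq φ (Sum.inr k)).2 ?_
        show z (Sum.inr k) = Z (Sum.inr k)
        fin_cases k
        · show z (Sum.inr 0) = Z (Sum.inr 0)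
          rw [hz0]
          linarith
        · show z (Sum.inr 1) = Z (Sum.inr 1)
          rw [hz1]
          linarith
        · show z (Sum.inr 2) = Z (Sum.inr 2)
          rw [hz2]
          linarith
        · show z (Sum.inr 3) = Z (Sum.inr 3)
          rw [hz3]
          linarith
        · show z (Sum.inr 4) = Z (Sum.inr 4)
          rw [hz4]
          linarith
    intro e
    obtain ⟨o, rfl⟩ := g.surjective e
    exact hall o

/-- MODULE FLW.  If each cut has at least two edges, there is a cycle through each edge.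

Proof.  Let `v₁ = s e`, `v₂ = t e`.  Consider the graph `s`, `t` restricted to `{x // x ≠ e}`; any two vertices `u`, `v` are joined by a walk in it:
otherwise let `U` be the set of the vertices which can be reached from `u`; no edge except `e` leaves `U`, so `cs U ≤ 1`, contradiction.  So there is
a spanning tree (`PL3.exists_tree` for `S = univ`) and a current `x` with net `[t e = v] - [s e = v]` (`PL3.exists_flow`); extend it by the value `1` at `e`
(sum over `E` = value at `e` plus the sum over the subtype). -/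
theorem exists_cycle [Fintype V] [Fintype E] (s t : E → V) (hc : Con s t 2) (e : E) :
    ∃ x : E → ℚ, (∀ v, net s t x v = 0) ∧ x e = 1 := by
  classical
  have hne : Nonempty V := ⟨s e⟩
  obtain ⟨T, hT⟩ := exists_tree (fun x : {x // x ≠ e} => s x.1) (fun x : {x // x ≠ e} => t x.1)
    Finset.univ (by
      intro u v
      by_contra hcon
      let U : Set V := {w | Relation.ReflTransGen
        (fun a b => ∃ x ∈ (Finset.univ : Finset {x // x ≠ e}),
          ((fun x : {x // x ≠ e} => s x.1) x = a ∧ (fun x : {x // x ≠ e} => t x.1) x = b) ∨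
          ((fun x : {x // x ≠ e} => s x.1) x = b ∧ (fun x : {x // x ≠ e} => t x.1) x = a)) u w}
      have hU1 : U.Nonempty := ⟨u, Relation.ReflTransGen.refl⟩
      have hU2 : U ≠ Set.univ := by
        intro h1
        have h2 : v ∈ U := by
          rw [h1]
          exact Set.mem_univ v
        exact hcon h2
      have h1 := hc U hU1 hU2
      have h2 : ∀ x, x ≠ e → (s x ∈ U ↔ t x ∈ U) := by
        intro x hx
        constructor
        · intro h3
          exact Relation.ReflTransGen.tail h3 ⟨⟨x, hx⟩, Finset.mem_univ _, Or.inl ⟨rfl, rfl⟩⟩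
        · intro h3
          exact Relation.ReflTransGen.tail h3 ⟨⟨x, hx⟩, Finset.mem_univ _, Or.inr ⟨rfl, rfl⟩⟩
      have h3 : cs s t U ≤ 1 := by
        unfold cs
        rw [Finset.sum_eq_single e]
        · split_ifs <;> omega
        · intro x _ hx
          exact if_pos (h2 x hx)
        · intro h4
          exact absurd (Finset.mem_univ _) h4
      omega)
  obtain ⟨x, hx⟩ := exists_flow (fun x : {x // x ≠ e} => s x.1) (fun x : {x // x ≠ e} => t x.1) T hT (t e) (s e)
  let g : Option {x // x ≠ e} ≃ E := Equiv.optionSubtypeNe e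
  have g0 : g none = e := Equiv.optionSubtypeNe_none e
  have g1 : ∀ y : {x // x ≠ e}, g (some y) = y.1 := fun y => Equiv.optionSubtypeNe_some e y
  refine ⟨fun y => (g.symm y).elim 1 x, fun v => ?_, ?_⟩
  · have h1 := OPN_net (Equiv.refl V) g (ae (s e) fun x : {x // x ≠ e} => s x.1)
      (ae (t e) fun x : {x // x ≠ e} => t x.1) s t (fun o => o.elim 1 x) (fun y => (g.symm y).elim 1 x)
      (by
        intro o
        left
        refine ⟨?_, ?_, ?_⟩
        · rcases o with _ | y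
          · rw [g0]
            rfl
          · rw [g1]
            rfl
        · rcases o with _ | y
          · rw [g0]
            rfl
          · rw [g1]
            rfl
        · show (g.symm (g o)).elim 1 x = _
          rw [Equiv.symm_apply_apply]) v
    have h2 : net s t (fun y => (g.symm y).elim 1 x) v = _ := h1
    rw [h2, net_ae]
    have h3 : net (fun x : {x // x ≠ e} => s x.1) (fun x : {x // x ≠ e} => t x.1)
        (fun e_1 => (some e_1 : Option {x // x ≠ e}).elim 1 x) v = _ := hx v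
    rw [h3]
    show (if t e = v then (1 : ℚ) else 0) - (if s e = v then 1 else 0) + (if s e = v then 1 else 0) -
      (if t e = v then 1 else 0) = 0
    ring
  · show (g.symm e).elim 1 x = 1
    have h1 : g.symm e = none := (Equiv.symm_apply_eq g).2 g0.symm
    rw [h1]
    rfl

/-- MODULE OPF.  The next edge at a vertex of a graph without bridges.

Proof.  `exists_cycle` and `Du`: `φ (l e) - φ (r e) = 1`, so `l e ≠ r e`, `tl s l r v e ≠ hd s l r v e`.  `PL3.bal` for the indicator `φ` of `hd e`: the sum of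
`φ (hd x) - φ (tl x)` over the edges `x` at `v` is `0`, the term of `e` is `1`, so for some other edge `x` the term is `- 1`: `tl x = hd e`.  (Or
`PL3.next_edge` with `J = {e}`.) -/
theorem next_at [Fintype V] [Fintype E] {D : Type} [Finite D] (s t : E → V) (hl : LL s t) (hc : Con s t 2) (l r : E → D)
    (h : Du s t l r) (e : E) (v : V) (he : s e = v ∨ t e = v) :
    ∃ x, x ≠ e ∧ (s x = v ∨ t x = v) ∧ tl s l r v x = hd s l r v e := by
  classical
  obtain ⟨x, hx, hxe⟩ := exists_cycle s t hc e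
  obtain ⟨φ, hφ⟩ := (h x).1 hx
  have hne : tl s l r v e ≠ hd s l r v e := by
    intro h1
    have h2 := hφ e
    rw [hxe] at h2
    have h3 : l e = r e := by
      unfold tl hd at h1
      by_cases h4 : s e = v
      · rw [if_pos h4, if_pos h4] at h1
        exact h1.symm
      · rw [if_neg h4, if_neg h4] at h1
        exact h1
    rw [h3, sub_self] at h2
    exact one_ne_zero h2
  let A : Finset E := Finset.univ.filter (fun y => s y = v ∨ t y = v)
  have heA : e ∈ A := by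
    simp only [A, Finset.mem_filter]
    exact ⟨Finset.mem_univ _, he⟩
  obtain ⟨y, hy, hy2⟩ := next_edge A {e} (Finset.singleton_subset_iff.2 heA) (tl s l r v) (hd s l r v)
    (fun ψ => bal s t hl l r h v ψ) (tl s l r v e) (hd s l r v e) hne (fun ψ => by rw [Finset.sum_singleton])
  rw [Finset.mem_sdiff, Finset.mem_singleton] at hy
  refine ⟨y, hy.2, ?_, hy2⟩
  have h5 := hy.1
  simp only [A, Finset.mem_filter] at h5
  exact h5.2

private theorem BRZ_oth [Fintype E] (s t : E → V) (S : Set V) (hS : cs s t S = 1) (e : E)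
    (he : ¬ (s e ∈ S ↔ t e ∈ S)) (y : E) (hy : y ≠ e) : s y ∈ S ↔ t y ∈ S := by
  classical
  unfold cs at hS
  rw [← Finset.add_sum_erase Finset.univ _ (Finset.mem_univ e), if_neg he] at hS
  have h1 := Nat.add_left_cancel (hS.trans (Nat.add_zero 1).symm)
  have h2 := Finset.sum_eq_zero_iff.1 h1 y (Finset.mem_erase.2 ⟨hy, Finset.mem_univ _⟩)
  by_contra h3
  rw [if_neg h3] at h2
  exact one_ne_zero h2

/-- MODULE BRZ.  Every cycle vanishes at a bridge.

Proof.  `0 = ∑ v ∈ S, net s t x v = ∑ e', ([s e' ∈ S] - [t e' ∈ S]) x e'` (as `PL3.net_pair` with the indicator of `S`), and only the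
edge `e` contributes (`cs S = 1`). -/
theorem bridge_zero [Fintype V] [Fintype E] (s t : E → V) (S : Set V) (hS : cs s t S = 1) (e : E)
    (he : ¬ (s e ∈ S ↔ t e ∈ S)) (x : E → ℚ) (hx : ∀ v, net s t x v = 0) : x e = 0 := by
  classical
  have h1 := net_pair s t x (fun v => if v ∈ S then 1 else 0)
  rw [Finset.sum_eq_zero (fun v _ => by rw [hx v, mul_zero]), Finset.sum_eq_single e] at h1
  · by_cases h2 : s e ∈ S
    · have h3 : t e ∉ S := fun h3 => he ⟨fun _ => h3, fun _ => h2⟩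
      rw [if_pos h2, if_neg h3, sub_zero, mul_one] at h1
      exact h1.symm
    · have h3 : t e ∈ S := by
        by_contra h3
        exact he ⟨fun h4 => absurd h4 h2, fun h4 => absurd h4 h3⟩
      rw [if_neg h2, if_pos h3, zero_sub, mul_neg, mul_one] at h1
      exact neg_eq_zero.1 h1.symm
  · intro y _ hy
    have h2 := BRZ_oth s t S hS e he y hy
    simp only [h2, sub_self, mul_zero]
  · intro h2
    exact absurd (Finset.mem_univ _) h2

private theorem OPG_net [Fintype E] (s t : E → V) (S : Set V) [DecidablePred (· ∈ S)] (x : E → ℚ)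
    (hx : ∀ y, ¬ (s y ∈ S ↔ t y ∈ S) → x y = 0) (v : V) :
    net s t (fun y => if s y ∈ S then x y else 0) v = if v ∈ S then net s t x v else 0 := by
  by_cases hv : v ∈ S
  · rw [if_pos hv]
    unfold net
    congr 1
    · refine Finset.sum_congr rfl fun y _ => ?_
      dsimp only
      by_cases h1 : s y = v
      · rw [if_pos h1, if_pos h1, if_pos (show s y ∈ S by rw [h1]; exact hv)]
      · rw [if_neg h1, if_neg h1]
    · refine Finset.sum_congr rfl fun y _ => ?_
      dsimp only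
      by_cases h1 : t y = v
      · rw [if_pos h1, if_pos h1]
        by_cases h2 : s y ∈ S
        · rw [if_pos h2]
        · rw [if_neg h2]
          exact (hx y fun h3 => h2 (h3.2 (by rw [h1]; exact hv))).symm
      · rw [if_neg h1, if_neg h1]
  · rw [if_neg hv]
    unfold net
    rw [Finset.sum_eq_zero, Finset.sum_eq_zero, sub_zero]
    · intro y _
      dsimp only
      by_cases h1 : t y = v
      · rw [if_pos h1]
        by_cases h2 : s y ∈ S
        · rw [if_pos h2]
          exact hx y fun h3 => hv (by rw [← h1]; exact h3.1 h2)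
        · rw [if_neg h2]
      · rw [if_neg h1]
    · intro y _
      dsimp only
      by_cases h1 : s y = v
      · rw [if_pos h1, if_neg (show ¬ s y ∈ S by rw [h1]; exact hv)]
      · rw [if_neg h1]

/-- MODULE OPG.  The two sides of a bridge are moved to a common face.

Proof.  `p₁ = tl s l r v₁ f₀`, `p₂ = tl s l r v₂ f₂`; `D' = Quot (fun a b : D ⊕ D => a = inl p₁ ∧ b = inr p₂)`.  For an edge `x` with both ends in `S` let
`l' x = [inl (l x)]`, `r' x = [inl (r x)]`; with both ends in `Sᶜ`: `[inr (l x)]`, `[inr (r x)]`; `l' e = r' e = [inl p₁]` (as `cs S = 1` these are all edges).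
`Du s t l' r'`: (→) Let `x` be a cycle; `x e = 0` (`bridge_zero`), so `x₁ = x` on the edges inside `S`, `0` elsewhere, and `x₂` for `Sᶜ` are cycles;
they are the coboundaries of `φ₁`, `φ₂`; after adding a constant to `φ₂`, `φ₁ p₁ = φ₂ p₂`, and `Sum.elim φ₁ φ₂` is defined on `D'`.  (←) Let `φ` be given on
`D'`; the coboundary `y₁` of `φ ∘ [inl ·]` is a cycle, `y₁ e = 0`, so its restriction to the edges inside `S` is a cycle; in the same way
for `Sᶜ`; the sum of both is the coboundary of `φ`.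
The last statements: `f₀` is inside `S` (only `e` is in the cut), so `tl s l' r' v₁ f₀ = [inl p₁]`, and `hd s l' r' v₁ e = [inl p₁]`; `tl s l' r' v₂ f₂ = [inr p₂]`
`= [inl p₁]` (`Quot.sound`). -/
theorem bridge_face [Fintype V] [Fintype E] {D : Type} [Finite D] (s t : E → V) (hl : LL s t) (S : Set V)
    (hS : cs s t S = 1) (e : E) (v1 v2 : V) (he : (s e = v1 ∧ t e = v2) ∨ (s e = v2 ∧ t e = v1)) (h1 : v1 ∈ S)
    (h2 : v2 ∉ S) (l r : E → D) (h : Du s t l r) (f0 f2 : E) (hf0 : f0 ≠ e) (hf0' : s f0 = v1 ∨ t f0 = v1)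
    (hf2 : f2 ≠ e) (hf2' : s f2 = v2 ∨ t f2 = v2) :
    ∃ (D' : Type) (_ : Finite D') (l' r' : E → D'), Du s t l' r' ∧ tl s l' r' v1 f0 = hd s l' r' v1 e ∧
      tl s l' r' v2 f2 = hd s l' r' v2 e := by
  classical
  have hcut : ¬ (s e ∈ S ↔ t e ∈ S) := by
    rcases he with ⟨h3, h4⟩ | ⟨h3, h4⟩
    · rw [h3, h4]
      exact fun h5 => h2 (h5.1 h1)
    · rw [h3, h4]
      exact fun h5 => h2 (h5.2 h1)
  have hoth : ∀ y, y ≠ e → (s y ∈ S ↔ t y ∈ S) := BRZ_oth s t S hS e hcut
  have hcyc : ∀ x : E → ℚ, (∀ v, net s t x v = 0) → ∀ y, ¬ (s y ∈ S ↔ t y ∈ S) → x y = 0 := by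
    intro x hx y hy
    have hye : y = e := by
      by_contra hne
      exact hy (hoth y hne)
    rw [hye]
    exact bridge_zero s t S hS e hcut x hx
  have hcutc : ∀ y, ¬ (s y ∈ Sᶜ ↔ t y ∈ Sᶜ) → ¬ (s y ∈ S ↔ t y ∈ S) := by
    intro y hy h3
    exact hy (not_congr h3)
  let p1 : D := tl s l r v1 f0
  let p2 : D := tl s l r v2 f2
  let R' : D ⊕ D → D ⊕ D → Prop := fun a b => a = Sum.inl p1 ∧ b = Sum.inr p2
  let Q : D ⊕ D → Quot R' := Quot.mk R'
  have hQ : Q (Sum.inl p1) = Q (Sum.inr p2) := Quot.sound ⟨rfl, rfl⟩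
  let F : (E → D) → E → Quot R' := fun u y =>
    if s y ∈ S ↔ t y ∈ S then (if s y ∈ S then Q (Sum.inl (u y)) else Q (Sum.inr (u y))) else Q (Sum.inl p1)
  have F1 : ∀ u y, (s y ∈ S ↔ t y ∈ S) → s y ∈ S → F u y = Q (Sum.inl (u y)) := by
    intro u y h3 h4
    show (if s y ∈ S ↔ t y ∈ S then (if s y ∈ S then Q (Sum.inl (u y)) else Q (Sum.inr (u y))) else
      Q (Sum.inl p1)) = _
    rw [if_pos h3, if_pos h4]
  have F2 : ∀ u y, (s y ∈ S ↔ t y ∈ S) → s y ∉ S → F u y = Q (Sum.inr (u y)) := by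
    intro u y h3 h4
    show (if s y ∈ S ↔ t y ∈ S then (if s y ∈ S then Q (Sum.inl (u y)) else Q (Sum.inr (u y))) else
      Q (Sum.inl p1)) = _
    rw [if_pos h3, if_neg h4]
  have F3 : ∀ u y, ¬ (s y ∈ S ↔ t y ∈ S) → F u y = Q (Sum.inl p1) := by
    intro u y h3
    show (if s y ∈ S ↔ t y ∈ S then (if s y ∈ S then Q (Sum.inl (u y)) else Q (Sum.inr (u y))) else
      Q (Sum.inl p1)) = _
    rw [if_neg h3]
  have hfin : Finite (Quot R') := Finite.of_surjective (Quot.mk R') Quot.mk_surjective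
  refine ⟨Quot R', hfin, F l, F r, fun x => ⟨fun hx => ?_, ?_⟩, ?_, ?_⟩
  · have hx0 := hcyc x hx
    have hx1 : ∀ v, net s t (fun y => if s y ∈ S then x y else 0) v = 0 := by
      intro v
      rw [OPG_net s t S x hx0, hx v, ite_self]
    have hx2 : ∀ v, net s t (fun y => if s y ∈ Sᶜ then x y else 0) v = 0 := by
      intro v
      rw [OPG_net s t Sᶜ x (fun y hy => hx0 y (hcutc y hy)), hx v, ite_self]
    obtain ⟨φ1, hφ1⟩ := (h _).1 hx1
    obtain ⟨φ2, hφ2⟩ := (h _).1 hx2
    let Φ : Quot R' → ℚ := Quot.lift (Sum.elim φ1 fun d => φ2 d + (φ1 p1 - φ2 p2)) (by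
      rintro a b ⟨rfl, rfl⟩
      show φ1 p1 = φ2 p2 + (φ1 p1 - φ2 p2)
      ring)
    have hΦ1 : ∀ d, Φ (Q (Sum.inl d)) = φ1 d := fun d => rfl
    have hΦ2 : ∀ d, Φ (Q (Sum.inr d)) = φ2 d + (φ1 p1 - φ2 p2) := fun d => rfl
    refine ⟨Φ, fun y => ?_⟩
    by_cases h3 : s y ∈ S ↔ t y ∈ S
    · by_cases h4 : s y ∈ S
      · rw [F1 l y h3 h4, F1 r y h3 h4, hΦ1, hΦ1, ← hφ1 y]
        exact (if_pos h4).symm
      · rw [F2 l y h3 h4, F2 r y h3 h4, hΦ2, hΦ2, add_sub_add_right_eq_sub, ← hφ2 y]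
        exact (if_pos h4).symm
    · rw [F3 l y h3, F3 r y h3, sub_self]
      exact hx0 y h3
  · rintro ⟨φ, hφ⟩ v
    have c1 : ∀ v, net s t (fun y => φ (Q (Sum.inl (l y))) - φ (Q (Sum.inl (r y)))) v = 0 :=
      (h _).2 ⟨fun d => φ (Q (Sum.inl d)), fun _ => rfl⟩
    have c2 : ∀ v, net s t (fun y => φ (Q (Sum.inr (l y))) - φ (Q (Sum.inr (r y)))) v = 0 :=
      (h _).2 ⟨fun d => φ (Q (Sum.inr d)), fun _ => rfl⟩
    have z1 := hcyc _ c1
    have z2 := hcyc _ c2
    have hx : x = fun y => (if s y ∈ S then (φ (Q (Sum.inl (l y))) - φ (Q (Sum.inl (r y)))) else 0) +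
        (if s y ∈ Sᶜ then (φ (Q (Sum.inr (l y))) - φ (Q (Sum.inr (r y)))) else 0) := by
      funext y
      rw [hφ y]
      by_cases h3 : s y ∈ S ↔ t y ∈ S
      · by_cases h4 : s y ∈ S
        · rw [F1 l y h3 h4, F1 r y h3 h4, if_pos h4, if_neg (fun h5 : s y ∈ Sᶜ => h5 h4), add_zero]
        · rw [F2 l y h3 h4, F2 r y h3 h4, if_neg h4, if_pos (show s y ∈ Sᶜ from h4), zero_add]
      · have e1 : φ (Q (Sum.inl (l y))) - φ (Q (Sum.inl (r y))) = 0 := z1 y h3
        have e2 : φ (Q (Sum.inr (l y))) - φ (Q (Sum.inr (r y))) = 0 := z2 y h3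
        rw [F3 l y h3, F3 r y h3, e1, e2, sub_self, ite_self, ite_self, add_zero]
    rw [hx, net_add, OPG_net s t S _ z1, OPG_net s t Sᶜ _ (fun y hy => z2 y (hcutc y hy)), c1, c2,
      ite_self, ite_self, add_zero]
  · have h3 := hoth f0 hf0
    have h4 : s f0 ∈ S := by
      rcases hf0' with h5 | h5
      · rw [h5]
        exact h1
      · refine h3.2 ?_
        rw [h5]
        exact h1
    have e1 : hd s (F l) (F r) v1 e = Q (Sum.inl p1) := by
      unfold hd
      rw [F3 l e hcut, F3 r e hcut, ite_self]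
    rw [e1]
    show _ = Q (Sum.inl (tl s l r v1 f0))
    unfold tl
    by_cases h5 : s f0 = v1
    · rw [if_pos h5, if_pos h5, F1 r f0 h3 h4]
    · rw [if_neg h5, if_neg h5, F1 l f0 h3 h4]
  · have h3 := hoth f2 hf2
    have h4 : s f2 ∉ S := by
      rcases hf2' with h5 | h5
      · rw [h5]
        exact h2
      · intro h6
        have h7 := h3.1 h6
        rw [h5] at h7
        exact h2 h7
    have e1 : hd s (F l) (F r) v2 e = Q (Sum.inl p1) := by
      unfold hd
      rw [F3 l e hcut, F3 r e hcut, ite_self]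
    rw [e1, hQ]
    show _ = Q (Sum.inr (tl s l r v2 f2))
    unfold tl
    by_cases h5 : s f2 = v2
    · rw [if_pos h5, if_pos h5, F2 r f2 h3 h4]
    · rw [if_neg h5, if_neg h5, F2 l f2 h3 h4]

end Pool.Agent.Prm3
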