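import Pool.Agent.Prm3.Net
import Pool.Agent.Prm3.Npl

/-!
# The functionals of `WdB` on graphs
-/

set_option autoImplicit false

open scoped BigOperators

namespace Pool.Agent.Prm3

open Pool.Agent.KG Pool.Agent.P3 Pool.Agent.PL3

/-- MODULE HEA (1).  The closing `01|23` with the resistances `y 0, …, y 3` of the legs and `y 4` of the middle edge.

Proof.  As `P3.clo` (P3/Clo.lean): `P3.crit` and `net_hc_inl`, `net_hc_inr`; the equations of the new edges are `z.2 k + y k z.1 k = ψ 0` for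
`k = 0, 1`, `= ψ 1` for `k = 2, 3`, `y 4 j 4 = ψ 0 - ψ 1`, `j 4 = - z.1 0 - z.1 1 = z.1 2 + z.1 3`. -/
theorem hclo {V E K : Type} [Fintype V] [Fintype E] [Field K] (s t : E → V) (a : Fin 4 → V) (x : E → K)
    (y : Fin 5 → K) :
    sym (hcS s) (hcT t a) (Sum.elim x y) ≠ 0 ↔ ∀ z ∈ Bad s t a x, ¬ (∑ k, z.1 k = 0 ∧ ∃ c d : K,
      z.2 0 + y 0 * z.1 0 = c ∧ z.2 1 + y 1 * z.1 1 = c ∧ z.2 2 + y 2 * z.1 2 = d ∧ z.2 3 + y 3 * z.1 3 = d ∧
      y 4 * (z.1 2 + z.1 3) = c - d) := by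
  classical
  have hne : Nonempty (V ⊕ Fin 2) := ⟨Sum.inr 0⟩
  rw [crit]
  constructor
  · rintro h z ⟨i, φ, h1, h2, h3, h4⟩ ⟨h5, c, d, e0, e1, e2, e3, e4⟩
    rw [Fin.sum_univ_four] at h5
    obtain ⟨h7, c', h8⟩ := h (Sum.elim i ![z.1 0, z.1 1, z.1 2, z.1 3, z.1 2 + z.1 3]) (Sum.elim φ ![c, d])
      (by
        rintro (e | k)
        · exact h1 e
        · fin_cases k
          · show y 0 * z.1 0 = c - φ (a 0)
            rw [← e0, h3]
            ring
          · show y 1 * z.1 1 = c - φ (a 1)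
            rw [← e1, h3]
            ring
          · show y 2 * z.1 2 = d - φ (a 2)
            rw [← e2, h3]
            ring
          · show y 3 * z.1 3 = d - φ (a 3)
            rw [← e3, h3]
            ring
          · exact e4)
      (by
        rintro (v | w)
        · rw [net_hc_inl, h2, sub_eq_zero]
          refine Finset.sum_congr rfl fun k _ => ?_
          fin_cases k <;> rfl
        · fin_cases w
          · refine (net_hc_inr s t a i _).1.trans ?_
            show z.1 0 + z.1 1 + (z.1 2 + z.1 3) = 0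
            rw [← h5]
            ring
          · refine (net_hc_inr s t a i _).2.trans ?_
            show z.1 2 + z.1 3 - (z.1 2 + z.1 3) = 0
            ring)
    apply h4
    refine ⟨funext fun e => congrFun h7 (Sum.inl e), ⟨c', fun v => h8 (Sum.inl v)⟩, funext fun k => ?_⟩
    fin_cases k
    · exact congrFun h7 (Sum.inr 0)
    · exact congrFun h7 (Sum.inr 1)
    · exact congrFun h7 (Sum.inr 2)
    · exact congrFun h7 (Sum.inr 3)
  · intro h i' φ' h1 h2
    obtain ⟨i, j, rfl⟩ : ∃ (i : E → K) (j : Fin 5 → K), i' = Sum.elim i j :=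
      ⟨fun e => i' (Sum.inl e), fun k => i' (Sum.inr k), (Sum.elim_comp_inl_inr i').symm⟩
    obtain ⟨φ, ψ, rfl⟩ : ∃ (φ : V → K) (ψ : Fin 2 → K), φ' = Sum.elim φ ψ :=
      ⟨fun e => φ' (Sum.inl e), fun k => φ' (Sum.inr k), (Sum.elim_comp_inl_inr φ').symm⟩
    have n0 : j 0 + j 1 + j 4 = 0 := (net_hc_inr s t a i j).1.symm.trans (h2 (Sum.inr 0))
    have n1 : j 2 + j 3 - j 4 = 0 := (net_hc_inr s t a i j).2.symm.trans (h2 (Sum.inr 1))
    have e0 : y 0 * j 0 = ψ 0 - φ (a 0) := h1 (Sum.inr 0)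
    have e1 : y 1 * j 1 = ψ 0 - φ (a 1) := h1 (Sum.inr 1)
    have e2 : y 2 * j 2 = ψ 1 - φ (a 2) := h1 (Sum.inr 2)
    have e3 : y 3 * j 3 = ψ 1 - φ (a 3) := h1 (Sum.inr 3)
    have e4 : y 4 * j 4 = ψ 0 - ψ 1 := h1 (Sum.inr 4)
    have hj4 : j 4 = j 2 + j 3 := (sub_eq_zero.1 n1).symm
    have h5 : ¬ (¬ (i = 0 ∧ (∃ c, ∀ v, φ v = c) ∧ (fun k : Fin 4 => j k.castSucc) = 0)) := by
      intro h6
      refine h (fun k : Fin 4 => j k.castSucc, fun k => φ (a k)) ⟨i, φ, fun e => h1 (Sum.inl e), fun v => ?_,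
        fun k => rfl, h6⟩ ⟨?_, ψ 0, ψ 1, ?_, ?_, ?_, ?_, ?_⟩
      · have h4 := h2 (Sum.inl v)
        rw [net_hc_inl] at h4
        exact sub_eq_zero.1 h4
      · rw [Fin.sum_univ_four]
        show j 0 + j 1 + j 2 + j 3 = 0
        rw [hj4] at n0
        rw [← n0]
        ring
      · show φ (a 0) + y 0 * j 0 = ψ 0
        rw [e0]
        ring
      · show φ (a 1) + y 1 * j 1 = ψ 0
        rw [e1]
        ring
      · show φ (a 2) + y 2 * j 2 = ψ 1
        rw [e2]
        ring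
      · show φ (a 3) + y 3 * j 3 = ψ 1
        rw [e3]
        ring
      · show y 4 * (j 2 + j 3) = ψ 0 - ψ 1
        rw [← hj4]
        exact e4
    obtain ⟨h6, ⟨c, h7⟩, h8⟩ := not_not.1 h5
    have j0 : j 0 = 0 := congrFun h8 0
    have j1 : j 1 = 0 := congrFun h8 1
    have j2 : j 2 = 0 := congrFun h8 2
    have j3 : j 3 = 0 := congrFun h8 3
    have j4 : j 4 = 0 := by rw [hj4, j2, j3, add_zero]
    refine ⟨?_, c, ?_⟩
    · funext r
      rcases r with e | k
      · exact congrFun h6 e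
      · fin_cases k
        · exact j0
        · exact j1
        · exact j2
        · exact j3
        · exact j4
    · rintro (v | w)
      · exact h7 v
      · fin_cases w
        · show ψ 0 = c
          rw [j0, mul_zero, h7] at e0
          exact sub_eq_zero.1 e0.symm
        · show ψ 1 = c
          rw [j2, mul_zero, h7] at e2
          exact sub_eq_zero.1 e2.symm

/-- MODULE HEA (2).  The condition is that of `mt 0 r`.

Proof.  `(mt 0 r) z.1 = (0, 0, r z.1 3, r z.1 2)`; `z.2 2 + (y 2 - r) z.1 2 = d`, `d + r (z.1 2 + z.1 3) = c` is `z.2 2 + y 2 z.1 2 + r z.1 3 = c`. -/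
theorem lam_mt {K : Type} [Field K] (r : K) (y : Fin 4 → K) (z : Pt K) :
    Lam (mt 0 r + Matrix.diagonal y) z ↔ (∑ k, z.1 k = 0 ∧ ∃ c d : K,
      z.2 0 + y 0 * z.1 0 = c ∧ z.2 1 + y 1 * z.1 1 = c ∧ z.2 2 + (y 2 - r) * z.1 2 = d ∧
      z.2 3 + (y 3 - r) * z.1 3 = d ∧ r * (z.1 2 + z.1 3) = c - d) := by
  have m0 : (mt 0 r + Matrix.diagonal y).mulVec z.1 0 = y 0 * z.1 0 := by
    simp [Matrix.mulVec, dotProduct, Fin.sum_univ_four, P3.mt, Matrix.diagonal]
  have m1 : (mt 0 r + Matrix.diagonal y).mulVec z.1 1 = y 1 * z.1 1 := by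
    simp [Matrix.mulVec, dotProduct, Fin.sum_univ_four, P3.mt, Matrix.diagonal]
  have m2 : (mt 0 r + Matrix.diagonal y).mulVec z.1 2 = y 2 * z.1 2 + r * z.1 3 := by
    simp [Matrix.mulVec, dotProduct, Fin.sum_univ_four, P3.mt, Matrix.diagonal]
  have m3 : (mt 0 r + Matrix.diagonal y).mulVec z.1 3 = r * z.1 2 + y 3 * z.1 3 := by
    simp [Matrix.mulVec, dotProduct, Fin.sum_univ_four, P3.mt, Matrix.diagonal]
  unfold Lam
  refine and_congr Iff.rfl ⟨?_, ?_⟩
  · rintro ⟨c, h⟩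
    have h0 := h 0
    have h1 := h 1
    have h2 := h 2
    have h3 := h 3
    rw [m0] at h0
    rw [m1] at h1
    rw [m2] at h2
    rw [m3] at h3
    refine ⟨c, c - r * (z.1 2 + z.1 3), h0, h1, ?_, ?_, ?_⟩
    · linear_combination h2
    · linear_combination h3
    · ring
  · rintro ⟨c, d, h0, h1, h2, h3, h4⟩
    refine ⟨c, fun k => ?_⟩
    fin_cases k
    · exact (congrArg (z.2 0 + ·) m0).trans h0
    · exact (congrArg (z.2 1 + ·) m1).trans h1
    · refine (congrArg (z.2 2 + ·) m2).trans ?_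
      linear_combination h2 + h4
    · refine (congrArg (z.2 3 + ·) m3).trans ?_
      linear_combination h3 + h4

private def HEB_eq (K : Type) [Field K] : (K × (Fin 4 → K)) ≃ (Fin 5 → K) where
  toFun p := ![p.2 0, p.2 1, p.2 2 - p.1, p.2 3 - p.1, p.1]
  invFun w := (w 4, ![w 0, w 1, w 2 + w 4, w 3 + w 4])
  left_inv := by
    rintro ⟨r, y⟩
    refine Prod.ext rfl (funext fun k => ?_)
    fin_cases k
    · rfl
    · rfl
    · exact sub_add_cancel (y 2) r
    · exact sub_add_cancel (y 3) r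
  right_inv := by
    intro w
    funext k
    fin_cases k
    · rfl
    · rfl
    · exact add_sub_cancel_right (w 2) (w 4)
    · exact add_sub_cancel_right (w 3) (w 4)
    · rfl

/-- MODULE HEB.

Proof.  As `P3.ns_clo`: `ev (H1) = ∑ x, ∑ r, ∑ y, [..]` is by `lam_mt` and `hclo` (substitute `y 2 - r`, `y 3 - r`) the number of all
`x' : E ⊕ Fin 5 → F.K` with `sym .. x' ≠ 0`. -/
theorem ns_hc {V E : Type} [Fintype V] [Fintype E] (s t : E → V) (a : Fin 4 → V) (F : FinField) :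
    ns (hcS s) (hcT t a) F = F.q ^ (Fintype.card E + 5) - ev (fun _ B => H1 B) s t a F := by
  classical
  have h1 : ns (hcS s) (hcT t a) F =
      ∑ x' : E ⊕ Fin 5 → F.K, if sym (hcS s) (hcT t a) x' = 0 then (1 : ℤ) else 0 := by
    unfold ns NS
    rw [Nat.card_eq_fintype_card, Fintype.card_subtype, Finset.sum_boole]
  have h2 : ev (fun _ B => H1 B) s t a F =
      ∑ x' : E ⊕ Fin 5 → F.K, if sym (hcS s) (hcT t a) x' = 0 then (0 : ℤ) else 1 := by
    unfold ev H1 cf C
    rw [← (Equiv.sumArrowEquivProdArrow E (Fin 5) F.K).symm.sum_comp, Fintype.sum_prod_type]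
    refine Finset.sum_congr (by congr) fun x _ => ?_
    rw [← (HEB_eq F.K).sum_comp, Fintype.sum_prod_type]
    refine Finset.sum_congr (by congr) fun r _ => ?_
    refine Finset.sum_congr (by congr) fun y _ => ?_
    have h3 := hclo s t a x (HEB_eq F.K (r, y))
    have h4 : (Equiv.sumArrowEquivProdArrow E (Fin 5) F.K).symm (x, HEB_eq F.K (r, y)) =
        Sum.elim x (HEB_eq F.K (r, y)) := rfl
    have h6 : (∀ z ∈ Bad s t a x, ¬ Lam (mt 0 r + Matrix.diagonal y) z) ↔
        sym (hcS s) (hcT t a) (Sum.elim x (HEB_eq F.K (r, y))) ≠ 0 := by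
      rw [h3]
      refine forall_congr' fun z => forall_congr' fun _ => not_congr ?_
      exact lam_mt r y z
    rw [h4]
    by_cases h5 : sym (hcS s) (hcT t a) (Sum.elim x (HEB_eq F.K (r, y))) = 0
    · rw [if_pos h5, if_neg (fun h7 => h6.1 h7 h5)]
    · rw [if_neg h5, if_pos (h6.2 h5)]
  have h3 : ∑ x' : E ⊕ Fin 5 → F.K, (1 : ℤ) = F.q ^ (Fintype.card E + 5) := by
    rw [Finset.sum_const, Finset.card_univ, Fintype.card_fun, Fintype.card_sum, Fintype.card_fin,
      nsmul_eq_mul, mul_one, Nat.cast_pow]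
    unfold FinField.q
    rw [Nat.card_eq_fintype_card]
  rw [h1, h2, ← h3, ← Finset.sum_sub_distrib]
  refine Finset.sum_congr rfl fun x' _ => ?_
  split_ifs <;> simp

/-- MODULE HEC.  The closing by a square.

Proof.  `P3.ev_rung`, `H3 B = H1 (pm (finRotate 4).symm B)` (`PL3.H1_rot` for `pm (finRotate 4).symm B`, `pm σ (pm σ.symm B) = B`), `P3.ev_perm`,
`ns_hc`; the new graph has `Fintype.card E + 3` edges before the closing. -/
theorem ns_sq {V E : Type} [Fintype V] [Fintype E] (s t : E → V) (a : Fin 4 → V) (F : FinField) :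
    ns (hcS (rgS s)) (hcT (rgT t a) (rgA a ∘ (finRotate 4).symm)) F =
      F.q ^ (Fintype.card E + 8) - ev (fun _ B => R H3 B) s t a F := by
  have h1 := ev_rung (fun _ B => H3 B) s t a F
  have h2 := ev_perm (fun _ B => H1 B) (finRotate 4).symm (rgS s) (rgT t a) (rgA a) F
  have h3 : (fun (F : FinField) (B : Set (Pt F.K)) => H1 (pm (finRotate 4).symm B)) = fun _ B => H3 B := by
    funext F B
    rw [H1_rot]
    congr 1
    ext w
    show ((w.1 ∘ (finRotate 4).symm) ∘ (finRotate 4).symm.symm, (w.2 ∘ (finRotate 4).symm) ∘ (finRotate 4).symm.symm) ∈ B ↔ w ∈ B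
    have e1 : ∀ u : Fin 4 → F.K, (u ∘ (finRotate 4).symm) ∘ (finRotate 4).symm.symm = u := by
      intro u
      funext k
      simp only [Function.comp_apply, Equiv.symm_symm, Equiv.symm_apply_apply]
    rw [e1, e1]
  rw [h3] at h2
  rw [ns_hc, h1, h2, Fintype.card_sum, Fintype.card_fin]

/-- MODULE BMM.

Proof.  Induction on `hX : WdB X` (for all graphs), as `PL3.wdp_mem` (PL3/Port.lean).  `box`: `ns_sq`; `ns` of the closing is in `CG b k (2 * m)` by
`NW.closing` and `pl_closing`.  `rung`: `P3.ev_rung`, `NW.rung`.  `rot`, `refl`: `P3.ev_perm`, `NW.rot`, `NW.refl`.  `add`, `mulp`, `div`: as there. -/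
theorem wdb_mem {X : (F : FinField) → Set (Pt F.K) → ℤ} (hX : WdB X) (b : Bool) (k : ℕ) (hk : 1 ≤ k) (hk3 : k ≤ 3) :
    ∀ {V E : Type} [Fintype V] [Fintype E] (s t : E → V) (a : Fin 4 → V) (m : ℕ), NW b k m s t a →
      Sp (CG b k (2 * m)) (ev X s t a) := by
  induction hX with
  | box =>
    intro V E _ _ s t a m h
    obtain ⟨c1, c2, c3, c4⟩ := NW.closing hk hk3 h
    refine KGU.sp_congr (KGU.sp_sub (KGU.sp_mulq (Fintype.card E + 8) Sp.one) (Sp.base
      (f := ns (hcS (rgS s)) (hcT (rgT t a) (rgA a ∘ (finRotate 4).symm)))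
      ⟨(V ⊕ Fin 2) ⊕ Fin 2, (E ⊕ Fin 3) ⊕ Fin 5, inferInstance, inferInstance, hcS (rgS s),
        hcT (rgT t a) (rgA a ∘ (finRotate 4).symm), ⟨Sum.inr 0⟩, c1, c2, c3, c4,
        fun hb => pl_closing s t a (h.pln hb), rfl⟩)) fun F => ?_
    rw [ns_sq]
    ring
  | rung _ ih =>
    intro V E _ _ s t a m h
    exact KGU.sp_congr (ih (rgS s) (rgT t a) (rgA a) m (NW.rung hk hk3 h)) fun F => (ev_rung _ s t a F).symm
  | rot _ ih =>
    intro V E _ _ s t a m h
    exact KGU.sp_congr (ih s t (a ∘ finRotate 4) m (NW.rot h)) fun F => (ev_perm _ (finRotate 4) s t a F).symm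
  | refl _ ih =>
    intro V E _ _ s t a m h
    exact KGU.sp_congr (ih s t (a ∘ sw) m (NW.refl h)) fun F => (ev_perm _ sw s t a F).symm
  | add _ _ ih1 ih2 =>
    intro V E _ _ s t a m h
    refine KGU.sp_congr (Sp.add (ih1 s t a m h) (ih2 s t a m h)) fun F => ?_
    unfold ev
    rw [Finset.sum_add_distrib]
  | mulp c _ ih =>
    intro V E _ _ s t a m h
    refine KGU.sp_congr (Sp.mulp c (ih s t a m h)) fun F => ?_
    unfold ev
    rw [Finset.mul_sum]
  | div q hq _ ih =>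
    intro V E _ _ s t a m h
    refine Sp.div q hq (KGU.sp_congr (ih s t a m h) fun F => ?_)
    unfold ev
    rw [Finset.mul_sum]

end Pool.Agent.Prm3
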