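import Pool.Agent.PLN.Pc

/-!
# Planar primitive graphs of `φ³` theory

The definitions which are used in the statement of the final theorem.
-/

set_option autoImplicit false

open scoped BigOperators

namespace Pool.Agent.Prm3

open Pool.Agent.KG Pool.Agent.HGC

/-- A planar primitive graph of `φ³` theory: a simple connected planar cubic graph in which every set of edges
which separates two sets of at least two vertices has at least four elements. -/
structure PlanarPrimitive where
  /-- number of vertices -/
  n : ℕ
  /-- number of edges -/
  m : ℕ
  /-- number of faces -/
  k : ℕ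
  /-- one end of the edges -/
  s : Fin m → Fin n
  /-- the other end -/
  t : Fin m → Fin n
  /-- the face to the left of an edge -/
  l : Fin m → Fin k
  /-- the face to the right of an edge -/
  r : Fin m → Fin k
  /-- the degrees are three -/
  deg_eq : ∀ v, deg s t v = 3
  /-- there are no loops -/
  noloop : ∀ e, s e ≠ t e
  /-- there are no multiple edges -/
  simple : ∀ e f, e ≠ f → ¬ ((s e = s f ∧ t e = t f) ∨ (s e = t f ∧ t e = s f))
  /-- there is a spanning tree -/
  conn : ∃ T, IsTree s t T
  /-- two complementary sets of at least two vertices are joined by at least four edges -/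
  cyc4 : ∀ U : Set (Fin n), 2 ≤ U.ncard → 2 ≤ Uᶜ.ncard → 4 ≤ {e | ¬ (s e ∈ U ↔ t e ∈ U)}.ncard
  /-- `l`, `r` is the dual graph -/
  dual : PLN.Dual s t l r

/-- The number of zeros of the first Symanzik polynomial. -/
noncomputable def PlanarPrimitive.count (G : PlanarPrimitive) : PF := countPF fun K _ => NS G.s G.t K

end Pool.Agent.Prm3
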