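import Pool.Agent.Prm3.Main
import Pool.Agent.Prm3.Pp

/-!
# The family of the planar primitive graphs
-/

set_option autoImplicit false

open scoped BigOperators

namespace Pool.Agent.Prm3

open Pool.Agent.KG Pool.Agent.P3 Pool.Agent.KGU Pool.Agent.HGC Pool.Agent.HGM Pool.Agent.GPM Pool.Agent.PLN
  Pool.Agent.PL3

theorem exists_pp (G : PrimCubic true) : ∃ G' : PlanarPrimitive, G'.count = G.count := by
  obtain ⟨k, l, r, h⟩ := G.planar rfl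
  exact ⟨⟨G.n, G.m, k, G.s, G.t, l, r, G.deg_eq, G.noloop, G.simple, G.conn, G.cyc4, h⟩, rfl⟩

theorem family_pprim (t : ℕ) (X : Fin t → Datum) (a : Fin t → ℤ) (e : Fin t → ℕ) :
    ∃ (K N : ℕ) (G : Fin N → PlanarPrimitive) (c : Fin N → ℤ) (d : Fin N → ℕ) (κ : ℤ → ℤ),
      (∀ i, Odd i → κ i = 0) ∧
      ∀ (μ : Nat.Primes → ℂ →₀ ℤ) (ν : Fin N → Nat.Primes → ℂ →₀ ℤ),
        IsSpectrum (fun p r => ∑ j, (a j : ℂ) * (((p : ℕ) : ℂ) ^ r) ^ e j * (X j).count p r) μ →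
        (∀ k, IsSpectrum (G k).count (ν k)) →
        (∀ w : ℤ, 0 ≤ w → ∀ p : Nat.Primes, (p : ℕ) ≠ 2 → (p : ℕ) ≠ 3 → ∀ r : ℕ, 1 ≤ r →
          (((p : ℕ) : ℂ) ^ r) ^ K * weightPart μ w p r =
            (κ w : ℂ) * ((((p : ℕ) : ℂ) ^ r) ^ K * (((p : ℕ) : ℂ) ^ (w / 2)) ^ r) +
            ∑ k, (c k : ℂ) * ((((p : ℕ) : ℂ) ^ r) ^ d k *
              weightPart (ν k) (w + 2 * K - 2 * d k) p r)) ∧
        ∀ (S : Set Nat.Primes) (φ : PF), S.Finite →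
          Continues (fun p r => open Classical in if p ∈ S then φ p r else 0) →
          (∀ k w, Continues (lfun S (fun _ _ => 0) (ν k) w 0)) →
          ∀ i m : ℤ, 0 ≤ i → Continues (lfun S φ μ i m) := by
  obtain ⟨K, N, G, c, d, κ, h1, h2⟩ := family_main' hg_prim' t X a e
  choose G' hG' using fun j => exists_pp (G j)
  exact ⟨K, N, G', c, d, κ, h1, fun μ ν hμ hν => h2 μ ν hμ fun k => hG' k ▸ hν k⟩

end Pool.Agent.Prm3
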