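import Pool.Agent.Prm3.Gr

/-!
# Rungs, symmetries and closings of the graphs with four ports
-/

set_option autoImplicit false

open scoped BigOperators

namespace Pool.Agent.Prm3

open Pool.Agent.KG Pool.Agent.P3 Pool.Agent.PL3

variable {V E : Type} [Fintype V] [Fintype E] {b : Bool} {k m : ℕ} {s t : E → V} {a : Fin 4 → V}

private theorem NPM_pc {V : Type} (σ : Equiv.Perm (Fin 4)) (a : Fin 4 → V) (U : Set V) :
    pc (a ∘ σ) U = pc a U := by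
  unfold pc
  exact Equiv.sum_comp σ (fun k => @ite ℕ (a k ∈ U) (Classical.propDecidable _) 1 0)

private theorem NPM_nw (σ : Equiv.Perm (Fin 4)) (h : NW b k m s t a)
    (hp : b = true → PlN s t (a ∘ σ)) : NW b k m s t (a ∘ σ) := by
  have hc : ∀ U, cu s t (a ∘ σ) U = cu s t a U := fun U => by
    unfold cu
    rw [NPM_pc]
  refine ⟨h.ll, fun v => (pd_perm σ s t a v).trans (h.pd3 v), fun U hU => ?_, fun U hU h2 => ?_, ?_,
    hp⟩
  · rw [hc]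
    exact h.p1 U hU
  · rw [hc]
    rw [NPM_pc] at h2
    exact h.p2 U hU h2
  · simp only [hc]
    exact h.p3

/-- MODULE NPM (1).  The cyclic shift of the ports: `pc (a ∘ σ) U = pc a U` (`Equiv.sum_comp`), `P3.pd_perm`, `PL3.plN_rot`. -/
theorem NW.rot (h : NW b k m s t a) : NW b k m s t (a ∘ finRotate 4) := by
  exact NPM_nw (finRotate 4) h fun hb => plN_rot s t a (h.pln hb)

private theorem NPM_refl (s t : E → V) (a : Fin 4 → V) (h : PlN s t a) : PlN s t (a ∘ sw) := by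
  classical
  obtain ⟨D, hD, l, r, g, h⟩ := h
  refine ⟨D, hD, r, l, ![g 2, g 1, g 0, g 3], fun x j => ?_⟩
  have s0 : sw.symm 0 = 1 := by decide
  have s1 : sw.symm 1 = 0 := by decide
  have s2 : sw.symm 2 = 3 := by decide
  have s3 : sw.symm 3 = 2 := by decide
  have hs : ∀ v, (∑ k, @ite ℚ ((a ∘ sw) k = v) (Classical.propDecidable _) (j k) 0) =
      ∑ k, @ite ℚ (a k = v) (Classical.propDecidable _) ((j ∘ sw.symm) k) 0 := by
    intro v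
    rw [← Equiv.sum_comp sw (fun k => @ite ℚ (a k = v) (Classical.propDecidable _)
      ((j ∘ sw.symm) k) 0)]
    refine Finset.sum_congr rfl fun k _ => ?_
    simp only [Function.comp_apply, Equiv.symm_apply_apply]
  constructor
  · intro h1
    obtain ⟨φ, h2, h3⟩ := (h x (j ∘ sw.symm)).1 (fun v => (h1 v).trans (hs v))
    have e0 : j (sw.symm 0) = φ (g 1) - φ (g 0) := h3 0
    have e1 : j (sw.symm 1) = φ (g 2) - φ (g 1) := h3 1
    have e2 : j (sw.symm 2) = φ (g 3) - φ (g 2) := h3 2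
    have e3 : j (sw.symm 3) = φ (g 0) - φ (g 3) := h3 3
    rw [s0] at e0
    rw [s1] at e1
    rw [s2] at e2
    rw [s3] at e3
    refine ⟨fun d => - φ d, fun e => ?_, fun k => ?_⟩
    · rw [h2]
      ring
    · fin_cases k
      · show j 0 = - φ (g 1) - - φ (g 2)
        rw [e1]
        ring
      · show j 1 = - φ (g 0) - - φ (g 1)
        rw [e0]
        ring
      · show j 2 = - φ (g 3) - - φ (g 0)
        rw [e3]
        ring
      · show j 3 = - φ (g 2) - - φ (g 3)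
        rw [e2]
        ring
  · rintro ⟨φ, h2, h3⟩ v
    have e0 : j 0 = φ (g 1) - φ (g 2) := h3 0
    have e1 : j 1 = φ (g 0) - φ (g 1) := h3 1
    have e2 : j 2 = φ (g 3) - φ (g 0) := h3 2
    have e3 : j 3 = φ (g 2) - φ (g 3) := h3 3
    refine ((h x (j ∘ sw.symm)).2 ⟨fun d => - φ d, fun e => ?_, fun k => ?_⟩ v).trans (hs v).symm
    · rw [h2]
      ring
    · fin_cases k
      · show j (sw.symm 0) = - φ (g 1) - - φ (g 0)
        rw [s0, e1]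
        ring
      · show j (sw.symm 1) = - φ (g 2) - - φ (g 1)
        rw [s1, e0]
        ring
      · show j (sw.symm 2) = - φ (g 3) - - φ (g 2)
        rw [s2, e3]
        ring
      · show j (sw.symm 3) = - φ (g 0) - - φ (g 3)
        rw [s3, e2]
        ring

/-- MODULE NPM (2).  The reflection.

Proof.  As before; planarity: if `DuN s t a l r g`, then `DuN s t (a ∘ sw) r l ![g 2, g 1, g 0, g 3]`: for `j'` with `j' k = j (sw k)` take `- φ`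
(`j (sw k) = φ (g (sw k + 1)) - φ (g (sw k))`, and `![g 2, g 1, g 0, g 3] k = g (sw k + 1)`, `![g 2, g 1, g 0, g 3] (k + 1) = g (sw k)`). -/
theorem NW.refl (h : NW b k m s t a) : NW b k m s t (a ∘ sw) := by
  exact NPM_nw sw h fun hb => NPM_refl s t a (h.pln hb)

private theorem NRG_z (A B : Prop) [Decidable A] [Decidable B] [Decidable (A ↔ B)] :
    (if (A ↔ B) then 0 else 1 : ℕ) ≤ (if A then 1 else 0) + (if B then 1 else 0) ∧
    (if A then 1 else 0 : ℕ) ≤ (if (A ↔ B) then 0 else 1) + (if B then 1 else 0) ∧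
    (if B then 1 else 0 : ℕ) ≤ (if (A ↔ B) then 0 else 1) + (if A then 1 else 0) ∧
    (if (A ↔ B) then 0 else 1 : ℕ) + (if A then 1 else 0) + (if B then 1 else 0) ≤ 2 := by
  by_cases hA : A <;> by_cases hB : B <;> simp [hA, hB]

private theorem NRG_x (A : Prop) [Decidable A] : ((if A then 1 else 0 : ℕ) = 0 ∧ ¬ A) ∨
    ((if A then 1 else 0 : ℕ) = 1 ∧ A) := by
  by_cases hA : A <;> simp [hA]

private theorem NRG_sum {W : Type} [Fintype W] (U : Set W) :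
    U.ncard = ∑ x, @ite ℕ (x ∈ U) (Classical.propDecidable _) 1 0 := by
  classical
  rw [Set.ncard_eq_toFinset_card', Finset.card_eq_sum_ones, ← Finset.sum_filter]
  refine Finset.sum_congr ?_ fun _ _ => rfl
  ext x
  simp

private theorem NRG_nc (U : Set (V ⊕ Fin 2)) : U.ncard = (Sum.inl ⁻¹' U : Set V).ncard +
    @ite ℕ (Sum.inr 0 ∈ U) (Classical.propDecidable _) 1 0 +
    @ite ℕ (Sum.inr 1 ∈ U) (Classical.propDecidable _) 1 0 := by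
  classical
  rw [NRG_sum U, NRG_sum (Sum.inl ⁻¹' U : Set V), Fintype.sum_sum_type, Fin.sum_univ_two, add_assoc]
  rfl

/-- the three kinds of sets -/
private theorem NRG_loc (h : NW b k m s t a) (U : Set V) :
    (cs s t U = 0 ∧ pc a U = 0 ∧ U.ncard = 0) ∨ (cs s t U = 0 ∧ pc a U = 4 ∧ Uᶜ.ncard = 0) ∨
    (k ≤ cs s t U + pc a U ∧ k + pc a U ≤ cs s t U + 4 ∧ (pc a U = 2 → k + 1 ≤ cs s t U + 2)) := by
  have h4 := pc_compl a U
  rcases U.eq_empty_or_nonempty with h1 | h1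
  · left
    have h2 : pc a (∅ : Set V) = 0 := by
      unfold pc
      simp
    rw [h1]
    exact ⟨cs_empty s t, h2, Set.ncard_empty _⟩
  · rcases Uᶜ.eq_empty_or_nonempty with h2 | h2
    · right
      left
      have h3 : pc a (∅ : Set V) = 0 := by
        unfold pc
        simp
      rw [h2, h3] at h4
      rw [h2]
      refine ⟨?_, by omega, Set.ncard_empty _⟩
      rw [← cs_compl, h2]
      exact cs_empty s t
    · right
      right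
      have h5 := h.p1 U h1
      have h6 := h.p1 Uᶜ h2
      have h7 := h.p2 U h1
      unfold cu at h5 h6 h7
      rw [cs_compl] at h6
      refine ⟨h5, by omega, fun h8 => ?_⟩
      have h9 := h7 h8
      omega

/-- MODULE NRG.  A rung.

Proof.  `LL`, `pd3`: `P3.pd_rung_inl`, `P3.pd_rung_inr`.  `pln`: `PL3.plN_rung`.  Let `U` be a set of vertices of the new graph, `U' = inl ⁻¹' U`,
`δ = cs s t U'`, `p i = [a i ∈ U']`, `q j = [inr j ∈ U]`; by `cs_rg`, `pc_rg`, `pc_inl`: `cu U = δ + [q 0 ≠ p 0] + [q 1 ≠ p 1] + [q 0 ≠ q 1] + q 0 +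
q 1 + p 2 + p 3`, `cu' U' = δ + p 0 + p 1 + p 2 + p 3`, `pc U = q 0 + q 1 + p 2 + p 3`.  We know: `U'` nonempty → `k ≤ cu' U'`; `U'` nonempty and
`∑ p = 2` → `k + 1 ≤ cu' U'`; the complement of `U'` nonempty → `k ≤ δ + 4 - ∑ p` (`cs_compl`, `pc_compl`); `p i = 1` → `U'` nonempty;
`p i = 0` → complement nonempty; `U'` empty → `δ = 0`.
`p1`: `q = (0, 0)`: `U'` nonempty, `cu U = cu' U'`.  `q = (1, 0)`: `cu U = cu' U' + 1` if `p 0 = 1` (then `U'` is nonempty), `cu' U' + 3` if `p 0 = 0`.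
`q = (1, 1)`: `cu U = cu' U' + 4 - 2 (p 0 + p 1)`.
`p2` (`pc U = 2`): `q = (0, 0)`: `p 2 = p 3 = 1`; `p 0 = p 1 = 0`: old `p2`; `p 0 + p 1 = 2`: `cu U ≥ 4`; `p 0 + p 1 = 1`: `cu U = δ + 3`, and `δ ≥ 1` if
`k = 3` by the complement.  `q = (1, 0)`: `p 2 + p 3 = 1`, `cu U ≥ cu' U' + 1`.  `q = (1, 1)`: `p 2 = p 3 = 0`; `p 0 + p 1 = 2`: old `p2`; `= 1`: `k + 2`; `= 0`:
`cu' U' + 4`.  All follows by `omega` after the case distinction.
`p3`: if `2 ≤ U.ncard` and `cu U = k`, then `q = (0, 0)` (for `q = (1, 0)`: `cu U ≥ k + 1` if `U'` is nonempty, and `U.ncard = 1` if `U' = ∅`; for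
`q = (1, 1)` and `p 0 = p 1 = 1`, `∑ p = 2` contradicts `p2`, `∑ p ≥ 3` gives `δ = 0` and `k = 3`, `∑ p = 3`, contradiction to the complement, or
`∑ p = 4 > k`; `p 0 + p 1 ≤ 1`: `cu U ≥ k + 1`), so `U = inl '' U'` with `2 ≤ U'.ncard`, `cu' U' = k`: `Set.ncard_le_ncard_of_injOn` or image. -/
theorem NW.rung (hk : 1 ≤ k) (hk3 : k ≤ 3) (h : NW b k m s t a) : NW b k m (rgS s) (rgT t a) (rgA a) := by
  classical
  have key : ∀ U : Set (V ⊕ Fin 2), (U.Nonempty → k ≤ cu (rgS s) (rgT t a) (rgA a) U) ∧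
      (pc (rgA a) U = 2 → k + 1 ≤ cu (rgS s) (rgT t a) (rgA a) U) ∧
      (2 ≤ U.ncard → cu (rgS s) (rgT t a) (rgA a) U = k → Sum.inr 0 ∉ U ∧ Sum.inr 1 ∉ U ∧
        2 ≤ (Sum.inl ⁻¹' U : Set V).ncard ∧ cu s t a (Sum.inl ⁻¹' U) = k) := by
    intro U
    have e1 := cs_rg s t a U
    have e2 := pc_rg a U
    have e3 := pc_inl a U
    have e4 := NRG_nc U
    have z1 := NRG_z (Sum.inr 0 ∈ U) (Sum.inl (a 0) ∈ U)
    have z2 := NRG_z (Sum.inr 1 ∈ U) (Sum.inl (a 1) ∈ U)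
    have z3 := NRG_z ((Sum.inr 0 : V ⊕ Fin 2) ∈ U) (Sum.inr 1 ∈ U)
    have q0 := NRG_x ((Sum.inr 0 : V ⊕ Fin 2) ∈ U)
    have q1 := NRG_x ((Sum.inr 1 : V ⊕ Fin 2) ∈ U)
    have p0 := NRG_x ((Sum.inl (a 0) : V ⊕ Fin 2) ∈ U)
    have p1 := NRG_x ((Sum.inl (a 1) : V ⊕ Fin 2) ∈ U)
    have p2 := NRG_x ((Sum.inl (a 2) : V ⊕ Fin 2) ∈ U)
    have p3 := NRG_x ((Sum.inl (a 3) : V ⊕ Fin 2) ∈ U)
    have hl := NRG_loc h (Sum.inl ⁻¹' U)
    have hn : U.Nonempty → 1 ≤ U.ncard := fun h1 => (Set.ncard_pos (Set.toFinite _)).2 h1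
    unfold cu
    generalize cs (rgS s) (rgT t a) U = c at e1 ⊢
    generalize pc (rgA a) U = c' at e2 ⊢
    generalize cs s t (Sum.inl ⁻¹' U) = δ at e1 hl ⊢
    generalize pc a (Sum.inl ⁻¹' U) = δ' at e3 hl ⊢
    generalize (if Sum.inr 0 ∈ U then 1 else 0 : ℕ) = Q0 at *
    generalize (if Sum.inr 1 ∈ U then 1 else 0 : ℕ) = Q1 at *
    generalize (if Sum.inl (a 0) ∈ U then 1 else 0 : ℕ) = P0 at *
    generalize (if Sum.inl (a 1) ∈ U then 1 else 0 : ℕ) = P1 at *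
    generalize (if Sum.inl (a 2) ∈ U then 1 else 0 : ℕ) = P2 at *
    generalize (if Sum.inl (a 3) ∈ U then 1 else 0 : ℕ) = P3 at *
    generalize (if (Sum.inr 0 ∈ U ↔ Sum.inl (a 0) ∈ U) then 0 else 1 : ℕ) = Z1 at *
    generalize (if (Sum.inr 1 ∈ U ↔ Sum.inl (a 1) ∈ U) then 0 else 1 : ℕ) = Z2 at *
    generalize (if ((Sum.inr 0 : V ⊕ Fin 2) ∈ U ↔ Sum.inr 1 ∈ U) then 0 else 1 : ℕ) = Z3 at *
    refine ⟨fun h1 => ?_, fun h1 => ?_, fun h1 h2 => ?_⟩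
    · have h2 := hn h1
      clear hn
      rcases q0 with ⟨q0, -⟩ | ⟨q0, -⟩ <;> rcases q1 with ⟨q1, -⟩ | ⟨q1, -⟩ <;>
        rcases p0 with ⟨p0, -⟩ | ⟨p0, -⟩ <;> rcases p1 with ⟨p1, -⟩ | ⟨p1, -⟩ <;>
        rcases p2 with ⟨p2, -⟩ | ⟨p2, -⟩ <;> rcases p3 with ⟨p3, -⟩ | ⟨p3, -⟩ <;> subst q0 q1 p0 p1 p2 p3 <;> omega
    · clear hn
      rcases q0 with ⟨q0, -⟩ | ⟨q0, -⟩ <;> rcases q1 with ⟨q1, -⟩ | ⟨q1, -⟩ <;>
        rcases p0 with ⟨p0, -⟩ | ⟨p0, -⟩ <;> rcases p1 with ⟨p1, -⟩ | ⟨p1, -⟩ <;>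
        rcases p2 with ⟨p2, -⟩ | ⟨p2, -⟩ <;> rcases p3 with ⟨p3, -⟩ | ⟨p3, -⟩ <;> subst q0 q1 p0 p1 p2 p3 <;> omega
    · clear hn
      have h3 : Q0 = 0 ∧ Q1 = 0 := by
        rcases q0 with ⟨q0, -⟩ | ⟨q0, -⟩ <;> rcases q1 with ⟨q1, -⟩ | ⟨q1, -⟩ <;>
          rcases p0 with ⟨p0, -⟩ | ⟨p0, -⟩ <;> rcases p1 with ⟨p1, -⟩ | ⟨p1, -⟩ <;>
          rcases p2 with ⟨p2, -⟩ | ⟨p2, -⟩ <;> rcases p3 with ⟨p3, -⟩ | ⟨p3, -⟩ <;> subst q0 q1 p0 p1 p2 p3 <;> omega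
      refine ⟨?_, ?_, ?_, ?_⟩
      · rcases q0 with ⟨_, r⟩ | ⟨r, -⟩
        · exact r
        · omega
      · rcases q1 with ⟨_, r⟩ | ⟨r, -⟩
        · exact r
        · omega
      · omega
      · omega
  refine ⟨?_, ?_, fun U hU => (key U).1 hU, fun U _ h2 => (key U).2.1 h2, ?_, fun hb => plN_rung s t a (h.pln hb)⟩
  · rintro (e | i)
    · exact fun h1 => h.ll e (Sum.inl_injective h1)
    · fin_cases i
      · exact fun h1 => Sum.inr_ne_inl h1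
      · exact fun h1 => Sum.inr_ne_inl h1
      · exact fun h1 => absurd (Sum.inr_injective h1) (by decide)
  · rintro (v | j)
    · rw [pd_rung_inl]
      exact h.pd3 v
    · exact pd_rung_inr s t a j
  · refine le_trans ?_ h.p3
    refine Set.ncard_le_ncard_of_injOn (fun U => Sum.inl ⁻¹' U) ?_ ?_ (Set.toFinite _)
    · rintro U ⟨h1, h2⟩
      exact ((key U).2.2 h1 h2).2.2
    · rintro U ⟨h1, h2⟩ U' ⟨h1', h2'⟩ h3
      obtain ⟨a1, a2, -⟩ := (key U).2.2 h1 h2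
      obtain ⟨b1, b2, -⟩ := (key U').2.2 h1' h2'
      ext x
      rcases x with v | j
      · exact Set.ext_iff.1 h3 v
      · fin_cases j
        · exact ⟨fun h4 => absurd h4 a1, fun h4 => absurd h4 b1⟩
        · exact ⟨fun h4 => absurd h4 a2, fun h4 => absurd h4 b2⟩

private theorem NHC_c (U : Set (V ⊕ Fin 2)) : Uᶜ.ncard + @ite ℕ (Sum.inr 0 ∈ U) (Classical.propDecidable _) 1 0 +
    @ite ℕ (Sum.inr 1 ∈ U) (Classical.propDecidable _) 1 0 = (Sum.inl ⁻¹' U : Set V)ᶜ.ncard + 2 := by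
  classical
  have h1 := NRG_nc Uᶜ
  have h2 : (Sum.inl ⁻¹' Uᶜ : Set V) = (Sum.inl ⁻¹' U : Set V)ᶜ := rfl
  rw [h2] at h1
  by_cases h3 : Sum.inr 0 ∈ U
  · by_cases h4 : Sum.inr 1 ∈ U
    · rw [if_neg (fun h => h h3), if_neg (fun h => h h4)] at h1
      rw [if_pos h3, if_pos h4]
      omega
    · rw [if_neg (fun h => h h3), if_pos (show Sum.inr 1 ∈ Uᶜ from h4)] at h1
      rw [if_pos h3, if_neg h4]
      omega
  · by_cases h4 : Sum.inr 1 ∈ U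
    · rw [if_pos (show Sum.inr 0 ∈ Uᶜ from h3), if_neg (fun h => h h4)] at h1
      rw [if_neg h3, if_pos h4]
      omega
    · rw [if_pos (show Sum.inr 0 ∈ Uᶜ from h3), if_pos (show Sum.inr 1 ∈ Uᶜ from h4)] at h1
      rw [if_neg h3, if_neg h4]
      omega

private theorem NHC_b (a : Fin 4 → V) : (rgA a ∘ (finRotate 4).symm) 0 = Sum.inl (a 3) ∧
    (rgA a ∘ (finRotate 4).symm) 1 = Sum.inr 0 ∧ (rgA a ∘ (finRotate 4).symm) 2 = Sum.inr 1 ∧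
    (rgA a ∘ (finRotate 4).symm) 3 = Sum.inl (a 2) := by
  have r0 : (finRotate 4).symm 0 = 3 := by decide
  have r1 : (finRotate 4).symm 1 = 0 := by decide
  have r2 : (finRotate 4).symm 2 = 1 := by decide
  have r3 : (finRotate 4).symm 3 = 2 := by decide
  refine ⟨?_, ?_, ?_, ?_⟩
  · show rgA a ((finRotate 4).symm 0) = _
    rw [r0]
    rfl
  · show rgA a ((finRotate 4).symm 1) = _
    rw [r1]
    rfl
  · show rgA a ((finRotate 4).symm 2) = _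
    rw [r2]
    rfl
  · show rgA a ((finRotate 4).symm 3) = _
    rw [r3]
    rfl

/-- all cuts -/
private theorem NHC_key (hk : 1 ≤ k) (hk3 : k ≤ 3) (h : NW b k m s t a) (W : Set ((V ⊕ Fin 2) ⊕ Fin 2)) :
    (1 ≤ W.ncard → 1 ≤ Wᶜ.ncard → k ≤ cs (hcS (rgS s)) (hcT (rgT t a) (rgA a ∘ (finRotate 4).symm)) W) ∧
    (2 ≤ W.ncard → 2 ≤ Wᶜ.ncard → cs (hcS (rgS s)) (hcT (rgT t a) (rgA a ∘ (finRotate 4).symm)) W = k →
      (Sum.inl (Sum.inr 0) ∉ W ∧ Sum.inl (Sum.inr 1) ∉ W ∧ Sum.inr 0 ∉ W ∧ Sum.inr 1 ∉ W ∧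
        2 ≤ (Sum.inl ⁻¹' (Sum.inl ⁻¹' W : Set (V ⊕ Fin 2)) : Set V).ncard ∧
        cu s t a (Sum.inl ⁻¹' (Sum.inl ⁻¹' W : Set (V ⊕ Fin 2)) : Set V) = k) ∨
      (Sum.inl (Sum.inr 0) ∈ W ∧ Sum.inl (Sum.inr 1) ∈ W ∧ Sum.inr 0 ∈ W ∧ Sum.inr 1 ∈ W ∧
        2 ≤ (Sum.inl ⁻¹' (Sum.inl ⁻¹' W : Set (V ⊕ Fin 2)) : Set V)ᶜ.ncard ∧
        cu s t a (Sum.inl ⁻¹' (Sum.inl ⁻¹' W : Set (V ⊕ Fin 2)) : Set V)ᶜ = k)) := by
  classical
  obtain ⟨b0, b1, b2, b3⟩ := NHC_b a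
  have e1 := cs_hc (rgS s) (rgT t a) (rgA a ∘ (finRotate 4).symm) W
  have e2 := cs_rg s t a (Sum.inl ⁻¹' W)
  rw [b0, b1, b2, b3] at e1
  have e3 := pc_inl a (Sum.inl ⁻¹' W)
  have e4 := pc_compl a (Sum.inl ⁻¹' (Sum.inl ⁻¹' W : Set (V ⊕ Fin 2)) : Set V)
  have e5 := cs_compl s t (Sum.inl ⁻¹' (Sum.inl ⁻¹' W : Set (V ⊕ Fin 2)) : Set V)
  have n1 := NRG_nc W
  have n2 := NRG_nc (Sum.inl ⁻¹' W)
  have n3 := NHC_c W
  have n4 := NHC_c (Sum.inl ⁻¹' W)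
  have z1 := NRG_z (Sum.inr 0 ∈ W) (Sum.inl (Sum.inl (a 3)) ∈ W)
  have z2 := NRG_z (Sum.inr 0 ∈ W) (Sum.inl (Sum.inr 0) ∈ W)
  have z3 := NRG_z (Sum.inr 1 ∈ W) (Sum.inl (Sum.inr 1) ∈ W)
  have z4 := NRG_z (Sum.inr 1 ∈ W) (Sum.inl (Sum.inl (a 2)) ∈ W)
  have z5 := NRG_z ((Sum.inr 0 : (V ⊕ Fin 2) ⊕ Fin 2) ∈ W) (Sum.inr 1 ∈ W)
  have z6 := NRG_z (Sum.inl (Sum.inr 0) ∈ W) (Sum.inl (Sum.inl (a 0)) ∈ W)
  have z7 := NRG_z (Sum.inl (Sum.inr 1) ∈ W) (Sum.inl (Sum.inl (a 1)) ∈ W)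
  have z8 := NRG_z ((Sum.inl (Sum.inr 0) : (V ⊕ Fin 2) ⊕ Fin 2) ∈ W) (Sum.inl (Sum.inr 1) ∈ W)
  have q0 := NRG_x ((Sum.inl (Sum.inr 0) : (V ⊕ Fin 2) ⊕ Fin 2) ∈ W)
  have q1 := NRG_x ((Sum.inl (Sum.inr 1) : (V ⊕ Fin 2) ⊕ Fin 2) ∈ W)
  have q3 := NRG_x ((Sum.inr 0 : (V ⊕ Fin 2) ⊕ Fin 2) ∈ W)
  have q2 := NRG_x ((Sum.inr 1 : (V ⊕ Fin 2) ⊕ Fin 2) ∈ W)
  have p0 := NRG_x (Sum.inl (Sum.inl (a 0)) ∈ W)
  have p1 := NRG_x (Sum.inl (Sum.inl (a 1)) ∈ W)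
  have p2 := NRG_x (Sum.inl (Sum.inl (a 2)) ∈ W)
  have p3 := NRG_x (Sum.inl (Sum.inl (a 3)) ∈ W)
  have hl := NRG_loc h (Sum.inl ⁻¹' (Sum.inl ⁻¹' W : Set (V ⊕ Fin 2)))
  unfold cu
  simp only [Set.mem_preimage] at e2 e3 n2 n4
  generalize cs (hcS (rgS s)) (hcT (rgT t a) (rgA a ∘ (finRotate 4).symm)) W = c at e1 ⊢
  generalize cs (rgS s) (rgT t a) (Sum.inl ⁻¹' W) = c' at e1 e2
  generalize cs s t (Sum.inl ⁻¹' (Sum.inl ⁻¹' W)) = δ at *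
  generalize cs s t (Sum.inl ⁻¹' (Sum.inl ⁻¹' W))ᶜ = δc at *
  generalize pc a (Sum.inl ⁻¹' (Sum.inl ⁻¹' W)) = δ' at *
  generalize pc a (Sum.inl ⁻¹' (Sum.inl ⁻¹' W))ᶜ = δ'c at *
  generalize (if Sum.inl (Sum.inr 0) ∈ W then 1 else 0 : ℕ) = Q0 at *
  generalize (if Sum.inl (Sum.inr 1) ∈ W then 1 else 0 : ℕ) = Q1 at *
  generalize (if Sum.inr 1 ∈ W then 1 else 0 : ℕ) = Q2 at *
  generalize (if Sum.inr 0 ∈ W then 1 else 0 : ℕ) = Q3 at *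
  generalize (if Sum.inl (Sum.inl (a 0)) ∈ W then 1 else 0 : ℕ) = P0 at *
  generalize (if Sum.inl (Sum.inl (a 1)) ∈ W then 1 else 0 : ℕ) = P1 at *
  generalize (if Sum.inl (Sum.inl (a 2)) ∈ W then 1 else 0 : ℕ) = P2 at *
  generalize (if Sum.inl (Sum.inl (a 3)) ∈ W then 1 else 0 : ℕ) = P3 at *
  generalize (if (Sum.inr 0 ∈ W ↔ Sum.inl (Sum.inl (a 3)) ∈ W) then 0 else 1 : ℕ) = Z1 at *
  generalize (if (Sum.inr 0 ∈ W ↔ Sum.inl (Sum.inr 0) ∈ W) then 0 else 1 : ℕ) = Z2 at *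
  generalize (if (Sum.inr 1 ∈ W ↔ Sum.inl (Sum.inr 1) ∈ W) then 0 else 1 : ℕ) = Z3 at *
  generalize (if (Sum.inr 1 ∈ W ↔ Sum.inl (Sum.inl (a 2)) ∈ W) then 0 else 1 : ℕ) = Z4 at *
  generalize (if ((Sum.inr 0 : (V ⊕ Fin 2) ⊕ Fin 2) ∈ W ↔ Sum.inr 1 ∈ W) then 0 else 1 : ℕ) = Z5 at *
  generalize (if (Sum.inl (Sum.inr 0) ∈ W ↔ Sum.inl (Sum.inl (a 0)) ∈ W) then 0 else 1 : ℕ) = Z6 at *
  generalize (if (Sum.inl (Sum.inr 1) ∈ W ↔ Sum.inl (Sum.inl (a 1)) ∈ W) then 0 else 1 : ℕ) = Z7 at *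
  generalize (if ((Sum.inl (Sum.inr 0) : (V ⊕ Fin 2) ⊕ Fin 2) ∈ W ↔ Sum.inl (Sum.inr 1) ∈ W) then 0
    else 1 : ℕ) = Z8 at *
  generalize W.ncard = N at *
  generalize Wᶜ.ncard = Nc at *
  generalize (Sum.inl ⁻¹' W : Set (V ⊕ Fin 2)).ncard = N' at *
  generalize (Sum.inl ⁻¹' W : Set (V ⊕ Fin 2))ᶜ.ncard = N'c at *
  generalize (Sum.inl ⁻¹' (Sum.inl ⁻¹' W : Set (V ⊕ Fin 2)) : Set V).ncard = M at *
  generalize (Sum.inl ⁻¹' (Sum.inl ⁻¹' W : Set (V ⊕ Fin 2)) : Set V)ᶜ.ncard = Mc at *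
  have main : (1 ≤ N → 1 ≤ Nc → k ≤ c) ∧ (2 ≤ N → 2 ≤ Nc → c = k →
      (Q0 = 0 ∧ Q1 = 0 ∧ Q2 = 0 ∧ Q3 = 0 ∧ 2 ≤ M ∧ δ + δ' = k) ∨
      (Q0 = 1 ∧ Q1 = 1 ∧ Q2 = 1 ∧ Q3 = 1 ∧ 2 ≤ Mc ∧ δc + δ'c = k)) := by
    have q0' := q0.imp And.left And.left
    have q1' := q1.imp And.left And.left
    have q2' := q2.imp And.left And.left
    have q3' := q3.imp And.left And.left
    have p0' := p0.imp And.left And.left
    have p1' := p1.imp And.left And.left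
    have p2' := p2.imp And.left And.left
    have p3' := p3.imp And.left And.left
    clear q0 q1 q2 q3 p0 p1 p2 p3
    rcases q0' with rfl | rfl <;> rcases q1' with rfl | rfl <;> rcases q2' with rfl | rfl <;>
      rcases q3' with rfl | rfl <;> rcases p0' with rfl | rfl <;> rcases p1' with rfl | rfl <;>
      rcases p2' with rfl | rfl <;> rcases p3' with rfl | rfl <;> constructor <;> omega
  refine ⟨main.1, fun h1 h2 h3 => ?_⟩
  rcases main.2 h1 h2 h3 with ⟨r0, r1, r2, r3, r4, r5⟩ | ⟨r0, r1, r2, r3, r4, r5⟩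
  · left
    refine ⟨?_, ?_, ?_, ?_, r4, r5⟩
    · rcases q0 with ⟨_, r⟩ | ⟨r, -⟩
      · exact r
      · omega
    · rcases q1 with ⟨_, r⟩ | ⟨r, -⟩
      · exact r
      · omega
    · rcases q3 with ⟨_, r⟩ | ⟨r, -⟩
      · exact r
      · omega
    · rcases q2 with ⟨_, r⟩ | ⟨r, -⟩
      · exact r
      · omega
  · right
    refine ⟨?_, ?_, ?_, ?_, r4, r5⟩
    · rcases q0 with ⟨r, -⟩ | ⟨_, r⟩
      · omega
      · exact r
    · rcases q1 with ⟨r, -⟩ | ⟨_, r⟩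
      · omega
      · exact r
    · rcases q3 with ⟨r, -⟩ | ⟨_, r⟩
      · omega
      · exact r
    · rcases q2 with ⟨r, -⟩ | ⟨_, r⟩
      · omega
      · exact r

/-- MODULE NHC.  The closing by a square.

Proof.  The graph `(hcS (rgS s), hcT (rgT t a) (rgA a ∘ (finRotate 4).symm))`: the vertices are `inl (inl v)`, the four vertices of a square
`n 0 = inl (inr 0)`, `n 1 = inl (inr 1)` (joined to `a 0`, `a 1`), and `n 3 = inr 0` (joined to `a 3` and `n 0`), `n 2 = inr 1` (joined to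
`n 1` and `a 2`); note `(rgA a ∘ (finRotate 4).symm) = ![inl (a 3), inr 0, inr 1, inl (a 2)]`.
For a set `W` of vertices, `U'` its part in `V`, `δ = cs s t U'`, `p i = [a i ∈ U']`, `q i = [n i ∈ W]`: `cs W = δ + ∑ [p i ≠ q i] + ∑ [q i ≠ q (i + 1)]`
(`cs_hc`, `cs_rg`).  The facts about `δ`, `p` are as in `NW.rung` (`p1`, `p2` for `U'` and for its complement).
`LL`, degrees: `P3.pd_rung_inl`, `P3.pd_rung_inr`, `P3.pd_perm`, `deg_hc_inl`, `deg_hc_inr`.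
`Con`: `q = 0`: `cs W = cu U' ≥ k` (`U'` is nonempty); `q = 1`: the same for the complements.  Otherwise `∑ [q i ≠ q (i + 1)] ≥ 2`, which is enough
for `k ≤ 2`; for `k = 3` one needs `δ + ∑ [p i ≠ q i] ≥ 1`: if not, `δ = 0`, `p = q`, and `U'` or its complement contradicts `p1`.
`nc ≤ 2 m`: let `W` be nontrivial, `cs W = k`.  If `q` is not constant, then: `k = 1` impossible; `k = 2`: `δ = 0`, `p = q`: contradiction to `p1`
(`∑ q = 1` or `3`) or `p2` (`∑ q = 2`); `k = 3`: `δ + ∑ [p i ≠ q i] = 1`, and `q` is an arc with `1`, `2` or `3` elements.  `∑ q = 1`: if `U'` is empty,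
`W.ncard = 1`; else `p = q`, `δ = 1`: `cu U' = 2`; or `δ = 0`, `p` differs from `q` at one place: `cu U' = 0` or `2`: contradiction to `p1`.  `∑ q = 3`:
the complements.  `∑ q = 2`: `p = q`, `δ = 1`: `cu U' = 3`, contradiction to `p2`; `δ = 0`, `∑ p = 1` or `3`: contradiction to `p1` for `U'` or for its
complement.  So `q` is constant: `W = U'` with `2 ≤ U'.ncard`, `cu U' = k`, or the complement of such a set: at most `2 m` sets.
Planarity: `PL3.plN_rung`, `PL3.plN_rot` three times, `pl_hc`. -/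
theorem NW.closing (hk : 1 ≤ k) (hk3 : k ≤ 3) (h : NW b k m s t a) :
    LL (hcS (rgS s)) (hcT (rgT t a) (rgA a ∘ (finRotate 4).symm)) ∧
    (∀ v, deg (hcS (rgS s)) (hcT (rgT t a) (rgA a ∘ (finRotate 4).symm)) v = 3) ∧
    Con (hcS (rgS s)) (hcT (rgT t a) (rgA a ∘ (finRotate 4).symm)) k ∧
    nc (hcS (rgS s)) (hcT (rgT t a) (rgA a ∘ (finRotate 4).symm)) k ≤ 2 * m := by
  classical
  obtain ⟨b0, b1, b2, b3⟩ := NHC_b a
  refine ⟨?_, ?_, fun W h1 h2 => ?_, ?_⟩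
  · rintro (e | i)
    · rcases e with e | i
      · exact fun h1 => h.ll e (Sum.inl_injective (Sum.inl_injective h1))
      · fin_cases i
        · exact fun h1 => Sum.inr_ne_inl (Sum.inl_injective h1)
        · exact fun h1 => Sum.inr_ne_inl (Sum.inl_injective h1)
        · exact fun h1 => absurd (Sum.inr_injective (Sum.inl_injective h1)) (by decide)
    · fin_cases i
      · exact fun h1 => Sum.inr_ne_inl h1
      · exact fun h1 => Sum.inr_ne_inl h1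
      · exact fun h1 => Sum.inr_ne_inl h1
      · exact fun h1 => Sum.inr_ne_inl h1
      · exact fun h1 => absurd (Sum.inr_injective h1) (by decide)
  · rintro (v | j)
    · rw [deg_hc_inl, pd_perm]
      rcases v with v | j
      · rw [pd_rung_inl]
        exact h.pd3 v
      · exact pd_rung_inr s t a j
    · exact deg_hc_inr _ _ _ j
  · have h3 : Wᶜ.Nonempty := Set.nonempty_compl.2 h2
    exact (NHC_key hk hk3 h W).1 ((Set.ncard_pos (Set.toFinite _)).2 h1) ((Set.ncard_pos (Set.toFinite _)).2 h3)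
  · have hp := h.p3
    unfold nc
    have hsub : {W : Set ((V ⊕ Fin 2) ⊕ Fin 2) | 2 ≤ W.ncard ∧ 2 ≤ Wᶜ.ncard ∧
        cs (hcS (rgS s)) (hcT (rgT t a) (rgA a ∘ (finRotate 4).symm)) W = k} ⊆
        {W | (Sum.inl (Sum.inr 0) ∉ W ∧ Sum.inl (Sum.inr 1) ∉ W ∧ Sum.inr 0 ∉ W ∧ Sum.inr 1 ∉ W) ∧
          (Sum.inl ⁻¹' (Sum.inl ⁻¹' W : Set (V ⊕ Fin 2)) : Set V) ∈
            {U : Set V | 2 ≤ U.ncard ∧ cu s t a U = k}} ∪
        {W | (Sum.inl (Sum.inr 0) ∈ W ∧ Sum.inl (Sum.inr 1) ∈ W ∧ Sum.inr 0 ∈ W ∧ Sum.inr 1 ∈ W) ∧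
          (Sum.inl ⁻¹' (Sum.inl ⁻¹' W : Set (V ⊕ Fin 2)) : Set V)ᶜ ∈
            {U : Set V | 2 ≤ U.ncard ∧ cu s t a U = k}} := by
      rintro W ⟨h1, h2, h3⟩
      rcases (NHC_key hk hk3 h W).2 h1 h2 h3 with ⟨r0, r1, r2, r3, r4⟩ | ⟨r0, r1, r2, r3, r4⟩
      · exact Or.inl ⟨⟨r0, r1, r2, r3⟩, r4⟩
      · exact Or.inr ⟨⟨r0, r1, r2, r3⟩, r4⟩
    refine (Set.ncard_le_ncard hsub (Set.toFinite _)).trans ((Set.ncard_union_le _ _).trans ?_)
    rw [two_mul]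
    refine add_le_add ?_ ?_
    · refine le_trans ?_ hp
      refine Set.ncard_le_ncard_of_injOn (fun W => (Sum.inl ⁻¹' (Sum.inl ⁻¹' W : Set (V ⊕ Fin 2)) : Set V))
        (fun W hW => hW.2) ?_ (Set.toFinite _)
      rintro W ⟨⟨h1, h2, h3, h4⟩, -⟩ W' ⟨⟨h1', h2', h3', h4'⟩, -⟩ h5
      ext x
      rcases x with x | j
      · rcases x with v | j
        · exact Set.ext_iff.1 h5 v
        · fin_cases j
          · exact ⟨fun h6 => absurd h6 h1, fun h6 => absurd h6 h1'⟩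
          · exact ⟨fun h6 => absurd h6 h2, fun h6 => absurd h6 h2'⟩
      · fin_cases j
        · exact ⟨fun h6 => absurd h6 h3, fun h6 => absurd h6 h3'⟩
        · exact ⟨fun h6 => absurd h6 h4, fun h6 => absurd h6 h4'⟩
    · refine le_trans ?_ hp
      refine Set.ncard_le_ncard_of_injOn (fun W => (Sum.inl ⁻¹' (Sum.inl ⁻¹' W : Set (V ⊕ Fin 2)) : Set V)ᶜ)
        (fun W hW => hW.2) ?_ (Set.toFinite _)
      rintro W ⟨⟨h1, h2, h3, h4⟩, -⟩ W' ⟨⟨h1', h2', h3', h4'⟩, -⟩ h5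
      have h7 := compl_injective h5
      ext x
      rcases x with x | j
      · rcases x with v | j
        · exact Set.ext_iff.1 h7 v
        · fin_cases j
          · exact ⟨fun _ => h1', fun _ => h1⟩
          · exact ⟨fun _ => h2', fun _ => h2⟩
      · fin_cases j
        · exact ⟨fun _ => h3', fun _ => h3⟩
        · exact ⟨fun _ => h4', fun _ => h4⟩

end Pool.Agent.Prm3
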