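import Pool.Agent.Prm3.Unc

/-!
# An edge is opened: graphs with four ports
-/

set_option autoImplicit false

open scoped BigOperators

namespace Pool.Agent.Prm3

open Pool.Agent.KG Pool.Agent.P3 Pool.Agent.PL3

variable {V E : Type}

private theorem OPE_third [Fintype V] [Fintype E] (s t : E → V) (hl : LL s t) (v : V)
    (h3 : deg s t v = 3) (x y : E) (hxy : x ≠ y) (hx : s x = v ∨ t x = v) (hy : s y = v ∨ t y = v) :
    ∃ z, z ≠ x ∧ z ≠ y ∧ (s z = v ∨ t z = v) ∧
      ∀ w, (s w = v ∨ t w = v) → w = x ∨ w = y ∨ w = z := by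
  classical
  have hcard : (Finset.univ.filter (fun e => s e = v ∨ t e = v)).card = 3 := by
    have h1 : {e | s e = v ∨ t e = v}.ncard = 3 := by
      have h2 : {e | s e = v ∨ t e = v} = {e | s e = v} ∪ {e | t e = v} := rfl
      rw [h2, Set.ncard_union_eq, ← h3]
      · rfl
      · rw [Set.disjoint_left]
        intro e h3 h4
        exact hl e (h3.trans h4.symm)
    rw [← h1, Set.ncard_eq_toFinset_card']
    congr 1
    ext e
    simp
  have hxF : x ∈ Finset.univ.filter (fun e => s e = v ∨ t e = v) :=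
    Finset.mem_filter.2 ⟨Finset.mem_univ _, hx⟩
  have hyF : y ∈ (Finset.univ.filter (fun e => s e = v ∨ t e = v)).erase x :=
    Finset.mem_erase.2 ⟨hxy.symm, Finset.mem_filter.2 ⟨Finset.mem_univ _, hy⟩⟩
  have hc1 : (((Finset.univ.filter (fun e => s e = v ∨ t e = v)).erase x).erase y).card = 1 := by
    rw [Finset.card_erase_of_mem hyF, Finset.card_erase_of_mem hxF, hcard]
  obtain ⟨z, hz⟩ := Finset.card_eq_one.1 hc1
  have hzm : z ∈ ((Finset.univ.filter (fun e => s e = v ∨ t e = v)).erase x).erase y := by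
    rw [hz]; exact Finset.mem_singleton_self z
  rw [Finset.mem_erase, Finset.mem_erase, Finset.mem_filter] at hzm
  refine ⟨z, hzm.2.1, hzm.1, hzm.2.2.2, ?_⟩
  intro w hw
  by_contra hno
  push Not at hno
  have hwm : w ∈ ((Finset.univ.filter (fun e => s e = v ∨ t e = v)).erase x).erase y :=
    Finset.mem_erase.2 ⟨hno.2.1, Finset.mem_erase.2 ⟨hno.1, Finset.mem_filter.2
      ⟨Finset.mem_univ _, hw⟩⟩⟩
  rw [hz, Finset.mem_singleton] at hwm
  exact hno.2.2 hwm

private theorem OPE_only [Fintype E] (s t : E → V) (e : E) (v1 v2 : V)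
    (he : (s e = v1 ∧ t e = v2) ∨ (s e = v2 ∧ t e = v1)) (h1 : dv s t v1 {v2} = 1) (x : E)
    (hx : (s x = v1 ∧ t x = v2) ∨ (s x = v2 ∧ t x = v1)) : x = e := by
  classical
  by_contra hne
  have hpt : ∀ y : E, ((s y = v1 ∧ t y = v2) ∨ (s y = v2 ∧ t y = v1)) →
      1 ≤ ((if s y = v1 ∧ t y ∈ ({v2} : Set V) then 1 else 0) +
        if t y = v1 ∧ s y ∈ ({v2} : Set V) then 1 else 0) := by
    intro y hy
    rcases hy with ⟨h2, h3⟩ | ⟨h2, h3⟩
    · rw [if_pos ⟨h2, h3⟩]; omega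
    · have h4 : t y = v1 ∧ s y ∈ ({v2} : Set V) := ⟨h3, h2⟩
      rw [if_pos h4]; omega
  have h2 : ∑ y ∈ ({x, e} : Finset E), ((if s y = v1 ∧ t y ∈ ({v2} : Set V) then 1 else 0) +
        if t y = v1 ∧ s y ∈ ({v2} : Set V) then 1 else 0) ≤ 1 := by
    refine le_trans ?_ (le_of_eq h1)
    unfold dv
    refine (Finset.sum_le_sum_of_subset (Finset.subset_univ _)).trans (le_of_eq ?_)
    refine Finset.sum_congr rfl fun y _ => ?_
    congr 1
  rw [Finset.sum_pair hne] at h2
  have h3 := hpt x hx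
  have h4 := hpt e he
  omega

/-- MODULE OPE.  The edge `e` from `v₁` to `v₂` and its two ends are taken out.

Proof.  Compare `P3.exists_ports` (P3/Ind.lean).  `V' = {u // u ≠ v₁ ∧ u ≠ v₂}`, `E' = {x // x is not an edge at v₁ or v₂}`, `s'`, `t'` the
restrictions.  The edges at `v₁` are `e`, `f₀` and one more edge `f₁` (degree `3`, no loops), those at `v₂` are `e`, `f₂`, `f₃`.  As
`dv v₁ {v₂} = 1`, `e` is the only edge between `v₁` and `v₂`, so `f₀`, `f₁`, `f₂`, `f₃` are different and have the other ends in `V'`: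
these are `a 0`, …, `a 3`.  `f`, `g` are the obvious bijections (`g (inr k) = f_k`, `g (inr 4) = e`). -/
theorem exists_open [Fintype V] [Fintype E] (s t : E → V) (hl : LL s t) (h3 : ∀ v, deg s t v = 3) (e : E)
    (v1 v2 : V) (hne : v1 ≠ v2) (he : (s e = v1 ∧ t e = v2) ∨ (s e = v2 ∧ t e = v1)) (h1 : dv s t v1 {v2} = 1)
    (f0 f2 : E) (hf0 : f0 ≠ e) (hf0' : s f0 = v1 ∨ t f0 = v1) (hf2 : f2 ≠ e) (hf2' : s f2 = v2 ∨ t f2 = v2) :
    ∃ (V' E' : Type) (_ : Fintype V') (_ : Fintype E') (s' t' : E' → V') (a : Fin 4 → V')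
      (f : V' ⊕ Fin 2 ≃ V) (g : E' ⊕ Fin 5 ≃ E), LL s' t' ∧ f (Sum.inr 0) = v1 ∧ f (Sum.inr 1) = v2 ∧
      g (Sum.inr 0) = f0 ∧ g (Sum.inr 2) = f2 ∧ g (Sum.inr 4) = e ∧
      (∀ x, s (g (Sum.inl x)) = f (Sum.inl (s' x)) ∧ t (g (Sum.inl x)) = f (Sum.inl (t' x))) ∧
      ∀ o, (s (g o) = f (hcS s' o) ∧ t (g o) = f (hcT t' a o)) ∨
        (s (g o) = f (hcT t' a o) ∧ t (g o) = f (hcS s' o)) := by
  classical
  have he1 : s e = v1 ∨ t e = v1 := he.elim (fun h => Or.inl h.1) (fun h => Or.inr h.2)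
  have he2 : s e = v2 ∨ t e = v2 := he.elim (fun h => Or.inr h.2) (fun h => Or.inl h.1)
  obtain ⟨f1, hf10, hf1e, hf1', hall1⟩ := OPE_third s t hl v1 (h3 v1) f0 e hf0 hf0' he1
  obtain ⟨f3, hf32, hf3e, hf3', hall2⟩ := OPE_third s t hl v2 (h3 v2) f2 e hf2 hf2' he2
  -- the only common edge of `v1` and `v2` is `e`
  have hcom : ∀ x, (s x = v1 ∨ t x = v1) → (s x = v2 ∨ t x = v2) → x = e := by
    intro x hx hx'
    refine OPE_only s t e v1 v2 he h1 x ?_
    rcases hx with hx | hx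
    · rcases hx' with hx' | hx'
      · exact absurd (hx.symm.trans hx') hne
      · exact Or.inl ⟨hx, hx'⟩
    · rcases hx' with hx' | hx'
      · exact Or.inr ⟨hx', hx⟩
      · exact absurd (hx.symm.trans hx') hne
  -- the other ends
  have hot1 : ∀ x, (s x = v1 ∨ t x = v1) → x ≠ e →
      (if s x = v1 then t x else s x) ≠ v1 ∧ (if s x = v1 then t x else s x) ≠ v2 := by
    intro x hx hxe
    by_cases h2 : s x = v1
    · rw [if_pos h2]
      exact ⟨fun h4 => hl x (h2.trans h4.symm), fun h4 => hxe (hcom x hx (Or.inr h4))⟩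
    · rw [if_neg h2]
      exact ⟨h2, fun h4 => hxe (hcom x hx (Or.inl h4))⟩
  have hot2 : ∀ x, (s x = v2 ∨ t x = v2) → x ≠ e →
      (if s x = v2 then t x else s x) ≠ v1 ∧ (if s x = v2 then t x else s x) ≠ v2 := by
    intro x hx hxe
    by_cases h2 : s x = v2
    · rw [if_pos h2]
      exact ⟨fun h4 => hxe (hcom x (Or.inr h4) hx), fun h4 => hl x (h2.trans h4.symm)⟩
    · rw [if_neg h2]
      exact ⟨fun h4 => hxe (hcom x (Or.inl h4) hx), h2⟩
  let V' := {u : V // u ≠ v1 ∧ u ≠ v2}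
  let E' := {x : E // ¬ ((s x = v1 ∨ t x = v1) ∨ (s x = v2 ∨ t x = v2))}
  let s' : E' → V' := fun x => ⟨s x.1, fun h => x.2 (Or.inl (Or.inl h)),
    fun h => x.2 (Or.inr (Or.inl h))⟩
  let t' : E' → V' := fun x => ⟨t x.1, fun h => x.2 (Or.inl (Or.inr h)),
    fun h => x.2 (Or.inr (Or.inr h))⟩
  let a : Fin 4 → V' := ![⟨_, hot1 f0 hf0' hf0⟩, ⟨_, hot1 f1 hf1' hf1e⟩, ⟨_, hot2 f2 hf2' hf2⟩,
    ⟨_, hot2 f3 hf3' hf3e⟩]
  let fv : Fin 2 → V := ![v1, v2]
  let ge : Fin 5 → E := ![f0, f1, f2, f3, e]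
  have hfvne : ∀ (u : V') (j : Fin 2), u.1 ≠ fv j := by
    intro u j
    fin_cases j
    · exact u.2.1
    · exact u.2.2
  have hfvinj : Function.Injective fv := by
    intro i j hij
    fin_cases i <;> fin_cases j
    · rfl
    · exact absurd hij hne
    · exact absurd hij hne.symm
    · rfl
  have hgein : ∀ j : Fin 5, (s (ge j) = v1 ∨ t (ge j) = v1) ∨ (s (ge j) = v2 ∨ t (ge j) = v2) := by
    intro j
    fin_cases j
    · exact Or.inl hf0'
    · exact Or.inl hf1'
    · exact Or.inr hf2'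
    · exact Or.inr hf3'
    · exact Or.inl he1
  have h02 : f0 ≠ f2 := fun h => hf0 (hcom f0 hf0' (h ▸ hf2'))
  have h03 : f0 ≠ f3 := fun h => hf0 (hcom f0 hf0' (h ▸ hf3'))
  have h12 : f1 ≠ f2 := fun h => hf1e (hcom f1 hf1' (h ▸ hf2'))
  have h13 : f1 ≠ f3 := fun h => hf1e (hcom f1 hf1' (h ▸ hf3'))
  have hgeinj : Function.Injective ge := by
    intro i j hij
    fin_cases i <;> fin_cases j
    · rfl
    · exact absurd hij hf10.symm
    · exact absurd hij h02
    · exact absurd hij h03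
    · exact absurd hij hf0
    · exact absurd hij hf10
    · rfl
    · exact absurd hij h12
    · exact absurd hij h13
    · exact absurd hij hf1e
    · exact absurd hij h02.symm
    · exact absurd hij h12.symm
    · rfl
    · exact absurd hij hf32.symm
    · exact absurd hij hf2
    · exact absurd hij h03.symm
    · exact absurd hij h13.symm
    · exact absurd hij hf32
    · rfl
    · exact absurd hij hf3e
    · exact absurd hij hf0.symm
    · exact absurd hij hf1e.symm
    · exact absurd hij hf2.symm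
    · exact absurd hij hf3e.symm
    · rfl
  have hf : Function.Bijective (Sum.elim Subtype.val fv : V' ⊕ Fin 2 → V) := by
    constructor
    · rintro (x | x) (y | y) hxy
      · exact congrArg _ (Subtype.ext hxy)
      · exact absurd hxy (hfvne x y)
      · exact absurd hxy.symm (hfvne y x)
      · exact congrArg _ (hfvinj hxy)
    · intro u
      by_cases hu1 : u = v1
      · exact ⟨Sum.inr 0, hu1.symm⟩
      · by_cases hu2 : u = v2
        · exact ⟨Sum.inr 1, hu2.symm⟩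
        · exact ⟨Sum.inl ⟨u, hu1, hu2⟩, rfl⟩
  have hg : Function.Bijective (Sum.elim Subtype.val ge : E' ⊕ Fin 5 → E) := by
    constructor
    · rintro (x | x) (y | y) hxy
      · exact congrArg _ (Subtype.ext hxy)
      · have h4 : x.1 = ge y := hxy
        exact absurd (h4 ▸ hgein y) x.2
      · have h4 : ge x = y.1 := hxy
        exact absurd (h4 ▸ hgein x) y.2
      · exact congrArg _ (hgeinj hxy)
    · intro x
      by_cases hx1 : s x = v1 ∨ t x = v1
      · rcases hall1 x hx1 with h4 | h4 | h4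
        · exact ⟨Sum.inr 0, h4.symm⟩
        · exact ⟨Sum.inr 4, h4.symm⟩
        · exact ⟨Sum.inr 1, h4.symm⟩
      · by_cases hx2 : s x = v2 ∨ t x = v2
        · rcases hall2 x hx2 with h4 | h4 | h4
          · exact ⟨Sum.inr 2, h4.symm⟩
          · exact ⟨Sum.inr 4, h4.symm⟩
          · exact ⟨Sum.inr 3, h4.symm⟩
        · exact ⟨Sum.inl ⟨x, fun h => h.elim hx1 hx2⟩, rfl⟩
  have hend : ∀ (x : E) (v : V), (s x = v ∨ t x = v) →
      (s x = v ∧ t x = (if s x = v then t x else s x)) ∨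
      (s x = (if s x = v then t x else s x) ∧ t x = v) := by
    intro x v hx
    by_cases h4 : s x = v
    · left
      exact ⟨h4, by rw [if_pos h4]⟩
    · right
      exact ⟨by rw [if_neg h4], hx.resolve_left h4⟩
  refine ⟨V', E', inferInstance, inferInstance, s', t', a, Equiv.ofBijective _ hf,
    Equiv.ofBijective _ hg, ?_, rfl, rfl, rfl, rfl, rfl, fun x => ⟨rfl, rfl⟩, ?_⟩
  · intro x hx
    exact hl x.1 (congrArg Subtype.val hx)
  · rintro (x | k)
    · left
      exact ⟨rfl, rfl⟩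
    · fin_cases k
      · exact hend f0 v1 hf0'
      · exact hend f1 v1 hf1'
      · exact hend f2 v2 hf2'
      · exact hend f3 v2 hf3'
      · exact he

section

variable {V' E' : Type} [Fintype V] [Fintype E] [Fintype V'] [Fintype E'] (s t : E → V) (s' t' : E' → V')
  (a : Fin 4 → V') (f : V' ⊕ Fin 2 ≃ V) (g : E' ⊕ Fin 5 ≃ E)
  (h : ∀ o, (s (g o) = f (hcS s' o) ∧ t (g o) = f (hcT t' a o)) ∨
        (s (g o) = f (hcT t' a o) ∧ t (g o) = f (hcS s' o)))

include h

/-- MODULE OPA (1).  `cs_key`, `cs_hc` for the set `Sum.inl '' U` (`Sum.inl ⁻¹' (Sum.inl '' U) = U`). -/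
theorem cu_open (U : Set V') : cu s' t' a U = cs s t (f '' (Sum.inl '' U)) := by
  classical
  rw [← cs_key f g s t (hcS s') (hcT t' a) h, cs_hc]
  have h1 : (Sum.inl ⁻¹' (Sum.inl '' U : Set (V' ⊕ Fin 2))) = U :=
    Set.preimage_image_eq U Sum.inl_injective
  have h2 : ∀ j : Fin 2, (Sum.inr j : V' ⊕ Fin 2) ∉ (Sum.inl '' U : Set (V' ⊕ Fin 2)) := by
    rintro j ⟨x, _, hx⟩
    exact Sum.inl_ne_inr hx
  have h3 : ∀ v : V', (Sum.inl v : V' ⊕ Fin 2) ∈ (Sum.inl '' U : Set (V' ⊕ Fin 2)) ↔ v ∈ U := by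
    intro v
    constructor
    · rintro ⟨x, hx, hxv⟩
      rwa [← Sum.inl_injective hxv]
    · intro hv
      exact ⟨v, hv, rfl⟩
  rw [h1]
  simp only [h2, h3, false_iff, iff_self, if_true, add_zero]
  unfold cu pc
  rw [Fin.sum_univ_four]
  have h4 : ∀ v : V', (if ¬ v ∈ U then 0 else 1) = if v ∈ U then 1 else 0 := by
    intro v
    split_ifs <;> simp_all
  simp only [h4, add_assoc]

/-- MODULE OPA (2).  `dv_key`; the edges of `hcS`, `hcT` at `inr 0` are the edges `inr 0`, `inr 1`, `inr 4`, those at `inr 1` are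
`inr 2`, `inr 3`, `inr 4`. -/
theorem pc_open (U : Set V') :
    pc a U = dv s t (f (Sum.inr 0)) (f '' (Sum.inl '' U)) + dv s t (f (Sum.inr 1)) (f '' (Sum.inl '' U)) := by
  classical
  rw [← dv_key f g s t (hcS s') (hcT t' a) h, ← dv_key f g s t (hcS s') (hcT t' a) h]
  have h2 : ∀ j : Fin 2, (Sum.inr j : V' ⊕ Fin 2) ∉ (Sum.inl '' U : Set (V' ⊕ Fin 2)) := by
    rintro j ⟨x, _, hx⟩
    exact Sum.inl_ne_inr hx
  have h3 : ∀ v : V', (Sum.inl v : V' ⊕ Fin 2) ∈ (Sum.inl '' U : Set (V' ⊕ Fin 2)) ↔ v ∈ U := by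
    intro v
    constructor
    · rintro ⟨x, hx, hxv⟩
      rwa [← Sum.inl_injective hxv]
    · intro hv
      exact ⟨v, hv, rfl⟩
  unfold pc dv
  rw [Fintype.sum_sum_type, Fintype.sum_sum_type, Fin.sum_univ_four, Fin.sum_univ_five, Fin.sum_univ_five]
  simp [hcS, hcT, h2, h3]
  ring

/-- MODULE OPB.  The invariants of the opened graph.

Proof.  `pd3`: `deg_key`, `deg_hc_inl`.  `p1`: `cu_open`, `hc` (the set is nonempty and does not contain `f (inr 0)`).  `p2`: `cu_open`,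
`pc_open`, `two_ports`.  `p3` and the inequality: the sets `f '' (inl '' U)` with `2 ≤ U.ncard`, `cs = k` and their complements are
nontrivial cuts with `k` edges; the former contain none of `v₁`, `v₂`, the latter contain both, and `S`, `Sᶜ` contain exactly one of
them: so twice the number of the `U` plus `2` is at most `nc s t k` (disjoint union of images under injective maps). -/
theorem open_nw (b : Bool) (hl : LL s t) (hl' : LL s' t') (h3 : ∀ v, deg s t v = 3) (k : ℕ) (hk : 1 ≤ k) (hk3 : k ≤ 3)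
    (hc : Con s t k) (S : Set V) (hS : cs s t S = k) (h2 : 2 ≤ S.ncard) (h2' : 2 ≤ Sᶜ.ncard)
    (h1 : f (Sum.inr 0) ∈ S) (hv2 : f (Sum.inr 1) ∉ S) (hp : b = true → PlN s' t' a) :
    ∃ m, 2 * m + 2 ≤ nc s t k ∧ NW b k m s' t' a := by
  classical
  obtain ⟨φ, hφ⟩ : ∃ φ : Set V' → Set V, ∀ U, φ U = f '' (Sum.inl '' U) := ⟨_, fun _ => rfl⟩
  have hφi : Function.Injective φ := by
    intro U U' hUU'
    rw [hφ, hφ] at hUU'
    exact Set.image_injective.2 Sum.inl_injective (Set.image_injective.2 f.injective hUU')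
  have hcu : ∀ U : Set V', cu s' t' a U = cs s t (φ U) := fun U => by
    rw [hφ]
    exact cu_open s t s' t' a f g h U
  have hno : ∀ (U : Set V') (j : Fin 2), f (Sum.inr j) ∉ φ U := by
    intro U j hj
    rw [hφ] at hj
    obtain ⟨x, ⟨y, _, rfl⟩, hx⟩ := hj
    exact Sum.inl_ne_inr (f.injective hx)
  have hcard : ∀ U : Set V', (φ U).ncard = U.ncard := by
    intro U
    rw [hφ, Set.ncard_image_of_injective _ f.injective, Set.ncard_image_of_injective _ Sum.inl_injective]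
  have hne12 : f (Sum.inr 0) ≠ f (Sum.inr 1) := fun h => hv2 (h ▸ h1)
  have hcompl : ∀ U : Set V', 2 ≤ (φ U)ᶜ.ncard := by
    intro U
    rw [← Set.ncard_pair hne12]
    refine Set.ncard_le_ncard ?_ (Set.toFinite _)
    rintro x hx
    rcases hx with rfl | hx
    · exact hno U 0
    · rw [Set.mem_singleton_iff] at hx
      rw [hx]
      exact hno U 1
  obtain ⟨A, hA⟩ : ∃ A : Set (Set V'), A = {U : Set V' | 2 ≤ U.ncard ∧ cu s' t' a U = k} := ⟨_, rfl⟩
  refine ⟨A.ncard, ?_, ?_⟩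
  · have hX1 : (φ '' A).ncard = A.ncard := Set.ncard_image_of_injective A hφi
    have hX2 : ((fun U => (φ U)ᶜ) '' A).ncard = A.ncard :=
      Set.ncard_image_of_injective A (compl_injective.comp hφi)
    have hSS : S ≠ Sᶜ := fun hh => hv2 (by
      have h4 : f (Sum.inr 0) ∈ Sᶜ := hh ▸ h1
      exact absurd h1 h4)
    have hX3 : ({S, Sᶜ} : Set (Set V)).ncard = 2 := Set.ncard_pair hSS
    have d12 : Disjoint (φ '' A) ((fun U => (φ U)ᶜ) '' A) := by
      rw [Set.disjoint_left]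
      rintro _ ⟨U, _, rfl⟩ ⟨U', _, hU'⟩
      have h4 : f (Sum.inr 0) ∈ φ U := by
        rw [← hU']
        exact hno U' 0
      exact hno U 0 h4
    have d3 : Disjoint (φ '' A ∪ (fun U => (φ U)ᶜ) '' A) ({S, Sᶜ} : Set (Set V)) := by
      rw [Set.disjoint_left]
      rintro W hW hW'
      have h5 : (f (Sum.inr 0) ∈ W ↔ f (Sum.inr 1) ∈ W) := by
        rcases hW with ⟨U, _, rfl⟩ | ⟨U, _, rfl⟩
        · exact iff_of_false (hno U 0) (hno U 1)
        · exact iff_of_true (hno U 0) (hno U 1)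
      rcases hW' with rfl | hW'
      · exact hv2 (h5.1 h1)
      · rw [Set.mem_singleton_iff] at hW'
        rw [hW'] at h5
        exact (h5.2 hv2) h1
    have hsub : (φ '' A ∪ (fun U => (φ U)ᶜ) '' A) ∪ ({S, Sᶜ} : Set (Set V)) ⊆
        {U : Set V | 2 ≤ U.ncard ∧ 2 ≤ Uᶜ.ncard ∧ cs s t U = k} := by
      rintro W ((⟨U, hU, rfl⟩ | ⟨U, hU, rfl⟩) | hW)
      · rw [hA] at hU
        exact ⟨by rw [hcard]; exact hU.1, hcompl U, by rw [← hcu]; exact hU.2⟩
      · rw [hA] at hU
        refine ⟨hcompl U, ?_, ?_⟩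
        · show 2 ≤ (φ U)ᶜᶜ.ncard
          rw [compl_compl, hcard]
          exact hU.1
        · show cs s t (φ U)ᶜ = k
          rw [cs_compl, ← hcu]
          exact hU.2
      · rcases hW with rfl | hW
        · exact ⟨h2, h2', hS⟩
        · rw [Set.mem_singleton_iff] at hW
          rw [hW]
          exact ⟨h2', by rw [compl_compl]; exact h2, by rw [cs_compl]; exact hS⟩
    have h6 := Set.ncard_le_ncard hsub (Set.toFinite _)
    rw [Set.ncard_union_eq d3 (Set.toFinite _) (Set.toFinite _),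
      Set.ncard_union_eq d12 (Set.toFinite _) (Set.toFinite _), hX1, hX2, hX3] at h6
    unfold nc
    omega
  · refine ⟨hl', fun v => ?_, fun U hU => ?_, fun U hU hpc => ?_, ?_, hp⟩
    · rw [← deg_hc_inl, deg_key f g s t (hcS s') (hcT t' a) h]
      exact h3 _
    · rw [hcu]
      refine hc _ ?_ fun hu => ?_
      · rw [hφ]
        exact (hU.image _).image _
      · exact hno U 0 (hu ▸ Set.mem_univ _)
    · rw [hcu]
      refine two_ports s t hl h3 k hk hk3 hc S hS h2 h2' (g (Sum.inr 4)) (f (Sum.inr 0)) (f (Sum.inr 1)) ?_ h1 hv2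
        (φ U) ?_ (hno U 0) (hno U 1) ?_
      · exact h (Sum.inr 4)
      · rw [hφ]
        exact (hU.image _).image _
      · rw [hφ, ← pc_open s t s' t' a f g h U]
        exact hpc
    · rw [hA]

end

end Pool.Agent.Prm3
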