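import Pool.Agent.Prm3.Erw
import Pool.Agent.Prm3.Grw

/-!
# More rows
-/

set_option autoImplicit false

open scoped BigOperators

namespace Pool.Agent.Prm3

open Pool.Agent.KG Pool.Agent.P3 Pool.Agent.PL3

variable {K : Type} [Field K] [Fintype K]

/-- MODULE IDA.

Proof.  As `PL3.Bx_Bs` (PL3/PIb): for each `r`, `y0`, `y1` the sum `∑ β, T r y0 y1 β B` is `q * T r y0 y1 0 B` by `T_indep`, except for
`r ≠ 0`, `(y0, y1) = (0, r)`, where `T r 0 r β = P2 (r + β)` (`T_P2`), and `r ≠ 0`, `(y0, y1) = (-r, 0)`, where `T r (-r) 0 β = B3 β`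
(`T_B3`).  So `Bp - q Bs` is the sum over `r ≠ 0` of `(∑ c, P2 c) - q P2 r` and `(∑ c, B3 c) - q B3 0`; `sumC`: together
`(q ∑ P2 - q ∑ P2) - (∑ P2 - q P2 0) + (q - 1) (B3s - q B3 0) = - gm + (q - 1) bt`. -/
theorem Bp_eq (B : Set (Pt K)) : Bp B = qK K * Bs B + (qK K - 1) * bt B - gm B := by
  classical
  have h1 : ∀ r y0 y1 : K, ∑ β : K, T r y0 y1 β B - qK K * T r y0 y1 0 B =
      (if r ≠ 0 ∧ y0 = (fun _ => 0 : K → K) r ∧ y1 = (fun r => r : K → K) r then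
        ∑ c : K, P2 c B - qK K * P2 r B else 0) +
      (if r ≠ 0 ∧ y0 = (fun r => -r : K → K) r ∧ y1 = (fun _ => 0 : K → K) r then
        ∑ c : K, B3 c B - qK K * B3 0 B else 0) := by
    intro r y0 y1
    show _ = (if r ≠ 0 ∧ y0 = 0 ∧ y1 = r then _ else 0) + (if r ≠ 0 ∧ y0 = -r ∧ y1 = 0 then _ else 0)
    by_cases h2 : r ≠ 0 ∧ y0 = 0 ∧ y1 = r
    · obtain ⟨hr, rfl, rfl⟩ := h2
      rw [if_pos ⟨hr, rfl, rfl⟩, if_neg (fun h3 => hr h3.2.2), add_zero]
      simp only [T_P2 _ _ hr]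
      rw [add_zero]
      have h4 : ∑ β : K, P2 (y1 + β) B = ∑ c : K, P2 c B :=
        Fintype.sum_equiv (Equiv.addLeft y1) _ _ fun _ => rfl
      rw [h4]
    · rw [if_neg h2, zero_add]
      by_cases h3 : r ≠ 0 ∧ y0 = -r ∧ y1 = 0
      · obtain ⟨hr, rfl, rfl⟩ := h3
        rw [if_pos ⟨hr, rfl, rfl⟩]
        simp only [T_B3 _ _ hr]
      · rw [if_neg h3]
        have h5 : r = 0 ∨ (¬ (y0 = 0 ∧ y1 = r) ∧ ¬ (y0 = -r ∧ y1 = 0)) := by
          by_cases hr : r = 0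
          · exact Or.inl hr
          · exact Or.inr ⟨fun h => h2 ⟨hr, h⟩, fun h => h3 ⟨hr, h⟩⟩
        have h6 : ∀ β : K, T r y0 y1 β B = T r y0 y1 0 B := fun β => T_indep r y0 y1 0 β h5 B
        simp only [h6]
        rw [const_sum]
        ring
  have h2 : Bp B - qK K * Bs B = ∑ r : K, ∑ y0 : K, ∑ y1 : K,
      (∑ β : K, T r y0 y1 β B - qK K * T r y0 y1 0 B) := by
    unfold Bs Bp
    simp only [Finset.sum_sub_distrib, Finset.mul_sum]
  have h3 := sumC (fun _ => 0 : K → K) (fun r => r : K → K)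
    (fun r => ∑ c : K, P2 c B - qK K * P2 r B)
  have h4 := sumC (fun r => -r : K → K) (fun _ => 0 : K → K)
    (fun _ => ∑ c : K, B3 c B - qK K * B3 0 B)
  simp only [h1, Finset.sum_add_distrib] at h2
  rw [h3, h4] at h2
  simp only [Finset.sum_sub_distrib, const_sum, ← Finset.mul_sum] at h2
  unfold bt gm B3s
  linear_combination h2

/-- MODULE IDB (1).  `PL3.R_B3s`, `PL3.R_B3` (`R (B3 0) = q² ∑ α, cf α 0 = q² H3`). -/
theorem R_bt (B : Set (Pt K)) : R bt B = qK K ^ 2 * PI B - qK K ^ 3 * H3 B := by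
  have h : (bt : Set (Pt K) → ℤ) = fun B => B3s B + (-(qK K)) * B3 0 B := by
    funext B
    unfold bt
    ring
  have h2 : ∑ α : K, cf α 0 B = H3 B := rfl
  rw [h, R_add, R_smul, R_B3s, R_B3, h2]
  ring

private theorem IDB_R2 (X : K → K → Set (Pt K) → ℤ) (B : Set (Pt K)) :
    R (fun B => ∑ a : K, ∑ b : K, X a b B) B = ∑ a : K, ∑ b : K, R (X a b) B := by
  rw [R_sum Finset.univ (fun (a : K) (B : Set (Pt K)) => ∑ b : K, X a b B) B]
  refine Finset.sum_congr rfl fun a _ => ?_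
  exact R_sum Finset.univ (fun (b : K) (B : Set (Pt K)) => X a b B) B

omit [Fintype K] in
private theorem IDB_mt00 : (P3.mt 0 0 : Matrix (Fin 4) (Fin 4) K) = 0 := by
  ext i j
  fin_cases i <;> fin_cases j <;> simp [P3.mt]

omit [Fintype K] in
private theorem IDB_gv0 (y0 y1 : K) :
    gv (0 : Matrix (Fin 4) (Fin 4) K) y0 y1 = ![y0, -y1, 0, 0] := by
  rw [← IDB_mt00, gv_mt, neg_zero]

private theorem IDB_ab (a b : K) (hab : a ≠ b) (B : Set (Pt K)) :
    R (G ![a, b, 0, 0] 0) B = qK K ^ 2 * H1 B := by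
  have hd : a - b ≠ 0 := sub_ne_zero.2 hab
  have h0 : ((![a, b, 0, 0] : Fin 4 → K) 0 - (![a, b, 0, 0] : Fin 4 → K) 1) ≠ 0 := hd
  rw [R_G _ _ (Matrix.isSymm_zero) h0 B]
  have h3 := lin1 (fun β => cf 0 β B) 0 (-((a - b)⁻¹ * b)) ((a - b)⁻¹ * a) (a * b) (by
    by_cases ha : a = 0
    · left
      have hb : b ≠ 0 := fun h => hab (ha.trans h.symm)
      exact neg_ne_zero.2 (mul_ne_zero (inv_ne_zero hd) hb)
    · right
      left
      exact mul_ne_zero (inv_ne_zero hd) ha)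
  have h4 : ∑ κ : K, (fun β => cf 0 β B) κ = H1 B := rfl
  rw [h4] at h3
  rw [← h3]
  refine Finset.sum_congr rfl fun y0 _ => Finset.sum_congr rfl fun y1 _ =>
    Finset.sum_congr rfl fun s _ => ?_
  rw [IDB_gv0]
  refine congrArg₂ (fun a b : K => cf a b B) ?_ ?_
  · show al 0 - (a - b)⁻¹ * ((y0 - -y1) * (0 - 0) + (a - b) * (0 - 0)) + s * ((a - b) * (0 - 0)) = _
    have h5 : al (0 : Matrix (Fin 4) (Fin 4) K) = 0 := by simp [al]
    rw [h5]
    ring
  · show be 0 - (a - b)⁻¹ * ((y0 - 0) * (b - 0) + (a - 0) * (-y1 - 0)) + s * ((a - 0) * (b - 0)) = _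
    have h5 : be (0 : Matrix (Fin 4) (Fin 4) K) = 0 := by simp [be]
    rw [h5]
    ring

/-- MODULE IDB (2).  `Ps = ∑ a, ∑ b, G ![a, b, 0, 0] 0`.  For `a ≠ b`: `P3.R_G`, the arguments of `cf` are `0` and
`- (a - b)⁻¹ (b y0 - a y1) + s a b`, `P3.lin1`: `q² H1`.  For `a = b ≠ 0`: `G ![a, a, 0, 0] 0 = p01 0` (`P3.G_smul`, `mt 0 0 = 0`). -/
theorem R_Ps (B : Set (Pt K)) :
    R Ps B = qK K ^ 3 * (qK K - 1) * H1 B + (qK K - 1) * R (p01 0) B := by
  classical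
  have h1 : R Ps B = ∑ a : K, ∑ b : K, R (G ![a, b, 0, 0] 0) B := IDB_R2 _ B
  have h2 : ∀ a b : K, R (G ![a, b, 0, 0] 0) B =
      qK K ^ 2 * H1 B - (if b = a then qK K ^ 2 * H1 B - R (p01 0) B else 0) -
        (if b = a then (if a = 0 then R (p01 0) B else 0) else 0) := by
    intro a b
    by_cases hab : b = a
    · subst hab
      rw [if_pos rfl, if_pos rfl]
      by_cases ha : b = 0
      · rw [if_pos ha, ha]
        have h3 : (G ![0, 0, 0, 0] 0 : Set (Pt K) → ℤ) = fun _ => 0 := by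
          funext B
          exact G_const _ ⟨0, fun k => by fin_cases k <;> rfl⟩ 0 B
        rw [h3]
        simp [R]
      · rw [if_neg ha]
        have h3 : (G ![b, b, 0, 0] 0 : Set (Pt K) → ℤ) = p01 0 := by
          funext B
          show _ = G ![1, 1, 0, 0] (P3.mt 0 0) B
          rw [IDB_mt00]
          exact G_smul b ha ![1, 1, 0, 0] ![b, b, 0, 0] (fun k => by fin_cases k <;> simp) 0 B
        rw [h3]
        ring
    · rw [if_neg hab, if_neg hab, IDB_ab a b (fun h => hab h.symm)]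
      ring
  rw [h1, Finset.sum_congr rfl fun a _ => Finset.sum_congr rfl fun b _ => h2 a b]
  simp only [Finset.sum_sub_distrib, Finset.sum_ite_eq', Finset.mem_univ, if_true, const_sum]
  ring

private theorem IDC_B3 (B : Set (Pt K)) : G ![0, 1, 1, 0] 0 B = B3 0 B := by
  show _ = G ![1, 0, 0, 1] (P3.mt 0 0) B
  rw [IDB_mt00, ← G_smul (-1) (neg_ne_zero.2 one_ne_zero) ![1, 0, 0, 1] ![-1, 0, 0, -1]
    (fun k => by fin_cases k <;> simp) 0 B]
  refine G_shift ![-1, 0, 0, -1] ![0, 1, 1, 0] 1 (fun k => by fin_cases k <;> simp) 0 0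
    0 0 0 0 0 (fun k l => ?_) B
  simp

/-- MODULE IDC (1).  As `PL3.X12_eq`, `PL3.R_X12` (PL3/PWord): the part of `Ps12` with `a`, `b`, `a - b` nonzero is `X12`,
`R X12 = q (q - 1) (q - 2) PI`; `R (G ![0, 1, 0, 0] 0) = q² H1` (`R_g1`), `R (G ![0, 0, 1, 0] 0) = R g2`, `R (G ![0, 1, 1, 0] 0) =
R (B3 0) = q² H3` (`![0, 1, 1, 0] = 1 - ![1, 0, 0, 1]`; `P3.G_smul`, `P3.G_shift`, `PL3.R_B3`). -/
theorem R_Ps12 (B : Set (Pt K)) :
    R Ps12 B = qK K * (qK K - 1) * (qK K - 2) * PI B +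
      (qK K - 1) * (qK K ^ 2 * (H1 B + H3 B) + R g2 B) := by
  have h : (Ps12 : Set (Pt K) → ℤ) = fun B => X12 B + (qK K - 1) * ((g1 B + g2 B) + B3 0 B) := by
    funext B
    have h1 := X12_eq B
    have h2 := IDC_B3 B
    rw [h2] at h1
    rw [h1]
    show Ps12 B = Ps12 B - (qK K - 1) * (G ![0, 1, 0, 0] 0 B + G ![0, 0, 1, 0] 0 B + B3 0 B) +
      (qK K - 1) * ((G ![0, 1, 0, 0] 0 B + G ![0, 0, 1, 0] 0 B) + B3 0 B)
    ring
  have h2 : ∑ α : K, cf α 0 B = H3 B := rfl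
  rw [h, R_add, R_smul, R_add, R_add, R_X12, R_B3, R_g1, h2]
  ring

/-- MODULE IDC (2).  Apply the reflection: `R_sg`, `sg_Ps12`, `sg_PI`, `sg_H1`, `sg_H3`, `sg g2 = g3` (`sg_G`). -/
theorem R_Ps30 (B : Set (Pt K)) :
    R Ps30 B = qK K * (qK K - 1) * (qK K - 2) * PI B +
      (qK K - 1) * (qK K ^ 2 * (H1 B + H3 B) + R g3 B) := by
  have h : (Ps30 : Set (Pt K) → ℤ) = sg Ps12 := by
    funext B
    exact (sg_Ps12 B).symm
  have h1 : R Ps30 B = R Ps12 (pm sw B) := by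
    rw [h, R_sg]
    rfl
  have h2 : R g2 (pm sw B) = R g3 B := by
    have h3 : R (sg g2) B = R g2 (pm sw B) := R_sg g2 B
    rw [← h3]
    have h4 : (sg g2 : Set (Pt K) → ℤ) = g3 := by
      funext B
      exact sg_G 0 0 1 0 B
    rw [h4]
  have h5 : PI (pm sw B) = PI B := sg_PI B
  have h6 : H1 (pm sw B) = H1 B := sg_H1 B
  have h7 : H3 (pm sw B) = H3 B := sg_H3 B
  rw [h1, R_Ps12, h2, h5, h6, h7]

/-- MODULE IDD (1).  `R_g3`, `R_g2`, `R_add`, `R_smul`, `R_sum`; for `x + y ≠ 0` `R_E` gives `q³ g3` (`G ![0, 0, 0, x + y] 0`, `G_smul`) and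
`q³ g2`; for `x + y = 0` both vectors are `![x, -x, 0, 0]` and the terms cancel.  There are `q (q - 1)` pairs with `x + y ≠ 0`. -/
theorem R_dT (B : Set (Pt K)) :
    R dT B = qK K ^ 2 * (qK K - 1) * dT B + qK K ^ 4 * (qK K - 1) * e1 B := by
  classical
  have h : (dT : Set (Pt K) → ℤ) = fun B => qK K ^ 2 * (qK K - 1) * e1 B +
      ∑ x : K, ∑ y : K, (fun B => E ![x, y, -(x + y), 0] B + (-1) * E ![x, y, 0, -(x + y)] B) B := by
    funext B
    unfold dT e1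
    rw [R_g3, R_g2]
    simp only [Finset.sum_add_distrib, ← Finset.mul_sum]
    ring
  have h1 : R dT B = qK K ^ 2 * (qK K - 1) * R e1 B +
      ∑ x : K, ∑ y : K, R (fun B => E ![x, y, -(x + y), 0] B +
        (-1) * E ![x, y, 0, -(x + y)] B) B := by
    rw [h, R_add, R_smul]
    refine congrArg₂ (· + ·) rfl ?_
    exact IDB_R2 (fun x y B => E ![x, y, -(x + y), 0] B + (-1) * E ![x, y, 0, -(x + y)] B) B
  have h2 : R e1 B = dT B := by
    have h3 : (e1 : Set (Pt K) → ℤ) = fun B => g3 B + (-1) * g2 B := by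
      funext B
      unfold e1
      ring
    rw [h3, R_add, R_smul]
    unfold dT
    ring
  have h3 : ∀ x y : K, R (fun B => E ![x, y, -(x + y), 0] B + (-1) * E ![x, y, 0, -(x + y)] B) B =
      qK K ^ 3 * e1 B - (if y = -x then qK K ^ 3 * e1 B else 0) := by
    intro x y
    by_cases hxy : y = -x
    · rw [if_pos hxy, sub_self]
      have h4 : -(x + y) = 0 := by rw [hxy]; ring
      rw [h4]
      have h5 : (fun B => E ![x, y, 0, 0] B + (-1) * E ![x, y, 0, 0] B : Set (Pt K) → ℤ) =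
          fun _ => 0 := by
        funext B
        ring
      rw [h5]
      simp [R]
    · rw [if_neg hxy, sub_zero]
      have hs : x + y ≠ 0 := fun h4 => hxy (eq_neg_of_add_eq_zero_right h4)
      rw [R_add, R_smul]
      have h4 := R_E ![x, y, -(x + y), 0] (by simp [Fin.sum_univ_four])
        (Or.inl (by simpa using fun h6 : -y + -x = 0 => hs (by linear_combination -h6))) B
      have h5 := R_E ![x, y, 0, -(x + y)] (by simp [Fin.sum_univ_four])
        (Or.inl (by simpa using fun h6 : -y + -x = 0 => hs (by linear_combination -h6))) B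
      have h6 : G ![0, 0, (![x, y, -(x + y), 0] : Fin 4 → K) 3,
          -(![x, y, -(x + y), 0] : Fin 4 → K) 2] 0 B = g3 B :=
        G_smul (x + y) hs ![0, 0, 0, 1] _ (fun k => by fin_cases k <;> simp) 0 B
      have h7 : G ![0, 0, (![x, y, 0, -(x + y)] : Fin 4 → K) 3,
          -(![x, y, 0, -(x + y)] : Fin 4 → K) 2] 0 B = g2 B :=
        G_smul (-(x + y)) (neg_ne_zero.2 hs) ![0, 0, 1, 0] _
          (fun k => by fin_cases k <;> simp) 0 B
      rw [h4, h5, h6, h7]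
      unfold e1
      ring
  rw [h1, h2, Finset.sum_congr rfl fun a _ => Finset.sum_congr rfl fun b _ => h3 a b]
  simp only [Finset.sum_sub_distrib, Finset.sum_ite_eq', Finset.mem_univ, if_true, const_sum]
  ring

/-- MODULE IDD (2).  `R_p010`, `R_E` for `![0, 0, 1, -1]`: `G ![0, 0, -1, -1] 0 = G ![1, 1, 0, 0] 0` (`G_shift`). -/
theorem RR_p010 (B : Set (Pt K)) :
    R (R (p01 0)) B = qK K ^ 2 * (qK K - 1) * R (p01 0) B + qK K ^ 4 * (qK K - 1) * p01 0 B := by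
  have h : (R (p01 0) : Set (Pt K) → ℤ) = fun B => qK K ^ 2 * (qK K - 1) * p01 0 B +
      qK K * (qK K - 1) * E ![0, 0, 1, -1] B := by
    funext B
    exact R_p010 B
  have h1 : R (R (p01 0)) B = qK K ^ 2 * (qK K - 1) * R (p01 0) B +
      qK K * (qK K - 1) * R (E ![0, 0, 1, -1]) B := by
    have h2 : R (R (p01 0)) B = R (fun B => qK K ^ 2 * (qK K - 1) * p01 0 B +
      qK K * (qK K - 1) * E ![0, 0, 1, -1] B) B := by rw [h]
    rw [h2, R_add, R_smul, R_smul]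
  have h2 := R_E ![0, 0, 1, -1] (by simp [Fin.sum_univ_four]) (Or.inr ⟨by simp, by simp⟩) B
  have h3 : G ![0, 0, (![0, 0, 1, -1] : Fin 4 → K) 3, -(![0, 0, 1, -1] : Fin 4 → K) 2] 0 B =
      p01 0 B := by
    show _ = G ![1, 1, 0, 0] (P3.mt 0 0) B
    rw [IDB_mt00]
    refine G_shift ![1, 1, 0, 0] _ (-1) (fun k => by fin_cases k <;> simp) 0 0
      0 0 0 0 0 (fun k l => ?_) B
    simp
  rw [h1, h2, h3]
  ring

/-- MODULE IDE (1).  `ro (ro (ro H1)) = H3` (`ro_H3` and `ro4`, or `ro_H1`, `ro_H3`, `ro_H1`). -/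
theorem Rb_H1 (B : Set (Pt K)) : Rb H1 B = ro (R H3) B := by
  have h1 : (ro H1 : Set (Pt K) → ℤ) = H3 := by
    funext B
    exact ro_H1 B
  have h3 : (ro H3 : Set (Pt K) → ℤ) = H1 := by
    funext B
    exact ro_H3 B
  unfold Rb
  rw [h1, h3, h1]

/-- MODULE IDE (2).  `ro (ro (ro H3)) = H1`, `P3.R_H1`, `ro_H1`, `ro_Ps`. -/
theorem Rb_H3 (B : Set (Pt K)) : Rb H3 B = qK K ^ 2 * (qK K - 1) * H3 B + qK K * Ps12 B := by
  have h1 : (ro H1 : Set (Pt K) → ℤ) = H3 := by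
    funext B
    exact ro_H1 B
  have h3 : (ro H3 : Set (Pt K) → ℤ) = H1 := by
    funext B
    exact ro_H3 B
  unfold Rb
  rw [h3, h1, h3]
  show R H1 (pm (finRotate 4) B) = _
  have h4 : H1 (pm (finRotate 4) B) = H3 B := ro_H1 B
  have h5 : Ps (pm (finRotate 4) B) = Ps12 B := ro_Ps B
  rw [R_H1, h4, h5]
  ring

/-- MODULE IDE (3).  `PL3.R_PI`, `Bp_eq`, `ro_PI`, `ro_H1`, `ro_bt`, `ro_gm`. -/
theorem Rb_PI (B : Set (Pt K)) :
    Rb PI B = qK K * (qK K - 1) ^ 2 * PI B + qK K ^ 2 * (qK K - 1) * H3 B +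
      (qK K * ro Bs B + (qK K - 1) * bt' B - gm B) := by
  have h1 : (ro PI : Set (Pt K) → ℤ) = PI := by
    funext B
    exact ro_PI B
  unfold Rb
  rw [h1, h1, h1]
  show R PI (pm (finRotate 4) B) = _
  have h4 : H1 (pm (finRotate 4) B) = H3 B := ro_H1 B
  have h5 : PI (pm (finRotate 4) B) = PI B := ro_PI B
  have h6 : bt (pm (finRotate 4) B) = bt' B := ro_bt B
  have h7 : gm (pm (finRotate 4) B) = gm B := ro_gm B
  have h8 : Bs (pm (finRotate 4) B) = ro Bs B := rfl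
  rw [R_PI, Bp_eq, h4, h5, h6, h7, h8]

private theorem IDF_g0 : (ro g0 : Set (Pt K) → ℤ) = g1 := by
  funext B
  exact ro_G 1 0 0 0 B

private theorem IDF_g1 : (ro g1 : Set (Pt K) → ℤ) = g2 := by
  funext B
  exact ro_G 0 1 0 0 B

private theorem IDF_g2 : (ro g2 : Set (Pt K) → ℤ) = g3 := by
  funext B
  exact ro_G 0 0 1 0 B

private theorem IDF_g3 : (ro g3 : Set (Pt K) → ℤ) = g0 := by
  funext B
  exact ro_G 0 0 0 1 B

/-- MODULE IDF (1).  `ro (ro (ro Ps)) = Ps30`, `R_Ps30`, `ro_PI`, `ro_H1`, `ro_H3`, `ro (R g3) = Rb g0` (`ro (ro (ro g0)) = g3`). -/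
theorem Rb_Ps (B : Set (Pt K)) :
    Rb Ps B = qK K * (qK K - 1) * (qK K - 2) * PI B +
      (qK K - 1) * (qK K ^ 2 * (H1 B + H3 B) + Rb g0 B) := by
  have h1 : (ro Ps : Set (Pt K) → ℤ) = Ps12 := by
    funext B
    exact ro_Ps B
  have h2 : (ro Ps12 : Set (Pt K) → ℤ) = Ps01 := by
    funext B
    exact ro_Ps12 B
  have h3 : (ro Ps01 : Set (Pt K) → ℤ) = Ps30 := by
    funext B
    exact ro_Ps01 B
  have h9 : Rb g0 B = R g3 (pm (finRotate 4) B) := by
    unfold Rb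
    rw [IDF_g0, IDF_g1, IDF_g2]
    rfl
  rw [h9]
  unfold Rb
  rw [h1, h2, h3]
  show R Ps30 (pm (finRotate 4) B) = _
  have h4 : H1 (pm (finRotate 4) B) = H3 B := ro_H1 B
  have h5 : PI (pm (finRotate 4) B) = PI B := ro_PI B
  have h6 : H3 (pm (finRotate 4) B) = H1 B := ro_H3 B
  rw [R_Ps30, h4, h5, h6]
  ring

/-- MODULE IDF (2).  `ro (ro (ro g3)) = g2`, `R_g2`, `ro_E`: `ro (E ![x, y, 0, -(x + y)]) = E ![-(x + y), x, y, 0]`; substitute
(`x ↦ - (x + y)`, `y ↦ x`). -/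
theorem Rb_g3 (B : Set (Pt K)) : Rb g3 B = R g3 B := by
  unfold Rb
  rw [IDF_g3, IDF_g0, IDF_g1]
  show R g2 (pm (finRotate 4) B) = _
  have h1 : g2 (pm (finRotate 4) B) = g3 B := congrFun IDF_g2 B
  rw [R_g2, R_g3, h1]
  refine congrArg₂ (· + ·) rfl ?_
  have h2 : ∀ x y : K, E ![x, y, 0, -(x + y)] (pm (finRotate 4) B) = E ![-(x + y), x, y, 0] B :=
    fun x y => ro_E x y 0 (-(x + y)) B
  rw [Finset.sum_congr rfl fun x _ => Finset.sum_congr rfl fun y _ => h2 x y]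
  rw [Finset.sum_comm (f := fun x y : K => E ![x, y, -(x + y), 0] B)]
  refine Finset.sum_congr rfl fun x _ => ?_
  refine Fintype.sum_equiv ((Equiv.addLeft x).trans (Equiv.neg K)) _ _ fun y => ?_
  show _ = E ![-(x + y), x, -(-(x + y) + x), 0] B
  have h3 : -(-(x + y) + x) = y := by ring
  rw [h3]

/-- MODULE IDF (3).  `ro (ro (ro g2)) = g1`, `R_g1`, `ro_H1`. -/
theorem Rb_g2 (B : Set (Pt K)) : Rb g2 B = qK K ^ 2 * H3 B := by
  unfold Rb
  rw [IDF_g2, IDF_g3, IDF_g0]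
  show R g1 (pm (finRotate 4) B) = _
  have h4 : H1 (pm (finRotate 4) B) = H3 B := ro_H1 B
  rw [R_g1, h4]

/-- MODULE IDG (1).

Proof.  `ro (ro (ro g0)) = g3`; `R_g3` and `ro_E`, `ro_G`: `Rb g0 = q² (q - 1) g0 + ∑ x, ∑ y, E ![0, x, y, -(x + y)]`.  Then `R_g0`, and
`R_E` for `j = ![0, x, y, -(x + y)]` (if `j 2 + j 3 = - x = 0`, then `j 0 = j 1 = 0`): `q³ G ![0, 0, -(x + y), -y] 0`; the sum over `x`, `y` is
`q³ Ps01`. -/
theorem R_Rb_g0 (B : Set (Pt K)) :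
    R (Rb g0) B = qK K ^ 4 * (qK K - 1) * H1 B + qK K ^ 3 * Ps01 B := by
  have h : (Rb g0 : Set (Pt K) → ℤ) = fun B => qK K ^ 2 * (qK K - 1) * g0 B +
      ∑ x : K, ∑ y : K, E ![0, x, y, -(x + y)] B := by
    funext B
    unfold Rb
    rw [IDF_g0, IDF_g1, IDF_g2]
    show R g3 (pm (finRotate 4) B) = _
    have h1 : g3 (pm (finRotate 4) B) = g0 B := congrFun IDF_g3 B
    rw [R_g3, h1]
    refine congrArg₂ (· + ·) rfl ?_
    refine Finset.sum_congr rfl fun x _ => Finset.sum_congr rfl fun y _ => ?_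
    exact ro_E x y (-(x + y)) 0 B
  have h1 : R (Rb g0) B = qK K ^ 2 * (qK K - 1) * R g0 B +
      ∑ x : K, ∑ y : K, R (E ![0, x, y, -(x + y)]) B := by
    have h2 : R (Rb g0) B = R (fun B => qK K ^ 2 * (qK K - 1) * g0 B +
      ∑ x : K, ∑ y : K, E ![0, x, y, -(x + y)] B) B := by rw [h]
    rw [h2, R_add, R_smul]
    refine congrArg₂ (· + ·) rfl ?_
    exact IDB_R2 (fun x y => E ![0, x, y, -(x + y)]) B
  have h2 : ∀ x y : K, R (E ![0, x, y, -(x + y)]) B = qK K ^ 3 * G ![0, 0, -(x + y), -y] 0 B := by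
    intro x y
    refine R_E ![0, x, y, -(x + y)] ?_ ?_ B
    · rw [Fin.sum_univ_four]
      show 0 + x + y + -(x + y) = 0
      ring
    · by_cases hx : x = 0
      · exact Or.inr ⟨rfl, hx⟩
      · refine Or.inl ?_
        show y + -(x + y) ≠ 0
        intro h3
        exact hx (by linear_combination -h3)
  have h3 : ∑ x : K, ∑ y : K, G ![0, 0, -(x + y), -y] 0 B = Ps01 B := by
    unfold Ps01
    rw [Finset.sum_comm, Finset.sum_comm (f := fun a b : K => G ![0, 0, a, b] 0 B)]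
    refine Fintype.sum_equiv (Equiv.neg K) _ _ fun y => ?_
    refine Fintype.sum_equiv ((Equiv.addRight y).trans (Equiv.neg K)) _ _ fun x => ?_
    rfl
  rw [h1, R_g0, Finset.sum_congr rfl fun x _ => Finset.sum_congr rfl fun y _ => h2 x y]
  simp only [← Finset.mul_sum]
  rw [h3]
  ring

/-- MODULE IDG (2).

Proof.  `ro (ro (ro (R g2))) = q² (q - 1) g1 + ∑ x, ∑ y, E ![y, 0, -(x + y), x]`; `R_g1`, `R_E` (if `j 2 + j 3 = - y = 0`, then `j 0 = j 1 =
0`): `q³ G ![0, 0, x, x + y] 0`, the sum is `q³ Ps01`; so `R (..) = q⁴ (q - 1) H1 + q³ Ps01`, and `ro` of it is the right side. -/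
theorem Rb_R_g2 (B : Set (Pt K)) :
    Rb (R g2) B = qK K ^ 4 * (qK K - 1) * H3 B + qK K ^ 3 * Ps30 B := by
  have h : (ro (ro (ro (R g2))) : Set (Pt K) → ℤ) = fun B => qK K ^ 2 * (qK K - 1) * g1 B +
      ∑ x : K, ∑ y : K, E ![y, 0, -(x + y), x] B := by
    funext B
    show R g2 (pm (finRotate 4) (pm (finRotate 4) (pm (finRotate 4) B))) = _
    have h1 : g2 (pm (finRotate 4) (pm (finRotate 4) (pm (finRotate 4) B))) = g1 B := by
      have e1 := congrFun IDF_g2 (pm (finRotate 4) (pm (finRotate 4) B))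
      have e2 := congrFun IDF_g3 (pm (finRotate 4) B)
      have e3 := congrFun IDF_g0 B
      exact e1.trans (e2.trans e3)
    rw [R_g2, h1]
    refine congrArg₂ (· + ·) rfl ?_
    refine Finset.sum_congr rfl fun x _ => Finset.sum_congr rfl fun y _ => ?_
    have e1 := ro_E x y 0 (-(x + y)) (pm (finRotate 4) (pm (finRotate 4) B))
    have e2 := ro_E (-(x + y)) x y 0 (pm (finRotate 4) B)
    have e3 := ro_E 0 (-(x + y)) x y B
    have e4 : E ![x, y, 0, -(x + y)] (pm (finRotate 4) (pm (finRotate 4) (pm (finRotate 4) B))) =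
      E ![y, 0, -(x + y), x] B := e1.trans (e2.trans e3)
    exact e4
  have h1 : R (ro (ro (ro (R g2)))) (pm (finRotate 4) B) =
      qK K ^ 2 * (qK K - 1) * R g1 (pm (finRotate 4) B) +
      ∑ x : K, ∑ y : K, R (E ![y, 0, -(x + y), x]) (pm (finRotate 4) B) := by
    rw [h, R_add, R_smul]
    refine congrArg₂ (· + ·) rfl ?_
    exact IDB_R2 (fun x y => E ![y, 0, -(x + y), x]) _
  have h2 : ∀ x y : K, R (E ![y, 0, -(x + y), x]) (pm (finRotate 4) B) =
      qK K ^ 3 * G ![0, 0, x, x + y] 0 (pm (finRotate 4) B) := by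
    intro x y
    have h3 := R_E ![y, 0, -(x + y), x] (by
      rw [Fin.sum_univ_four]
      show y + 0 + -(x + y) + x = 0
      ring) (by
      by_cases hy : y = 0
      · exact Or.inr ⟨hy, rfl⟩
      · refine Or.inl ?_
        show -(x + y) + x ≠ 0
        intro h3
        exact hy (by linear_combination -h3)) (pm (finRotate 4) B)
    rw [h3]
    have h4 : (![0, 0, (![y, 0, -(x + y), x] : Fin 4 → K) 3,
        -(![y, 0, -(x + y), x] : Fin 4 → K) 2] : Fin 4 → K) = ![0, 0, x, x + y] := by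
      funext k
      fin_cases k
      · rfl
      · rfl
      · rfl
      · show - -(x + y) = x + y
        rw [neg_neg]
    rw [h4]
  have h3 : ∑ x : K, ∑ y : K, G ![0, 0, x, x + y] 0 (pm (finRotate 4) B) =
      Ps01 (pm (finRotate 4) B) := by
    unfold Ps01
    refine Finset.sum_congr rfl fun x _ => ?_
    exact Fintype.sum_equiv (Equiv.addLeft x) _ _ fun y => rfl
  have h4 : H1 (pm (finRotate 4) B) = H3 B := ro_H1 B
  have h5 : Ps01 (pm (finRotate 4) B) = Ps30 B := ro_Ps01 B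
  show R (ro (ro (ro (R g2)))) (pm (finRotate 4) B) = _
  rw [h1, R_g1, Finset.sum_congr rfl fun x _ => Finset.sum_congr rfl fun y _ => h2 x y]
  simp only [← Finset.mul_sum]
  rw [h3, h4, h5]
  ring

/-- MODULE IDV.

Proof.  `PL3.R_H3`: `R H3 = c0 PI + m (H1 + H3) - q H2 + q² cf 0 0 + Bs` with `c0 = q² - 3 q + 4`, `m = q² - 2 q`.  Apply `R`
(`funext`, `R_add`, `R_smul`): `R (R H3) - m R H3 = c0 R PI + m R H1 - q R H2 + q² R (cf 0 0) + R Bs`; `PL3.R_PI`, `P3.R_H1`,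
`P3.R_H2`, `P3.R_c00`, `PL3.R_Bs`, `PL3.Bx_Bs`, `Bp_eq`; `unfold bt`; `linear_combination`. -/
theorem V0_eq (B : Set (Pt K)) :
    R (R H3) B - (qK K ^ 2 - 2 * qK K) * R H3 B =
      ((qK K ^ 2 - 3 * qK K + 4) * (qK K * (qK K - 1) ^ 2) - qK K * (qK K ^ 2 - 3 * qK K + 4) +
        qK K * (qK K - 1) * (qK K - 2) * (qK K + 1) + qK K ^ 2) * PI B +
      (qK K ^ 3 + qK K ^ 2 * (qK K - 1) ^ 2 * (2 * qK K - 1)) * H1 B +
      (- (qK K * (qK K ^ 2 - 2 * qK K)) - qK K ^ 2) * H2 B + qK K ^ 3 * H3 B +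
      (qK K ^ 3 * (qK K - 1) - qK K ^ 3) * cf 0 0 B +
      (qK K - 2) * (qK K ^ 2 - 2 * qK K + 2) * bt B - (qK K ^ 2 - 4 * qK K + 4) * gm B +
      qK K * (qK K ^ 2 - 3 * qK K + 3) * Bs B + qK K ^ 2 * (qK K - 1) * Ps B + R Ps01 B := by
  have h : (R H3 : Set (Pt K) → ℤ) = fun B => (qK K ^ 2 - 3 * qK K + 4) * PI B +
      ((qK K ^ 2 - 2 * qK K) * H1 B + ((qK K ^ 2 - 2 * qK K) * H3 B + ((-qK K) * H2 B +
      (qK K ^ 2 * cf 0 0 B + Bs B)))) := by
    funext B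
    rw [R_H3]
    ring
  have h1 : R (R H3) B = (qK K ^ 2 - 3 * qK K + 4) * R PI B +
      ((qK K ^ 2 - 2 * qK K) * R H1 B + ((qK K ^ 2 - 2 * qK K) * R H3 B + ((-qK K) * R H2 B +
      (qK K ^ 2 * R (cf 0 0) B + R Bs B)))) := by
    have h2 : R (R H3) B = R (fun B => (qK K ^ 2 - 3 * qK K + 4) * PI B +
      ((qK K ^ 2 - 2 * qK K) * H1 B + ((qK K ^ 2 - 2 * qK K) * H3 B + ((-qK K) * H2 B +
      (qK K ^ 2 * cf 0 0 B + Bs B))))) B := by rw [← h]
    rw [h2, R_add, R_add, R_add, R_add, R_add, R_smul, R_smul, R_smul, R_smul, R_smul]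
  have h3 := Bx_Bs B
  have h4 := Bp_eq B
  have h5 := R_PI B
  have h6 := R_H1 B
  have h7 := R_H2 B
  have h8 := R_c00 B
  have h9 := R_Bs B
  rw [h1, h5, h6, h7, h8, h9]
  unfold bt at h4 ⊢
  linear_combination (-qK K) * h3 + (qK K ^ 2 - 3 * qK K + 4 - qK K) * h4

end Pool.Agent.Prm3
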