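import Pool.Agent.Prm3.El

/-!
# The pairing `01|23` is a combination of ladders over a square
-/

set_option autoImplicit false

open scoped BigOperators

namespace Pool.Agent.Prm3

open Pool.Agent.KG Pool.Agent.P3 Pool.Agent.PL3

/-- MODULE WDA (1).  `Rb_H1`: `el H1 = R (ro (R H3)) - sg (R (ro (R H3)))`; `WdB.box`, `WdB.rot`, `WdB.rung`, `WdB.refl`. -/
theorem wdb_elH1 : WdB fun _ B => el H1 B := by
  have h2 : WdB fun F B => R (ro (R (H3 (K := F.K)))) B := WdB.rung (WdB.rot WdB.box)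
  refine (h2.sub (WdB.refl h2)).congr fun F B => ?_
  have h3 : (Rb H1 : Set (Pt F.K) → ℤ) = ro (R H3) := funext Rb_H1
  show R (ro (R H3)) B - R (ro (R H3)) (pm sw B) = R (Rb H1) B - R (Rb H1) (pm sw B)
  rw [h3]

/-- MODULE WDA (2).  `el_PI`. -/
theorem wdb_elPI : WdB fun _ B => el PI B := by
  have h2 : WdB fun F B => R (ro (R (H3 (K := F.K)))) B := WdB.rung (WdB.rot WdB.box)
  refine (h2.sub (WdB.refl h2)).mulq Polynomial.X fun F B => ?_
  rw [Polynomial.eval_X]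
  exact el_PI B

private theorem WDA_mq (c : Polynomial ℤ) {X : (F : FinField) → Set (Pt F.K) → ℤ} (hX : WdB X) :
    WdB fun F B => c.eval (qK F.K) * X F B := hX.mulq c fun _ _ => rfl

section

variable {K : Type} [Field K] [Fintype K]

private theorem WDA_sub (X Y : Set (Pt K) → ℤ) (B : Set (Pt K)) :
    el (fun B => X B - Y B) B = el X B - el Y B := by
  have h1 : (fun B => X B - Y B) = fun B => X B + (fun B => (-1) * Y B) B := by
    funext B
    ring
  rw [h1, el_add, el_smul]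
  ring

private theorem WDA_elRPs12 (B : Set (Pt K)) : el (R Ps12) B =
    qK K * (qK K - 1) * (qK K - 2) * el PI B + (qK K - 1) * qK K ^ 2 * el H1 B := by
  have h1 : (R Ps12 : Set (Pt K) → ℤ) = fun B =>
      (fun B => (qK K * (qK K - 1) * (qK K - 2)) * PI B) B +
      (fun B => (qK K - 1) * (fun B => (fun B => qK K ^ 2 * (fun B => H1 B + H3 B) B) B +
        R g2 B) B) B := funext R_Ps12
  rw [h1, el_add, el_smul, el_smul, el_add, el_smul, el_add, el_H3, el_Rg2]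
  ring

end

/-- MODULE WDA (3).

Proof.  `R_Ps12`: `el (R Ps12) = q (q - 1) (q - 2) el PI + (q - 1) (q² el H1 + q² el H3 + el (R g2))`, and `q² el H3 + el (R g2) = 0`. -/
theorem wdb_elRPs12 : WdB fun _ B => el (R Ps12) B := by
  refine ((WDA_mq (Polynomial.X * (Polynomial.X - 1) * (Polynomial.X - 2)) wdb_elPI).add
    (WDA_mq ((Polynomial.X - 1) * Polynomial.X ^ 2) wdb_elH1)).congr fun F B => ?_
  rw [WDA_elRPs12]
  simp only [Polynomial.eval_mul, Polynomial.eval_sub, Polynomial.eval_X, Polynomial.eval_one,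
    Polynomial.eval_ofNat, Polynomial.eval_pow]

/-- MODULE WDB.

Proof.  `V0 B = R (R H3) B - (q² - 2 q) R H3 B` is in `WdB`; the wanted functional is `V0 - ro V0 - κ (Bs - ro Bs)` with
`κ = q (q² - 3 q + 3)`, and `Bs - ro Bs = R H3 - ro (R H3)` by `PL3.R_H3` (`ro` exchanges `H1`, `H3`, and fixes `PI`, `H2`, `cf 0 0`).
`V0_eq`, `ro_H1`, `ro_H3`, `ro_H2`, `ro_PI`, `ro_c0`, `ro_bt`, `ro_gm`, `ro_Ps`; `ro (R Ps01) = Rb Ps30` (`ro (ro (ro Ps30)) = Ps01`). -/
theorem wdb_w : WdB fun F B =>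
    qK F.K ^ 2 * (qK F.K - 1) ^ 2 * (2 * qK F.K - 1) * (H1 B - H3 B) +
      (qK F.K - 2) * (qK F.K ^ 2 - 2 * qK F.K + 2) * (bt B - bt' B) +
      qK F.K ^ 2 * (qK F.K - 1) * (Ps B - Ps12 B) + (R Ps01 B - Rb Ps30 B) := by
  have h1 : WdB fun F B => R (R (H3 (K := F.K))) B - (qK F.K ^ 2 - 2 * qK F.K) * R H3 B := by
    refine ((WdB.rung WdB.box).sub
      (WDA_mq (Polynomial.X ^ 2 - 2 * Polynomial.X) WdB.box)).congr fun F B => ?_
    simp only [Polynomial.eval_mul, Polynomial.eval_sub, Polynomial.eval_X,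
      Polynomial.eval_ofNat, Polynomial.eval_pow]
  have h2 := WdB.rot h1
  have h3 := WDA_mq (Polynomial.X * (Polynomial.X ^ 2 - 3 * Polynomial.X + 3))
    (WdB.box.sub (WdB.rot WdB.box))
  refine ((h1.sub h2).sub h3).congr fun F B => ?_
  have e1 := V0_eq B
  have e2 := V0_eq (pm (finRotate 4) B)
  have e3 := PL3.R_H3 B
  have e4 := PL3.R_H3 (pm (finRotate 4) B)
  have a1 : H1 (pm (finRotate 4) B) = H3 B := ro_H1 B
  have a2 : H2 (pm (finRotate 4) B) = H2 B := ro_H2 B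
  have a3 : H3 (pm (finRotate 4) B) = H1 B := ro_H3 B
  have a4 : PI (pm (finRotate 4) B) = PI B := ro_PI B
  have a5 : cf 0 0 (pm (finRotate 4) B) = cf 0 0 B := ro_c0 B
  have a6 : bt (pm (finRotate 4) B) = bt' B := ro_bt B
  have a7 : gm (pm (finRotate 4) B) = gm B := ro_gm B
  have a8 : Ps (pm (finRotate 4) B) = Ps12 B := ro_Ps B
  have a9 : R Ps01 (pm (finRotate 4) B) = Rb Ps30 B := by
    have h4 : (ro (ro (ro Ps30)) : Set (Pt F.K) → ℤ) = Ps01 := by
      have h5 : (ro Ps30 : Set (Pt F.K) → ℤ) = Ps := funext ro_Ps30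
      have h6 : (ro Ps : Set (Pt F.K) → ℤ) = Ps12 := funext ro_Ps
      have h7 : (ro Ps12 : Set (Pt F.K) → ℤ) = Ps01 := funext ro_Ps12
      rw [h5, h6, h7]
    show _ = ro (R (ro (ro (ro Ps30)))) B
    rw [h4]
    rfl
  rw [a1, a2, a3, a4, a5, a6, a7, a8, a9] at e2
  rw [a1, a2, a3, a4, a5] at e4
  simp only [Polynomial.eval_mul, Polynomial.eval_sub, Polynomial.eval_add, Polynomial.eval_X,
    Polynomial.eval_ofNat, Polynomial.eval_pow]
  linear_combination e1 - e2 - qK F.K * (qK F.K ^ 2 - 3 * qK F.K + 3) * (e3 - e4)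

section

variable {K : Type} [Field K] [Fintype K]

private theorem WDC_add (X Y : Set (Pt K) → ℤ) (B : Set (Pt K)) :
    el (R (fun B => X B + Y B)) B = el (R X) B + el (R Y) B := by
  have h1 : (R (fun B => X B + Y B) : Set (Pt K) → ℤ) = fun B => R X B + R Y B :=
    funext (R_add X Y)
  rw [h1, el_add]

private theorem WDC_smul (c : ℤ) (X : Set (Pt K) → ℤ) (B : Set (Pt K)) :
    el (R (fun B => c * X B)) B = c * el (R X) B := by
  have h1 : (R (fun B => c * X B) : Set (Pt K) → ℤ) = fun B => c * R X B :=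
    funext (R_smul c X)
  rw [h1, el_smul]

private theorem WDC_sub (X Y : Set (Pt K) → ℤ) (B : Set (Pt K)) :
    el (R (fun B => X B - Y B)) B = el (R X) B - el (R Y) B := by
  have h1 : (fun B => X B - Y B) = fun B => X B + (fun B => (-1) * Y B) B := by
    funext B
    ring
  rw [h1, WDC_add, WDC_smul]
  ring

private theorem WDC_bt (B : Set (Pt K)) :
    el (R bt) B = qK K ^ 2 * el PI B + qK K ^ 4 * (qK K - 1) * dT B := by
  have h1 : (R bt : Set (Pt K) → ℤ) = fun B => (fun B => qK K ^ 2 * PI B) B -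
      (fun B => qK K ^ 3 * H3 B) B := funext R_bt
  rw [h1, WDA_sub, el_smul, el_smul, el_H3]
  ring

private theorem WDC_Ps30 (B : Set (Pt K)) : el (R Ps30) B =
    qK K * (qK K - 1) * (qK K - 2) * el PI B + (qK K - 1) * (qK K ^ 2 * el H1 B -
      qK K ^ 3 * (qK K - 1) * dT B + el (R g3) B) := by
  have h1 : (R Ps30 : Set (Pt K) → ℤ) = fun B =>
      (fun B => (qK K * (qK K - 1) * (qK K - 2)) * PI B) B +
      (fun B => (qK K - 1) * (fun B => (fun B => qK K ^ 2 * (fun B => H1 B + H3 B) B) B +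
        R g3 B) B) B := funext R_Ps30
  rw [h1, el_add, el_smul, el_smul, el_add, el_smul, el_add, el_H3]
  ring

private theorem WDC_w (c1 c2 c3 : ℤ) (B : Set (Pt K)) :
    el (R (fun B => c1 * (H1 B - H3 B) + c2 * (bt B - bt' B) + c3 * (Ps B - Ps12 B) +
      (R Ps01 B - Rb Ps30 B))) B =
    c1 * (el (R H1) B - el (R H3) B) + c2 * (el (R bt) B - el (R bt') B) +
      c3 * (el (R Ps) B - el (R Ps12) B) + (el (R (R Ps01)) B - el (R (Rb Ps30)) B) := by
  have h1 : (fun B : Set (Pt K) => c1 * (H1 B - H3 B) + c2 * (bt B - bt' B) +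
      c3 * (Ps B - Ps12 B) + (R Ps01 B - Rb Ps30 B)) = fun B =>
      (fun B => (fun B => (fun B => c1 * (fun B => H1 B - H3 B) B) B +
        (fun B => c2 * (fun B => bt B - bt' B) B) B) B +
        (fun B => c3 * (fun B => Ps B - Ps12 B) B) B) B +
      (fun B => R Ps01 B - Rb Ps30 B) B := rfl
  rw [h1, WDC_add, WDC_add, WDC_add, WDC_smul, WDC_smul, WDC_smul, WDC_sub, WDC_sub, WDC_sub,
    WDC_sub]

end

/-- MODULE WDC.

Proof.  Apply `R` and `el` to `wdb_w` (`WdB.rung`, `WdB.el`; `R_add`, `R_smul`, `el_add`, `el_smul`): the result is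
`q² (q - 1)² (2 q - 1) (el (R H1) - el (R H3)) + (q - 2) (q² - 2 q + 2) (el (R bt) - el (R bt')) + q² (q - 1) (el (R Ps) -
el (R Ps12)) + (el (R (R Ps01)) - el (R (Rb Ps30)))`.  Subtract elements of `WdB`: `el (R H1)`, `el (R Ps)` are multiples of
`el H1` (`el_RH1`, `el_RPs`, `wdb_elH1`); `el (R H3)` (`WdB.box`, `WdB.el`); `el (R bt) - el (R bt') = q² el PI - q³ el H3 -
q⁴ (q - 1) dT = q² el PI` (`R_bt`, `el_Rbt'`, `el_H3`); `el (R Ps12)` (`wdb_elRPs12`).  The rest is, by `el_RRPs01`, `el_RRbPs30`,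
`q² (q - 1) (el (R Ps01) - el (R Ps30))` with `el (R Ps30) = q (q - 1) (q - 2) el PI + (q - 1) (q² el H1 + q² el H3 + el (R g3))`;
`el_RPs01`, `el_H3`, `el_Rg3`: up to `el PI`, `el H1` it is `q⁶ (q - 1)³ dT`.  `WdB.cancel 6 3`. -/
theorem wdb_dT : WdB fun _ B => dT B := by
  have hw := WdB.el (WdB.rung wdb_w)
  have h3 : WdB fun F B => el (R (H3 (K := F.K))) B := WdB.el WdB.box
  have a1 := WDA_mq (-(Polynomial.X ^ 2 * (Polynomial.X - 1) ^ 2 * (2 * Polynomial.X - 1) *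
    (Polynomial.X ^ 2 * (Polynomial.X - 1))) - Polynomial.X ^ 2 * (Polynomial.X - 1) *
    (Polynomial.X ^ 3 * (Polynomial.X - 1)) + Polynomial.X ^ 4 * (Polynomial.X - 1) ^ 2) wdb_elH1
  have a2 := WDA_mq (Polynomial.X ^ 2 * (Polynomial.X - 1) ^ 2 * (2 * Polynomial.X - 1)) h3
  have a3 := WDA_mq (-((Polynomial.X - 2) * (Polynomial.X ^ 2 - 2 * Polynomial.X + 2) *
    Polynomial.X ^ 2) + Polynomial.X ^ 3 * (Polynomial.X - 1) ^ 2 * (Polynomial.X - 2)) wdb_elPI
  have a4 := WDA_mq (Polynomial.X ^ 2 * (Polynomial.X - 1)) wdb_elRPs12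
  refine WdB.cancel 6 3 (((((hw.add a1).add a2).add a3).add a4).congr fun F B => ?_)
  have e0 := WDC_w (K := F.K) (qK F.K ^ 2 * (qK F.K - 1) ^ 2 * (2 * qK F.K - 1))
    ((qK F.K - 2) * (qK F.K ^ 2 - 2 * qK F.K + 2)) (qK F.K ^ 2 * (qK F.K - 1)) B
  rw [WDC_bt, el_Rbt', el_RH1, el_RPs, el_RRPs01, el_RRbPs30, WDC_Ps30, el_RPs01, el_Rg3] at e0
  simp only [Polynomial.eval_mul, Polynomial.eval_sub, Polynomial.eval_add, Polynomial.eval_X,
    Polynomial.eval_ofNat, Polynomial.eval_pow, Polynomial.eval_neg, Polynomial.eval_one]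
  rw [e0]
  ring

/-- MODULE WDD (1).  `R_dT`; `WdB.cancel 4 1`. -/
theorem wdb_e1 : WdB fun _ B => e1 B := by
  have h1 := WdB.rung wdb_dT
  have h2 := WDA_mq (Polynomial.X ^ 2 * (Polynomial.X - 1)) wdb_dT
  refine WdB.cancel 4 1 ((h1.sub h2).congr fun F B => ?_)
  simp only [Polynomial.eval_mul, Polynomial.eval_sub, Polynomial.eval_X, Polynomial.eval_pow,
    Polynomial.eval_one]
  have h3 := R_dT (K := F.K) B
  show R dT B - _ = _
  rw [h3]
  ring

private theorem WDD_Rb {K : Type} [Field K] [Fintype K] (B : Set (Pt K)) :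
    Rb e1 B = R g3 B - qK K ^ 2 * H3 B := by
  have h1 : Rb e1 B = Rb g3 B - Rb g2 B := by
    show R (fun B => ro (ro (ro g3)) B - ro (ro (ro g2)) B) (pm (finRotate 4) B) =
      R (ro (ro (ro g3))) (pm (finRotate 4) B) - R (ro (ro (ro g2))) (pm (finRotate 4) B)
    have h2 : (fun B : Set (Pt K) => ro (ro (ro g3)) B - ro (ro (ro g2)) B) =
        fun B => ro (ro (ro g3)) B + (fun B => (-1) * ro (ro (ro g2)) B) B := by
      funext B
      ring
    rw [h2, R_add, R_smul]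
    ring
  rw [h1, Rb_g3, Rb_g2]

/-- MODULE WDD (2).

Proof.  `Rb e1 = R g3 - q² H3` (`Rb_g3`, `Rb_g2`) is in `WdB`; its image under `sg` is `R g2 - q² H3` (`R_sg`, `sg_G`, `sg_H3`), and the image of
this under `ro` is `Rb g3 - q² H1 = R g3 - q² H1` (`ro (R g2) = Rb g3`).  The difference is `q² (H1 - H3)`; `WdB.cancel 2 0`. -/
theorem wdb_H13 : WdB fun _ B => H1 B - H3 B := by
  have h1 : WdB fun F B => Rb (e1 (K := F.K)) B :=
    WdB.rot (WdB.rung (WdB.rot (WdB.rot (WdB.rot wdb_e1))))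
  have h2 : WdB fun F B => R (g3 (K := F.K)) B - qK F.K ^ 2 * H3 B :=
    h1.congr fun F B => WDD_Rb B
  have h3 := WdB.rot (WdB.refl h2)
  refine WdB.cancel 2 0 ((h2.sub h3).congr fun F B => ?_)
  have a1 : R g3 (pm sw (pm (finRotate 4) B)) = R g3 B := by
    have b1 : (sg g3 : Set (Pt F.K) → ℤ) = g2 := funext fun B => sg_G 0 0 0 1 B
    have b2 := R_sg (K := F.K) g3 (pm (finRotate 4) B)
    have b3 : (ro (ro (ro g3)) : Set (Pt F.K) → ℤ) = g2 := by
      have c1 : (ro g3 : Set (Pt F.K) → ℤ) = g0 := funext fun B => ro_G 0 0 0 1 B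
      have c2 : (ro g0 : Set (Pt F.K) → ℤ) = g1 := funext fun B => ro_G 1 0 0 0 B
      have c3 : (ro g1 : Set (Pt F.K) → ℤ) = g2 := funext fun B => ro_G 0 1 0 0 B
      rw [c1, c2, c3]
    have b4 := Rb_g3 (K := F.K) B
    have b5 : Rb g3 B = R g2 (pm (finRotate 4) B) := by
      show R (ro (ro (ro g3))) (pm (finRotate 4) B) = _
      rw [b3]
    rw [b1] at b2
    have b6 : R g3 (pm sw (pm (finRotate 4) B)) = R g2 (pm (finRotate 4) B) := b2.symm
    rw [b6, ← b5, b4]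
  have a2 : H3 (pm sw (pm (finRotate 4) B)) = H1 B := by
    have b1 : H3 (pm sw (pm (finRotate 4) B)) = H3 (pm (finRotate 4) B) :=
      sg_H3 (pm (finRotate 4) B)
    have b2 : H3 (pm (finRotate 4) B) = H1 B := ro_H3 B
    rw [b1, b2]
  rw [a1, a2]
  ring

/-- MODULE WDD (3).  `R (H1 - H3) + R H3`. -/
theorem wdb_RH1 : WdB fun _ B => R H1 B := by
  refine ((WdB.rung wdb_H13).add WdB.box).congr fun F B => ?_
  have h2 : (fun B : Set (Pt F.K) => H1 B - H3 B) =
      fun B => H1 B + (fun B => (-1) * H3 B) B := by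
    funext B
    ring
  show R (fun B : Set (Pt F.K) => H1 B - H3 B) B + R H3 B = R H1 B
  rw [h2, R_add, R_smul]
  ring

/-- MODULE WDD (4).  `R (R H1) = q² (q - 1) R H1 + q R Ps` (`P3.R_H1`). -/
theorem wdb_RPs : WdB fun _ B => R Ps B := by
  have h1 := WdB.rung wdb_RH1
  have h2 := WDA_mq (Polynomial.X ^ 3 - Polynomial.X ^ 2) wdb_RH1
  refine WdB.cancel 1 0 ((h1.sub h2).congr fun F B => ?_)
  have h3 : (R H1 : Set (Pt F.K) → ℤ) = fun B =>
      (fun B => (qK F.K ^ 3 - qK F.K ^ 2) * H1 B) B + (fun B => qK F.K * Ps B) B :=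
    funext P3.R_H1
  have h4 : R (R H1) B = (qK F.K ^ 3 - qK F.K ^ 2) * R H1 B + qK F.K * R Ps B := by
    conv_lhs => rw [h3]
    rw [R_add, R_smul, R_smul]
  simp only [Polynomial.eval_sub, Polynomial.eval_X, Polynomial.eval_pow]
  show R (R H1) B - _ = _
  rw [h4]
  ring

/-- MODULE WDE.

Proof.  `R_Ps`: `(q - 1) (q³ H1 + R (p01 0))` is in `WdB`, so `U = q³ H1 + R (p01 0)` is (`WdB.cancel 0 1`).  `R U = q³ R H1 + q² (q - 1)
R (p01 0) + q⁴ (q - 1) p01 0` (`RR_p010`); subtract `q³ R H1` and `q² (q - 1) U`: `q⁴ (q - 1) (p01 0 - q H1)`; so `p01 0 - q H1` is in `WdB`, hence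
`R (p01 0) - q R H1`, `R (p01 0)`, and `q³ H1 = U - R (p01 0)`. -/
theorem wdb_H1 : WdB fun _ B => H1 B := by
  have hU : WdB fun F B => qK F.K ^ 3 * H1 B + R (p01 (0 : F.K)) B := by
    refine WdB.cancel 0 1 (wdb_RPs.congr fun F B => ?_)
    rw [R_Ps]
    ring
  have h1 := WdB.rung hU
  have h2 := WDA_mq (Polynomial.X ^ 3) wdb_RH1
  have h3 := WDA_mq (Polynomial.X ^ 2 * (Polynomial.X - 1)) hU
  have hV : WdB fun F B => p01 (0 : F.K) B - qK F.K * H1 B := by
    refine WdB.cancel 4 1 (((h1.sub h2).sub h3).congr fun F B => ?_)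
    have e1 : R (fun B : Set (Pt F.K) => qK F.K ^ 3 * H1 B + R (p01 (0 : F.K)) B) B =
        qK F.K ^ 3 * R H1 B + R (R (p01 (0 : F.K))) B := by
      have e2 : (fun B : Set (Pt F.K) => qK F.K ^ 3 * H1 B + R (p01 (0 : F.K)) B) =
          fun B => (fun B => qK F.K ^ 3 * H1 B) B + R (p01 (0 : F.K)) B := rfl
      rw [e2, R_add, R_smul]
    simp only [Polynomial.eval_mul, Polynomial.eval_sub, Polynomial.eval_X, Polynomial.eval_pow,
      Polynomial.eval_one]
    rw [e1, RR_p010]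
    ring
  have h4 := WdB.rung hV
  have h5 := WDA_mq Polynomial.X wdb_RH1
  have hW : WdB fun F B => R (p01 (0 : F.K)) B := by
    refine (h4.add h5).congr fun F B => ?_
    have e1 : R (fun B : Set (Pt F.K) => p01 (0 : F.K) B - qK F.K * H1 B) B =
        R (p01 (0 : F.K)) B - qK F.K * R H1 B := by
      have e2 : (fun B : Set (Pt F.K) => p01 (0 : F.K) B - qK F.K * H1 B) =
          fun B => p01 (0 : F.K) B + (fun B => (-qK F.K) * H1 B) B := by
        funext B
        ring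
      rw [e2, R_add, R_smul]
      ring
    simp only [Polynomial.eval_X]
    rw [e1]
    ring
  refine WdB.cancel 3 0 ((hU.sub hW).congr fun F B => ?_)
  ring

end Pool.Agent.Prm3
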