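import Pool.Agent.Prm3.Hev
import Pool.Agent.Prm3.Opn
import Pool.Agent.Prm3.Wd

/-!
# Removal of the nontrivial cuts with one, two and three edges
-/

set_option autoImplicit false

open scoped BigOperators

namespace Pool.Agent.Prm3

open Pool.Agent.KG Pool.Agent.P3 Pool.Agent.PL3

/-- Another edge at a vertex of degree three. -/
private theorem STP_other {V E : Type} [Fintype E] (s t : E → V) (h3 : ∀ v, deg s t v = 3) (e : E) (v : V) :
    ∃ f, f ≠ e ∧ (s f = v ∨ t f = v) := by
  classical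
  by_contra hcon
  push Not at hcon
  have h := h3 v
  unfold deg at h
  have hs : {x | s x = v} ⊆ {e} := by
    intro x hx
    by_contra hne
    exact (hcon x hne).1 hx
  have ht : {x | t x = v} ⊆ {e} := by
    intro x hx
    by_contra hne
    exact (hcon x hne).2 hx
  have h1 := Set.ncard_le_ncard hs (Set.finite_singleton e)
  have h2 := Set.ncard_le_ncard ht (Set.finite_singleton e)
  rw [Set.ncard_singleton] at h1 h2
  omega

/-- MODULE STP.  The planarity of the opened graph, for a good choice of `f₀`, `f₂`.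

Proof.  `k ≥ 2` (`Con s t 2` by monotonicity): `next_at` for `e` at `v₁` and at `v₂` gives `f₀`, `f₂` (with the given `l`, `r`).  `k = 1`: let `f₀`, `f₂` be any
edges at `v₁`, `v₂` different from `e` (degree `3`), `bridge_face`. -/
theorem good_faces {V E : Type} [Fintype V] [Fintype E] (s t : E → V) (hl : LL s t) (h3 : ∀ v, deg s t v = 3)
    (k : ℕ) (hk : 1 ≤ k) (hc : Con s t k) (S : Set V) (hS : cs s t S = k) (e : E) (v1 v2 : V)
    (he : (s e = v1 ∧ t e = v2) ∨ (s e = v2 ∧ t e = v1)) (h1 : v1 ∈ S) (h2 : v2 ∉ S) (hp : Pl s t) :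
    ∃ (D : Type) (_ : Finite D) (l r : E → D) (f0 f2 : E), Du s t l r ∧ f0 ≠ e ∧ (s f0 = v1 ∨ t f0 = v1) ∧
      f2 ≠ e ∧ (s f2 = v2 ∨ t f2 = v2) ∧ tl s l r v1 f0 = hd s l r v1 e ∧ tl s l r v2 f2 = hd s l r v2 e := by
  classical
  have he1 : s e = v1 ∨ t e = v1 := by
    rcases he with ⟨h, -⟩ | ⟨-, h⟩
    · exact Or.inl h
    · exact Or.inr h
  have he2 : s e = v2 ∨ t e = v2 := by
    rcases he with ⟨-, h⟩ | ⟨h, -⟩
    · exact Or.inr h
    · exact Or.inl h
  obtain ⟨D, hD, l, r, hdu⟩ := hp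
  by_cases hk2 : 2 ≤ k
  · have hc2 : Con s t 2 := fun U hU hU' => le_trans hk2 (hc U hU hU')
    obtain ⟨f0, h01, h02, h03⟩ := next_at s t hl hc2 l r hdu e v1 he1
    obtain ⟨f2, h21, h22, h23⟩ := next_at s t hl hc2 l r hdu e v2 he2
    exact ⟨D, hD, l, r, f0, f2, hdu, h01, h02, h21, h22, h03, h23⟩
  · have hk1 : k = 1 := by omega
    subst hk1
    obtain ⟨f0, h01, h02⟩ := STP_other s t h3 e v1
    obtain ⟨f2, h21, h22⟩ := STP_other s t h3 e v2
    obtain ⟨D', hD', l', r', hdu', hp1, hp2⟩ := bridge_face s t hl S hS e v1 v2 he h1 h2 l r hdu f0 f2 h01 h02 h21 h22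
    exact ⟨D', hD', l', r', f0, f2, hdu', h01, h02, h21, h22, hp1, hp2⟩

/-- An edge of a nonempty cut. -/
private theorem STG_edge {V E : Type} [Fintype E] (s t : E → V) (S : Set V) (h : 0 < cs s t S) :
    ∃ (e : E) (v1 v2 : V), ((s e = v1 ∧ t e = v2) ∨ (s e = v2 ∧ t e = v1)) ∧ v1 ∈ S ∧ v2 ∉ S := by
  classical
  unfold cs at h
  obtain ⟨e, -, he⟩ := Finset.exists_ne_zero_of_sum_ne_zero h.ne'
  have he' : ¬ (s e ∈ S ↔ t e ∈ S) := fun hh => he (if_pos hh)
  by_cases hs : s e ∈ S
  · by_cases ht : t e ∈ S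
    · exact absurd ⟨fun _ => ht, fun _ => hs⟩ he'
    · exact ⟨e, s e, t e, Or.inl ⟨rfl, rfl⟩, hs, ht⟩
  · by_cases ht : t e ∈ S
    · exact ⟨e, t e, s e, Or.inr ⟨rfl, rfl⟩, ht, hs⟩
    · exact absurd ⟨fun h => absurd h hs, fun h => absurd h ht⟩ he'

/-- MODULE STG.  One step.

Proof.  Let `f = ns s t`, `V`, `E`, … as in the definition of `CG b k (m + 1)`.  If `nc s t k ≤ m`: `Sp.base`.  Otherwise `nc s t k = m + 1 > 0`; let `S` be
a nontrivial cut with `k ≥ 1` edges, `e` one of them, `v₁ ∈ S`, `v₂ ∉ S` its ends.  `only_edge`: `dv v₁ Sᶜ = 1`, so `dv v₁ {v₂} = 1` (`≥ 1` by `dv_pos`).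
If `b = true`: `good_faces` gives `f₀`, `f₂`; if `b = false`: any edges at `v₁`, `v₂` different from `e` (degree `3`).  `exists_open`; `open_pl` (for `b =
true`); `open_nw`: `2 m' + 2 ≤ nc s t k`, `NW b k m' s' t' a`.  `ns s t = ns (hcS s') (hcT t' a)` (`ns_key`) `= q ^ _ - ev H1` (`ns_hc`), and `wdb_mem wdb_H1`:
`ev H1 ∈ Sp (CG b k (2 m'))`, `2 m' ≤ m`: `CG` is monotone in `m`.  `Sp.pol` (with `X ^ _`), `Sp.sub`. -/
theorem cg_step (b : Bool) (k : ℕ) (hk : 1 ≤ k) (hk3 : k ≤ 3) (m : ℕ) {f : FinField → ℤ}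
    (hf : f ∈ CG b k (m + 1)) : Sp (CG b k m) f := by
  classical
  obtain ⟨V, E, iV, iE, s, t, hne, hl, h3, hc, hn, hp, rfl⟩ := hf
  by_cases hn' : nc s t k ≤ m
  · exact Sp.base ⟨V, E, iV, iE, s, t, hne, hl, h3, hc, hn', hp, rfl⟩
  have hpos : 0 < nc s t k := by omega
  obtain ⟨S, h2, h2', hS⟩ := (Set.ncard_pos (Set.toFinite _)).1 hpos
  obtain ⟨e, v1, v2, he, h1, hv2⟩ := STG_edge s t S (by omega)
  have hne12 : v1 ≠ v2 := fun h => hv2 (h ▸ h1)
  obtain ⟨ho1, -⟩ := only_edge s t hl h3 k hc S hS h2 h2' e v1 v2 he h1 hv2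
  have hdv : dv s t v1 {v2} = 1 := by
    have hge := dv_pos s t e v1 v2 {v2} he rfl
    have hdis : Disjoint ({v2} : Set V) (Sᶜ \ {v2}) := Set.disjoint_sdiff_right
    have hun : ({v2} : Set V) ∪ (Sᶜ \ {v2}) = Sᶜ :=
      Set.union_sdiff_cancel (Set.singleton_subset_iff.2 hv2)
    have h4 := dv_union s t v1 {v2} (Sᶜ \ {v2}) hdis
    rw [hun] at h4
    omega
  obtain ⟨f0, f2, hf0, hf0', hf2, hf2', hpl⟩ : ∃ f0 f2 : E, f0 ≠ e ∧ (s f0 = v1 ∨ t f0 = v1) ∧ f2 ≠ e ∧
      (s f2 = v2 ∨ t f2 = v2) ∧ (b = true → ∃ (D : Type) (_ : Finite D) (l r : E → D), Du s t l r ∧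
        tl s l r v1 f0 = hd s l r v1 e ∧ tl s l r v2 f2 = hd s l r v2 e) := by
    by_cases hb : b = true
    · obtain ⟨D, hD, l, r, f0, f2, hdu, h01, h02, h21, h22, h03, h23⟩ :=
        good_faces s t hl h3 k hk hc S hS e v1 v2 he h1 hv2 (hp hb)
      exact ⟨f0, f2, h01, h02, h21, h22, fun _ => ⟨D, hD, l, r, hdu, h03, h23⟩⟩
    · obtain ⟨f0, h01, h02⟩ := STP_other s t h3 e v1
      obtain ⟨f2, h21, h22⟩ := STP_other s t h3 e v2
      exact ⟨f0, f2, h01, h02, h21, h22, fun h => absurd h hb⟩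
  obtain ⟨V', E', iV', iE', s', t', a, f, g, hl', hfa, hfb, hg0, hg2, hg4, hi, ho⟩ :=
    exists_open s t hl h3 e v1 v2 hne12 he hdv f0 f2 hf0 hf0' hf2 hf2'
  have hpn : b = true → PlN s' t' a := by
    intro hb
    obtain ⟨D, hD, l, r, hdu, h03, h23⟩ := hpl hb
    refine open_pl s t s' t' a f g hl hi ho l r hdu ?_ ?_
    · rw [hfa, hg0, hg4]
      exact h03
    · rw [hfb, hg2, hg4]
      exact h23
  obtain ⟨m', hm', hNW⟩ := open_nw s t s' t' a f g ho b hl hl' h3 k hk hk3 hc S hS h2 h2'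
    (by rw [hfa]; exact h1) (by rw [hfb]; exact hv2) hpn
  have hkey : ns s t = ns (hcS s') (hcT t' a) := ns_key f g s t (hcS s') (hcT t' a) ho
  have hmem := wdb_mem wdb_H1 b k hk hk3 s' t' a m' hNW
  have hmono : ∀ g ∈ CG b k (2 * m'), Sp (CG b k m) g := by
    rintro g ⟨V1, E1, i1, i2, s1, t1, hn1, hl1, h31, hc1, hm1, hp1, rfl⟩
    exact Sp.base ⟨V1, E1, i1, i2, s1, t1, hn1, hl1, h31, hc1, by omega, hp1, rfl⟩
  refine Sp.congr (fun F => ?_) (Sp.sub (Sp.pol (Polynomial.X ^ (Fintype.card E' + 5))) (Sp.mono hmono hmem))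
  rw [hkey, ns_hc s' t' a F, Polynomial.eval_pow, Polynomial.eval_X]

/-- MODULE STA (1).  Induction on `m`: `cg_step`, `Sp.mono`. -/
theorem cg_zero (b : Bool) (k : ℕ) (hk : 1 ≤ k) (hk3 : k ≤ 3) (m : ℕ) {f : FinField → ℤ}
    (hf : f ∈ CG b k m) : Sp (CG b k 0) f := by
  induction m generalizing f with
  | zero => exact Sp.base hf
  | succ m ih => exact Sp.mono (fun g hg => ih hg) (cg_step b k hk hk3 m hf)

/-- MODULE STA (2).

Proof.  A cut `U` (nonempty, not the whole set): if `U.ncard = 1` or `Uᶜ.ncard = 1`, then `cs U = 3` (`cs_single`, `cs_compl`); otherwise `cs U ≥ k` and `cs U ≠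
k` as `nc s t k = 0` (`Set.ncard_eq_zero`, finite). -/
theorem cg_next (b : Bool) (k : ℕ) (hk3 : k ≤ 2) {f : FinField → ℤ} (hf : f ∈ CG b k 0) :
    ∃ m, f ∈ CG b (k + 1) m := by
  classical
  obtain ⟨V, E, iV, iE, s, t, hne, hl, h3, hc, hn, hp, rfl⟩ := hf
  refine ⟨nc s t (k + 1), V, E, iV, iE, s, t, hne, hl, h3, ?_, le_rfl, hp, rfl⟩
  intro U hU hU'
  have h1 := hc U hU hU'
  by_contra hlt
  have hk' : cs s t U = k := by omega
  have hUc : (Uᶜ).Nonempty := Set.nonempty_compl.2 hU'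
  have hn1 : 0 < U.ncard := (Set.ncard_pos (Set.toFinite _)).2 hU
  have hn2 : 0 < (Uᶜ).ncard := (Set.ncard_pos (Set.toFinite _)).2 hUc
  by_cases h4 : U.ncard = 1
  · obtain ⟨v, rfl⟩ := Set.ncard_eq_one.1 h4
    rw [cs_single s t hl v, h3] at hk'
    omega
  by_cases h5 : (Uᶜ).ncard = 1
  · obtain ⟨v, hv⟩ := Set.ncard_eq_one.1 h5
    rw [← cs_compl, hv, cs_single s t hl v, h3] at hk'
    omega
  have h6 : nc s t k = 0 := Nat.le_zero.1 hn
  unfold nc at h6
  rw [Set.ncard_eq_zero (Set.toFinite _)] at h6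
  have h7 : U ∈ {U : Set V | 2 ≤ U.ncard ∧ 2 ≤ Uᶜ.ncard ∧ cs s t U = k} := ⟨by omega, by omega, hk'⟩
  rw [h6] at h7
  exact h7

/-- MODULE STA (3).  `cg_zero` for `k = 1, 2, 3`, `cg_next`, `Sp.mono`. -/
theorem cg_all (b : Bool) (m : ℕ) {f : FinField → ℤ} (hf : f ∈ CG b 1 m) : Sp (CG b 3 0) f := by
  have h1 := cg_zero b 1 le_rfl (by norm_num) m hf
  have h2 : ∀ g ∈ CG b 1 0, Sp (CG b 2 0) g := fun g hg => by
    obtain ⟨m', hm'⟩ := cg_next b 1 (by norm_num) hg
    exact cg_zero b 2 (by norm_num) (by norm_num) m' hm'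
  have h3 : ∀ g ∈ CG b 2 0, Sp (CG b 3 0) g := fun g hg => by
    obtain ⟨m', hm'⟩ := cg_next b 2 le_rfl hg
    exact cg_zero b 3 (by norm_num) le_rfl m' hm'
  exact Sp.mono h3 (Sp.mono h2 h1)

/-- MODULE STC (1).  A graph with a spanning tree is connected: if `U` is nonempty and not the whole set, some edge joins `U` and its complement (a path from a
vertex of `U` to a vertex outside; induction on `Relation.ReflTransGen`), so `1 ≤ cs U`. -/
theorem con_of_tree {V E : Type} [Fintype V] [Fintype E] (s t : E → V) (h : ∃ T, IsTree s t T) : Con s t 1 := by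
  classical
  obtain ⟨T, -, hT⟩ := h
  intro U hU hU'
  by_contra hlt
  have h0 : cs s t U = 0 := by omega
  unfold cs at h0
  have h1 : ∀ e, s e ∈ U ↔ t e ∈ U := by
    intro e
    have h2 := (Finset.sum_eq_zero_iff.1 h0) e (Finset.mem_univ e)
    by_contra h3
    rw [if_neg h3] at h2
    exact one_ne_zero h2
  obtain ⟨u, hu⟩ := hU
  obtain ⟨v, hv⟩ := Set.nonempty_compl.2 hU'
  have h2 : ∀ w, Relation.ReflTransGen
      (fun a b => ∃ e ∈ T, (s e = a ∧ t e = b) ∨ (s e = b ∧ t e = a)) u w → w ∈ U := by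
    intro w hw
    induction hw with
    | refl => exact hu
    | tail _ h3 ih =>
      obtain ⟨e, -, he⟩ := h3
      rcases he with ⟨rfl, rfl⟩ | ⟨rfl, rfl⟩
      · exact (h1 e).1 ih
      · exact (h1 e).2 ih
  exact hv (h2 v (hT u v))

/-- MODULE STC (2).  Conversely: the set of the vertices which can be reached from `v` is not left by any edge, so it is the whole set; `PL3.exists_tree` with
`S = univ`. -/
theorem tree_of_con {V E : Type} [Fintype V] [Nonempty V] [Fintype E] (s t : E → V) (h : Con s t 1) :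
    ∃ T, IsTree s t T := by
  classical
  refine exists_tree s t Finset.univ fun u v => ?_
  by_contra hcon
  have h1 := h {w | Relation.ReflTransGen
      (fun a b => ∃ e ∈ (Finset.univ : Finset E), (s e = a ∧ t e = b) ∨ (s e = b ∧ t e = a)) u w}
    ⟨u, Relation.ReflTransGen.refl⟩ (fun h2 => hcon (by
      have h3 : v ∈ (Set.univ : Set V) := Set.mem_univ v
      rw [← h2] at h3
      exact h3))
  obtain ⟨e, v1, v2, he, hv1, hv2⟩ := STG_edge s t _ h1
  refine hv2 (Relation.ReflTransGen.tail hv1 ⟨e, Finset.mem_univ e, he⟩)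

/-- MODULE STC (3).  `V` is nonempty as `T.card + 1 = Fintype.card V`. -/
theorem reg3_cg {f : FinField → ℤ} (hf : f ∈ Reg3S) : ∃ m, f ∈ CG false 1 m := by
  obtain ⟨n, m, s, t, h3, hl, hT, rfl⟩ := hf
  obtain ⟨T, hT'⟩ := hT
  have hne : Nonempty (Fin n) := Fintype.card_pos_iff.1 (by have := hT'.1; omega)
  exact ⟨nc s t 1, Fin n, Fin m, inferInstance, inferInstance, s, t, hne, hl, h3, con_of_tree s t ⟨T, hT'⟩,
    le_rfl, fun h => absurd h (by decide), rfl⟩

/-- MODULE STC (4).  The same; `PL3.du_of_dual`. -/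
theorem preg3_cg {f : FinField → ℤ} (hf : f ∈ PReg3S) : ∃ m, f ∈ CG true 1 m := by
  classical
  obtain ⟨G, rfl⟩ := hf
  obtain ⟨T, hT'⟩ := G.conn
  have hne : Nonempty (Fin G.n) := Fintype.card_pos_iff.1 (by have := hT'.1; omega)
  have hD : PLN.Dual G.l G.r G.s G.t := by
    refine ⟨fun v d => ?_, ?_, ⟨T, hT'⟩⟩
    · rw [← G.dual.chain d v]
      exact Finset.sum_congr rfl fun e _ => mul_comm _ _
    · have := G.dual.euler
      omega
  have hdu : Du G.s G.t G.l G.r := du_of_dual G.l G.r G.s G.t hD G.dual.dconn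
  exact ⟨nc G.s G.t 1, _, _, inferInstance, inferInstance, G.s, G.t, hne, G.noloop, G.deg_eq,
    con_of_tree G.s G.t ⟨T, hT'⟩, le_rfl, fun _ => ⟨_, inferInstance, G.l, G.r, hdu⟩, rfl⟩

/-- MODULE THE.  Two vertices: three parallel edges.

Proof.  `E` has three elements (the sum of the degrees is `6 = 2 |E|`; or `{e | s e = v} ∪ {e | t e = v}` is everything and has `3` elements by `LL`).  Each
edge joins both vertices; `IsTree s t T ↔ T.card = 1`, so `sym s t x = ∑ e, ∏ e' ≠ e, x e'`: after `E ≃ Fin 3` it is `x₁ x₂ + x₀ x₂ + x₀ x₁`.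
The number of its zeros over a field with `q` elements is `q²`: for `x₁ + x₂ ≠ 0` exactly one `x₀` (`q² - q` pairs), for `x₂ = - x₁` the
polynomial is `- x₁²`: `x₁ = 0` and `x₀` arbitrary.  (Or: by `P3.crit` / `KG` lemmas on parallel edges.)  So `ns s t F = F.q ^ 2`: `Sp.pol`. -/
theorem theta (B : Set (FinField → ℤ)) {V E : Type} [Fintype V] [Fintype E] (s t : E → V) (hl : LL s t)
    (h3 : ∀ v, deg s t v = 3) (hV : Fintype.card V = 2) : Sp B (ns s t) := by
  classical
  obtain ⟨u, w, huw, huv⟩ := Finset.card_eq_two.1 (Finset.card_univ.trans hV)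
  have hall : ∀ v, v = u ∨ v = w := by
    intro v
    have h : v ∈ (Finset.univ : Finset V) := Finset.mem_univ v
    rw [huv] at h
    simpa using h
  have hE : Fintype.card E = 3 := by
    have h1 := h3 u
    unfold deg at h1
    have hdis : Disjoint {e | s e = u} {e | t e = u} := by
      rw [Set.disjoint_left]
      intro e he he'
      exact hl e ((show s e = u from he).trans (show t e = u from he').symm)
    have hun : {e | s e = u} ∪ {e | t e = u} = Set.univ := by
      ext e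
      simp only [Set.mem_union, Set.mem_ofPred_eq, Set.mem_univ, iff_true]
      by_contra hcon
      push Not at hcon
      have ha : s e = w := (hall _).resolve_left hcon.1
      have hb : t e = w := (hall _).resolve_left hcon.2
      exact hl e (ha.trans hb.symm)
    rw [← Set.ncard_union_eq hdis (Set.toFinite _) (Set.toFinite _), hun, Set.ncard_univ,
      Nat.card_eq_fintype_card] at h1
    exact h1
  let g : Fin 3 ≃ E := (Fintype.equivFinOfCardEq hE).symm
  have hT : ∀ T : Finset E, IsTree s t T ↔ T.card = 1 := by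
    intro T
    constructor
    · rintro ⟨h, -⟩
      omega
    · intro h
      refine ⟨by omega, ?_⟩
      obtain ⟨e, rfl⟩ := Finset.card_eq_one.1 h
      have hst : ∀ v v' : V, v ≠ v' → Relation.ReflTransGen
          (fun a b => ∃ e' ∈ ({e} : Finset E), (s e' = a ∧ t e' = b) ∨ (s e' = b ∧ t e' = a)) v v' := by
        intro v v' hv
        refine Relation.ReflTransGen.single ⟨e, Finset.mem_singleton_self e, ?_⟩
        have h5 := hl e
        rcases hall (s e) with ha | ha <;> rcases hall (t e) with hb | hb <;> rcases hall v with hc | hc <;>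
          rcases hall v' with hd | hd
        all_goals first
          | exact absurd (ha.trans hb.symm) h5
          | exact absurd (hc.trans hd.symm) hv
          | exact Or.inl ⟨ha.trans hc.symm, hb.trans hd.symm⟩
          | exact Or.inr ⟨ha.trans hd.symm, hb.trans hc.symm⟩
      intro v v'
      by_cases hv : v = v'
      · rw [hv]
      · exact hst v v' hv
  have hsym : ∀ (K : Type) [Field K] (x : E → K),
      sym s t x = x (g 1) * x (g 2) + x (g 0) * x (g 2) + x (g 0) * x (g 1) := by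
    intro K _ x
    have h1 : sym s t x = ∑ e : E, ∏ e' ∈ ({e} : Finset E)ᶜ, x e' := by
      unfold sym
      rw [← Finset.sum_filter]
      have h2 : (Finset.univ.filter fun T : Finset E => IsTree s t T) =
          (Finset.univ : Finset E).map ⟨fun e => ({e} : Finset E), Finset.singleton_injective⟩ := by
        ext T
        simp only [Finset.mem_filter, Finset.mem_univ, true_and, Finset.mem_map, Function.Embedding.coeFn_mk]
        rw [hT T, Finset.card_eq_one]
        exact ⟨fun ⟨a, ha⟩ => ⟨a, ha.symm⟩, fun ⟨a, ha⟩ => ⟨a, ha.symm⟩⟩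
      rw [h2, Finset.sum_map]
      rfl
    have h3 : ∀ i : Fin 3, (∏ e' ∈ ({g i} : Finset E)ᶜ, x e') = ∏ j ∈ ({i} : Finset (Fin 3))ᶜ, x (g j) := by
      intro i
      have h4 : (({g i} : Finset E)ᶜ) = (({i} : Finset (Fin 3))ᶜ).map g.toEmbedding := by
        ext e
        simp only [Finset.mem_compl, Finset.mem_singleton, Finset.mem_map, Equiv.coe_toEmbedding]
        constructor
        · intro h
          exact ⟨g.symm e, fun h5 => h (by rw [← h5, Equiv.apply_symm_apply]), Equiv.apply_symm_apply g e⟩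
        · rintro ⟨j, hj, rfl⟩ h5
          exact hj (g.injective h5)
      rw [h4, Finset.prod_map]
      rfl
    rw [h1, ← Equiv.sum_comp g, Fin.sum_univ_three, h3, h3, h3]
    have e0 : (({0} : Finset (Fin 3))ᶜ) = {1, 2} := by decide
    have e1 : (({1} : Finset (Fin 3))ᶜ) = {0, 2} := by decide
    have e2 : (({2} : Finset (Fin 3))ᶜ) = {0, 1} := by decide
    rw [e0, e1, e2, Finset.prod_pair (by decide), Finset.prod_pair (by decide), Finset.prod_pair (by decide)]
  refine Sp.congr (fun F => ?_) (Sp.pol (B := B) (Polynomial.X ^ 2))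
  rw [Polynomial.eval_pow, Polynomial.eval_X]
  unfold ns NS FinField.q
  have hc : Nat.card {x : E → F.K // sym s t x = 0} = Nat.card (F.K × F.K) := by
    refine (Nat.card_congr ?_).symm
    refine
      { toFun := fun p => ⟨fun e => (if p.1 + p.2 = 0 then ![p.1, 0, 0]
          else ![-(p.1 * p.2) / (p.1 + p.2), p.1, p.2]) (g.symm e), ?_⟩
        invFun := fun x => if x.1 (g 1) + x.1 (g 2) = 0 then (x.1 (g 0), -x.1 (g 0)) else (x.1 (g 1), x.1 (g 2))
        left_inv := ?_
        right_inv := ?_ }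
    · rw [hsym]
      simp only [Equiv.symm_apply_apply]
      by_cases h : p.1 + p.2 = 0
      · simp only [if_pos h]
        simp
      · simp only [if_neg h]
        simp only [Matrix.cons_val_zero, Matrix.cons_val_one, Matrix.cons_val]
        field_simp
        ring
    · rintro ⟨a, c⟩
      simp only [Equiv.symm_apply_apply]
      by_cases h : a + c = 0
      · simp only [if_pos h]
        have hc : c = -a := by linear_combination h
        simp [hc]
      · simp only [if_neg h]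
        simp only [Matrix.cons_val_zero, Matrix.cons_val_one, Matrix.cons_val]
        rw [if_neg h]
    · rintro ⟨x, hx⟩
      rw [hsym] at hx
      apply Subtype.ext
      funext e
      obtain ⟨i, rfl⟩ := g.surjective e
      simp only [Equiv.symm_apply_apply]
      by_cases h : x (g 1) + x (g 2) = 0
      · have h2 : x (g 2) = - x (g 1) := by linear_combination h
        rw [h2] at hx
        have h4 : x (g 1) * x (g 1) = 0 := by linear_combination -hx
        have h5 : x (g 1) = 0 := mul_self_eq_zero.1 h4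
        rw [h5, neg_zero] at h2
        simp only [if_pos h, add_neg_cancel, if_true]
        fin_cases i
        · rfl
        · exact h5.symm
        · exact h2.symm
      · simp only [if_neg h]
        fin_cases i
        · show -(x (g 1) * x (g 2)) / (x (g 1) + x (g 2)) = x (g 0)
          rw [div_eq_iff h]
          linear_combination -hx
        · rfl
        · rfl
  rw [hc, Nat.card_prod]
  push_cast
  ring

end Pool.Agent.Prm3
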