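import Pool.Agent.Prm3.Gr

/-!
# Uncrossing of cuts
-/

set_option autoImplicit false

open scoped BigOperators

namespace Pool.Agent.Prm3

open Pool.Agent.KG Pool.Agent.P3 Pool.Agent.PL3

variable {V E : Type}

/-- MODULE UNA.

Proof.  Edge by edge: the two ends of an edge are in two of the four parts `S ∩ U`, `S \ U`, `U \ S`, `(S ∪ U)ᶜ`.  Unfold `cs`,
`ee`, `Finset.sum_add_distrib`; for each edge the identity is a case distinction on `s e ∈ S`, `s e ∈ U`, `t e ∈ S`,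
`t e ∈ U` (`by_cases` and `simp`). -/
theorem four_parts [Fintype E] (s t : E → V) (S U : Set V) :
    cs s t (S ∩ U) = ee s t (S ∩ U) (S \ U) + ee s t (S ∩ U) (U \ S) + ee s t (S ∩ U) (S ∪ U)ᶜ ∧
    cs s t (S \ U) = ee s t (S ∩ U) (S \ U) + ee s t (S \ U) (U \ S) + ee s t (S \ U) (S ∪ U)ᶜ ∧
    cs s t (U \ S) = ee s t (S ∩ U) (U \ S) + ee s t (S \ U) (U \ S) + ee s t (U \ S) (S ∪ U)ᶜ ∧
    cs s t (S ∪ U)ᶜ = ee s t (S ∩ U) (S ∪ U)ᶜ + ee s t (S \ U) (S ∪ U)ᶜ + ee s t (U \ S) (S ∪ U)ᶜ ∧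
    cs s t S = ee s t (S ∩ U) (U \ S) + ee s t (S ∩ U) (S ∪ U)ᶜ + ee s t (S \ U) (U \ S) +
      ee s t (S \ U) (S ∪ U)ᶜ ∧
    cs s t U = ee s t (S ∩ U) (S \ U) + ee s t (S ∩ U) (S ∪ U)ᶜ + ee s t (S \ U) (U \ S) +
      ee s t (U \ S) (S ∪ U)ᶜ := by
  unfold cs ee
  refine ⟨?_, ?_, ?_, ?_, ?_, ?_⟩
  all_goals
    simp only [← Finset.sum_add_distrib]
    refine Finset.sum_congr rfl fun e _ => ?_
    by_cases h1 : s e ∈ S <;> by_cases h2 : s e ∈ U <;> by_cases h3 : t e ∈ S <;>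
      by_cases h4 : t e ∈ U <;>
      simp only [Set.mem_inter_iff, Set.mem_sdiff, Set.mem_compl_iff, Set.mem_union, h1, h2, h3, h4,
        and_true, and_false, or_true, or_false, not_true, not_false_iff, if_true, if_false,
        iff_true, iff_false]

private theorem UNB_side [Fintype V] [Fintype E] (s t : E → V) (hl : LL s t)
    (h3 : ∀ v, deg s t v = 3) (k : ℕ) (hc : Con s t k) (S : Set V) (hS : cs s t S = k)
    (h2 : 2 ≤ S.ncard) (e : E) (v1 v2 : V)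
    (he : (s e = v1 ∧ t e = v2) ∨ (s e = v2 ∧ t e = v1)) (h1 : v1 ∈ S) (hv2 : v2 ∉ S) :
    dv s t v1 Sᶜ = 1 := by
  have hins : insert v1 (S \ {v1}) = S := Set.insert_sdiff_self_of_mem h1
  have hX : v1 ∉ S \ {v1} := fun h => h.2 rfl
  have hXne : (S \ {v1}).Nonempty := by
    rw [Set.nonempty_iff_ne_empty]
    intro h0
    rw [h0] at hins
    rw [← hins] at h2
    simp at h2
  have hXu : S \ {v1} ≠ Set.univ := fun h => hX (h ▸ Set.mem_univ v1)
  have hk := hc _ hXne hXu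
  have hci := cs_insert s t hl v1 (S \ {v1}) hX
  rw [hins, hS, h3] at hci
  have hdj : Disjoint (S \ {v1}) Sᶜ := Set.disjoint_left.2 fun x hx hx' => hx' hx.1
  have hu := dv_union s t v1 (S \ {v1}) Sᶜ hdj
  have hcp := dv_compl s t v1 ((S \ {v1}) ∪ Sᶜ)
  rw [h3] at hcp
  have hpos := dv_pos s t e v1 v2 Sᶜ he hv2
  omega

/-- MODULE UNB.  The edge `e` of a nontrivial cut `S` with `k` edges is the only one of its edges at `v₁` and at `v₂`.

Proof.  `S = insert v₁ (S \ {v₁})` and `X = S \ {v₁}` is nonempty (`2 ≤ S.ncard`) and not the whole set (`v₁ ∉ X`), so `k ≤ cs X`.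
`cs_insert`: `k + 2 dv v₁ X = cs X + 3 ≥ k + 3`, so `dv v₁ X ≥ 2`; `dv v₁ X + dv v₁ Sᶜ ≤ 3` (`dv_union`, `dv_compl`), and
`1 ≤ dv v₁ Sᶜ` (`dv_pos`).  The second statement is the first one for `Sᶜ` (`cs_compl`). -/
theorem only_edge [Fintype V] [Fintype E] (s t : E → V) (hl : LL s t) (h3 : ∀ v, deg s t v = 3) (k : ℕ)
    (hc : Con s t k) (S : Set V) (hS : cs s t S = k) (h2 : 2 ≤ S.ncard) (h2' : 2 ≤ Sᶜ.ncard) (e : E) (v1 v2 : V)
    (he : (s e = v1 ∧ t e = v2) ∨ (s e = v2 ∧ t e = v1)) (h1 : v1 ∈ S) (hv2 : v2 ∉ S) :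
    dv s t v1 Sᶜ = 1 ∧ dv s t v2 S = 1 := by
  refine ⟨UNB_side s t hl h3 k hc S hS h2 e v1 v2 he h1 hv2, ?_⟩
  have h := UNB_side s t hl h3 k hc Sᶜ (by rw [cs_compl]; exact hS) h2' e v2 v1 he.symm hv2
    (fun h' => h' h1)
  rwa [compl_compl] at h

/-- MODULE UNC.  A set `U` with exactly two of the four ports is not in a minimal cut.

Proof.  Assume `cs U ≤ k`, so `cs U = k` (`hc`; `U ≠ univ`).  `(dv v₁ U, dv v₂ U)` is `(2, 0)`, `(0, 2)` or `(1, 1)`.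
`(2, 0)`: `cs_insert` for `v₁`, `U`: `cs (insert v₁ U) + 4 = k + 3`, but `insert v₁ U` is not the whole set (`v₂`), contradiction
to `hc`.  `(0, 2)`: the same with `v₂`.
`(1, 1)`: `S ∩ U` is nonempty: otherwise `U ⊆ Sᶜ` and `dv v₁ Sᶜ ≥ dv v₁ U + dv v₁ {v₂} ≥ 2` (`dv_union`, `dv_pos`), contradiction to
`only_edge`.  In the same way `U \ S` is nonempty (`dv v₂ S`).  `v₁ ∈ S \ U`, `v₂ ∈ (S ∪ U)ᶜ`.  So the four parts have cuts
`≥ k`, and `four_parts` gives (`omega`): `ee (S ∩ U) (S ∪ U)ᶜ = 0`, `ee (S \ U) (U \ S) = 0`, and `k = 2 ee (S ∩ U) (U \ S)`.  As `1 ≤ k ≤ 3`,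
`k = 2` and the other four numbers are `1`.  Let `B = S \ U`.  `dv v₁ (U \ S) ≤ ee B (U \ S) = 0` (`dv_le_ee`), so `dv v₁ (S ∩ U) = 1`
(`dv_union`); `dv v₁ (S ∪ U)ᶜ ≥ 1` (`e`) and `≤ ee B (S ∪ U)ᶜ = 1`.  By `dv_compl` and `dv_union` (four parts) `dv v₁ B = 1`.  Let
`X = B \ {v₁}`; `dv v₁ X = 1` (no loops), so `X` is nonempty, `cs_insert`: `cs B + 2 = cs X + 3`, `cs X = 1 < 2`, contradiction. -/
theorem two_ports [Fintype V] [Fintype E] (s t : E → V) (hl : LL s t) (h3 : ∀ v, deg s t v = 3) (k : ℕ)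
    (hk : 1 ≤ k) (hk3 : k ≤ 3)
    (hc : Con s t k) (S : Set V) (hS : cs s t S = k) (h2 : 2 ≤ S.ncard) (h2' : 2 ≤ Sᶜ.ncard) (e : E) (v1 v2 : V)
    (he : (s e = v1 ∧ t e = v2) ∨ (s e = v2 ∧ t e = v1)) (h1 : v1 ∈ S) (hv2 : v2 ∉ S) (U : Set V)
    (hU : U.Nonempty) (hU1 : v1 ∉ U) (hU2 : v2 ∉ U) (hp : dv s t v1 U + dv s t v2 U = 2) :
    k + 1 ≤ cs s t U := by
  by_contra hlt
  have hUu : U ≠ Set.univ := fun h => hU1 (h ▸ Set.mem_univ v1)
  have hkU := hc U hU hUu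
  have hUk : cs s t U = k := by omega
  have hne12 : v1 ≠ v2 := fun h => hv2 (h ▸ h1)
  have hi1 := cs_insert s t hl v1 U hU1
  have hi2 := cs_insert s t hl v2 U hU2
  rw [h3] at hi1 hi2
  have hn1 : k ≤ cs s t (insert v1 U) := hc _ ⟨v1, Set.mem_insert _ _⟩ (fun h => by
    have := h ▸ Set.mem_univ v2
    rcases Set.mem_insert_iff.1 this with h' | h'
    · exact hne12 h'.symm
    · exact hU2 h')
  have hn2 : k ≤ cs s t (insert v2 U) := hc _ ⟨v2, Set.mem_insert _ _⟩ (fun h => by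
    have := h ▸ Set.mem_univ v1
    rcases Set.mem_insert_iff.1 this with h' | h'
    · exact hne12 h'
    · exact hU1 h')
  have hd1 : dv s t v1 U = 1 := by omega
  have hd2 : dv s t v2 U = 1 := by omega
  obtain ⟨ho1, ho2⟩ := only_edge s t hl h3 k hc S hS h2 h2' e v1 v2 he h1 hv2
  -- the four parts are nonempty
  have hIU : (S ∩ U).Nonempty := by
    by_contra h0
    rw [Set.not_nonempty_iff_eq_empty] at h0
    have hdj : Disjoint U ({v2} : Set V) :=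
      Set.disjoint_singleton_right.2 hU2
    have hle : dv s t v1 (U ∪ {v2}) ≤ dv s t v1 Sᶜ := by
      have hsub : Sᶜ = (U ∪ {v2}) ∪ (Sᶜ \ (U ∪ {v2})) := by
        rw [Set.union_sdiff_cancel]
        intro x hx
        rcases hx with hx | hx
        · intro hxS
          have : x ∈ S ∩ U := ⟨hxS, hx⟩
          rw [h0] at this
          exact this
        · rw [Set.mem_singleton_iff] at hx
          rw [hx]
          exact hv2
      rw [hsub, dv_union s t v1 _ _ Set.disjoint_sdiff_right]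
      omega
    rw [dv_union s t v1 U {v2} hdj] at hle
    have hpos := dv_pos s t e v1 v2 {v2} he rfl
    omega
  have hUS : (U \ S).Nonempty := by
    by_contra h0
    rw [Set.not_nonempty_iff_eq_empty] at h0
    have hdj : Disjoint U ({v1} : Set V) :=
      Set.disjoint_singleton_right.2 hU1
    have hle : dv s t v2 (U ∪ {v1}) ≤ dv s t v2 S := by
      have hsub : S = (U ∪ {v1}) ∪ (S \ (U ∪ {v1})) := by
        rw [Set.union_sdiff_cancel]
        intro x hx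
        rcases hx with hx | hx
        · by_contra hxS
          have : x ∈ U \ S := ⟨hx, hxS⟩
          rw [h0] at this
          exact this
        · rw [Set.mem_singleton_iff] at hx
          rw [hx]
          exact h1
      have h9 : dv s t v2 S = dv s t v2 ((U ∪ {v1}) ∪ (S \ (U ∪ {v1}))) := by rw [← hsub]
      rw [h9, dv_union s t v2 _ _ Set.disjoint_sdiff_right]
      omega
    rw [dv_union s t v2 U {v1} hdj] at hle
    have hpos := dv_pos s t e v2 v1 {v1} he.symm rfl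
    omega
  have hv1B : v1 ∈ S \ U := ⟨h1, hU1⟩
  have hv2C : v2 ∈ (S ∪ U)ᶜ := fun h => h.elim hv2 hU2
  obtain ⟨f1, f2, f3, f4, f5, f6⟩ := four_parts s t S U
  have g1 := hc (S ∩ U) hIU (fun h => hU1 ((h ▸ Set.mem_univ v1 : v1 ∈ S ∩ U).2))
  have g2 := hc (S \ U) ⟨v1, hv1B⟩ (fun h => hv2 ((h ▸ Set.mem_univ v2 : v2 ∈ S \ U).1))
  have g3 := hc (U \ S) hUS (fun h => hU1 ((h ▸ Set.mem_univ v1 : v1 ∈ U \ S).1))
  have g4 := hc (S ∪ U)ᶜ ⟨v2, hv2C⟩ (fun h =>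
    (h ▸ Set.mem_univ v1 : v1 ∈ (S ∪ U)ᶜ) (Or.inl h1))
  rw [hS] at f5
  rw [hUk] at f6
  have hk2 : k = 2 ∧ ee s t (S \ U) (U \ S) = 0 ∧ ee s t (S \ U) (S ∪ U)ᶜ = 1 ∧
      ee s t (S ∩ U) (S \ U) = 1 := by omega
  obtain ⟨hk2, he0, he1, he2⟩ := hk2
  have hdB : dv s t v1 (U \ S) = 0 := by
    have := dv_le_ee s t v1 (S \ U) (U \ S) hv1B
    omega
  have hdI : dv s t v1 (S ∩ U) = 1 := by
    have hUu : U = (S ∩ U) ∪ (U \ S) := by
      ext x
      simp only [Set.mem_union, Set.mem_inter_iff, Set.mem_sdiff]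
      tauto
    have hdj : Disjoint (S ∩ U) (U \ S) := Set.disjoint_left.2 fun x hx hx' => hx'.2 hx.1
    have h9 : dv s t v1 U = dv s t v1 ((S ∩ U) ∪ (U \ S)) := by rw [← hUu]
    rw [dv_union s t v1 _ _ hdj] at h9
    omega
  have hdC : dv s t v1 (S ∪ U)ᶜ = 1 := by
    have ha := dv_pos s t e v1 v2 (S ∪ U)ᶜ he hv2C
    have hb := dv_le_ee s t v1 (S \ U) (S ∪ U)ᶜ hv1B
    omega
  have hdBB : dv s t v1 (S \ U) = 1 := by
    have ha := dv_compl s t v1 (S ∪ U)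
    rw [h3] at ha
    have hSU : S ∪ U = (S \ U) ∪ U := Set.sdiff_union_self.symm
    have hdj : Disjoint (S \ U) U := Set.disjoint_left.2 fun x hx hx' => hx.2 hx'
    have h9 : dv s t v1 (S ∪ U) = dv s t v1 ((S \ U) ∪ U) := by rw [← hSU]
    rw [dv_union s t v1 _ _ hdj] at h9
    omega
  -- take out v1
  have hins : insert v1 ((S \ U) \ {v1}) = S \ U := Set.insert_sdiff_self_of_mem hv1B
  have hX : v1 ∉ (S \ U) \ {v1} := fun h => h.2 rfl
  have hci := cs_insert s t hl v1 ((S \ U) \ {v1}) hX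
  rw [hins, h3] at hci
  have hvv : dv s t v1 ({v1} : Set V) = 0 := by
    classical
    unfold dv
    refine Finset.sum_eq_zero fun x _ => ?_
    have hx := hl x
    have h7 : ¬ (s x = v1 ∧ t x ∈ ({v1} : Set V)) := fun h => hx (h.1.trans h.2.symm)
    have h8 : ¬ (t x = v1 ∧ s x ∈ ({v1} : Set V)) := fun h => hx (h.2.trans h.1.symm)
    rw [if_neg h7, if_neg h8, add_zero]
  have hdX : dv s t v1 ((S \ U) \ {v1}) = 1 := by
    have h9 : dv s t v1 (S \ U) = dv s t v1 (((S \ U) \ {v1}) ∪ {v1}) := by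
      rw [Set.sdiff_union_of_subset (Set.singleton_subset_iff.2 hv1B)]
    rw [dv_union s t v1 _ _ Set.disjoint_sdiff_left, hvv] at h9
    omega
  have hXne : ((S \ U) \ {v1}).Nonempty := by
    by_contra h0
    rw [Set.not_nonempty_iff_eq_empty] at h0
    rw [h0] at hdX
    have : dv s t v1 (∅ : Set V) = 0 := by
      classical
      unfold dv
      refine Finset.sum_eq_zero fun x _ => ?_
      have h7 : ¬ (s x = v1 ∧ t x ∈ (∅ : Set V)) := fun h => h.2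
      have h8 : ¬ (t x = v1 ∧ s x ∈ (∅ : Set V)) := fun h => h.2
      rw [if_neg h7, if_neg h8, add_zero]
    omega
  have hXu : (S \ U) \ {v1} ≠ Set.univ := fun h => hX (h ▸ Set.mem_univ v1)
  have g5 := hc _ hXne hXu
  omega

end Pool.Agent.Prm3
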